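import Mathlib
import Pool.Agent.AIC.NipPlus83

/-!
# A domain that is finite over an NIP domain is NIP
-/

set_option autoImplicit false
set_option linter.style.haveILetI false

namespace Pool.Agent.AIC.M

open Pool.Agent.AIC FirstOrder FirstOrder.Ring

/-- a domain which is a finite faithful extension of a domain embeds linearly in a finite free
module. -/
theorem exists_linear_embedding3 (A B : Type) [CommRing A] [IsDomain A] [CommRing B] [IsDomain B]
    [Algebra A B] [FaithfulSMul A B] [Module.Finite A B] :
    ∃ (N : Type) (_ : Finite N) (l : B →ₗ[A] (N → A)), Function.Injective l := by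
  haveI : FaithfulSMul A (FractionRing B) := by
    rw [faithfulSMul_iff_algebraMap_injective, IsScalarTower.algebraMap_eq A B (FractionRing B)]
    exact (IsFractionRing.injective B (FractionRing B)).comp
      (FaithfulSMul.algebraMap_injective A B)
  letI : Algebra (FractionRing A) (FractionRing B) := FractionRing.liftAlgebra A (FractionRing B)
  haveI : IsScalarTower A (FractionRing A) (FractionRing B) :=
    FractionRing.isScalarTower_liftAlgebra A (FractionRing B)
  let φ : B →ₐ[A] FractionRing B := IsScalarTower.toAlgHom A B (FractionRing B)
  have hφ : Function.Injective φ := IsFractionRing.injective B (FractionRing B)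
  let e : B ≃ₐ[A] φ.range := AlgEquiv.ofInjective φ hφ
  haveI : Module.Finite A φ.range := Module.Finite.equiv e.toLinearEquiv
  obtain ⟨N, hN, l, hl⟩ := exists_linear_embedding (K := FractionRing A) φ.range
  exact ⟨N, hN, l.comp e.toLinearMap, hl.comp e.injective⟩

/-- a domain which is a finite faithful extension of an NIP domain is NIP. -/
theorem nip_of_finite3 {A B : Type} [CommRing A] [IsDomain A] [CompatibleRing A] [CommRing B]
    [IsDomain B] [CompatibleRing B] [Algebra A B] [FaithfulSMul A B] [Module.Finite A B]
    (hN : NIPRing A) : NIPRing B := by
  obtain ⟨N, hfin, l, hl⟩ := exists_linear_embedding3 A B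
  exact nip_of_linear l hl hN

end Pool.Agent.AIC.M
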