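import Mathlib

/-! MP_313bb4, theorem M: definitions. Finitely additive means, affine invariance, walks. -/

set_option autoImplicit false
set_option linter.unusedSectionVars false

namespace Pool.Agent.AIC.M

/-- bounded real functions -/
def Bdd {X : Type} (f : X → ℝ) : Prop := ∃ B : ℝ, ∀ x, |f x| ≤ B

/-- a finitely additive mean on the bounded real functions on `X` -/
structure Mean (X : Type) where
  E : (X → ℝ) → ℝ
  add' : ∀ f g, Bdd f → Bdd g → E (fun x => f x + g x) = E f + E g
  smul' : ∀ (a : ℝ) f, Bdd f → E (fun x => a * f x) = a * E f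
  nonneg' : ∀ f, Bdd f → (∀ x, 0 ≤ f x) → 0 ≤ E f
  one' : E (fun _ => 1) = 1

open Classical in
/-- the indicator function -/
noncomputable def ind {X : Type} (p : X → Prop) : X → ℝ := fun x => if p x then 1 else 0

/-- probability of an event -/
noncomputable def Mean.P {X : Type} (M : Mean X) (p : X → Prop) : ℝ := M.E (ind p)

/-- the mean is concentrated on `I` and invariant under `s ↦ u s + b`, `u` a unit, `b ∈ I` -/
structure AffInv {R : Type} [CommRing R] (M : Mean R) (I : Ideal R) : Prop where
  supp : ∀ f g, Bdd f → Bdd g → (∀ s ∈ I, f s = g s) → M.E f = M.E g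
  inv : ∀ (u b : R), IsUnit u → b ∈ I → ∀ f, Bdd f → M.E (fun s => f (u * s + b)) = M.E f

/-- all positions of the walk `l` seen from `x` are units -/
def Good {R : Type} [CommRing R] : List R → R → Prop
  | [], x => IsUnit x
  | μ :: l, x => IsUnit x ∧ Good l (x + μ)

/-- at some step the cross ratio of `x, x'` is `y` -/
def Sep {R : Type} [CommRing R] (y : R) : List R → R → R → Prop
  | [], _, _ => False
  | μ :: l, x, x' => (x + μ) * x' = y * (x * (x' + μ)) ∨ Sep y l (x + μ) (x' + μ)

/-- the data of the core theorem: `χ` is multiplicative on units, has finitely many values on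
`1 + J`, all killed by `q`; membership `χ = 1` on `1 + J` is given by `rel`, and the family
`v + w t ∈ rel` is NIP. -/
structure Data (R Q : Type) [CommRing R] [CommGroup Q] (q : ℕ) where
  J : Ideal R
  hJ : ∀ j ∈ J, IsUnit (1 + j)
  χ : R → Q
  hχ : ∀ x y, IsUnit x → IsUnit y → χ (x * y) = χ x * χ y
  hfin : (χ '' {u | u - 1 ∈ J}).Finite
  hq : ∀ j ∈ J, χ (1 + j) ^ q = 1
  rel : R → Prop
  hrel : ∀ j ∈ J, (rel (1 + j) ↔ χ (1 + j) = 1)
  hnip : ∃ d : ℕ, ¬ ∃ (t : Fin d → R) (p : Finset (Fin d) → R × R),
    ∀ i L, (rel ((p L).1 + (p L).2 * t i) ↔ i ∈ L)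

end Pool.Agent.AIC.M
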