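import Mathlib
import Pool.Agent.AIC.M.Defs34

/-! MP_313bb4, theorem M: basic facts on means. -/

set_option autoImplicit false
set_option linter.unusedSectionVars false

namespace Pool.Agent.AIC.M

section Bdd

variable {X Y : Type}

theorem Bdd.const (a : ℝ) : Bdd (fun _ : X => a) := ⟨|a|, fun _ => le_refl _⟩

theorem Bdd.add {f g : X → ℝ} (hf : Bdd f) (hg : Bdd g) : Bdd (fun x => f x + g x) := by
  obtain ⟨B, hB⟩ := hf
  obtain ⟨C, hC⟩ := hg
  exact ⟨B + C, fun x => (abs_add_le _ _).trans (add_le_add (hB x) (hC x))⟩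

theorem Bdd.mul {f g : X → ℝ} (hf : Bdd f) (hg : Bdd g) : Bdd (fun x => f x * g x) := by
  obtain ⟨B, hB⟩ := hf
  obtain ⟨C, hC⟩ := hg
  refine ⟨B * C, fun x => ?_⟩
  rw [abs_mul]
  exact mul_le_mul (hB x) (hC x) (abs_nonneg _) ((abs_nonneg _).trans (hB x))

theorem Bdd.smul (a : ℝ) {f : X → ℝ} (hf : Bdd f) : Bdd (fun x => a * f x) := (Bdd.const a).mul hf

theorem Bdd.neg {f : X → ℝ} (hf : Bdd f) : Bdd (fun x => - f x) := by
  obtain ⟨B, hB⟩ := hf
  exact ⟨B, fun x => by rw [abs_neg]; exact hB x⟩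

theorem Bdd.sub {f g : X → ℝ} (hf : Bdd f) (hg : Bdd g) : Bdd (fun x => f x - g x) := by
  have := hf.add hg.neg
  simpa [sub_eq_add_neg] using this

theorem Bdd.sum {ι : Type} (s : Finset ι) {f : ι → X → ℝ} (hf : ∀ i ∈ s, Bdd (f i)) :
    Bdd (fun x => ∑ i ∈ s, f i x) := by
  classical
  induction s using Finset.induction_on with
  | empty => simpa using Bdd.const (X := X) 0
  | insert a s ha ih =>
    simp only [Finset.sum_insert ha]
    exact (hf a (Finset.mem_insert_self _ _)).add (ih fun i hi => hf i (Finset.mem_insert_of_mem hi))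

theorem Bdd.comp {f : Y → ℝ} (hf : Bdd f) (g : X → Y) : Bdd (fun x => f (g x)) := by
  obtain ⟨B, hB⟩ := hf
  exact ⟨B, fun x => hB (g x)⟩

theorem Bdd.of_nonneg_le {f : X → ℝ} (B : ℝ) (h0 : ∀ x, 0 ≤ f x) (h1 : ∀ x, f x ≤ B) : Bdd f :=
  ⟨B, fun x => by rw [abs_of_nonneg (h0 x)]; exact h1 x⟩

theorem ind_nonneg (p : X → Prop) (x : X) : 0 ≤ ind p x := by
  unfold ind
  split_ifs <;> norm_num

theorem ind_le_one (p : X → Prop) (x : X) : ind p x ≤ 1 := by
  unfold ind
  split_ifs <;> norm_num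

theorem bdd_ind (p : X → Prop) : Bdd (ind p) := Bdd.of_nonneg_le 1 (ind_nonneg p) (ind_le_one p)

theorem ind_of_pos {p : X → Prop} {x : X} (h : p x) : ind p x = 1 := by
  unfold ind
  rw [if_pos h]

theorem ind_of_neg {p : X → Prop} {x : X} (h : ¬ p x) : ind p x = 0 := by
  unfold ind
  rw [if_neg h]

theorem ind_comp (p : Y → Prop) (g : X → Y) : (fun x => ind p (g x)) = ind (fun x => p (g x)) := rfl

end Bdd

namespace Mean

variable {X Y : Type} (M : Mean X)

theorem E_add {f g : X → ℝ} (hf : Bdd f) (hg : Bdd g) : M.E (fun x => f x + g x) = M.E f + M.E g :=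
  M.add' f g hf hg

theorem E_smul (a : ℝ) {f : X → ℝ} (hf : Bdd f) : M.E (fun x => a * f x) = a * M.E f :=
  M.smul' a f hf

theorem E_const (a : ℝ) : M.E (fun _ => a) = a := by
  have h := M.smul' a (fun _ => 1) (Bdd.const 1)
  rw [M.one'] at h
  simpa using h

theorem E_neg {f : X → ℝ} (hf : Bdd f) : M.E (fun x => - f x) = - M.E f := by
  have h := M.smul' (-1) f hf
  simpa using h

theorem E_sub {f g : X → ℝ} (hf : Bdd f) (hg : Bdd g) : M.E (fun x => f x - g x) = M.E f - M.E g := by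
  have h := M.add' f (fun x => - g x) hf hg.neg
  rw [M.E_neg hg] at h
  simpa [sub_eq_add_neg] using h

theorem E_nonneg {f : X → ℝ} (hf : Bdd f) (h : ∀ x, 0 ≤ f x) : 0 ≤ M.E f := M.nonneg' f hf h

theorem E_mono {f g : X → ℝ} (hf : Bdd f) (hg : Bdd g) (h : ∀ x, f x ≤ g x) : M.E f ≤ M.E g := by
  have h1 := M.nonneg' (fun x => g x - f x) (hg.sub hf) (fun x => sub_nonneg.mpr (h x))
  rw [M.E_sub hg hf] at h1
  linarith

theorem E_le {f : X → ℝ} (hf : Bdd f) (B : ℝ) (h : ∀ x, f x ≤ B) : M.E f ≤ B := by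
  have := M.E_mono hf (Bdd.const B) h
  rwa [M.E_const] at this

theorem le_E {f : X → ℝ} (hf : Bdd f) (B : ℝ) (h : ∀ x, B ≤ f x) : B ≤ M.E f := by
  have := M.E_mono (Bdd.const B) hf h
  rwa [M.E_const] at this

theorem E_sum {ι : Type} (s : Finset ι) {f : ι → X → ℝ} (hf : ∀ i ∈ s, Bdd (f i)) :
    M.E (fun x => ∑ i ∈ s, f i x) = ∑ i ∈ s, M.E (f i) := by
  classical
  induction s using Finset.induction_on with
  | empty => simpa using M.E_const 0
  | insert a s ha ih =>
    simp only [Finset.sum_insert ha]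
    rw [M.E_add (hf a (Finset.mem_insert_self _ _))
      (Bdd.sum s fun i hi => hf i (Finset.mem_insert_of_mem hi)),
      ih fun i hi => hf i (Finset.mem_insert_of_mem hi)]

/-- a point where a bounded function with finitely many... is at least its mean, for functions with
values in a finite set -/
theorem exists_ge {f : X → ℝ} (hf : Bdd f) (hfin : (Set.range f).Finite) (B : ℝ) (h : B ≤ M.E f)
    [Nonempty X] : ∃ x, B ≤ f x := by
  by_contra hne
  push Not at hne
  obtain ⟨x0⟩ : Nonempty X := inferInstance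
  obtain ⟨y, hy, hmax⟩ := Set.exists_max_image (Set.range f) id hfin ⟨f x0, x0, rfl⟩
  obtain ⟨x1, rfl⟩ := hy
  have h1 : M.E f ≤ f x1 := M.E_le hf _ fun x => hmax (f x) ⟨x, rfl⟩
  exact absurd (h.trans h1) (not_le.mpr (hne x1))

theorem P_nonneg (p : X → Prop) : 0 ≤ M.P p := M.nonneg' _ (bdd_ind p) (ind_nonneg p)

theorem P_le_one (p : X → Prop) : M.P p ≤ 1 := M.E_le (bdd_ind p) 1 (ind_le_one p)

theorem P_mono {p r : X → Prop} (h : ∀ x, p x → r x) : M.P p ≤ M.P r := by
  refine M.E_mono (bdd_ind p) (bdd_ind r) fun x => ?_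
  by_cases hp : p x
  · rw [ind_of_pos hp, ind_of_pos (h x hp)]
  · rw [ind_of_neg hp]
    exact ind_nonneg r x

theorem P_congr {p r : X → Prop} (h : ∀ x, p x ↔ r x) : M.P p = M.P r :=
  le_antisymm (M.P_mono fun x => (h x).1) (M.P_mono fun x => (h x).2)

theorem P_or_le (p r : X → Prop) : M.P (fun x => p x ∨ r x) ≤ M.P p + M.P r := by
  unfold P
  rw [← M.E_add (bdd_ind p) (bdd_ind r)]
  refine M.E_mono (bdd_ind _) ((bdd_ind p).add (bdd_ind r)) fun x => ?_
  by_cases hp : p x
  · rw [ind_of_pos (p := fun x => p x ∨ r x) (Or.inl hp), ind_of_pos hp]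
    linarith [ind_nonneg r x]
  · by_cases hr : r x
    · rw [ind_of_pos (p := fun x => p x ∨ r x) (Or.inr hr), ind_of_pos hr]
      linarith [ind_nonneg p x]
    · rw [ind_of_neg (p := fun x => p x ∨ r x) (by tauto)]
      linarith [ind_nonneg r x, ind_nonneg p x]

theorem P_not (p : X → Prop) : M.P (fun x => ¬ p x) = 1 - M.P p := by
  unfold P
  rw [← M.one', ← M.E_sub (Bdd.const 1) (bdd_ind p)]
  congr 1
  funext x
  by_cases hp : p x
  · rw [ind_of_pos hp, ind_of_neg (p := fun x => ¬ p x) (not_not.mpr hp)]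
    norm_num
  · rw [ind_of_neg hp, ind_of_pos (p := fun x => ¬ p x) hp]
    norm_num

theorem P_true {p : X → Prop} (h : ∀ x, p x) : M.P p = 1 := by
  unfold P
  rw [← M.one']
  congr 1
  funext x
  exact ind_of_pos (h x)

theorem P_false {p : X → Prop} (h : ∀ x, ¬ p x) : M.P p = 0 := by
  unfold P
  rw [← M.E_const 0]
  congr 1
  funext x
  exact ind_of_neg (h x)

/-- monotonicity up to a null event -/
theorem P_le_add {p r e : X → Prop} (h : ∀ x, p x → r x ∨ e x) : M.P p ≤ M.P r + M.P e :=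
  (M.P_mono h).trans (M.P_or_le r e)

theorem P_exists_le {ι : Type} (s : Finset ι) (p : ι → X → Prop) :
    M.P (fun x => ∃ i ∈ s, p i x) ≤ ∑ i ∈ s, M.P (p i) := by
  classical
  induction s using Finset.induction_on with
  | empty => simp [M.P_false (p := fun _ => False) (fun _ h => h)]
  | insert a s ha ih =>
    rw [Finset.sum_insert ha]
    refine le_trans (M.P_le_add (r := p a) (e := fun x => ∃ i ∈ s, p i x) fun x => ?_)
      (add_le_add le_rfl ih)
    rintro ⟨i, hi, hx⟩
    rcases Finset.mem_insert.1 hi with rfl | hi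
    · exact Or.inl hx
    · exact Or.inr ⟨i, hi, hx⟩

/-- push forward -/
def map (M : Mean X) (g : X → Y) : Mean Y where
  E := fun f => M.E (fun x => f (g x))
  add' := fun _ _ hf hh => M.add' _ _ (hf.comp g) (hh.comp g)
  smul' := fun a _ hf => M.smul' a _ (hf.comp g)
  nonneg' := fun _ hf h => M.nonneg' _ (hf.comp g) fun x => h (g x)
  one' := M.one'

theorem map_E (g : X → Y) (f : Y → ℝ) : (M.map g).E f = M.E (fun x => f (g x)) := rfl

theorem map_P (g : X → Y) (p : Y → Prop) : (M.map g).P p = M.P (fun x => p (g x)) := rfl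

/-- the mean of a family of means of a bounded function is bounded -/
theorem bdd_E (N : X → Mean Y) {f : Y → ℝ} (hf : Bdd f) : Bdd (fun x => (N x).E f) := by
  obtain ⟨B, hB⟩ := hf
  refine ⟨B, fun x => abs_le.2 ⟨?_, ?_⟩⟩
  · exact (N x).le_E ⟨B, hB⟩ _ fun y => (abs_le.1 (hB y)).1
  · exact (N x).E_le ⟨B, hB⟩ _ fun y => (abs_le.1 (hB y)).2

/-- iterated mean -/
def bind (M : Mean X) (N : X → Mean Y) : Mean Y where
  E := fun f => M.E (fun x => (N x).E f)
  add' := fun f h hf hh => by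
    rw [← M.add' _ _ (bdd_E N hf) (bdd_E N hh)]
    congr 1
    funext x
    exact (N x).add' f h hf hh
  smul' := fun a f hf => by
    rw [← M.smul' a _ (bdd_E N hf)]
    congr 1
    funext x
    exact (N x).smul' a f hf
  nonneg' := fun f hf h => M.nonneg' _ (bdd_E N hf) fun x => (N x).nonneg' f hf h
  one' := by
    have : (fun x => (N x).E (fun _ => 1)) = fun _ => (1 : ℝ) := by
      funext x
      exact (N x).one'
    rw [this]
    exact M.one'

theorem bind_E (N : X → Mean Y) (f : Y → ℝ) : (M.bind N).E f = M.E (fun x => (N x).E f) := rfl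

theorem bind_P (N : X → Mean Y) (p : Y → Prop) : (M.bind N).P p = M.E (fun x => (N x).P p) := rfl

/-- the point mass -/
def dirac (x : X) : Mean X where
  E := fun f => f x
  add' := fun _ _ _ _ => rfl
  smul' := fun _ _ _ => rfl
  nonneg' := fun _ _ h => h x
  one' := rfl

theorem dirac_E (x : X) (f : X → ℝ) : (dirac x).E f = f x := rfl

end Mean

end Pool.Agent.AIC.M
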