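import Pool.Agent.AIC.M.TheoremM34
import Pool.Agent.AIC.HType94

/-! MP_313bb4, power classes: the converse. In a domain which is module-finite over a quotient of a
henselian local ring all elements of `1 + J` are `q`-th powers, `q` a unit. -/

set_option autoImplicit false

namespace Pool.Agent.AIC.M

open Finset Polynomial IsLocalRing

/-- an integral domain extension (of a quotient) of a henselian local ring is henselian -/
theorem hens_integral34 {R B : Type} [CommRing R] [HenselianLocalRing R] [CommRing B] [IsDomain B]
    [Algebra R B] [Algebra.IsIntegral R B] : HenselianLocalRing B := by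
  have htow : IsScalarTower R B (AlgebraicClosure (FractionRing B)) := inferInstance
  have h0 : IsLocalRing (integralClosure R (AlgebraicClosure (FractionRing B))) :=
    closure_local94
  let e : integralClosure R (AlgebraicClosure (FractionRing B)) ≃+*
      integralClosure B (AlgebraicClosure (FractionRing B)) :=
    { toFun := fun x => ⟨(x : AlgebraicClosure (FractionRing B)), by
        have hx : IsIntegral R (x : AlgebraicClosure (FractionRing B)) := x.2
        exact hx.tower_top⟩
      invFun := fun x => ⟨(x : AlgebraicClosure (FractionRing B)), by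
        have hx : IsIntegral B (x : AlgebraicClosure (FractionRing B)) := x.2
        exact isIntegral_trans (R := R) (A := B) _ hx⟩
      left_inv := fun _ => rfl
      right_inv := fun _ => rfl
      map_mul' := fun _ _ => rfl
      map_add' := fun _ _ => rfl }
  have h1 : IsLocalRing (integralClosure B (AlgebraicClosure (FractionRing B))) :=
    e.isLocalRing
  have hinj : Function.Injective (algebraMap B (AlgebraicClosure (FractionRing B))) := by
    rw [IsScalarTower.algebraMap_eq B (FractionRing B) (AlgebraicClosure (FractionRing B))]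
    exact (algebraMap (FractionRing B) _).injective.comp
      (IsFractionRing.injective B (FractionRing B))
  have hfs : FaithfulSMul B (AlgebraicClosure (FractionRing B)) :=
    (faithfulSMul_iff_algebraMap_injective _ _).2 hinj
  have hB : IsLocalRing B := isLocalRing_of_closure34 hinj h1
  exact henselian_of_unibranch34 (K := AlgebraicClosure (FractionRing B)) h1

/-- in a henselian local ring the elements of `1 + J` are `q`-th powers, `q` a unit -/
theorem root_one34 {B : Type} [CommRing B] [HenselianLocalRing B] {q : ℕ} (hq : q ≠ 0)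
    (hqu : IsUnit (q : B)) (u : B) (hu : u - 1 ∈ maximalIdeal B) :
    ∃ y : B, y - 1 ∈ maximalIdeal B ∧ u = y ^ q := by
  obtain ⟨y, hy, hy1⟩ := HenselianLocalRing.is_henselian (X ^ q - C u : B[X])
    (monic_X_pow_sub_C u hq) 1 (by
      rw [eval_sub, eval_pow, eval_X, eval_C, one_pow]
      have := (maximalIdeal B).neg_mem hu
      rwa [neg_sub] at this) (by
      rw [derivative_sub, derivative_X_pow, derivative_C, sub_zero, eval_mul, eval_pow, eval_X,
        one_pow, mul_one, eval_C]
      exact hqu)
  refine ⟨y, hy1, ?_⟩
  rw [IsRoot.def, eval_sub, eval_pow, eval_X, eval_C, sub_eq_zero] at hy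
  exact hy.symm

/-- one of the primes `2`, `3` is invertible -/
theorem exists_prime_unit34 {R : Type} [CommRing R] [IsLocalRing R] :
    ∃ q : ℕ, q.Prime ∧ IsUnit (q : R) := by
  rcases IsLocalRing.isUnit_or_isUnit_of_add_one (a := (3 : R)) (b := -2) (by norm_num) with h | h
  · exact ⟨3, by norm_num, by exact_mod_cast h⟩
  · refine ⟨2, by norm_num, ?_⟩
    have := h.neg
    rw [neg_neg] at this
    exact_mod_cast this

/-- the converse of the theorem on power classes -/
theorem classes_of_hensel34 {R : Type} [CommRing R] [IsDomain R] (hR : HenselianLocalRing R)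
    (p : Ideal R) [p.IsPrime] (A : Type) [CommRing A] [IsDomain A] [Algebra (R ⧸ p) A]
    [FaithfulSMul (R ⧸ p) A] [Module.Finite (R ⧸ p) A] :
    ∃ (B : Type) (_ : CommRing B) (_ : IsDomain B) (_ : Algebra A B) (_ : FaithfulSMul A B)
      (_ : Module.Finite A B) (q : ℕ) (z b : B) (S : Finset B),
      q.Prime ∧ IsUnit (q : B) ∧ ∑ j ∈ range q, z ^ j = 0 ∧ b ≠ 0 ∧
      ∀ u : B, b ∣ u - 1 → (∀ m : Ideal B, m.IsMaximal → u - 1 ∈ m) →
        ∃ s ∈ S, ∃ y : B, (∀ m : Ideal B, m.IsMaximal → y - 1 ∈ m) ∧ u = s * y ^ q := by
  classical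
  obtain ⟨q, hq, hqu⟩ := exists_prime_unit34 (R := R)
  obtain ⟨z, hzi, hz⟩ := exists_zeta34 (R := A) (K := AlgebraicClosure (FractionRing A)) q hq
  obtain ⟨B, hB⟩ : ∃ B : Subalgebra A (AlgebraicClosure (FractionRing A)),
    B = Algebra.adjoin A {z} := ⟨_, rfl⟩
  have hBfin : Module.Finite A B := by
    rw [hB]
    exact ⟨(Submodule.fg_top _).2 (fg_adjoin_of_finite (Set.toFinite _)
      (by rintro x rfl; exact hzi))⟩
  have hzB : z ∈ B := by rw [hB]; exact Algebra.subset_adjoin (by simp)
  have hinjW : Function.Injective (algebraMap A (AlgebraicClosure (FractionRing A))) := by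
    rw [IsScalarTower.algebraMap_eq A (FractionRing A) (AlgebraicClosure (FractionRing A))]
    exact (algebraMap (FractionRing A) _).injective.comp
      (IsFractionRing.injective A (FractionRing A))
  have hfsAB : FaithfulSMul A B := by
    rw [faithfulSMul_iff_algebraMap_injective]
    intro x y hxy
    exact hinjW (congrArg (fun t : B => (t : AlgebraicClosure (FractionRing A))) hxy)
  let _ : Algebra R B :=
    (((algebraMap A B).comp (algebraMap (R ⧸ p) A)).comp (algebraMap R (R ⧸ p))).toAlgebra
  have hint : Algebra.IsIntegral R B := by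
    have h1 : (algebraMap R (R ⧸ p)).IsIntegral :=
      RingHom.isIntegral_of_surjective _ Ideal.Quotient.mk_surjective
    have h2 : (algebraMap (R ⧸ p) A).IsIntegral := fun x =>
      Algebra.IsIntegral.isIntegral (R := R ⧸ p) x
    have h3 : (algebraMap A B).IsIntegral := fun x => Algebra.IsIntegral.isIntegral (R := A) x
    exact ⟨(h1.trans _ _ h2).trans _ _ h3⟩
  have hhB : HenselianLocalRing B := hens_integral34 (R := R)
  have hquB : IsUnit (q : B) := by
    have := hqu.map (algebraMap R B)
    rwa [map_natCast] at this
  refine ⟨B, inferInstance, inferInstance, inferInstance, hfsAB, hBfin, q, ⟨z, hzB⟩, 1, {1}, hq,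
    hquB, ?_, one_ne_zero, ?_⟩
  · apply Subtype.val_injective
    rw [AddSubmonoidClass.coe_finsetSum]
    exact hz
  · intro u _ hu
    obtain ⟨y, hy, hyu⟩ := root_one34 hq.ne_zero hquB u
      (hu _ (IsLocalRing.maximalIdeal.isMaximal B))
    refine ⟨1, Finset.mem_singleton_self 1, y, fun m hm => ?_, by rw [one_mul]; exact hyu⟩
    rw [IsLocalRing.eq_maximalIdeal hm]
    exact hy

end Pool.Agent.AIC.M
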