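import Pool.Agent.AIC.HensComp83
import Pool.Agent.AIC.HenselPlus32
import Pool.Agent.AIC.Star34
import Pool.Agent.AIC.TheoremK34

/-! MP_313bb4, theorem O, row O5: the converse. In a domain finite over a quotient of a henselian
local ring the `q`-th power map of `1 + J` is onto. -/

set_option autoImplicit false
set_option linter.style.haveILetI false

namespace Pool.Agent.AIC.M

open Polynomial IsLocalRing Finset

/-- a quotient of a henselian local ring by a prime ideal is henselian -/
theorem hens_quot7 {R : Type} [CommRing R] (hR : HenselianLocalRing R) (p : Ideal R)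
    [hp : p.IsPrime] : HenselianLocalRing (R ⧸ p) :=
  hens_surj83 hR (Ideal.Quotient.mk p) Ideal.Quotient.mk_surjective

theorem hens_integral_aux7 {S A W : Type} [CommRing S] (hS : HenselianLocalRing S) [CommRing A]
    [IsDomain A] [Algebra S A] [hint : Algebra.IsIntegral S A] [Field W] [IsAlgClosed W]
    [Algebra A W] (hinjW : Function.Injective (algebraMap A W)) : HenselianLocalRing A := by
  letI alg : Algebra S W := ((algebraMap A W).comp (algebraMap S A)).toAlgebra
  haveI tow : IsScalarTower S A W := IsScalarTower.of_algebraMap_eq fun _ => rfl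
  haveI faith : FaithfulSMul A W := by
    rw [faithfulSMul_iff_algebraMap_injective]
    exact hinjW
  have h1 : IsLocalRing (integralClosure S W) := closure_local_of_henselian (A := S) (W := W)
  have h3 : ∀ x : W, IsIntegral S x ↔ IsIntegral A x :=
    fun x => ⟨fun h => h.tower_top, fun h => isIntegral_trans x h⟩
  let e : integralClosure S W ≃+* integralClosure A W :=
    { toFun := fun x => ⟨x, (h3 x).1 x.2⟩
      invFun := fun x => ⟨x, (h3 x).2 x.2⟩
      left_inv := fun x => rfl
      right_inv := fun x => rfl
      map_mul' := fun x y => rfl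
      map_add' := fun x y => rfl }
  have h2 : IsLocalRing (integralClosure A W) := e.isLocalRing
  have hloc : IsLocalHom (algebraMap A (integralClosure A W)) := by
    have hinj : Function.Injective (algebraMap A (integralClosure A W)) := by
      intro a b hab
      apply hinjW
      have := congrArg (algebraMap (integralClosure A W) W) hab
      rwa [← IsScalarTower.algebraMap_apply, ← IsScalarTower.algebraMap_apply] at this
    exact RingHom.IsIntegral.isLocalHom
      (algebraMap_isIntegral_iff.mpr inferInstance) hinj
  haveI hAl : IsLocalRing A := RingHom.domain_isLocalRing (algebraMap A (integralClosure A W))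
  exact henselian_of_unibranch34 (K := W) h2

/-- a domain maps injectively to the algebraic closure of its field of fractions -/
theorem inj_algClosure7 (A : Type) [CommRing A] [IsDomain A] :
    Function.Injective (algebraMap A (AlgebraicClosure (FractionRing A))) := by
  rw [IsScalarTower.algebraMap_eq A (FractionRing A) (AlgebraicClosure (FractionRing A))]
  exact (algebraMap (FractionRing A) _).injective.comp (IsFractionRing.injective A _)

/-- a domain integral over a henselian local ring is henselian -/
theorem hens_integral7 {S A : Type} [CommRing S] (hS : HenselianLocalRing S) [CommRing A]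
    [IsDomain A] [Algebra S A] [Algebra.IsIntegral S A] : HenselianLocalRing A :=
  hens_integral_aux7 (W := AlgebraicClosure (FractionRing A)) hS (inj_algClosure7 A)

/-- in a henselian local ring every element of `1 + J` is a `q`-th power of one, `q` a unit -/
theorem pow_onto7 {A : Type} [CommRing A] (hA : HenselianLocalRing A) {q : ℕ} (hq : q ≠ 0)
    (hqu : IsUnit (q : A)) (u : A) (hu : ∀ m : Ideal A, m.IsMaximal → u - 1 ∈ m) :
    ∃ y : A, (∀ m : Ideal A, m.IsMaximal → y - 1 ∈ m) ∧ u = y ^ q := by
  have hmon : (X ^ q - C u : A[X]).Monic := monic_X_pow_sub_C u hq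
  have h0 : (X ^ q - C u : A[X]).eval 1 ∈ maximalIdeal A := by
    have h := hu _ (maximalIdeal.isMaximal A)
    have h' : (X ^ q - C u : A[X]).eval 1 = -(u - 1) := by
      simp
    rw [h']
    exact (maximalIdeal A).neg_mem h
  have h1 : IsUnit ((X ^ q - C u : A[X]).derivative.eval 1) := by
    have h' : (X ^ q - C u : A[X]).derivative.eval 1 = (q : A) := by
      simp [derivative_X_pow]
    rw [h']
    exact hqu
  obtain ⟨y, hy, hy1⟩ := HenselianLocalRing.is_henselian _ hmon 1 h0 h1
  refine ⟨y, fun m hm => ?_, ?_⟩
  · rw [IsLocalRing.eq_maximalIdeal hm]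
    exact hy1
  · have h2 : (X ^ q - C u : A[X]).eval y = 0 := hy
    simp only [eval_sub, eval_pow, eval_X, eval_C] at h2
    exact (sub_eq_zero.1 h2).symm

/-- `2` or `3` is invertible in a local ring -/
theorem exists_prime_unit7 {A : Type} [CommRing A] [IsLocalRing A] :
    ∃ q : ℕ, q.Prime ∧ IsUnit (q : A) := by
  by_cases h2 : IsUnit ((2 : ℕ) : A)
  · exact ⟨2, Nat.prime_two, h2⟩
  · refine ⟨3, Nat.prime_three, ?_⟩
    by_contra h3
    have h2' : ((2 : ℕ) : A) ∈ maximalIdeal A := h2
    have h3' : ((3 : ℕ) : A) ∈ maximalIdeal A := h3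
    have h1 : (1 : A) ∈ maximalIdeal A := by
      have := (maximalIdeal A).sub_mem h3' h2'
      have e : ((3 : ℕ) : A) - ((2 : ℕ) : A) = 1 := by push_cast; ring
      rwa [e] at this
    exact (maximalIdeal.isMaximal A).ne_top ((Ideal.eq_top_iff_one _).2 h1)

/-- **the converse of theorem O**: over a henselian local ring the condition holds, with the whole
of `1 + J` -/
theorem conv7 {R : Type} [CommRing R] (hR : HenselianLocalRing R) (p : Ideal R) [p.IsPrime]
    (A : Type) [CommRing A] [IsDomain A] [Algebra (R ⧸ p) A] [Module.Finite (R ⧸ p) A] :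
    ∃ (B : Type) (_ : CommRing B) (_ : IsDomain B) (_ : Algebra A B) (_ : FaithfulSMul A B)
      (_ : Module.Finite A B) (q : ℕ) (z : B), q.Prime ∧ IsUnit (q : B) ∧
      ∑ j ∈ range q, z ^ j = 0 ∧
      ∀ u : B, (∀ m : Ideal B, m.IsMaximal → u - 1 ∈ m) →
        ∃ y : B, (∀ m : Ideal B, m.IsMaximal → y - 1 ∈ m) ∧ u = y ^ q := by
  have hS : HenselianLocalRing (R ⧸ p) := hens_quot7 hR p
  haveI hintA : Algebra.IsIntegral (R ⧸ p) A := Algebra.IsIntegral.of_finite _ _
  have hA : HenselianLocalRing A := hens_integral7 hS
  obtain ⟨q, hq, hqA⟩ := exists_prime_unit7 (A := A)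
  obtain ⟨z, hzi, hz⟩ := exists_zeta34 (R := A) (K := AlgebraicClosure (FractionRing A)) q hq
  let B := Algebra.adjoin A {z}
  haveI hfin : Module.Finite A B := Algebra.finite_adjoin_simple_of_isIntegral hzi
  haveI hintB : Algebra.IsIntegral A B := Algebra.IsIntegral.of_finite _ _
  have hB : HenselianLocalRing B := hens_integral7 hA
  haveI hfaith : FaithfulSMul A B := by
    rw [faithfulSMul_iff_algebraMap_injective]
    intro a b hab
    apply inj_algClosure7 A
    exact congrArg Subtype.val hab
  have hqB : IsUnit (q : B) := by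
    have := hqA.map (algebraMap A B)
    rwa [map_natCast] at this
  refine ⟨B, inferInstance, inferInstance, inferInstance, hfaith, hfin, q,
    ⟨z, Algebra.self_mem_adjoin_singleton A z⟩, hq, hqB, ?_, fun u hu =>
      pow_onto7 hB hq.ne_zero hqB u hu⟩
  apply Subtype.val_injective
  push_cast
  exact hz

end Pool.Agent.AIC.M
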