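import Mathlib
import Pool.Agent.AIC.M.Defs34
import Pool.Agent.AIC.M.Api34

/-! MP_313bb4, theorem M: lemmas 1, 2, 3 (almost everywhere identities). -/

set_option autoImplicit false
set_option linter.unusedSectionVars false

namespace Pool.Agent.AIC.M

variable {R Q : Type} [CommRing R] [CommGroup Q] {q : ℕ}

/-- the packing statement for pairs of values of `χ` -/
def PackChi (D : Data R Q q) : Prop :=
  ∀ δ : ℝ, 0 < δ → ∃ N : ℕ, ∀ (M : Mean R) (v w v' w' : Fin N → R),
    (∀ i s, s ∈ D.J → v i + w i * s - 1 ∈ D.J ∧ v' i + w' i * s - 1 ∈ D.J) →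
    (∀ f g, Bdd f → Bdd g → (∀ s ∈ D.J, f s = g s) → M.E f = M.E g) →
    ∃ i j, i < j ∧ M.P (fun s => ¬ (D.χ (v i + w i * s) = D.χ (v j + w j * s) ∧
      D.χ (v' i + w' i * s) = D.χ (v' j + w' j * s))) < δ

/-- there are arbitrarily long families with unit differences -/
def ManyUnits (R : Type) [CommRing R] : Prop :=
  ∀ N : ℕ, ∃ l : Fin N → R, ∀ i j, i ≠ j → IsUnit (l i - l j)

theorem isUnit_of_mem34 (D : Data R Q q) {u : R} (h : u - 1 ∈ D.J) : IsUnit u := by
  have := D.hJ _ h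
  rwa [add_sub_cancel] at this

theorem AffInv.P_congr34 {I : Ideal R} {M : Mean R} (hM : AffInv M I) {p r : R → Prop}
    (h : ∀ s ∈ I, (p s ↔ r s)) : M.P p = M.P r := by
  refine hM.supp _ _ (bdd_ind p) (bdd_ind r) fun s hs => ?_
  by_cases hp : p s
  · rw [ind_of_pos hp, ind_of_pos ((h s hs).1 hp)]
  · rw [ind_of_neg hp, ind_of_neg (fun hr => hp ((h s hs).2 hr))]

theorem AffInv.P_inv34 {I : Ideal R} {M : Mean R} (hM : AffInv M I) (p : R → Prop) (u b : R)
    (hu : IsUnit u) (hb : b ∈ I) : M.P (fun s => p (u * s + b)) = M.P p :=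
  hM.inv u b hu hb (ind p) (bdd_ind p)

/-- translation -/
theorem A_trans34 (D : Data R Q q) {I : Ideal R} {M : Mean R} (hM : AffInv M I) (r r' : R)
    (hr' : r' ∈ I) :
    M.P (fun s => D.χ (1 + (s + r)) = D.χ (1 + (s + r'))) =
      M.P (fun s => D.χ (1 + (s + (r - r'))) = D.χ (1 + s)) := by
  rw [← hM.P_inv34 (fun s => D.χ (1 + (s + r)) = D.χ (1 + (s + r'))) 1 (-r') isUnit_one
    (I.neg_mem hr')]
  refine M.P_congr fun s => ?_
  have h1 : 1 * s + -r' + r = s + (r - r') := by ring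
  have h2 : 1 * s + -r' + r' = s := by ring
  rw [h1, h2]

/-- scaling by `1 + I` -/
theorem A_unit34 (D : Data R Q q) {I : Ideal R} (hI : I ≤ D.J) {M : Mean R} (hM : AffInv M I)
    (u r : R) (hu : u - 1 ∈ I) (hr : r ∈ I) :
    M.P (fun s => D.χ (1 + (s + u * r)) = D.χ (1 + s)) =
      M.P (fun s => D.χ (1 + (s + r)) = D.χ (1 + s)) := by
  have huu : IsUnit u := isUnit_of_mem34 D (hI hu)
  rw [← hM.P_inv34 (fun s => D.χ (1 + (s + u * r)) = D.χ (1 + s)) u (u - 1) huu hu]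
  refine hM.P_congr34 fun s hs => ?_
  have h1 : 1 + (u * s + (u - 1) + u * r) = u * (1 + (s + r)) := by ring
  have h2 : 1 + (u * s + (u - 1)) = u * (1 + s) := by ring
  have h3 : IsUnit (1 + (s + r)) := D.hJ _ (hI (I.add_mem hs hr))
  have h4 : IsUnit (1 + s) := D.hJ _ (hI hs)
  rw [h1, h2, D.hχ _ _ huu h3, D.hχ _ _ huu h4]
  exact ⟨fun h => mul_left_cancel h, fun h => by rw [h]⟩

/-- Lemma 1 -/
theorem lemma1 (D : Data R Q q) (hpack : PackChi D) (hinf : ManyUnits R)
    (I : Ideal R) (hI : I ≤ D.J) (M : Mean R) (hM : AffInv M I) (a b : R) (ha : a ∈ I) (hb : b ∈ I) :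
    M.P (fun s => D.χ (1 + (s + a * b)) ≠ D.χ (1 + s)) = 0 := by
  by_contra hne
  have h0 : 0 < M.P (fun s => D.χ (1 + (s + a * b)) ≠ D.χ (1 + s)) :=
    lt_of_le_of_ne (M.P_nonneg _) (Ne.symm hne)
  obtain ⟨N, hN⟩ := hpack _ (half_pos h0)
  obtain ⟨l, hl⟩ := hinf N
  have hsupp : ∀ f g, Bdd f → Bdd g → (∀ s ∈ D.J, f s = g s) → M.E f = M.E g :=
    fun f g hf hg h => hM.supp f g hf hg fun s hs => h s (hI hs)
  obtain ⟨i, j, hij, hlt⟩ := hN M (fun i => 1 + l i * b) (fun _ => 1)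
    (fun i => 1 + (l i * b + a * b)) (fun _ => 1) (by
      intro i s hs
      constructor
      · have h : 1 + l i * b + 1 * s - 1 = l i * b + s := by ring
        rw [h]
        exact D.J.add_mem (D.J.mul_mem_left _ (hI hb)) hs
      · have h : 1 + (l i * b + a * b) + 1 * s - 1 = (l i + a) * b + s := by ring
        rw [h]
        exact D.J.add_mem (D.J.mul_mem_left _ (hI hb)) hs) hsupp
  have hu : IsUnit (l i - l j) := hl i j (ne_of_lt hij)
  obtain ⟨w, hw⟩ := hu.exists_right_inv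
  have hmem : ∀ x : R, x * b ∈ I := fun x => I.mul_mem_left _ hb
  have hab : a * b ∈ I := I.mul_mem_left _ hb
  -- the four events
  have hA : ∀ α β : R, (α - β) * w ∈ I →
      M.P (fun s => D.χ (1 + (s + (l i + α) * b)) = D.χ (1 + (s + (l j + β) * b))) =
      M.P (fun s => D.χ (1 + (s + (l i - l j) * b)) = D.χ (1 + s)) := by
    intro α β hαβ
    rw [A_trans34 D hM _ _ (hmem _)]
    have h1 : (l i + α) * b - (l j + β) * b = (1 + (α - β) * w) * ((l i - l j) * b) := by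
      have : (1 + (α - β) * w) * ((l i - l j) * b) =
          (l i - l j) * b + (α - β) * ((l i - l j) * w) * b := by ring
      rw [this, hw]
      ring
    rw [h1]
    refine A_unit34 D hI hM _ _ ?_ (hmem _)
    rw [add_sub_cancel_left]
    exact hαβ
  have h00 := hA 0 0 (by simp)
  have h11 := hA a a (by simp)
  have h10 := hA a 0 (by rw [sub_zero]; exact I.mul_mem_right _ ha)
  have h01 := hA 0 a (by rw [zero_sub, neg_mul]; exact I.neg_mem (I.mul_mem_right _ ha))
  -- `δ` seen from `l i`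
  have hδ : M.P (fun s => ¬ D.χ (1 + (s + (l i + a) * b)) = D.χ (1 + (s + (l i + 0) * b))) =
      M.P (fun s => D.χ (1 + (s + a * b)) ≠ D.χ (1 + s)) := by
    rw [M.P_not, A_trans34 D hM _ _ (hmem _), ← M.P_not]
    refine M.P_congr fun s => ?_
    have h : (l i + a) * b - (l i + 0) * b = a * b := by ring
    rw [h]
  -- pointwise inequality
  obtain ⟨p00, hp00⟩ : ∃ p : R → Prop, p = fun s => D.χ (1 + (s + (l i + 0) * b)) =
    D.χ (1 + (s + (l j + 0) * b)) := ⟨_, rfl⟩
  obtain ⟨p11, hp11⟩ : ∃ p : R → Prop, p = fun s => D.χ (1 + (s + (l i + a) * b)) =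
    D.χ (1 + (s + (l j + a) * b)) := ⟨_, rfl⟩
  obtain ⟨p10, hp10⟩ : ∃ p : R → Prop, p = fun s => D.χ (1 + (s + (l i + a) * b)) =
    D.χ (1 + (s + (l j + 0) * b)) := ⟨_, rfl⟩
  obtain ⟨p01, hp01⟩ : ∃ p : R → Prop, p = fun s => D.χ (1 + (s + (l i + 0) * b)) =
    D.χ (1 + (s + (l j + a) * b)) := ⟨_, rfl⟩
  obtain ⟨pd, hpd⟩ : ∃ p : R → Prop, p = fun s => ¬ D.χ (1 + (s + (l i + a) * b)) =
    D.χ (1 + (s + (l i + 0) * b)) := ⟨_, rfl⟩
  rw [← hp00] at h00
  rw [← hp11] at h11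
  rw [← hp10] at h10
  rw [← hp01] at h01
  rw [← hpd] at hδ
  have hpt : ∀ s, 2 * ind pd s ≤ (ind p00 s + ind p11 s - (ind p10 s + ind p01 s)) +
      4 * ind (fun s => ¬ (p00 s ∧ p11 s)) s := by
    intro s
    by_cases hE : p00 s ∧ p11 s
    · rw [ind_of_pos hE.1, ind_of_pos hE.2,
        ind_of_neg (p := fun s => ¬ (p00 s ∧ p11 s)) (not_not.mpr hE)]
      have e0 : D.χ (1 + (s + (l i + 0) * b)) = D.χ (1 + (s + (l j + 0) * b)) := by
        have := hE.1
        rw [hp00] at this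
        exact this
      have e1 : D.χ (1 + (s + (l i + a) * b)) = D.χ (1 + (s + (l j + a) * b)) := by
        have := hE.2
        rw [hp11] at this
        exact this
      by_cases hd : pd s
      · have hd' : ¬ D.χ (1 + (s + (l i + a) * b)) = D.χ (1 + (s + (l i + 0) * b)) := by
          rw [hpd] at hd
          exact hd
        have n10 : ¬ p10 s := by
          rw [hp10]
          show ¬ D.χ (1 + (s + (l i + a) * b)) = D.χ (1 + (s + (l j + 0) * b))
          rw [← e0]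
          exact hd'
        have n01 : ¬ p01 s := by
          rw [hp01]
          show ¬ D.χ (1 + (s + (l i + 0) * b)) = D.χ (1 + (s + (l j + a) * b))
          rw [← e1]
          exact fun h => hd' h.symm
        rw [ind_of_pos hd, ind_of_neg n10, ind_of_neg n01]
        norm_num
      · rw [ind_of_neg hd]
        have := ind_le_one p10 s
        have := ind_le_one p01 s
        linarith
    · rw [ind_of_pos (p := fun s => ¬ (p00 s ∧ p11 s)) hE]
      have := ind_le_one p10 s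
      have := ind_le_one p01 s
      have := ind_le_one pd s
      have := ind_nonneg p00 s
      have := ind_nonneg p11 s
      linarith
  have hint := M.E_mono (Bdd.smul 2 (bdd_ind pd))
    ((((bdd_ind p00).add (bdd_ind p11)).sub ((bdd_ind p10).add (bdd_ind p01))).add
      (Bdd.smul 4 (bdd_ind fun s => ¬ (p00 s ∧ p11 s)))) hpt
  rw [M.E_smul 2 (bdd_ind pd), M.E_add (((bdd_ind p00).add (bdd_ind p11)).sub
    ((bdd_ind p10).add (bdd_ind p01))) (Bdd.smul 4 (bdd_ind fun s => ¬ (p00 s ∧ p11 s))),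
    M.E_sub ((bdd_ind p00).add (bdd_ind p11)) ((bdd_ind p10).add (bdd_ind p01)),
    M.E_add (bdd_ind p00) (bdd_ind p11), M.E_add (bdd_ind p10) (bdd_ind p01),
    M.E_smul 4 (bdd_ind fun s => ¬ (p00 s ∧ p11 s))] at hint
  change 2 * M.P pd ≤ (M.P p00 + M.P p11 - (M.P p10 + M.P p01)) + 4 * M.P _ at hint
  rw [h00, h11, h10, h01, hδ] at hint
  have hlast : M.P (fun s => ¬ (p00 s ∧ p11 s)) < M.P (fun s => D.χ (1 + (s + a * b)) ≠ D.χ (1 + s)) / 2 := by
    refine lt_of_le_of_lt (le_of_eq (M.P_congr fun s => ?_)) hlt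
    rw [hp00, hp11]
    have g0 : ∀ k, 1 + l k * b + 1 * s = 1 + (s + (l k + 0) * b) := fun k => by ring
    have g1 : ∀ k, 1 + (l k * b + a * b) + 1 * s = 1 + (s + (l k + a) * b) := fun k => by ring
    simp only [g0, g1]
  linarith

/-- Lemma 2 -/
theorem lemma2 (D : Data R Q q) (hpack : PackChi D) (hinf : ManyUnits R)
    (I : Ideal R) (hI : I ≤ D.J) (M : Mean R) (hM : AffInv M I) (a b : R) (ha : a ∈ I) (hb : b ∈ I)
    (z : R) (hz : IsUnit z) :
    M.P (fun s => ¬ D.χ (1 + (1 + a * b) * z * s) = D.χ (1 + a * b) * D.χ (1 + z * s)) = 0 := by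
  have hab : a * b ∈ I := I.mul_mem_left _ hb
  have hu : IsUnit (1 + a * b) := D.hJ _ (hI hab)
  obtain ⟨w, hw⟩ := hu.exists_right_inv
  have h1 := lemma1 D hpack hinf I hI M hM (-(w * a)) b (I.neg_mem (I.mul_mem_left _ ha)) hb
  rw [← hM.P_inv34 (fun s => D.χ (1 + (s + -(w * a) * b)) ≠ D.χ (1 + s)) z 0 hz I.zero_mem] at h1
  rw [← h1]
  refine hM.P_congr34 fun s hs => ?_
  have hzs : z * s ∈ I := I.mul_mem_left _ hs
  have e1 : 1 + (1 + a * b) * z * s = (1 + a * b) * (1 + (z * s + 0 + -(w * a) * b)) := by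
    have : (1 + a * b) * (1 + (z * s + 0 + -(w * a) * b)) =
        (1 + a * b) * (1 + z * s) - (1 + a * b) * w * (a * b) := by ring
    rw [this, hw]
    ring
  have e2 : IsUnit (1 + (z * s + 0 + -(w * a) * b)) := by
    refine D.hJ _ (hI (I.add_mem ?_ (I.mul_mem_left _ hb)))
    rw [add_zero]
    exact hzs
  rw [e1, D.hχ _ _ hu e2, add_zero]
  constructor
  · intro h h'
    exact h (by rw [h'])
  · intro h h'
    exact h (mul_left_cancel h')

end Pool.Agent.AIC.M
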