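import Mathlib
import Pool.Agent.AIC.M.Defs34
import Pool.Agent.AIC.M.Api34
import Pool.Agent.AIC.M.Lemmas34

/-! MP_313bb4, theorem M: lemma 3 (a `q`-th root outside the group spreads the values). -/

set_option autoImplicit false
set_option linter.unusedSectionVars false

namespace Pool.Agent.AIC.M

variable {R Q : Type} [CommRing R] [CommGroup Q] {q : ℕ}

theorem iter34 (D : Data R Q q) (y : R) (w : Q) (s : R) (n : ℕ)
    (h : ∀ k, k < n → D.χ (1 + y ^ (k + 1) * s) = w * D.χ (1 + y ^ k * s)) :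
    D.χ (1 + y ^ n * s) = w ^ n * D.χ (1 + s) := by
  induction n with
  | zero => simp
  | succ n ih =>
    rw [h n (Nat.lt_succ_self n), ih fun k hk => h k (Nat.lt_succ_of_lt hk), pow_succ, ← mul_assoc,
      mul_comm w]

/-- Lemma 3 -/
theorem lemma3 (D : Data R Q q) (hpack : PackChi D) (hinf : ManyUnits R) (hq0 : 0 < q)
    (I : Ideal R) (hI : I ≤ D.J) (M : Mean R) (hM : AffInv M I) (y a b : R) (hy : IsUnit y)
    (ha : a ∈ I) (hb : b ∈ I) (hyq : y ^ q = 1 + a * b) (hne : D.χ (y ^ q) ≠ 1) (w : Q) :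
    M.P (fun s => D.χ (1 + y * s) = w * D.χ (1 + s)) ≤ 1 - 1 / q := by
  classical
  have hq1 : (1 : ℝ) ≤ q := by exact_mod_cast hq0
  have hqpos : (0 : ℝ) < q := by linarith
  by_cases hw : w ^ q = 1
  · -- the generic case
    have h1 : ∀ k : ℕ, M.P (fun s => ¬ D.χ (1 + y ^ (k + 1) * s) = w * D.χ (1 + y ^ k * s)) =
        M.P (fun s => ¬ D.χ (1 + y * s) = w * D.χ (1 + s)) := by
      intro k
      rw [← hM.P_inv34 (fun s => ¬ D.χ (1 + y * s) = w * D.χ (1 + s)) (y ^ k) 0 (hy.pow k)
        I.zero_mem]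
      refine M.P_congr fun s => ?_
      have e1 : y * (y ^ k * s + 0) = y ^ (k + 1) * s := by ring
      have e2 : y ^ k * s + 0 = y ^ k * s := by ring
      rw [e1, e2]
    have h2 := lemma2 D hpack hinf I hI M hM a b ha hb 1 isUnit_one
    have h3 : (1 : ℝ) ≤ M.P (fun s => ∃ k ∈ Finset.range q,
        ¬ D.χ (1 + y ^ (k + 1) * s) = w * D.χ (1 + y ^ k * s)) +
        M.P (fun s => ¬ D.χ (1 + (1 + a * b) * 1 * s) = D.χ (1 + a * b) * D.χ (1 + 1 * s)) := by
      rw [← M.P_true (p := fun _ => True) fun _ => trivial]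
      refine M.P_le_add fun s _ => ?_
      by_contra hc
      push Not at hc
      obtain ⟨hc1, hc2⟩ := hc
      have h4 := iter34 D y w s q fun k hk => hc1 k (Finset.mem_range.2 hk)
      rw [hw, one_mul] at h4
      rw [mul_one, one_mul, ← hyq, h4] at hc2
      apply hne
      exact (mul_eq_right.mp hc2.symm)
    rw [h2, add_zero] at h3
    have h5 := M.P_exists_le (Finset.range q)
      (fun k s => ¬ D.χ (1 + y ^ (k + 1) * s) = w * D.χ (1 + y ^ k * s))
    rw [Finset.sum_congr rfl fun k _ => h1 k, Finset.sum_const, Finset.card_range,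
      nsmul_eq_mul] at h5
    rw [M.P_not] at h5
    have h6 : (1 : ℝ) ≤ q * (1 - M.P (fun s => D.χ (1 + y * s) = w * D.χ (1 + s))) := h3.trans h5
    have h7 : 1 / (q : ℝ) ≤ 1 - M.P (fun s => D.χ (1 + y * s) = w * D.χ (1 + s)) := by
      rw [div_le_iff₀ hqpos]
      linarith
    linarith
  · have h0 : M.P (fun s => D.χ (1 + y * s) = w * D.χ (1 + s)) = M.P (fun _ => False) := by
      refine hM.P_congr34 fun s hs => ?_
      constructor
      · intro h
        apply hw
        have h1 : w = D.χ (1 + y * s) * (D.χ (1 + s))⁻¹ := by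
          rw [h, mul_inv_cancel_right]
        rw [h1, mul_pow, inv_pow, D.hq _ (D.J.mul_mem_left _ (hI hs)), D.hq _ (hI hs), inv_one,
          one_mul]
      · intro h
        exact h.elim
    rw [h0, M.P_false fun _ h => h]
    have : 1 / (q : ℝ) ≤ 1 := by
      rw [div_le_one hqpos]
      exact hq1
    linarith

end Pool.Agent.AIC.M
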