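import Pool.Agent.AIC.M.Defs34

/-! MP_313bb4, theorem M, row M1: invariant means (Markov-Kakutani with ultrafilter limits). -/

set_option autoImplicit false
set_option linter.unusedSectionVars false

namespace Pool.Agent.AIC.M

open Finset Filter Topology

section markov

variable {X ι : Type}

/-- the average of `f` over the first `n + 1` iterates of `g` -/
noncomputable def av26 (n : ℕ) (g : X → X) (f : X → ℝ) : X → ℝ :=
  fun x => (∑ k ∈ range (n + 1), f (g^[k] x)) / ((n : ℝ) + 1)

/-- composition of averages over a list of self maps -/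
noncomputable def tt26 (σ : ι → X → X) (n : ℕ) : List ι → (X → ℝ) → (X → ℝ)
  | [], f => f
  | i :: l, f => av26 n (σ i) (tt26 σ n l f)

lemma av_bd26 {n : ℕ} {g : X → X} {f : X → ℝ} {B : ℝ} (h : ∀ x, |f x| ≤ B) (x : X) :
    |av26 n g f x| ≤ B := by
  have hn : (0 : ℝ) < (n : ℝ) + 1 := by positivity
  unfold av26
  rw [abs_div, abs_of_pos hn, div_le_iff₀ hn]
  calc |∑ k ∈ range (n + 1), f (g^[k] x)| ≤ ∑ k ∈ range (n + 1), |f (g^[k] x)| :=
        abs_sum_le_sum_abs _ _
    _ ≤ ∑ _k ∈ range (n + 1), B := sum_le_sum fun k _ => h _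
    _ = B * ((n : ℝ) + 1) := by rw [sum_const, card_range, nsmul_eq_mul]; push_cast; ring

variable (σ : ι → X → X)

lemma tt_bd26 {n : ℕ} {f : X → ℝ} {B : ℝ} (h : ∀ x, |f x| ≤ B) (l : List ι) :
    ∀ x, |tt26 σ n l f x| ≤ B := by
  induction l with
  | nil => exact h
  | cons i l ih => exact fun x => av_bd26 ih x

lemma tt_add26 (n : ℕ) (f g : X → ℝ) (l : List ι) :
    tt26 σ n l (fun x => f x + g x) = fun x => tt26 σ n l f x + tt26 σ n l g x := by
  induction l with
  | nil => rfl
  | cons i l ih =>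
    funext x
    show av26 n (σ i) (tt26 σ n l (fun x => f x + g x)) x = _
    rw [ih]
    show (∑ k ∈ range (n + 1), (tt26 σ n l f ((σ i)^[k] x) + tt26 σ n l g ((σ i)^[k] x))) / _ = _
    rw [sum_add_distrib, add_div]
    rfl

lemma tt_smul26 (n : ℕ) (a : ℝ) (f : X → ℝ) (l : List ι) :
    tt26 σ n l (fun x => a * f x) = fun x => a * tt26 σ n l f x := by
  induction l with
  | nil => rfl
  | cons i l ih =>
    funext x
    show av26 n (σ i) (tt26 σ n l (fun x => a * f x)) x = _
    rw [ih]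
    show (∑ k ∈ range (n + 1), (a * tt26 σ n l f ((σ i)^[k] x))) / _ = _
    rw [← mul_sum, mul_div_assoc]
    rfl

lemma tt_nonneg26 {n : ℕ} {f : X → ℝ} (h : ∀ x, 0 ≤ f x) (l : List ι) :
    ∀ x, 0 ≤ tt26 σ n l f x := by
  induction l with
  | nil => exact h
  | cons i l ih =>
    intro x
    exact div_nonneg (sum_nonneg fun k _ => ih _) (by positivity)

lemma tt_one26 (n : ℕ) (l : List ι) : tt26 σ n l (fun _ => 1) = fun _ => 1 := by
  induction l with
  | nil => rfl
  | cons i l ih =>
    funext x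
    show av26 n (σ i) (tt26 σ n l (fun _ => 1)) x = _
    rw [ih]
    have hn : (n : ℝ) + 1 ≠ 0 := by positivity
    simp [av26, hn]

variable (hσ : ∀ i j x, σ i (σ j x) = σ j (σ i x))

include hσ

lemma tt_comp26 (n : ℕ) (f : X → ℝ) (j : ι) (l : List ι) :
    ∀ x, tt26 σ n l (fun x => f (σ j x)) x = tt26 σ n l f (σ j x) := by
  induction l with
  | nil => exact fun x => rfl
  | cons i l ih =>
    intro x
    show (∑ k ∈ range (n + 1), tt26 σ n l (fun x => f (σ j x)) ((σ i)^[k] x)) / _ =
      (∑ k ∈ range (n + 1), tt26 σ n l f ((σ i)^[k] (σ j x))) / _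
    congr 1
    refine sum_congr rfl fun k _ => ?_
    rw [ih]
    congr 1
    have hc : Function.Commute (σ j) (σ i) := fun x => hσ j i x
    exact (hc.iterate_right k) x

lemma tt_inv26 {n : ℕ} {f : X → ℝ} {B : ℝ} (h : ∀ x, |f x| ≤ B) (j : ι) (l : List ι) (hj : j ∈ l) :
    ∀ x, |tt26 σ n l f (σ j x) - tt26 σ n l f x| ≤ 2 * B / ((n : ℝ) + 1) := by
  have hn : (0 : ℝ) < (n : ℝ) + 1 := by positivity
  induction l with
  | nil => exact absurd hj (by simp)
  | cons i l ih =>
    intro x
    rcases List.mem_cons.1 hj with rfl | hj'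
    · have e : tt26 σ n (j :: l) f (σ j x) - tt26 σ n (j :: l) f x =
          (tt26 σ n l f ((σ j)^[n + 1] x) - tt26 σ n l f x) / ((n : ℝ) + 1) := by
        show (∑ k ∈ range (n + 1), tt26 σ n l f ((σ j)^[k] (σ j x))) / ((n : ℝ) + 1) -
          (∑ k ∈ range (n + 1), tt26 σ n l f ((σ j)^[k] x)) / ((n : ℝ) + 1) = _
        rw [← sub_div]
        congr 1
        have e1 : ∀ k, (σ j)^[k] (σ j x) = (σ j)^[k + 1] x := fun k => rfl
        simp only [e1]
        rw [sum_range_succ' (fun k => tt26 σ n l f ((σ j)^[k] x)), sum_range_succ]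
        simp only [Function.iterate_zero, id_eq]
        ring
      rw [e, abs_div, abs_of_pos hn]
      refine div_le_div_of_nonneg_right ?_ hn.le
      have h1 := tt_bd26 σ (n := n) h l ((σ j)^[n + 1] x)
      have h2 := tt_bd26 σ (n := n) h l x
      rw [abs_le] at h1 h2 ⊢
      constructor <;> linarith
    · have e : tt26 σ n (i :: l) f (σ j x) - tt26 σ n (i :: l) f x =
          (∑ k ∈ range (n + 1), (tt26 σ n l f (σ j ((σ i)^[k] x)) - tt26 σ n l f ((σ i)^[k] x))) /
            ((n : ℝ) + 1) := by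
        show (∑ k ∈ range (n + 1), tt26 σ n l f ((σ i)^[k] (σ j x))) / ((n : ℝ) + 1) -
          (∑ k ∈ range (n + 1), tt26 σ n l f ((σ i)^[k] x)) / ((n : ℝ) + 1) = _
        rw [← sub_div, ← sum_sub_distrib]
        congr 1
        refine sum_congr rfl fun k _ => ?_
        have hc : Function.Commute (σ j) (σ i) := fun x => hσ j i x
        rw [(hc.iterate_right k) x]
      rw [e, abs_div, abs_of_pos hn, div_le_iff₀ hn]
      calc |∑ k ∈ range (n + 1), (tt26 σ n l f (σ j ((σ i)^[k] x)) - tt26 σ n l f ((σ i)^[k] x))|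
          ≤ ∑ k ∈ range (n + 1), |tt26 σ n l f (σ j ((σ i)^[k] x)) - tt26 σ n l f ((σ i)^[k] x)| :=
            abs_sum_le_sum_abs _ _
        _ ≤ ∑ _k ∈ range (n + 1), 2 * B / ((n : ℝ) + 1) := sum_le_sum fun k _ => ih hj' _
        _ = 2 * B / ((n : ℝ) + 1) * ((n : ℝ) + 1) := by
            rw [sum_const, card_range, nsmul_eq_mul]; push_cast; ring

omit hσ

/-- the limit along an ultrafilter of a bounded function exists -/
lemma ulim26 {A : Type} (U : Ultrafilter A) {f : A → ℝ} {B : ℝ} (h : ∀ x, |f x| ≤ B) :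
    Tendsto f U (𝓝 (limUnder (U : Filter A) f)) := by
  refine tendsto_nhds_limUnder ?_
  have hc : IsCompact (Set.Icc (-B) B) := isCompact_Icc
  have h1 : (U.map f : Filter ℝ) ≤ 𝓟 (Set.Icc (-B) B) := by
    rw [le_principal_iff]
    exact mem_map.2 (Filter.univ_mem' fun x => abs_le.1 (h x))
  obtain ⟨y, -, hy⟩ := hc.ultrafilter_le_nhds (U.map f) h1
  exact ⟨y, hy⟩

include hσ

/-- MARKOV-KAKUTANI: commuting self maps of a nonempty type have an invariant mean -/
theorem markov26 [Nonempty X] : ∃ M : Mean X, ∀ j f, Bdd f → M.E (fun x => f (σ j x)) = M.E f := by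
  classical
  obtain ⟨x0⟩ := ‹Nonempty X›
  let U : Ultrafilter (Finset ι × ℕ) := Ultrafilter.of atTop
  have hU : (U : Filter (Finset ι × ℕ)) ≤ atTop := Ultrafilter.of_le _
  let φ : (X → ℝ) → Finset ι × ℕ → ℝ := fun f p => tt26 σ p.2 p.1.toList f x0
  have hφ : ∀ f, Bdd f → Tendsto (φ f) U (𝓝 (limUnder (U : Filter (Finset ι × ℕ)) (φ f))) := by
    rintro f ⟨B, hB⟩
    exact ulim26 U (B := B) fun p => tt_bd26 σ hB _ _
  refine ⟨⟨fun f => limUnder (U : Filter (Finset ι × ℕ)) (φ f), ?_, ?_, ?_, ?_⟩, ?_⟩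
  · intro f g hf hg
    refine (Tendsto.limUnder_eq ?_)
    refine ((hφ f hf).add (hφ g hg)).congr fun p => ?_
    show _ = tt26 σ p.2 p.1.toList (fun x => f x + g x) x0
    rw [tt_add26]
  · intro a f hf
    refine (Tendsto.limUnder_eq ?_)
    refine ((hφ f hf).const_mul a).congr fun p => ?_
    show _ = tt26 σ p.2 p.1.toList (fun x => a * f x) x0
    rw [tt_smul26]
  · intro f hf h
    exact ge_of_tendsto' (hφ f hf) fun p => tt_nonneg26 σ h _ _
  · refine (Tendsto.limUnder_eq ?_)
    refine (tendsto_const_nhds (x := (1 : ℝ))).congr fun p => ?_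
    show _ = tt26 σ p.2 p.1.toList (fun _ => 1) x0
    rw [tt_one26]
  · intro j f hf
    obtain ⟨B, hB⟩ := hf
    refine (Tendsto.limUnder_eq ?_)
    have h1 : Tendsto (fun p : Finset ι × ℕ => φ (fun x => f (σ j x)) p - φ f p) U (𝓝 0) := by
      have h2 : Tendsto (fun p : Finset ι × ℕ => 2 * B / ((p.2 : ℝ) + 1)) atTop (𝓝 0) := by
        rw [← prod_atTop_atTop_eq]
        have h3 : Tendsto (fun n : ℕ => 2 * B / ((n : ℝ) + 1)) atTop (𝓝 0) := by
          have := (tendsto_one_div_add_atTop_nhds_zero_nat (𝕜 := ℝ)).const_mul (2 * B)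
          rw [mul_zero] at this
          refine this.congr fun n => ?_
          ring
        exact h3.comp tendsto_snd
      refine squeeze_zero_norm' ?_ (h2.mono_left hU)
      refine hU ?_
      filter_upwards [eventually_ge_atTop (({j} : Finset ι), 0)] with p hp
      rw [Real.norm_eq_abs]
      show |tt26 σ p.2 p.1.toList (fun x => f (σ j x)) x0 - tt26 σ p.2 p.1.toList f x0| ≤ _
      rw [tt_comp26 σ hσ]
      refine tt_inv26 σ hσ hB j _ ?_ x0
      rw [Finset.mem_toList]
      exact hp.1 (by simp)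
    have h4 := h1.add (hφ f ⟨B, hB⟩)
    rw [zero_add] at h4
    refine h4.congr fun p => ?_
    ring

end markov

/-! ### Means on an ideal -/

lemma Mean.bd26 {X : Type} (M : Mean X) {f : X → ℝ} {B : ℝ} (h : ∀ x, |f x| ≤ B) : |M.E f| ≤ B := by
  have hf : Bdd f := ⟨B, h⟩
  have hc : ∀ c : ℝ, Bdd (fun _ : X => c) := fun c => ⟨|c|, fun _ => le_rfl⟩
  have hcE : ∀ c : ℝ, M.E (fun _ => c) = c := by
    intro c
    have := M.smul' c (fun _ => 1) (hc 1)
    simp only [mul_one] at this
    rw [this, M.one', mul_one]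
  have hneg : Bdd (fun x => (-1) * f x) := ⟨B, fun x => by rw [abs_mul]; simpa using h x⟩
  rw [abs_le]
  constructor
  · have h1 := M.nonneg' (fun x => f x + B) ⟨|B| + |B|, fun x => by
      have h2 := h x
      have h3 : B ≤ |B| := le_abs_self B
      rw [abs_le] at h2 ⊢
      constructor <;> linarith⟩ (fun x => by have := (abs_le.1 (h x)).1; linarith)
    rw [M.add' f (fun _ => B) hf (hc B), hcE] at h1
    linarith
  · have h1 := M.nonneg' (fun x => (-1) * f x + B) ⟨|B| + |B|, fun x => by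
      have h2 := h x
      have h3 : B ≤ |B| := le_abs_self B
      rw [abs_le] at h2 ⊢
      constructor <;> linarith⟩ (fun x => by have := (abs_le.1 (h x)).2; linarith)
    rw [M.add' _ (fun _ => B) hneg (hc B), hcE, M.smul' (-1) f hf] at h1
    linarith

section affine

variable {R : Type} [CommRing R] (I : Ideal R)

/-- translation invariant means on the ideal -/
def TMean26 : Type := {μ : Mean I // ∀ (b : I) (f : I → ℝ), Bdd f → μ.E (fun s => f (s + b)) = μ.E f}

/-- push forward under multiplication by a unit -/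
noncomputable def scale26 (u : Rˣ) (μ : TMean26 I) : TMean26 I :=
  ⟨⟨fun f => μ.1.E (fun s => f ((u : R) • s)),
    fun f g hf hg => μ.1.add' _ _ (hf.imp fun _ h x => h _) (hg.imp fun _ h x => h _),
    fun a f hf => μ.1.smul' a _ (hf.imp fun _ h x => h _),
    fun f hf h => μ.1.nonneg' _ (hf.imp fun _ h x => h _) (fun x => h _),
    μ.1.one'⟩, by
    intro b f hf
    show μ.1.E (fun s => f ((u : R) • s + b)) = μ.1.E (fun s => f ((u : R) • s))
    have := μ.2 (((u⁻¹ : Rˣ) : R) • b) (fun s => f ((u : R) • s)) (hf.imp fun _ h x => h _)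
    rw [← this]
    congr 1
    funext s
    congr 1
    rw [smul_add, smul_smul, Units.mul_inv, one_smul]⟩

/-- M1: a mean on the ideal, invariant under all affine maps `s ↦ u s + b` -/
theorem exists_affInv : ∃ M : Mean R, AffInv M I := by
  -- a translation invariant mean
  obtain ⟨μ0, h0⟩ := markov26 (X := I) (ι := I) (fun b s => s + b)
    (fun i j x => by rw [add_assoc, add_assoc, add_comm i j])
  have : Nonempty (TMean26 I) := ⟨⟨μ0, h0⟩⟩
  -- average over the units
  obtain ⟨N, hN⟩ := markov26 (X := TMean26 I) (ι := Rˣ) (scale26 I) (by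
    intro u v μ
    refine Subtype.ext ?_
    show (scale26 I u (scale26 I v μ)).1 = (scale26 I v (scale26 I u μ)).1
    unfold scale26
    simp only [Mean.mk.injEq]
    funext f
    congr 1
    funext s
    rw [smul_smul, smul_smul, mul_comm])
  have hb : ∀ f : R → ℝ, Bdd f → Bdd (fun μ : TMean26 I => μ.1.E (fun s => f s)) := by
    rintro f ⟨B, hB⟩
    exact ⟨B, fun μ => μ.1.bd26 fun s => hB s⟩
  refine ⟨⟨fun f => N.E (fun μ => μ.1.E (fun s => f s)), ?_, ?_, ?_, ?_⟩, ?_, ?_⟩
  · intro f g hf hg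
    rw [← N.add' _ _ (hb f hf) (hb g hg)]
    congr 1
    funext μ
    exact μ.1.add' _ _ (hf.imp fun _ h x => h _) (hg.imp fun _ h x => h _)
  · intro a f hf
    rw [← N.smul' _ _ (hb f hf)]
    congr 1
    funext μ
    exact μ.1.smul' a _ (hf.imp fun _ h x => h _)
  · intro f hf h
    exact N.nonneg' _ (hb f hf) fun μ => μ.1.nonneg' _ (hf.imp fun _ h x => h _) fun s => h _
  · show N.E (fun μ => μ.1.E (fun _ => 1)) = 1
    have : (fun μ : TMean26 I => μ.1.E (fun _ => (1 : ℝ))) = fun _ => 1 := by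
      funext μ; exact μ.1.one'
    rw [this]
    exact N.one'
  · intro f g _ _ h
    show N.E (fun μ => μ.1.E (fun s => f s)) = N.E (fun μ => μ.1.E (fun s => g s))
    have : (fun s : I => f s) = fun s : I => g s := by
      funext s; exact h s s.2
    rw [this]
  · intro u b hu hbI f hf
    obtain ⟨u, rfl⟩ := hu
    show N.E (fun μ => μ.1.E (fun s => f (u * s + b))) = N.E (fun μ => μ.1.E (fun s => f s))
    have h1 := hN u (fun μ => μ.1.E (fun s => f s)) (hb f hf)
    rw [← h1]
    congr 1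
    funext μ
    have h2 := (scale26 I u μ).2 ⟨b, hbI⟩ (fun s => f s) (hf.imp fun _ h x => h _)
    rw [← h2]
    rfl

end affine

end Pool.Agent.AIC.M
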