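import Pool.Agent.AIC.M.Defs34

/-! MP_313bb4, theorem M, row M5: the choice of the points and of the steps of the walk. -/

set_option autoImplicit false

namespace Pool.Agent.AIC.M

open Finset Polynomial

/-- a polynomial which is nonzero modulo every maximal ideal takes a unit value -/
theorem exists_unit_eval46 {R : Type} [CommRing R] [Finite (MaximalSpectrum R)]
    (hinf : ∀ m : Ideal R, m.IsMaximal → Infinite (R ⧸ m)) (f : R[X])
    (hf : ∀ m : Ideal R, m.IsMaximal → f.map (Ideal.Quotient.mk m) ≠ 0) :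
    ∃ x : R, IsUnit (f.eval x) := by
  classical
  have h1 : ∀ m : MaximalSpectrum R, ∃ x : R, f.eval x ∉ m.asIdeal := by
    intro m
    haveI := m.isMaximal
    letI := Ideal.Quotient.field m.asIdeal
    haveI := hinf m.asIdeal m.isMaximal
    obtain ⟨z, hz⟩ := Polynomial.exists_eval_ne_zero_of_natDegree_lt_card
      (f.map (Ideal.Quotient.mk m.asIdeal)) (hf m.asIdeal m.isMaximal)
      (lt_of_lt_of_le Cardinal.natCast_lt_aleph0 (Cardinal.aleph0_le_mk _))
    obtain ⟨x, rfl⟩ := Ideal.Quotient.mk_surjective z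
    refine ⟨x, fun h => hz ?_⟩
    rw [eval_map, eval₂_at_apply]
    exact Ideal.Quotient.eq_zero_iff_mem.mpr h
  choose x hx using h1
  haveI : Fintype (MaximalSpectrum R) := Fintype.ofFinite _
  have hcop : Pairwise (Function.onFun IsCoprime (fun m : MaximalSpectrum R => m.asIdeal)) := by
    intro m m' hne
    rw [Function.onFun, Ideal.isCoprime_iff_sup_eq]
    exact m.isMaximal.coprime_of_ne m'.isMaximal fun h => hne (MaximalSpectrum.ext h)
  obtain ⟨z, hz⟩ := Ideal.exists_forall_sub_mem_ideal hcop x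
  refine ⟨z, ?_⟩
  by_contra hn
  obtain ⟨M, hM, hzM⟩ := exists_max_ideal_of_mem_nonunits hn
  have h2 : z - x ⟨M, hM⟩ ∈ M := hz ⟨M, hM⟩
  apply hx ⟨M, hM⟩
  have h3 : Ideal.Quotient.mk M z = Ideal.Quotient.mk M (x ⟨M, hM⟩) := Ideal.Quotient.eq.mpr h2
  have h4 : Ideal.Quotient.mk M (f.eval (x ⟨M, hM⟩)) = 0 := by
    rw [← eval₂_at_apply, ← h3, eval₂_at_apply]
    exact Ideal.Quotient.eq_zero_iff_mem.mpr hzM
  exact Ideal.Quotient.eq_zero_iff_mem.mp h4

/-- finitely many polynomials of degree at most one at the same time -/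
theorem exists_unit_evals46 {R : Type} [CommRing R] [Finite (MaximalSpectrum R)]
    (hinf : ∀ m : Ideal R, m.IsMaximal → Infinite (R ⧸ m)) {ι : Type} (s : Finset ι)
    (a b : ι → R) (hf : ∀ i ∈ s, ∀ m : Ideal R, m.IsMaximal → ¬ (a i ∈ m ∧ b i ∈ m)) :
    ∃ x : R, ∀ i ∈ s, IsUnit (a i * x + b i) := by
  classical
  obtain ⟨x, hx⟩ := exists_unit_eval46 hinf (∏ i ∈ s, (C (a i) * X + C (b i))) (by
    intro m hm
    haveI := hm.isPrime
    rw [Polynomial.map_prod, Finset.prod_ne_zero_iff]
    intro i hi h0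
    rw [Polynomial.map_add, Polynomial.map_mul, map_C, map_X, map_C] at h0
    apply hf i hi m hm
    constructor
    · have h1 := congrArg (fun g => coeff g 1) h0
      simp only [coeff_add, coeff_C_mul, coeff_X_one, mul_one, coeff_C, coeff_zero] at h1
      rw [if_neg one_ne_zero, add_zero] at h1
      exact Ideal.Quotient.eq_zero_iff_mem.mp h1
    · have h1 := congrArg (fun g => coeff g 0) h0
      simp only [coeff_add, coeff_C_mul, coeff_X_zero, mul_zero, zero_add, coeff_C_zero,
        coeff_zero] at h1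
      exact Ideal.Quotient.eq_zero_iff_mem.mp h1)
  refine ⟨x, fun i hi => ?_⟩
  rw [eval_prod] at hx
  have h2 : IsUnit (eval x (C (a i) * X + C (b i))) :=
    isUnit_of_dvd_unit (Finset.dvd_prod_of_mem (fun j => eval x (C (a j) * X + C (b j))) hi) hx
  simpa using h2

/-- M5' -/
theorem exists_units {R : Type} [CommRing R] [Finite (MaximalSpectrum R)]
    (hinf : ∀ m : Ideal R, m.IsMaximal → Infinite (R ⧸ m)) (N : ℕ) :
    ∃ l : Fin N → R, ∀ i j, i ≠ j → IsUnit (l i - l j) := by
  induction N with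
  | zero => exact ⟨Fin.elim0, fun i => i.elim0⟩
  | succ N ih =>
    obtain ⟨l, hl⟩ := ih
    obtain ⟨x, hx⟩ := exists_unit_evals46 hinf Finset.univ (fun _ : Fin N => (1 : R))
      (fun i => - l i) (fun i _ m hm h => hm.ne_top ((Ideal.eq_top_iff_one m).mpr h.1))
    refine ⟨Fin.cons x l, ?_⟩
    intro i j hij
    induction i using Fin.cases with
    | zero =>
      induction j using Fin.cases with
      | zero => exact absurd rfl hij
      | succ j =>
        rw [Fin.cons_zero, Fin.cons_succ]
        have := hx j (Finset.mem_univ j)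
        rwa [one_mul, ← sub_eq_add_neg] at this
    | succ i =>
      induction j using Fin.cases with
      | zero =>
        rw [Fin.cons_zero, Fin.cons_succ]
        have := (hx i (Finset.mem_univ i)).neg
        rwa [one_mul, ← sub_eq_add_neg, neg_sub] at this
      | succ j =>
        rw [Fin.cons_succ, Fin.cons_succ]
        exact hl i j fun h => hij (congrArg Fin.succ h)

/-- two steps for one pair of points -/
theorem two_steps46 {R : Type} [CommRing R] [Finite (MaximalSpectrum R)]
    (hinf : ∀ m : Ideal R, m.IsMaximal → Infinite (R ⧸ m)) {n : ℕ} (x : Fin n → R)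
    (hx : ∀ i j, i ≠ j → IsUnit (x i - x j)) (y : R) (hy : IsUnit y) (i j : Fin n) (hij : i ≠ j) :
    ∃ p r : R, (∀ c, IsUnit (x c + p)) ∧ (∀ c, IsUnit (x c + r)) ∧
      (x i + r) * (x j + p) = y * ((x i + p) * (x j + r)) := by
  classical
  have hnot : ∀ (u : R), IsUnit u → ∀ m : Ideal R, m.IsMaximal → u ∉ m := fun u hu m hm h =>
    hm.ne_top (Ideal.eq_top_of_isUnit_mem m h hu)
  -- the polynomials
  obtain ⟨p, hp⟩ := exists_unit_evals46 hinf (Finset.univ : Finset (Fin n ⊕ (Unit ⊕ Fin n)))
    (Sum.elim (fun _ => 1) (Sum.elim (fun _ => 1 - y) (fun c => (x c - x i) - y * (x c - x j))))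
    (Sum.elim (fun c => x c) (Sum.elim (fun _ => x j - y * x i)
      (fun c => (x c - x i) * x j - y * x i * (x c - x j)))) (by
    rintro (c | (c | c)) - m hm ⟨h1, h2⟩
    · exact hm.ne_top ((Ideal.eq_top_iff_one m).mpr h1)
    · simp only [Sum.elim_inr, Sum.elim_inl] at h1 h2
      apply hnot _ (hx j i hij.symm) m hm
      have h3 : x j - x i = (x j - y * x i) - x i * (1 - y) := by ring
      rw [h3]
      exact sub_mem h2 (m.mul_mem_left _ h1)
    · simp only [Sum.elim_inr] at h1 h2
      have h3 : (x c - x i) * (x j - x i) = ((x c - x i) * x j - y * x i * (x c - x j))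
          - x i * ((x c - x i) - y * (x c - x j)) := by ring
      have h4 : (x c - x i) * (x j - x i) ∈ m := by
        rw [h3]
        exact sub_mem h2 (m.mul_mem_left _ h1)
      have h5 : x c - x i ∈ m := (hm.isPrime.mem_or_mem h4).resolve_right
        (hnot _ (hx j i hij.symm) m hm)
      have hci : c = i := by
        by_contra hne
        exact hnot _ (hx c i hne) m hm h5
      subst hci
      have h6 : y * (x c - x j) ∈ m := by
        have h7 : y * (x c - x j) = (x c - x c) - ((x c - x c) - y * (x c - x j)) := by ring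
        rw [h7]
        exact sub_mem h5 h1
      exact hnot _ (hy.mul (hx c j hij)) m hm h6)
  have hp1 : ∀ c, IsUnit (x c + p) := by
    intro c
    have := hp (Sum.inl c) (Finset.mem_univ _)
    simp only [Sum.elim_inl, one_mul] at this
    rwa [add_comm] at this
  have hp2 : IsUnit ((x j + p) - y * (x i + p)) := by
    have := hp (Sum.inr (Sum.inl ())) (Finset.mem_univ _)
    simp only [Sum.elim_inr, Sum.elim_inl] at this
    have h3 : (x j + p) - y * (x i + p) = (1 - y) * p + (x j - y * x i) := by ring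
    rwa [h3]
  have hp3 : ∀ c, IsUnit ((x c - x i) * (x j + p) - y * (x i + p) * (x c - x j)) := by
    intro c
    have := hp (Sum.inr (Sum.inr c)) (Finset.mem_univ _)
    simp only [Sum.elim_inr] at this
    have h3 : (x c - x i) * (x j + p) - y * (x i + p) * (x c - x j) =
        ((x c - x i) - y * (x c - x j)) * p + ((x c - x i) * x j - y * x i * (x c - x j)) := by
      ring
    rwa [h3]
  obtain ⟨d, hd⟩ := hp2
  have hdd : (x j + p) - y * (x i + p) = (d : R) := hd.symm
  set r : R := (y * (x i + p) * x j - x i * (x j + p)) * ↑d⁻¹ with hr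
  have hrd : r * d = y * (x i + p) * x j - x i * (x j + p) := by
    rw [hr, mul_assoc, Units.inv_mul, mul_one]
  refine ⟨p, r, hp1, fun c => ?_, ?_⟩
  · have h4 : (x c + r) * d = (x c - x i) * (x j + p) - y * (x i + p) * (x c - x j) := by
      rw [add_mul, hrd, ← hdd]
      ring
    have h5 : IsUnit ((x c + r) * d) := by
      rw [h4]
      exact hp3 c
    exact isUnit_of_mul_isUnit_left h5
  · have h6 : ((x i + r) * (x j + p) - y * ((x i + p) * (x j + r))) * (d : R) = 0 := by
      have h7 : ((x i + r) * (x j + p) - y * ((x i + p) * (x j + r))) * (d : R) =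
          (x i * (x j + p) - y * ((x i + p) * x j)) * d
          + (r * d) * ((x j + p) - y * (x i + p)) := by ring
      rw [h7, hrd, hdd]
      ring
    have h8 := (d.isUnit.mul_left_eq_zero).mp h6
    exact sub_eq_zero.mp h8

/-- the walk for a list of pairs -/
theorem walk_list46 {R : Type} [CommRing R] [Finite (MaximalSpectrum R)]
    (hinf : ∀ m : Ideal R, m.IsMaximal → Infinite (R ⧸ m)) {n : ℕ} (x : Fin n → R)
    (hx : ∀ i j, i ≠ j → IsUnit (x i - x j)) (y : R) (hy : IsUnit y)
    (L : List (Fin n × Fin n)) (hL : ∀ p ∈ L, p.1 ≠ p.2) :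
    ∀ p₀ : R, (∀ c, IsUnit (x c + p₀)) → ∃ l : List R, l.length = 2 * L.length ∧
      (∀ c, Good l (x c + p₀)) ∧ ∀ p ∈ L, Sep y l (x p.1 + p₀) (x p.2 + p₀) := by
  induction L with
  | nil => exact fun p₀ h => ⟨[], rfl, h, fun p hp => absurd hp (List.not_mem_nil)⟩
  | cons P L ih =>
    intro p₀ h₀
    obtain ⟨p, r, hp, hr, hpr⟩ := two_steps46 hinf x hx y hy P.1 P.2 (hL P List.mem_cons_self)
    obtain ⟨l, hl1, hl2, hl3⟩ := ih (fun p hp => hL p (List.mem_cons_of_mem _ hp)) r hr
    have e1 : ∀ c, x c + p₀ + (p - p₀) = x c + p := fun c => by ring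
    have e2 : ∀ c, x c + p + (r - p) = x c + r := fun c => by ring
    refine ⟨(p - p₀) :: (r - p) :: l, ?_, fun c => ⟨h₀ c, ?_⟩, fun P' hP' => ?_⟩
    · rw [List.length_cons, List.length_cons, List.length_cons, hl1]
      ring
    · rw [e1]
      refine ⟨hp c, ?_⟩
      rw [e2]
      exact hl2 c
    · rcases List.mem_cons.mp hP' with rfl | h
      · right
        rw [e1, e1]
        left
        rw [e2, e2]
        exact hpr
      · right
        rw [e1, e1]
        right
        rw [e2, e2]
        exact hl3 P' h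

/-- M5 -/
theorem exists_walk {R : Type} [CommRing R] [Nontrivial R] [Finite (MaximalSpectrum R)]
    (hinf : ∀ m : Ideal R, m.IsMaximal → Infinite (R ⧸ m)) (n : ℕ) :
    ∃ K : ℕ, ∀ y : R, IsUnit y → ∃ (l : List R) (x : Fin n → R), l.length = K ∧
      (∀ i, Good l (x i)) ∧ ∀ i j, i < j → Sep y l (x i) (x j) := by
  classical
  set L : List (Fin n × Fin n) :=
    ((Finset.univ : Finset (Fin n × Fin n)).filter fun p => p.1 < p.2).toList with hL
  refine ⟨2 * L.length, fun y hy => ?_⟩
  obtain ⟨x, hx⟩ := exists_units hinf n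
  obtain ⟨p₀, hp₀⟩ := exists_unit_evals46 hinf Finset.univ (fun _ : Fin n => (1 : R)) x
    (fun i _ m hm h => hm.ne_top ((Ideal.eq_top_iff_one m).mpr h.1))
  obtain ⟨l, hl1, hl2, hl3⟩ := walk_list46 hinf x hx y hy L (by
    intro p hp
    rw [hL, Finset.mem_toList, Finset.mem_filter] at hp
    exact hp.2.ne) p₀ (fun c => by
      have := hp₀ c (Finset.mem_univ c)
      rwa [one_mul, add_comm] at this)
  refine ⟨l, fun i => x i + p₀, hl1, hl2, fun i j hij => ?_⟩
  exact hl3 (i, j) (by
    rw [hL, Finset.mem_toList, Finset.mem_filter]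
    exact ⟨Finset.mem_univ _, hij⟩)

end Pool.Agent.AIC.M
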