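import Mathlib
import Pool.Agent.AIC.M.Defs34
import Pool.Agent.AIC.M.Api34
import Pool.Agent.AIC.M.Lemmas34
import Pool.Agent.AIC.M.LemmaC34

/-! MP_313bb4, theorem M: the walk. -/

set_option autoImplicit false
set_option linter.unusedSectionVars false

namespace Pool.Agent.AIC.M

variable {R Q : Type} [CommRing R] [CommGroup Q] {q : ℕ}

theorem Good.isUnit34 {l : List R} {x : R} (h : Good l x) : IsUnit x := by
  cases l with
  | nil => exact h
  | cons μ l => exact h.1

/-- the sum of the probabilities of the values is at most one -/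
theorem sum_P_le34 {X : Type} (M : Mean X) (G : X → Q) (V : Finset Q) :
    ∑ v ∈ V, M.P (fun s => G s = v) ≤ 1 := by
  classical
  have h := M.E_sum V (f := fun v => ind (fun s => G s = v)) fun v _ => bdd_ind _
  change M.E _ = ∑ v ∈ V, M.P (fun s => G s = v) at h
  rw [← h]
  refine M.E_le (Bdd.sum V fun v _ => bdd_ind _) 1 fun s => ?_
  have h1 : ∀ v ∈ V, ind (fun s => G s = v) s = if G s = v then (1 : ℝ) else 0 := by
    intro v _
    unfold ind
    congr
  rw [Finset.sum_congr rfl h1, Finset.sum_ite_eq]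
  split_ifs <;> norm_num

/-- one step of the walk: the exact identity -/
theorem step34 (D : Data R Q q) (μ t s x x1 X X1 : R) (hx : x * x1 = 1) (hX : X = x + μ)
    (hX1 : X * X1 = 1) (hs : s ∈ D.J) :
    D.χ (1 + x1 * ((μ + t) * s * Ring.inverse (1 + s))) =
      D.χ (1 + (1 + X1 * t) * (X * x1) * s) * (D.χ (1 + s))⁻¹ := by
  have hu : IsUnit (1 + s) := D.hJ _ hs
  have hi : Ring.inverse (1 + s) * (1 + s) = 1 := Ring.inverse_mul_cancel _ hu
  have e1 : (1 + x1 * ((μ + t) * s * Ring.inverse (1 + s))) * (1 + s) =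
      1 + (1 + X1 * t) * (X * x1) * s := by
    have a1 : (1 + x1 * ((μ + t) * s * Ring.inverse (1 + s))) * (1 + s) =
        1 + s + x1 * ((μ + t) * s) * (Ring.inverse (1 + s) * (1 + s)) := by ring
    have a2 : 1 + (1 + X1 * t) * (X * x1) * s = 1 + X * x1 * s + (X * X1) * (x1 * t * s) := by ring
    rw [a1, hi, a2, hX1, hX]
    have a3 : (x + μ) * x1 * s = (x * x1) * s + μ * x1 * s := by ring
    rw [a3, hx]
    ring
  have hu2 : IsUnit (1 + x1 * ((μ + t) * s * Ring.inverse (1 + s))) := by
    refine D.hJ _ ?_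
    have : x1 * ((μ + t) * s * Ring.inverse (1 + s)) = x1 * (μ + t) * Ring.inverse (1 + s) * s := by
      ring
    rw [this]
    exact D.J.mul_mem_left _ hs
  rw [← e1, D.hχ _ _ hu2 hu, mul_inv_cancel_right]

/-- the walk -/
theorem walk_aux34 (hmean : ∀ I : Ideal R, ∃ M : Mean R, AffInv M I)
    (D : Data R Q q) (hpack : PackChi D) (hinf : ManyUnits R) (hq0 : 0 < q)
    (c : R) (hc : c ∈ D.J) (y : R) (hy : IsUnit y) (hne : D.χ (y ^ q) ≠ 1) (l : List R) :
    ∀ a : ℕ, c ^ (2 ^ (a + l.length)) ∣ y ^ q - 1 →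
    ∃ M : Mean R, (∀ f g, Bdd f → Bdd g → (∀ s ∈ Ideal.span {c ^ (2 ^ a)}, f s = g s) →
      M.E f = M.E g) ∧
      ∀ x x' x1 x1' : R, Good l x → Good l x' → Sep y l x x' → x * x1 = 1 → x' * x1' = 1 →
        ∀ w : Q, M.P (fun t => D.χ (1 + x1 * t) = w * D.χ (1 + x1' * t)) ≤ 1 - 1 / q := by
  classical
  have hq1 : (1 : ℝ) ≤ q := by exact_mod_cast hq0
  have hqpos : (0 : ℝ) < q := by linarith
  have hB0 : 0 ≤ 1 - 1 / (q : ℝ) := by
    have : 1 / (q : ℝ) ≤ 1 := by
      rw [div_le_one hqpos]
      exact hq1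
    linarith
  induction l with
  | nil =>
    intro a _
    refine ⟨Mean.dirac 0, fun f g _ _ h => h 0 (Ideal.zero_mem _), ?_⟩
    intro x x' x1 x1' _ _ hsep
    exact hsep.elim
  | cons μ l ih =>
    intro a hdiv
    obtain ⟨M', hsupp', hM'⟩ := ih (a + 1) (by
      have : a + 1 + l.length = a + (μ :: l).length := by
        rw [List.length_cons]
        ring
      rw [this]
      exact hdiv)
    obtain ⟨I, hIdef⟩ : ∃ I : Ideal R, I = Ideal.span {c ^ (2 ^ a)} := ⟨_, rfl⟩
    obtain ⟨I', hI'def⟩ : ∃ I' : Ideal R, I' = Ideal.span {c ^ (2 ^ (a + 1))} := ⟨_, rfl⟩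
    rw [← hI'def] at hsupp'
    rw [← hIdef]
    have hcI : c ^ (2 ^ a) ∈ I := by
      rw [hIdef]
      exact Ideal.mem_span_singleton_self _
    have hI : I ≤ D.J := by
      rw [hIdef, Ideal.span_singleton_le_iff_mem]
      exact D.J.pow_mem_of_mem hc _ (by positivity)
    have hI'I : ∀ t ∈ I', ∃ r, t = r * c ^ (2 ^ a) * c ^ (2 ^ a) := by
      intro t ht
      rw [hI'def, Ideal.mem_span_singleton] at ht
      obtain ⟨r, rfl⟩ := ht
      refine ⟨r, ?_⟩
      rw [pow_succ 2 a, mul_two, pow_add]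
      ring
    have hI'J : ∀ t ∈ I', t ∈ D.J := by
      intro t ht
      obtain ⟨r, rfl⟩ := hI'I t ht
      exact D.J.mul_mem_left _ (hI hcI)
    obtain ⟨MI, hMI⟩ := hmean I
    obtain ⟨r0, hr0⟩ : ∃ r, y ^ q = 1 + r * c ^ (2 ^ a) * c ^ (2 ^ a) := by
      have h1 : c ^ (2 ^ (a + 1)) ∣ y ^ q - 1 := by
        refine dvd_trans (pow_dvd_pow c ?_) hdiv
        refine Nat.pow_le_pow_right (by norm_num) ?_
        rw [List.length_cons]
        omega
      obtain ⟨r, hr⟩ := h1
      refine ⟨r, ?_⟩
      have h2 : y ^ q = 1 + (y ^ q - 1) := by ring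
      rw [h2, hr, pow_succ 2 a, mul_two, pow_add]
      ring
    refine ⟨M'.bind (fun t => MI.map (fun s => (μ + t) * s * Ring.inverse (1 + s))), ?_, ?_⟩
    · intro f g hf hg h
      rw [Mean.bind_E, Mean.bind_E]
      congr 1
      funext t
      rw [Mean.map_E, Mean.map_E]
      refine hMI.supp _ _ (hf.comp _) (hg.comp _) fun s hs => h _ ?_
      have : (μ + t) * s * Ring.inverse (1 + s) = (μ + t) * Ring.inverse (1 + s) * s := by ring
      rw [this]
      exact I.mul_mem_left _ hs
    · intro x x' x1 x1' hgx hgx' hsep hx1 hx1' w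
      have hXu : IsUnit (x + μ) := Good.isUnit34 hgx.2
      have hXu' : IsUnit (x' + μ) := Good.isUnit34 hgx'.2
      obtain ⟨X1, hX1⟩ := hXu.exists_right_inv
      obtain ⟨X1', hX1'⟩ := hXu'.exists_right_inv
      have hx1u : IsUnit x1 := isUnit_iff_exists_inv.2 ⟨x, by rw [mul_comm]; exact hx1⟩
      have hx1u' : IsUnit x1' := isUnit_iff_exists_inv.2 ⟨x', by rw [mul_comm]; exact hx1'⟩
      rw [Mean.bind_P]
      -- the inner probability
      have hinner : ∀ t ∈ I',
          (MI.map (fun s => (μ + t) * s * Ring.inverse (1 + s))).P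
            (fun t => D.χ (1 + x1 * t) = w * D.χ (1 + x1' * t)) ≤
          MI.P (fun s => D.χ (1 + X1 * t) * D.χ (1 + (x + μ) * x1 * s) =
            w * (D.χ (1 + X1' * t) * D.χ (1 + (x' + μ) * x1' * s))) := by
        intro t ht
        obtain ⟨r, hr⟩ := hI'I t ht
        rw [Mean.map_P]
        have n1 := lemma2 D hpack hinf I hI MI hMI (X1 * (r * c ^ (2 ^ a))) (c ^ (2 ^ a))
          (I.mul_mem_left _ (I.mul_mem_left _ hcI)) hcI ((x + μ) * x1) (hXu.mul hx1u)
        have n2 := lemma2 D hpack hinf I hI MI hMI (X1' * (r * c ^ (2 ^ a))) (c ^ (2 ^ a))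
          (I.mul_mem_left _ (I.mul_mem_left _ hcI)) hcI ((x' + μ) * x1') (hXu'.mul hx1u')
        have e1 : 1 + X1 * (r * c ^ (2 ^ a)) * c ^ (2 ^ a) = 1 + X1 * t := by
          rw [hr]
          ring
        have e2 : 1 + X1' * (r * c ^ (2 ^ a)) * c ^ (2 ^ a) = 1 + X1' * t := by
          rw [hr]
          ring
        rw [e1] at n1
        rw [e2] at n2
        have hst : MI.P (fun s => D.χ (1 + x1 * ((μ + t) * s * Ring.inverse (1 + s))) =
            w * D.χ (1 + x1' * ((μ + t) * s * Ring.inverse (1 + s)))) =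
            MI.P (fun s => D.χ (1 + (1 + X1 * t) * ((x + μ) * x1) * s) =
              w * D.χ (1 + (1 + X1' * t) * ((x' + μ) * x1') * s)) := by
          refine hMI.P_congr34 fun s hs => ?_
          rw [step34 D μ t s x x1 (x + μ) X1 hx1 rfl hX1 (hI hs),
            step34 D μ t s x' x1' (x' + μ) X1' hx1' rfl hX1' (hI hs),
            ← mul_assoc w (D.χ (1 + (1 + X1' * t) * ((x' + μ) * x1') * s))]
          exact ⟨fun h => mul_right_cancel h, fun h => by rw [h]⟩
        rw [hst]
        refine le_trans (MI.P_le_add (r := fun s => (D.χ (1 + X1 * t) * D.χ (1 + (x + μ) * x1 * s) =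
            w * (D.χ (1 + X1' * t) * D.χ (1 + (x' + μ) * x1' * s))) ∨
            ¬ D.χ (1 + (1 + X1 * t) * ((x + μ) * x1) * s) =
              D.χ (1 + X1 * t) * D.χ (1 + (x + μ) * x1 * s))
          (e := fun s => ¬ D.χ (1 + (1 + X1' * t) * ((x' + μ) * x1') * s) =
              D.χ (1 + X1' * t) * D.χ (1 + (x' + μ) * x1' * s)) ?_) ?_
        · intro s hs
          by_cases h1 : D.χ (1 + (1 + X1 * t) * ((x + μ) * x1) * s) =
              D.χ (1 + X1 * t) * D.χ (1 + (x + μ) * x1 * s)
          · by_cases h2 : D.χ (1 + (1 + X1' * t) * ((x' + μ) * x1') * s) =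
              D.χ (1 + X1' * t) * D.χ (1 + (x' + μ) * x1' * s)
            · left
              left
              rw [← h1, ← h2]
              exact hs
            · right
              exact h2
          · left
            right
            exact h1
        · rw [n2, add_zero]
          refine le_trans (MI.P_or_le _ _) ?_
          rw [n1, add_zero]
      -- restrict to the support
      have hred : ∀ (g : R → ℝ), Bdd g → (∀ t ∈ I',
          (MI.map (fun s => (μ + t) * s * Ring.inverse (1 + s))).P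
            (fun t => D.χ (1 + x1 * t) = w * D.χ (1 + x1' * t)) ≤ g t) → (∀ t, 0 ≤ g t) →
          M'.E (fun t => (MI.map (fun s => (μ + t) * s * Ring.inverse (1 + s))).P
            (fun t => D.χ (1 + x1 * t) = w * D.χ (1 + x1' * t))) ≤ M'.E g := by
        intro g hg hle hg0
        have hb : Bdd (fun t => (MI.map (fun s => (μ + t) * s * Ring.inverse (1 + s))).P
            (fun t => D.χ (1 + x1 * t) = w * D.χ (1 + x1' * t))) :=
          Bdd.of_nonneg_le 1 (fun t => Mean.P_nonneg _ _) (fun t => Mean.P_le_one _ _)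
        have hb2 : Bdd (fun t => ind (fun t => t ∈ I') t *
            (MI.map (fun s => (μ + t) * s * Ring.inverse (1 + s))).P
            (fun t => D.χ (1 + x1 * t) = w * D.χ (1 + x1' * t))) := (bdd_ind _).mul hb
        rw [hsupp' _ _ hb hb2 fun t ht => by rw [ind_of_pos (p := fun t => t ∈ I') ht, one_mul]]
        refine M'.E_mono hb2 hg fun t => ?_
        by_cases ht : t ∈ I'
        · rw [ind_of_pos (p := fun t => t ∈ I') ht, one_mul]
          exact hle t ht
        · rw [ind_of_neg (p := fun t => t ∈ I') ht, zero_mul]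
          exact hg0 t
      rcases hsep with hsp | hsp
      · -- the special step
        have hfin := hred (fun _ => 1 - 1 / (q : ℝ)) (Bdd.const _) (fun t ht => ?_) (fun _ => hB0)
        · rwa [M'.E_const] at hfin
        refine (hinner t ht).trans ?_
        have hrel : (x + μ) * x1 = y * ((x' + μ) * x1') := by
          have h1 : (x + μ) * x' * (x1 * x1') = y * (x * (x' + μ)) * (x1 * x1') := by rw [hsp]
          have h2 : (x + μ) * x' * (x1 * x1') = (x + μ) * x1 * (x' * x1') := by ring
          have h3 : y * (x * (x' + μ)) * (x1 * x1') = y * ((x' + μ) * x1') * (x * x1) := by ring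
          rw [h2, h3, hx1, hx1', mul_one, mul_one] at h1
          exact h1
        have h3 := lemma3 D hpack hinf hq0 I hI MI hMI y (r0 * c ^ (2 ^ a)) (c ^ (2 ^ a)) hy
          (I.mul_mem_left _ hcI) hcI hr0 hne
          ((D.χ (1 + X1 * t))⁻¹ * (w * D.χ (1 + X1' * t)))
        rw [← hMI.P_inv34 (fun s => D.χ (1 + y * s) =
          ((D.χ (1 + X1 * t))⁻¹ * (w * D.χ (1 + X1' * t))) * D.χ (1 + s)) ((x' + μ) * x1') 0
          (hXu'.mul hx1u') I.zero_mem] at h3
        refine le_trans (MI.P_mono fun s hs => ?_) h3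
        have e1 : 1 + y * ((x' + μ) * x1' * s + 0) = 1 + (x + μ) * x1 * s := by
          rw [hrel]
          ring
        have e2 : 1 + ((x' + μ) * x1' * s + 0) = 1 + (x' + μ) * x1' * s := by ring
        rw [e1, e2, mul_assoc (D.χ (1 + X1 * t))⁻¹, mul_assoc w, ← hs, inv_mul_cancel_left]
      · -- the special step comes later
        obtain ⟨S, hS⟩ : ∃ S : Finset Q, ∀ u, u - 1 ∈ D.J → D.χ u ∈ S :=
          ⟨D.hfin.toFinset, fun u hu => by
            rw [Set.Finite.mem_toFinset]
            exact ⟨u, hu, rfl⟩⟩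
        obtain ⟨V, hV⟩ : ∃ V : Finset Q, ∀ a ∈ S, ∀ b ∈ S, a * b⁻¹ ∈ V :=
          ⟨(S ×ˢ S).image fun p => p.1 * p.2⁻¹, fun a ha b hb =>
            Finset.mem_image.2 ⟨(a, b), Finset.mem_product.2 ⟨ha, hb⟩, rfl⟩⟩
        obtain ⟨G, hG⟩ : ∃ G : R → Q, G = fun s => D.χ (1 + (x + μ) * x1 * s) *
          (D.χ (1 + (x' + μ) * x1' * s))⁻¹ := ⟨_, rfl⟩
        have hGV : ∀ s ∈ I, G s ∈ V := by
          intro s hs
          rw [hG]
          refine hV _ (hS _ ?_) _ (hS _ ?_)
          · rw [add_sub_cancel_left]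
            exact D.J.mul_mem_left _ (hI hs)
          · rw [add_sub_cancel_left]
            exact D.J.mul_mem_left _ (hI hs)
        have hgb : Bdd (fun t => ∑ v ∈ V, MI.P (fun s => G s = v) *
            ind (fun t => D.χ (1 + X1 * t) = (w * v⁻¹) * D.χ (1 + X1' * t)) t) :=
          Bdd.sum V fun v _ => Bdd.smul _ (bdd_ind _)
        refine (hred _ hgb (fun t ht => ?_) fun t => Finset.sum_nonneg fun v _ =>
          mul_nonneg (MI.P_nonneg _) (ind_nonneg _ _)).trans ?_
        · refine (hinner t ht).trans ?_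
          -- the only value that counts
          obtain ⟨v0, hv0⟩ : ∃ v0 : Q, v0 = w * D.χ (1 + X1' * t) * (D.χ (1 + X1 * t))⁻¹ := ⟨_, rfl⟩
          have hle : MI.P (fun s => D.χ (1 + X1 * t) * D.χ (1 + (x + μ) * x1 * s) =
              w * (D.χ (1 + X1' * t) * D.χ (1 + (x' + μ) * x1' * s))) =
              MI.P (fun s => G s = v0) := by
            refine MI.P_congr fun s => ?_
            rw [hG, hv0]
            constructor
            · intro h
              show D.χ (1 + (x + μ) * x1 * s) * (D.χ (1 + (x' + μ) * x1' * s))⁻¹ = _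
              have h1 : D.χ (1 + (x + μ) * x1 * s) = (D.χ (1 + X1 * t))⁻¹ *
                  (w * (D.χ (1 + X1' * t) * D.χ (1 + (x' + μ) * x1' * s))) := by
                rw [← h, inv_mul_cancel_left]
              rw [h1, mul_comm (w * D.χ (1 + X1' * t)), mul_assoc, mul_assoc, mul_assoc,
                mul_inv_cancel, mul_one]
            · intro h
              have h' : D.χ (1 + (x + μ) * x1 * s) * (D.χ (1 + (x' + μ) * x1' * s))⁻¹ =
                w * D.χ (1 + X1' * t) * (D.χ (1 + X1 * t))⁻¹ := h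
              have h1 : D.χ (1 + (x + μ) * x1 * s) =
                  w * D.χ (1 + X1' * t) * (D.χ (1 + X1 * t))⁻¹ * D.χ (1 + (x' + μ) * x1' * s) := by
                rw [← h', inv_mul_cancel_right]
              rw [h1, mul_comm (w * D.χ (1 + X1' * t)), ← mul_assoc, ← mul_assoc, mul_inv_cancel,
                one_mul, mul_assoc]
          rw [hle]
          by_cases hvV : v0 ∈ V
          · refine le_trans ?_ (Finset.single_le_sum (f := fun v => MI.P (fun s => G s = v) *
              ind (fun t => D.χ (1 + X1 * t) = (w * v⁻¹) * D.χ (1 + X1' * t)) t)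
              (fun v _ => mul_nonneg (MI.P_nonneg _) (ind_nonneg _ _)) hvV)
            have hpos : D.χ (1 + X1 * t) = (w * v0⁻¹) * D.χ (1 + X1' * t) := by
              rw [hv0, mul_inv, mul_inv, inv_inv]
              have : w * (w⁻¹ * (D.χ (1 + X1' * t))⁻¹ * D.χ (1 + X1 * t)) * D.χ (1 + X1' * t) =
                (w * w⁻¹) * ((D.χ (1 + X1' * t))⁻¹ * D.χ (1 + X1' * t)) * D.χ (1 + X1 * t) := by
                rw [mul_assoc w⁻¹, ← mul_assoc w w⁻¹, mul_assoc (w * w⁻¹), mul_assoc (w * w⁻¹),
                  mul_assoc (D.χ (1 + X1' * t))⁻¹, mul_comm (D.χ (1 + X1 * t)) (D.χ (1 + X1' * t)),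
                  ← mul_assoc (D.χ (1 + X1' * t))⁻¹]
              rw [this, mul_inv_cancel, inv_mul_cancel, one_mul, one_mul]
            show MI.P (fun s => G s = v0) ≤ MI.P (fun s => G s = v0) *
              ind (fun t => D.χ (1 + X1 * t) = (w * v0⁻¹) * D.χ (1 + X1' * t)) t
            rw [ind_of_pos (p := fun t => D.χ (1 + X1 * t) = (w * v0⁻¹) * D.χ (1 + X1' * t)) hpos,
              mul_one]
          · have : MI.P (fun s => G s = v0) = MI.P (fun _ => False) := by
              refine hMI.P_congr34 fun s hs => ⟨fun h => hvV (h ▸ hGV s hs), fun h => h.elim⟩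
            rw [this, MI.P_false fun _ h => h]
            exact Finset.sum_nonneg fun v _ => mul_nonneg (MI.P_nonneg _) (ind_nonneg _ _)
        · rw [M'.E_sum V fun v _ => Bdd.smul _ (bdd_ind _)]
          have h1 : ∀ v ∈ V, M'.E (fun t => MI.P (fun s => G s = v) *
              ind (fun t => D.χ (1 + X1 * t) = (w * v⁻¹) * D.χ (1 + X1' * t)) t) ≤
              MI.P (fun s => G s = v) * (1 - 1 / q) := by
            intro v _
            rw [M'.E_smul _ (bdd_ind _)]
            exact mul_le_mul_of_nonneg_left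
              (hM' _ _ X1 X1' hgx.2 hgx'.2 hsp hX1 hX1' (w * v⁻¹)) (MI.P_nonneg _)
          refine (Finset.sum_le_sum h1).trans ?_
          rw [← Finset.sum_mul]
          have h2 := sum_P_le34 MI G V
          nlinarith

end Pool.Agent.AIC.M
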