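import Mathlib
import Pool.Agent.AIC.M.Defs34
import Pool.Agent.AIC.M.Api34
import Pool.Agent.AIC.M.Lemmas34
import Pool.Agent.AIC.M.LemmaC34
import Pool.Agent.AIC.M.WalkM34
import Pool.Agent.AIC.M.Walk46
import Pool.Agent.AIC.M.Mean26

/-! MP_313bb4, theorem M: the core. -/

set_option autoImplicit false
set_option linter.unusedSectionVars false

namespace Pool.Agent.AIC.M

variable {R Q : Type} [CommRing R] [CommGroup Q] {q : ℕ}

/-- the core: the data are contradictory if there are `y` with `y ^ q` very near `1` and not in the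
group -/
theorem core34 (D : Data R Q q) (hpack : PackChi D) [Nontrivial R] [Finite (MaximalSpectrum R)]
    (hinf : ∀ m : Ideal R, m.IsMaximal → Infinite (R ⧸ m)) (hq0 : 0 < q)
    (c : R) (hc : c ∈ D.J)
    (hy : ∀ N : ℕ, ∃ y : R, IsUnit y ∧ c ^ N ∣ y ^ q - 1 ∧ D.χ (y ^ q) ≠ 1) : False := by
  have hqpos : (0 : ℝ) < q := by exact_mod_cast hq0
  obtain ⟨N, hN⟩ := hpack (1 / q) (by positivity)
  obtain ⟨K, hK⟩ := exists_walk hinf N
  obtain ⟨y, hyu, hdiv, hne⟩ := hy (2 ^ K)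
  obtain ⟨l, x, hl, hgood, hsep⟩ := hK y hyu
  obtain ⟨M, hsupp, hM⟩ := walk_aux34 exists_affInv D hpack (exists_units hinf) hq0 c hc y hyu hne l 0
    (by rw [zero_add, hl]; exact hdiv)
  have hx : ∀ i, ∃ x1, x i * x1 = 1 := fun i => (Good.isUnit34 (hgood i)).exists_right_inv
  choose x1 hx1 using hx
  obtain ⟨i, j, hij, hlt⟩ := hN M (fun _ => 1) x1 (fun _ => 1) x1 (by
      intro i s hs
      have h : 1 + x1 i * s - 1 = x1 i * s := by ring
      show 1 + x1 i * s - 1 ∈ D.J ∧ 1 + x1 i * s - 1 ∈ D.J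
      rw [h]
      exact ⟨D.J.mul_mem_left _ hs, D.J.mul_mem_left _ hs⟩) (by
      intro f g hf hg h
      refine hsupp f g hf hg fun s hs => h s ?_
      rw [pow_zero, pow_one, Ideal.mem_span_singleton] at hs
      obtain ⟨r, rfl⟩ := hs
      exact D.J.mul_mem_right _ hc)
  have h1 := hM (x i) (x j) (x1 i) (x1 j) (hgood i) (hgood j) (hsep i j hij) (hx1 i) (hx1 j) 1
  have h2 : M.P (fun s => ¬ (D.χ (1 + x1 i * s) = D.χ (1 + x1 j * s) ∧
      D.χ (1 + x1 i * s) = D.χ (1 + x1 j * s))) =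
      1 - M.P (fun t => D.χ (1 + x1 i * t) = 1 * D.χ (1 + x1 j * t)) := by
    rw [← M.P_not]
    refine M.P_congr fun s => ?_
    rw [one_mul, and_self]
  rw [h2] at hlt
  linarith

end Pool.Agent.AIC.M
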