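import Pool.Agent.AIC.M.Defs34

/-! MP_313bb4, theorem M, row M2: packing (Sauer-Shelah). -/

set_option autoImplicit false
set_option linter.unusedSectionVars false

namespace Pool.Agent.AIC.M

open Finset

/-! ### means -/

theorem bdd_ind19 {X : Type} (p : X → Prop) : Bdd (ind p) := by
  classical
  refine ⟨1, fun x => ?_⟩
  unfold ind
  split_ifs <;> simp

theorem bdd_add19 {X : Type} {f g : X → ℝ} (hf : Bdd f) (hg : Bdd g) : Bdd (fun x => f x + g x) := by
  obtain ⟨B, hB⟩ := hf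
  obtain ⟨C, hC⟩ := hg
  exact ⟨B + C, fun x => (abs_add_le _ _).trans (add_le_add (hB x) (hC x))⟩

theorem bdd_smul19 {X : Type} (a : ℝ) {f : X → ℝ} (hf : Bdd f) : Bdd (fun x => a * f x) := by
  obtain ⟨B, hB⟩ := hf
  refine ⟨|a| * B, fun x => ?_⟩
  rw [abs_mul]
  exact mul_le_mul_of_nonneg_left (hB x) (abs_nonneg a)

theorem bdd_const19 {X : Type} (a : ℝ) : Bdd (fun _ : X => a) := ⟨|a|, fun _ => le_rfl⟩

theorem bdd_sum19 {X ι : Type} (s : Finset ι) (f : ι → X → ℝ) (hf : ∀ i ∈ s, Bdd (f i)) :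
    Bdd (fun x => ∑ i ∈ s, f i x) := by
  classical
  induction s using Finset.induction_on with
  | empty => simpa using bdd_const19 (X := X) 0
  | insert a s ha ih =>
    have h1 : Bdd (fun x => f a x + ∑ i ∈ s, f i x) :=
      bdd_add19 (hf a (mem_insert_self a s)) (ih (fun i hi => hf i (mem_insert_of_mem hi)))
    have h2 : (fun x => ∑ i ∈ insert a s, f i x) = fun x => f a x + ∑ i ∈ s, f i x := by
      funext x; rw [sum_insert ha]
    rw [h2]; exact h1

theorem E_const19 {X : Type} (M : Mean X) (a : ℝ) : M.E (fun _ => a) = a := by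
  have h := M.smul' a (fun _ => 1) (bdd_const19 1)
  rw [M.one'] at h
  simpa using h

theorem E_mono19 {X : Type} (M : Mean X) {f g : X → ℝ} (hf : Bdd f) (hg : Bdd g)
    (h : ∀ x, f x ≤ g x) : M.E f ≤ M.E g := by
  have hd : Bdd (fun x => g x + -1 * f x) := bdd_add19 hg (bdd_smul19 (-1) hf)
  have h1 := M.add' f (fun x => g x + -1 * f x) hf hd
  have h2 := M.nonneg' _ hd (fun x => by linarith [h x])
  have h3 : (fun x => f x + (g x + -1 * f x)) = g := by funext x; ring
  rw [h3] at h1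
  linarith

theorem E_sum19 {X ι : Type} (M : Mean X) (s : Finset ι) (f : ι → X → ℝ) (hf : ∀ i ∈ s, Bdd (f i)) :
    M.E (fun x => ∑ i ∈ s, f i x) = ∑ i ∈ s, M.E (f i) := by
  classical
  induction s using Finset.induction_on with
  | empty => simpa using E_const19 M 0
  | insert a s ha ih =>
    have hs : ∀ i ∈ s, Bdd (f i) := fun i hi => hf i (mem_insert_of_mem hi)
    have h2 : (fun x => ∑ i ∈ insert a s, f i x) = fun x => f a x + ∑ i ∈ s, f i x := by
      funext x; rw [sum_insert ha]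
    rw [h2, M.add' _ _ (hf a (mem_insert_self a s)) (bdd_sum19 s f hs), ih hs, sum_insert ha]

theorem nonempty_of_mean19 {X : Type} (M : Mean X) : Nonempty X := by
  by_contra h
  rw [not_nonempty_iff] at h
  have h0 := E_const19 M 0
  have h1 := E_const19 M 1
  have : (fun _ : X => (0 : ℝ)) = fun _ => 1 := by funext x; exact (h.false x).elim
  rw [this, h1] at h0
  exact one_ne_zero h0

/-! ### greedy separation -/

open Classical in
theorem greedy_step19 {X ι : Type} (M : Mean X) (D : ι → X → Prop) (U : Finset ι) (δ : ℝ) (hδ : 0 < δ)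
    (hU : ∀ u ∈ U, δ ≤ M.P (D u)) : ∃ x : X, δ / 2 * #U ≤ #(U.filter (fun u => D u x)) := by
  by_contra hcon
  push Not at hcon
  obtain ⟨x0⟩ := nonempty_of_mean19 M
  have h1 : ∀ x, ∑ u ∈ U, ind (D u) x = (#(U.filter (fun u => D u x)) : ℝ) := by
    intro x
    unfold ind
    rw [← sum_filter]
    simp
  have hb : ∀ u ∈ U, Bdd (ind (D u)) := fun u _ => bdd_ind19 _
  have h2 : M.E (fun x => ∑ u ∈ U, ind (D u) x) ≤ δ / 2 * #U := by
    rw [← E_const19 M (δ / 2 * #U)]
    refine E_mono19 M (bdd_sum19 U _ hb) (bdd_const19 _) (fun x => ?_)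
    rw [h1 x]
    exact (hcon x).le
  rw [E_sum19 M U _ hb] at h2
  have h3 : δ * #U ≤ ∑ u ∈ U, M.E (ind (D u)) := by
    have : ∑ u ∈ U, δ ≤ ∑ u ∈ U, M.E (ind (D u)) := sum_le_sum hU
    rw [sum_const, nsmul_eq_mul] at this
    linarith
  have h4 : (0 : ℝ) ≤ #U := Nat.cast_nonneg _
  have h5 : (#U : ℝ) = 0 := by nlinarith
  have h6 := hcon x0
  rw [h5] at h6
  have h7 : (0 : ℝ) ≤ #(U.filter (fun u => D u x0)) := Nat.cast_nonneg _
  linarith

theorem greedy19 {X ι : Type} (M : Mean X) (D : ι → X → Prop) (U : Finset ι) (δ : ℝ) (hδ : 0 < δ)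
    (hδ1 : δ ≤ 1) (hU : ∀ u ∈ U, δ ≤ M.P (D u)) (k : ℕ) :
    ∃ x : Fin k → X, ∃ V : Finset ι, V ⊆ U ∧ (∀ u ∈ U, (∀ a, ¬ D u (x a)) → u ∈ V) ∧
      (#V : ℝ) ≤ (1 - δ / 2) ^ k * #U := by
  classical
  induction k with
  | zero =>
    refine ⟨fun a => a.elim0, U, Subset.rfl, fun u hu _ => hu, ?_⟩
    simp only [pow_zero, one_mul, le_refl]
  | succ k ih =>
    obtain ⟨x, U', hsub, hall, hx⟩ := ih
    obtain ⟨y, hy⟩ := greedy_step19 M D U' δ hδ (fun u hu => hU u (hsub hu))
    refine ⟨Fin.cons y x, U'.filter (fun u => ¬ D u y), (filter_subset _ _).trans hsub, ?_, ?_⟩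
    · intro u hu ha
      rw [mem_filter]
      refine ⟨hall u hu (fun a => ?_), ?_⟩
      · have := ha a.succ
        rwa [Fin.cons_succ] at this
      · have := ha 0
        rwa [Fin.cons_zero] at this
    have h2 := card_filter_add_card_filter_not (s := U') (fun u => D u y)
    have h3 : (#(U'.filter (fun u => D u y)) : ℝ) + #(U'.filter (fun u => ¬ D u y)) = #U' := by
      exact_mod_cast h2
    have h4 : (0 : ℝ) ≤ 1 - δ / 2 := by linarith
    calc (#(U'.filter (fun u => ¬ D u y)) : ℝ) ≤ (1 - δ / 2) * #U' := by nlinarith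
      _ ≤ (1 - δ / 2) * ((1 - δ / 2) ^ k * #U) := mul_le_mul_of_nonneg_left hx h4
      _ = (1 - δ / 2) ^ (k + 1) * #U := by ring

/-! ### Sauer-Shelah -/

theorem sauer19 {X P : Type} (rel : P → X → Prop) (d : ℕ)
    (hd : ¬ ∃ (x : Fin d → X) (p : Finset (Fin d) → P), ∀ i L, (rel (p L) (x i) ↔ i ∈ L))
    {k : ℕ} (x : Fin k → X) (A : Finset (Finset (Fin k)))
    (hA : ∀ s ∈ A, ∃ p : P, ∀ a, a ∈ s ↔ rel p (x a)) : #A ≤ d * (k + 1) ^ d := by
  classical
  have hsh : ∀ s ∈ A.shatterer, #s < d := by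
    intro s hs
    rw [mem_shatterer] at hs
    by_contra hlt
    push Not at hlt
    obtain ⟨t, hts, htd⟩ := exists_subset_card_eq hlt
    apply hd
    let e : Fin d ≃o t := t.orderIsoOfFin htd
    have hx : ∀ L : Finset (Fin d), ∃ p : P, ∀ i, (rel p (x (e i : Fin k)) ↔ i ∈ L) := by
      intro L
      have hsub : L.image (fun i => (e i : Fin k)) ⊆ s := by
        intro a ha
        obtain ⟨i, _, rfl⟩ := mem_image.1 ha
        exact hts (e i).2
      obtain ⟨u, hu, hus⟩ := hs hsub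
      obtain ⟨p, hp⟩ := hA u hu
      refine ⟨p, fun i => ?_⟩
      rw [← hp]
      constructor
      · intro hi
        have : (e i : Fin k) ∈ s ∩ u := mem_inter.2 ⟨hts (e i).2, hi⟩
        rw [hus] at this
        obtain ⟨j, hj, hji⟩ := mem_image.1 this
        have : j = i := e.injective (Subtype.ext hji)
        rwa [← this]
      · intro hi
        have : (e i : Fin k) ∈ L.image (fun i => (e i : Fin k)) := mem_image.2 ⟨i, hi, rfl⟩
        rw [← hus] at this
        exact (mem_inter.1 this).2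
    choose p hp using hx
    exact ⟨fun i => x (e i : Fin k), p, fun i L => hp L i⟩
  have h1 : A.shatterer ⊆ (range d).biUnion (fun j => powersetCard j (univ : Finset (Fin k))) := by
    intro s hs
    rw [mem_biUnion]
    exact ⟨#s, mem_range.2 (hsh s hs), mem_powersetCard.2 ⟨subset_univ _, rfl⟩⟩
  calc #A ≤ #A.shatterer := card_le_card_shatterer A
    _ ≤ #((range d).biUnion (fun j => powersetCard j (univ : Finset (Fin k)))) := card_le_card h1
    _ ≤ ∑ j ∈ range d, #(powersetCard j (univ : Finset (Fin k))) := card_biUnion_le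
    _ ≤ ∑ j ∈ range d, (k + 1) ^ d := by
      refine sum_le_sum (fun j hj => ?_)
      rw [card_powersetCard, card_univ, Fintype.card_fin]
      refine (Nat.choose_le_pow k j).trans ?_
      exact (Nat.pow_le_pow_left (Nat.le_succ k) j).trans
        (Nat.pow_le_pow_right (Nat.succ_pos k) (mem_range.1 hj).le)
    _ = d * (k + 1) ^ d := by rw [sum_const, card_range, smul_eq_mul]

theorem growth19 (C k0 e : ℕ) (L : ℕ) : ∃ m : ℕ, (C * (m * k0 + 1) ^ e) ^ L < 2 ^ m := by
  have h := tendsto_pow_const_div_const_pow_of_one_lt (e * L) (r := (2 : ℝ)) (by norm_num)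
  set B : ℝ := ((C : ℝ) * (k0 + 1) ^ e) ^ L + 1 with hB
  have hBpos : 0 < B := by positivity
  have hev := h.eventually (gt_mem_nhds (inv_pos.2 hBpos))
  obtain ⟨m, hm, hm1⟩ := (hev.and (Filter.eventually_ge_atTop 1)).exists
  refine ⟨m, ?_⟩
  have h2 : (0 : ℝ) < 2 ^ m := by positivity
  rw [div_lt_iff₀ h2] at hm
  have h3 : B * (m : ℝ) ^ (e * L) < 2 ^ m := by
    have := mul_lt_mul_of_pos_left hm hBpos
    rwa [← mul_assoc, mul_inv_cancel₀ hBpos.ne', one_mul] at this
  have hm1' : (1 : ℝ) ≤ m := by exact_mod_cast hm1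
  have h4 : ((C : ℝ) * (m * k0 + 1) ^ e) ^ L ≤ ((C : ℝ) * (k0 + 1) ^ e) ^ L * (m : ℝ) ^ (e * L) := by
    rw [pow_mul, ← mul_pow]
    have h40 : (0 : ℝ) ≤ (C : ℝ) * (m * k0 + 1) ^ e := by positivity
    refine pow_le_pow_left₀ h40 ?_ L
    rw [mul_assoc, ← mul_pow]
    refine mul_le_mul_of_nonneg_left ?_ (Nat.cast_nonneg C)
    have h41 : (0 : ℝ) ≤ (m : ℝ) * k0 + 1 := by positivity
    refine pow_le_pow_left₀ h41 ?_ e
    nlinarith [(Nat.cast_nonneg k0 : (0 : ℝ) ≤ k0)]
  have h5 : ((C : ℝ) * (k0 + 1) ^ e) ^ L * (m : ℝ) ^ (e * L) ≤ B * (m : ℝ) ^ (e * L) := by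
    refine mul_le_mul_of_nonneg_right ?_ (by positivity)
    rw [hB]; linarith
  have h6 : ((C : ℝ) * (m * k0 + 1) ^ e) ^ L < 2 ^ m := lt_of_le_of_lt (h4.trans h5) h3
  exact_mod_cast h6

/-- M2 -/
theorem pack {X P : Type} (rel : P → X → Prop) (d : ℕ)
    (hd : ¬ ∃ (x : Fin d → X) (p : Finset (Fin d) → P), ∀ i L, (rel (p L) (x i) ↔ i ∈ L))
    (L : ℕ) (δ : ℝ) (hδ : 0 < δ) :
    ∃ N : ℕ, ∀ (M : Mean X) (p : Fin N → Fin L → P),
      ∃ i j, i < j ∧ M.P (fun x => ∃ l, ¬ (rel (p i l) x ↔ rel (p j l) x)) < δ := by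
  classical
  -- replace δ by min δ 1
  set ε : ℝ := min δ 1 with hε
  have hε0 : 0 < ε := lt_min hδ one_pos
  have hε1 : ε ≤ 1 := min_le_right _ _
  have hεδ : ε ≤ δ := min_le_left _ _
  -- k0
  obtain ⟨k0, hk0⟩ : ∃ k0 : ℕ, (1 - ε / 2) ^ k0 < 1 / 4 :=
    exists_pow_lt_of_lt_one (by norm_num) (by linarith)
  obtain ⟨m, hm⟩ := growth19 d k0 d L
  -- m = 0 is impossible to use below, so take m + 1 if needed
  refine ⟨2 ^ m, fun M p => ?_⟩
  by_contra hcon0
  have hcon : ∀ i j, i < j → δ ≤ M.P (fun x => ∃ l, ¬ (rel (p i l) x ↔ rel (p j l) x)) := by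
    intro i j hij
    by_contra h
    exact hcon0 ⟨i, j, hij, not_le.1 h⟩
  let D : Fin (2 ^ m) × Fin (2 ^ m) → X → Prop :=
    fun u x => ∃ l, ¬ (rel (p u.1 l) x ↔ rel (p u.2 l) x)
  let U : Finset (Fin (2 ^ m) × Fin (2 ^ m)) := univ.filter (fun u => u.1 < u.2)
  have hU : ∀ u ∈ U, ε ≤ M.P (D u) := by
    intro u hu
    exact hεδ.trans (hcon u.1 u.2 (mem_filter.1 hu).2)
  obtain ⟨x, V, _, hV, hx⟩ := greedy19 M D U ε hε0 hε1 hU (m * k0)
  have hsep : ∀ u ∈ U, ∃ a, D u (x a) := by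
    have hcU : (#U : ℝ) < 4 ^ m := by
      have h0 : (⟨0, by positivity⟩, ⟨0, by positivity⟩) ∉ U := by
        intro h
        exact lt_irrefl _ (mem_filter.1 h).2
      have h1 : #U < #(univ : Finset (Fin (2 ^ m) × Fin (2 ^ m))) := by
        apply card_lt_card
        rw [ssubset_univ_iff]
        intro h
        rw [h] at h0
        exact h0 (mem_univ _)
      rw [card_univ, Fintype.card_prod, Fintype.card_fin] at h1
      have h2 : (2 : ℕ) ^ m * 2 ^ m = 4 ^ m := by rw [← mul_pow]; norm_num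
      rw [h2] at h1
      exact_mod_cast h1
    have h1 : (#V : ℝ) < 1 := by
      refine lt_of_le_of_lt hx ?_
      have hp : (0 : ℝ) < (1 - ε / 2) ^ (m * k0) := pow_pos (by linarith) _
      calc (1 - ε / 2) ^ (m * k0) * #U < (1 - ε / 2) ^ (m * k0) * 4 ^ m :=
            mul_lt_mul_of_pos_left hcU hp
        _ = ((1 - ε / 2) ^ k0 * 4) ^ m := by rw [mul_comm m k0, pow_mul, ← mul_pow]
        _ ≤ 1 := pow_le_one₀ (by
            have : (0 : ℝ) ≤ (1 - ε / 2) ^ k0 := pow_nonneg (by linarith) _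
            linarith) (by linarith)
    have h2 : #V = 0 := by
      have : #V < 1 := by exact_mod_cast h1
      omega
    rw [card_eq_zero] at h2
    intro u hu
    by_contra hno
    have := hV u hu (fun a ha => hno ⟨a, ha⟩)
    rw [h2] at this
    simp at this
  let S : P → Finset (Fin (m * k0)) := fun r => univ.filter (fun a => rel r (x a))
  let A : Finset (Finset (Fin (m * k0))) := (univ : Finset (Fin (2 ^ m) × Fin L)).image (fun v => S (p v.1 v.2))
  have hA : #A ≤ d * (m * k0 + 1) ^ d := by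
    apply sauer19 rel d hd x A
    intro s hs
    obtain ⟨v, _, rfl⟩ := mem_image.1 hs
    exact ⟨p v.1 v.2, fun a => by simp [S]⟩
  let F : Fin (2 ^ m) → (Fin L → A) :=
    fun i l => ⟨S (p i l), mem_image.2 ⟨(i, l), mem_univ _, rfl⟩⟩
  have hlt : ∀ i j : Fin (2 ^ m), i < j → F i ≠ F j := by
    intro i j hij hF
    obtain ⟨a, l, hal⟩ := hsep (i, j) (mem_filter.2 ⟨mem_univ _, hij⟩)
    have h1 : S (p i l) = S (p j l) := by
      have := congrFun hF l
      exact congrArg Subtype.val this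
    apply hal
    have h2 : a ∈ S (p i l) ↔ a ∈ S (p j l) := by rw [h1]
    simpa [S] using h2
  have hinj : Function.Injective F := by
    intro i j hF
    rcases lt_trichotomy i j with h | h | h
    · exact (hlt i j h hF).elim
    · exact h
    · exact (hlt j i h hF.symm).elim
  have hcard := Fintype.card_le_of_injective F hinj
  rw [Fintype.card_fin, Fintype.card_fun, Fintype.card_fin, Fintype.card_coe] at hcard
  have : 2 ^ m ≤ (d * (m * k0 + 1) ^ d) ^ L := hcard.trans (Nat.pow_le_pow_left hA L)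
  omega

end Pool.Agent.AIC.M
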