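import Pool.Agent.AIC.M.Defs34
import Pool.Agent.AIC.M.Api34
import Pool.Agent.AIC.M.Pack19

/-! MP_313bb4, theorem M, row M2': packing for the values of chi. -/

set_option autoImplicit false
set_option linter.unusedSectionVars false

namespace Pool.Agent.AIC.M

open Finset

section

variable {R Q : Type} [CommRing R] [CommGroup Q] {q : ℕ}

/-- every value of chi on `1 + J` is tested by `rel` after multiplication by a constant -/
theorem exists_test2 (D : Data R Q q) (g : Q) (hg : g ∈ D.χ '' {u | u - 1 ∈ D.J}) :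
    ∃ r : R, ∀ u, u - 1 ∈ D.J → (D.χ u = g ↔ D.rel (u * r)) := by
  obtain ⟨u0, h0, rfl⟩ := hg
  have h0' : u0 - 1 ∈ D.J := h0
  have hunit : ∀ u, u - 1 ∈ D.J → IsUnit u := by
    intro u hu
    have := D.hJ _ hu
    rwa [add_sub_cancel] at this
  obtain ⟨r, hr⟩ := (isUnit_iff_exists_inv.1 (hunit u0 h0'))
  have hrJ : r - 1 ∈ D.J := by
    have h1 : r - 1 = (-r) * (u0 - 1) := by
      linear_combination hr
    rw [h1]
    exact D.J.mul_mem_left _ h0'
  have hru : IsUnit r := hunit r hrJ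
  have h1 : D.χ 1 = 1 := by
    have := D.hχ 1 1 isUnit_one isUnit_one
    rw [one_mul] at this
    exact (left_eq_mul.1 this)
  have hχr : D.χ u0 * D.χ r = 1 := by
    rw [← D.hχ u0 r (hunit u0 h0') hru, hr, h1]
  refine ⟨r, fun u hu => ?_⟩
  have hurJ : u * r - 1 ∈ D.J := by
    have h2 : u * r - 1 = r * (u - 1) + (r - 1) := by ring
    rw [h2]
    exact D.J.add_mem (D.J.mul_mem_left _ hu) hrJ
  have h3 := D.hrel _ hurJ
  rw [add_sub_cancel] at h3
  rw [h3, D.hχ u r (hunit u hu) hru, ← hχr]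
  exact (mul_left_inj (D.χ r)).symm

/-- M2', from M2: the packing statement for the values of chi -/
theorem pack_chi (D : Data R Q q) (δ : ℝ) (hδ : 0 < δ) :
    ∃ N : ℕ, ∀ (M : Mean R) (v w v' w' : Fin N → R),
      (∀ i s, s ∈ D.J → v i + w i * s - 1 ∈ D.J ∧ v' i + w' i * s - 1 ∈ D.J) →
      (∀ f g, Bdd f → Bdd g → (∀ s ∈ D.J, f s = g s) → M.E f = M.E g) →
      ∃ i j, i < j ∧ M.P (fun s => ¬ (D.χ (v i + w i * s) = D.χ (v j + w j * s) ∧
        D.χ (v' i + w' i * s) = D.χ (v' j + w' j * s))) < δ := by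
  classical
  obtain ⟨d, hd⟩ := D.hnip
  set S : Finset Q := D.hfin.toFinset with hS
  have hmemS : ∀ g : Q, g ∈ S ↔ g ∈ D.χ '' {u | u - 1 ∈ D.J} := fun g => by
    rw [hS, Set.Finite.mem_toFinset]
  have hr : ∀ g : S, ∃ r : R, ∀ u, u - 1 ∈ D.J → (D.χ u = g.1 ↔ D.rel (u * r)) := fun g =>
    exists_test2 D g.1 ((hmemS g.1).1 g.2)
  choose r hr using hr
  let e : S ≃ Fin S.card := S.equivFin
  obtain ⟨N, hN⟩ := pack (fun (p : R × R) (s : R) => D.rel (p.1 + p.2 * s)) d hd (2 * S.card) δ hδ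
  refine ⟨N, fun M v w v' w' hmem hsupp => ?_⟩
  let p : Fin N → Fin (2 * S.card) → R × R := fun i l =>
    if (finProdFinEquiv.symm l).1 = 0 then
      (v i * r (e.symm (finProdFinEquiv.symm l).2), w i * r (e.symm (finProdFinEquiv.symm l).2))
    else
      (v' i * r (e.symm (finProdFinEquiv.symm l).2), w' i * r (e.symm (finProdFinEquiv.symm l).2))
  obtain ⟨i, j, hij, hlt⟩ := hN M p
  refine ⟨i, j, hij, lt_of_le_of_lt ?_ hlt⟩
  -- restrict to J
  have key : M.P (fun s => ¬ (D.χ (v i + w i * s) = D.χ (v j + w j * s) ∧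
        D.χ (v' i + w' i * s) = D.χ (v' j + w' j * s))) =
      M.P (fun s => s ∈ D.J ∧ ¬ (D.χ (v i + w i * s) = D.χ (v j + w j * s) ∧
        D.χ (v' i + w' i * s) = D.χ (v' j + w' j * s))) := by
    refine hsupp _ _ (bdd_ind _) (bdd_ind _) fun s hs => ?_
    by_cases h : D.χ (v i + w i * s) = D.χ (v j + w j * s) ∧
        D.χ (v' i + w' i * s) = D.χ (v' j + w' j * s)
    · exact (ind_of_neg (p := fun s => ¬ (D.χ (v i + w i * s) = D.χ (v j + w j * s) ∧
        D.χ (v' i + w' i * s) = D.χ (v' j + w' j * s))) (not_not.2 h)).trans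
        (ind_of_neg (p := fun s => s ∈ D.J ∧ ¬ (D.χ (v i + w i * s) = D.χ (v j + w j * s) ∧
        D.χ (v' i + w' i * s) = D.χ (v' j + w' j * s))) (fun h' => h'.2 h)).symm
    · exact (ind_of_pos (p := fun s => ¬ (D.χ (v i + w i * s) = D.χ (v j + w j * s) ∧
        D.χ (v' i + w' i * s) = D.χ (v' j + w' j * s))) h).trans
        (ind_of_pos (p := fun s => s ∈ D.J ∧ ¬ (D.χ (v i + w i * s) = D.χ (v j + w j * s) ∧
        D.χ (v' i + w' i * s) = D.χ (v' j + w' j * s))) ⟨hs, h⟩).symm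
  rw [key]
  refine M.P_mono fun s hs => ?_
  obtain ⟨hsJ, hne⟩ := hs
  by_contra hcon
  push Not at hcon
  apply hne
  have hval : ∀ (a b : R), a - 1 ∈ D.J → b - 1 ∈ D.J →
      (∀ g : S, (D.rel (a * r g) ↔ D.rel (b * r g))) → D.χ a = D.χ b := by
    intro a b ha hb hab
    have haS : D.χ a ∈ S := (hmemS _).2 ⟨a, ha, rfl⟩
    have h1 := (hr ⟨D.χ a, haS⟩ a ha).1 rfl
    exact ((hr ⟨D.χ a, haS⟩ b hb).2 ((hab _).1 h1)).symm
  constructor
  · refine hval _ _ (hmem i s hsJ).1 (hmem j s hsJ).1 fun g => ?_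
    have h1 := hcon (finProdFinEquiv (0, e g))
    simp only [p, Equiv.symm_apply_apply, if_true] at h1
    have h2 : (v i + w i * s) * r g = v i * r g + w i * r g * s := by ring
    have h3 : (v j + w j * s) * r g = v j * r g + w j * r g * s := by ring
    rw [h2, h3]
    exact h1
  · refine hval _ _ (hmem i s hsJ).2 (hmem j s hsJ).2 fun g => ?_
    have h1 := hcon (finProdFinEquiv (1, e g))
    have h10 : ¬ ((1 : Fin 2) = 0) := by decide
    simp only [p, Equiv.symm_apply_apply, if_neg h10] at h1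
    have h2 : (v' i + w' i * s) * r g = v' i * r g + w' i * r g * s := by ring
    have h3 : (v' j + w' j * s) * r g = v' j * r g + w' j * r g * s := by ring
    rw [h2, h3]
    exact h1

end

end Pool.Agent.AIC.M
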