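import Mathlib
import Pool.Agent.AIC.M.Defs34
import Pool.Agent.AIC.M.Core34
import Pool.Agent.AIC.M.PackChi2

/-! MP_313bb4, theorem M: the core, final form. -/

set_option autoImplicit false
set_option linter.unusedSectionVars false

namespace Pool.Agent.AIC.M

variable {R Q : Type} [CommRing R] [CommGroup Q] {q : ℕ}

theorem packChi34 (D : Data R Q q) : PackChi D := fun δ hδ => pack_chi D δ hδ

/-- core -/
theorem core (D : Data R Q q) [Nontrivial R] [Finite (MaximalSpectrum R)]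
    (hinf : ∀ m : Ideal R, m.IsMaximal → Infinite (R ⧸ m)) (hq0 : 0 < q)
    (c : R) (hc : c ∈ D.J)
    (hy : ∀ N : ℕ, ∃ y : R, IsUnit y ∧ c ^ N ∣ y ^ q - 1 ∧ D.χ (y ^ q) ≠ 1) : False :=
  core34 D (packChi34 D) hinf hq0 c hc hy

end Pool.Agent.AIC.M
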