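import Mathlib

/-! MP_313bb4, theorem M, row M6: approximate idempotents and units `y` with `y ^ q` near `1`. -/

set_option autoImplicit false

namespace Pool.Agent.AIC.M

open Finset

/-- M6 -/
theorem exists_e {R : Type} [CommRing R] (e : R) (N : ℕ) :
    ∃ e' : R, e ∣ e' ∧ (1 - e) ∣ (1 - e') ∧ (e * (1 - e)) ^ N ∣ e' * (1 - e') := by
  induction N with
  | zero => exact ⟨e, dvd_rfl, dvd_rfl, by rw [pow_zero]; exact one_dvd _⟩
  | succ N ih =>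
    obtain ⟨e', h1, h2, h3⟩ := ih
    refine ⟨e' ^ 2 * (3 - 2 * e'), ?_, ?_, ?_⟩
    · exact Dvd.dvd.mul_right (Dvd.dvd.trans h1 (dvd_pow_self _ two_ne_zero)) _
    · have h4 : 1 - e' ^ 2 * (3 - 2 * e') = (1 - e') * ((1 - e') * (1 + 2 * e')) := by ring
      rw [h4]
      exact Dvd.dvd.mul_right h2 _
    · have h4 : e' ^ 2 * (3 - 2 * e') * (1 - e' ^ 2 * (3 - 2 * e')) =
          (e' * (1 - e')) * (e' * (1 - e')) * ((3 - 2 * e') * (1 + 2 * e')) := by ring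
      rw [h4, pow_succ]
      exact Dvd.dvd.mul_right (mul_dvd_mul h3 (mul_dvd_mul h1 h2)) _

theorem zeta_pow11 {R : Type} [CommRing R] {q : ℕ} {ζ : R} (hζ : ∑ j ∈ range q, ζ ^ j = 0) :
    ζ ^ q = 1 := by
  have h := mul_geom_sum ζ q
  rw [hζ, mul_zero] at h
  exact (sub_eq_zero.1 h.symm)

theorem dvd_pow_sub_one11 {R : Type} [CommRing R] {q : ℕ} {ζ : R}
    (hζ : ∑ j ∈ range q, ζ ^ j = 0) (y : R) : (y - 1) * (y - ζ) ∣ y ^ q - 1 := by
  rw [← mul_geom_sum y q]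
  apply mul_dvd_mul_left
  have h : ∑ j ∈ range q, y ^ j = ∑ j ∈ range q, (y ^ j - ζ ^ j) := by
    rw [Finset.sum_sub_distrib, hζ, sub_zero]
  rw [h]
  exact Finset.dvd_sum (fun j _ => sub_dvd_pow_sub_pow y ζ j)

/-- the unit `y`: congruent to `1` where `e` vanishes and to `ζ` where `1 - e` vanishes -/
theorem exists_y {R : Type} [CommRing R] {q : ℕ} (hq : 0 < q) {ζ : R}
    (hζ : ∑ j ∈ range q, ζ ^ j = 0) (e : R)
    (he : ∀ m : Ideal R, m.IsMaximal → e * (1 - e) ∈ m) (N : ℕ) :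
    ∃ y : R, IsUnit y ∧ (e * (1 - e)) ^ N ∣ y ^ q - 1 ∧ e ∣ y - 1 ∧ (1 - e) ∣ y - ζ := by
  obtain ⟨e', h1, h2, h3⟩ := exists_e e N
  have hy1 : 1 + (ζ - 1) * e' - 1 = (ζ - 1) * e' := by ring
  have hy2 : 1 + (ζ - 1) * e' - ζ = (1 - ζ) * (1 - e') := by ring
  have hd1 : e ∣ 1 + (ζ - 1) * e' - 1 := by
    rw [hy1]
    exact Dvd.dvd.mul_left h1 _
  have hd2 : (1 - e) ∣ 1 + (ζ - 1) * e' - ζ := by
    rw [hy2]
    exact Dvd.dvd.mul_left h2 _
  refine ⟨1 + (ζ - 1) * e', ?_, ?_, hd1, hd2⟩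
  · by_contra hn
    obtain ⟨m, hm, hmem⟩ := exists_max_ideal_of_mem_nonunits hn
    rcases hm.isPrime.mem_or_mem (he m hm) with h | h
    · have h4 : 1 + (ζ - 1) * e' - 1 ∈ m := m.mem_of_dvd hd1 h
      have h5 : (1 : R) ∈ m := by
        have := m.sub_mem hmem h4
        rwa [sub_sub_cancel] at this
      exact hm.ne_top (m.eq_top_of_isUnit_mem h5 isUnit_one)
    · have h4 : 1 + (ζ - 1) * e' - ζ ∈ m := m.mem_of_dvd hd2 h
      have h5 : ζ ∈ m := by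
        have := m.sub_mem hmem h4
        rwa [sub_sub_cancel] at this
      have h6 : IsUnit ζ := IsUnit.of_pow_eq_one (zeta_pow11 hζ) hq.ne'
      exact hm.ne_top (m.eq_top_of_isUnit_mem h5 h6)
  · refine Dvd.dvd.trans ?_ (dvd_pow_sub_one11 hζ _)
    rw [hy1, hy2]
    have h4 : (ζ - 1) * e' * ((1 - ζ) * (1 - e')) = (e' * (1 - e')) * ((ζ - 1) * (1 - ζ)) := by
      ring
    rw [h4]
    exact Dvd.dvd.mul_right h3 _

end Pool.Agent.AIC.M
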