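import Pool.Agent.AIC.M.Defs34

/-! MP_313bb4, theorem M without residue hypotheses: positions which divide a power of `w`. -/

set_option autoImplicit false

namespace Pool.Agent.AIC.M

/-- all positions of the walk `l` seen from `x` divide `w ^ h` -/
def Good46 {R : Type} [CommRing R] (w : R) (h : ℕ) : List R → R → Prop
  | [], x => x ∣ w ^ h
  | μ :: l, x => x ∣ w ^ h ∧ Good46 w h l (x + μ)

theorem Good46.dvd {R : Type} [CommRing R] {w : R} {h : ℕ} {l : List R} {x : R}
    (H : Good46 w h l x) : x ∣ w ^ h := by
  cases l with
  | nil => exact H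
  | cons μ l => exact H.1

end Pool.Agent.AIC.M
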