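import Pool.Agent.AIC.M.LemmaC34

/-! MP_313bb4, theorem M without residue hypotheses: approximate forms of lemmas 1, 2, 3. -/

set_option autoImplicit false
set_option linter.unusedSectionVars false

namespace Pool.Agent.AIC.M

variable {R Q : Type} [CommRing R] [CommGroup Q] {q : ℕ}

/-- approximate invariance of `χ` under small translations -/
def Appr46 (D : Data R Q q) (w : R) (N : ℕ) (δ : ℝ) : Prop :=
  ∀ (I : Ideal R), I ≤ D.J → ∀ (M : Mean R), AffInv M I → ∀ a b : R, a ∈ I → b ∈ I →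
    M.P (fun s => D.χ (1 + (s + w ^ N * a * b)) ≠ D.χ (1 + s)) ≤ δ

/-- Lemma 1, approximate form -/
theorem lemma1D46 (D : Data R Q q) (hpack : PackChi D) (w : R) (hw : w ∈ D.J) (δ : ℝ)
    (hδ0 : 0 < δ) : ∃ N : ℕ, Appr46 D w N δ := by
  obtain ⟨N, hN⟩ := hpack _ (half_pos hδ0)
  refine ⟨N, fun I hI M hM a₀ b ha₀ hb => ?_⟩
  obtain ⟨a, haa⟩ : ∃ a, a = w ^ N * a₀ := ⟨_, rfl⟩
  have ha : a ∈ I := by
    rw [haa]
    exact I.mul_mem_left _ ha₀
  obtain ⟨l, hldef⟩ : ∃ l : Fin N → R, l = fun (i : Fin N) => w ^ (i : ℕ) := ⟨_, rfl⟩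
  have hsupp : ∀ f g, Bdd f → Bdd g → (∀ s ∈ D.J, f s = g s) → M.E f = M.E g :=
    fun f g hf hg h => hM.supp f g hf hg fun s hs => h s (hI hs)
  obtain ⟨i, j, hij, hlt⟩ := hN M (fun i => 1 + l i * b) (fun _ => 1)
    (fun i => 1 + (l i * b + a * b)) (fun _ => 1) (by
      intro i s hs
      constructor
      · have h : 1 + l i * b + 1 * s - 1 = l i * b + s := by ring
        rw [h]
        exact D.J.add_mem (D.J.mul_mem_left _ (hI hb)) hs
      · have h : 1 + (l i * b + a * b) + 1 * s - 1 = (l i + a) * b + s := by ring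
        rw [h]
        exact D.J.add_mem (D.J.mul_mem_left _ (hI hb)) hs) hsupp
  -- the element of `I` with `κ * (l i - l j) = a`
  obtain ⟨κ, hκI, hκ⟩ : ∃ κ ∈ I, κ * (l i - l j) = a := by
    have hij' : (i : ℕ) < (j : ℕ) := hij
    obtain ⟨d, hd⟩ : ∃ d, (j : ℕ) = (i : ℕ) + (d + 1) := ⟨(j : ℕ) - i - 1, by omega⟩
    have hu : IsUnit (1 + -(w * w ^ d)) := D.hJ _ (D.J.neg_mem (D.J.mul_mem_right _ hw))
    obtain ⟨u', hu'⟩ := hu.exists_right_inv
    obtain ⟨k, hk⟩ : ∃ k, N = (i : ℕ) + k := ⟨N - i, by have := i.2; omega⟩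
    refine ⟨w ^ k * u' * a₀, I.mul_mem_left _ ha₀, ?_⟩
    rw [haa, hldef]
    show w ^ k * u' * a₀ * (w ^ (i : ℕ) - w ^ (j : ℕ)) = w ^ N * a₀
    have hwN : w ^ N = w ^ ((i : ℕ) + k) := congrArg (fun n => w ^ n) hk
    rw [hd, hwN]
    calc w ^ k * u' * a₀ * (w ^ (i : ℕ) - w ^ ((i : ℕ) + (d + 1)))
        = w ^ ((i : ℕ) + k) * a₀ * ((1 + -(w * w ^ d)) * u') := by ring
      _ = _ := by rw [hu', mul_one]
  have hmem : ∀ x : R, x * b ∈ I := fun x => I.mul_mem_left _ hb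
  have hab : a * b ∈ I := I.mul_mem_left _ hb
  -- the four events
  have hA : ∀ α β κ' : R, κ' ∈ I → κ' * (l i - l j) = α - β →
      M.P (fun s => D.χ (1 + (s + (l i + α) * b)) = D.χ (1 + (s + (l j + β) * b))) =
      M.P (fun s => D.χ (1 + (s + (l i - l j) * b)) = D.χ (1 + s)) := by
    intro α β κ' hκ' hκ'2
    rw [A_trans34 D hM _ _ (hmem _)]
    have h1 : (l i + α) * b - (l j + β) * b = (1 + κ') * ((l i - l j) * b) := by
      have : (1 + κ') * ((l i - l j) * b) = (l i - l j) * b + (κ' * (l i - l j)) * b := by ring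
      rw [this, hκ'2]
      ring
    rw [h1]
    refine A_unit34 D hI hM _ _ ?_ (hmem _)
    rw [add_sub_cancel_left]
    exact hκ'
  have h00 := hA 0 0 0 I.zero_mem (by simp)
  have h11 := hA a a 0 I.zero_mem (by simp)
  have h10 := hA a 0 κ hκI (by rw [hκ, sub_zero])
  have h01 := hA 0 a (-κ) (I.neg_mem hκI) (by rw [neg_mul, hκ, zero_sub])
  -- `δ` seen from `l i`
  have hδ : M.P (fun s => ¬ D.χ (1 + (s + (l i + a) * b)) = D.χ (1 + (s + (l i + 0) * b))) =
      M.P (fun s => D.χ (1 + (s + w ^ N * a₀ * b)) ≠ D.χ (1 + s)) := by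
    rw [M.P_not, A_trans34 D hM _ _ (hmem _), ← M.P_not]
    refine M.P_congr fun s => ?_
    have h : (l i + a) * b - (l i + 0) * b = w ^ N * a₀ * b := by rw [haa]; ring
    rw [h]
  -- pointwise inequality
  obtain ⟨p00, hp00⟩ : ∃ p : R → Prop, p = fun s => D.χ (1 + (s + (l i + 0) * b)) =
    D.χ (1 + (s + (l j + 0) * b)) := ⟨_, rfl⟩
  obtain ⟨p11, hp11⟩ : ∃ p : R → Prop, p = fun s => D.χ (1 + (s + (l i + a) * b)) =
    D.χ (1 + (s + (l j + a) * b)) := ⟨_, rfl⟩
  obtain ⟨p10, hp10⟩ : ∃ p : R → Prop, p = fun s => D.χ (1 + (s + (l i + a) * b)) =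
    D.χ (1 + (s + (l j + 0) * b)) := ⟨_, rfl⟩
  obtain ⟨p01, hp01⟩ : ∃ p : R → Prop, p = fun s => D.χ (1 + (s + (l i + 0) * b)) =
    D.χ (1 + (s + (l j + a) * b)) := ⟨_, rfl⟩
  obtain ⟨pd, hpd⟩ : ∃ p : R → Prop, p = fun s => ¬ D.χ (1 + (s + (l i + a) * b)) =
    D.χ (1 + (s + (l i + 0) * b)) := ⟨_, rfl⟩
  rw [← hp00] at h00
  rw [← hp11] at h11
  rw [← hp10] at h10
  rw [← hp01] at h01
  rw [← hpd] at hδ
  have hpt : ∀ s, 2 * ind pd s ≤ (ind p00 s + ind p11 s - (ind p10 s + ind p01 s)) +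
      4 * ind (fun s => ¬ (p00 s ∧ p11 s)) s := by
    intro s
    by_cases hE : p00 s ∧ p11 s
    · rw [ind_of_pos hE.1, ind_of_pos hE.2,
        ind_of_neg (p := fun s => ¬ (p00 s ∧ p11 s)) (not_not.mpr hE)]
      have e0 : D.χ (1 + (s + (l i + 0) * b)) = D.χ (1 + (s + (l j + 0) * b)) := by
        have := hE.1
        rw [hp00] at this
        exact this
      have e1 : D.χ (1 + (s + (l i + a) * b)) = D.χ (1 + (s + (l j + a) * b)) := by
        have := hE.2
        rw [hp11] at this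
        exact this
      by_cases hd : pd s
      · have hd' : ¬ D.χ (1 + (s + (l i + a) * b)) = D.χ (1 + (s + (l i + 0) * b)) := by
          rw [hpd] at hd
          exact hd
        have n10 : ¬ p10 s := by
          rw [hp10]
          show ¬ D.χ (1 + (s + (l i + a) * b)) = D.χ (1 + (s + (l j + 0) * b))
          rw [← e0]
          exact hd'
        have n01 : ¬ p01 s := by
          rw [hp01]
          show ¬ D.χ (1 + (s + (l i + 0) * b)) = D.χ (1 + (s + (l j + a) * b))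
          rw [← e1]
          exact fun h => hd' h.symm
        rw [ind_of_pos hd, ind_of_neg n10, ind_of_neg n01]
        norm_num
      · rw [ind_of_neg hd]
        have := ind_le_one p10 s
        have := ind_le_one p01 s
        linarith
    · rw [ind_of_pos (p := fun s => ¬ (p00 s ∧ p11 s)) hE]
      have := ind_le_one p10 s
      have := ind_le_one p01 s
      have := ind_le_one pd s
      have := ind_nonneg p00 s
      have := ind_nonneg p11 s
      linarith
  have hint := M.E_mono (Bdd.smul 2 (bdd_ind pd))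
    ((((bdd_ind p00).add (bdd_ind p11)).sub ((bdd_ind p10).add (bdd_ind p01))).add
      (Bdd.smul 4 (bdd_ind fun s => ¬ (p00 s ∧ p11 s)))) hpt
  rw [M.E_smul 2 (bdd_ind pd), M.E_add (((bdd_ind p00).add (bdd_ind p11)).sub
    ((bdd_ind p10).add (bdd_ind p01))) (Bdd.smul 4 (bdd_ind fun s => ¬ (p00 s ∧ p11 s))),
    M.E_sub ((bdd_ind p00).add (bdd_ind p11)) ((bdd_ind p10).add (bdd_ind p01)),
    M.E_add (bdd_ind p00) (bdd_ind p11), M.E_add (bdd_ind p10) (bdd_ind p01),
    M.E_smul 4 (bdd_ind fun s => ¬ (p00 s ∧ p11 s))] at hint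
  change 2 * M.P pd ≤ (M.P p00 + M.P p11 - (M.P p10 + M.P p01)) + 4 * M.P _ at hint
  rw [h00, h11, h10, h01, hδ] at hint
  have hlast : M.P (fun s => ¬ (p00 s ∧ p11 s)) < δ / 2 := by
    refine lt_of_le_of_lt (le_of_eq (M.P_congr fun s => ?_)) hlt
    rw [hp00, hp11]
    have g0 : ∀ k, 1 + l k * b + 1 * s = 1 + (s + (l k + 0) * b) := fun k => by ring
    have g1 : ∀ k, 1 + (l k * b + a * b) + 1 * s = 1 + (s + (l k + a) * b) := fun k => by ring
    simp only [g0, g1]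
  linarith

/-- Lemma 2, approximate form -/
theorem lemma2D46 (D : Data R Q q) (w₀ : R) (N : ℕ) (δ : ℝ) (hap : Appr46 D w₀ N δ)
    (I : Ideal R) (hI : I ≤ D.J) (M : Mean R) (hM : AffInv M I) (a b : R) (ha : a ∈ I)
    (hb : b ∈ I) :
    M.P (fun s => ¬ D.χ (1 + (1 + w₀ ^ N * a * b) * s) =
      D.χ (1 + w₀ ^ N * a * b) * D.χ (1 + s)) ≤ δ := by
  have hab : w₀ ^ N * a * b ∈ I := I.mul_mem_left _ hb
  have hu : IsUnit (1 + w₀ ^ N * a * b) := D.hJ _ (hI hab)
  obtain ⟨w, hw⟩ := hu.exists_right_inv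
  have h1 := hap I hI M hM (-(w * a)) b (I.neg_mem (I.mul_mem_left _ ha)) hb
  refine le_trans (le_of_eq (hM.P_congr34 fun s hs => ?_)) h1
  have e1 : 1 + (1 + w₀ ^ N * a * b) * s =
      (1 + w₀ ^ N * a * b) * (1 + (s + w₀ ^ N * -(w * a) * b)) := by
    have : (1 + w₀ ^ N * a * b) * (1 + (s + w₀ ^ N * -(w * a) * b)) =
        (1 + w₀ ^ N * a * b) * (1 + s) - (1 + w₀ ^ N * a * b) * w * (w₀ ^ N * a * b) := by ring
    rw [this, hw]
    ring
  have e2 : IsUnit (1 + (s + w₀ ^ N * -(w * a) * b)) :=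
    D.hJ _ (hI (I.add_mem hs (I.mul_mem_left _ hb)))
  rw [e1, D.hχ _ _ hu e2]
  constructor
  · intro h h'
    exact h (by rw [h'])
  · intro h h'
    exact h (mul_left_cancel h')

/-- Lemma 3, approximate form -/
theorem lemma3D46 (D : Data R Q q) (w₀ : R) (N : ℕ) (δ : ℝ) (hδ0 : 0 ≤ δ)
    (hap : Appr46 D w₀ N δ) (hq0 : 0 < q)
    (I : Ideal R) (hI : I ≤ D.J) (M : Mean R) (hM : AffInv M I) (y a b : R) (hy : IsUnit y)
    (ha : a ∈ I) (hb : b ∈ I) (hyq : y ^ q = 1 + w₀ ^ N * a * b) (hne : D.χ (y ^ q) ≠ 1) (w : Q) :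
    M.P (fun s => D.χ (1 + y * s) = w * D.χ (1 + s)) ≤ 1 - 1 / q + δ := by
  classical
  have hq1 : (1 : ℝ) ≤ q := by exact_mod_cast hq0
  have hqpos : (0 : ℝ) < q := by linarith
  by_cases hw : w ^ q = 1
  · -- the generic case
    have h1 : ∀ k : ℕ, M.P (fun s => ¬ D.χ (1 + y ^ (k + 1) * s) = w * D.χ (1 + y ^ k * s)) =
        M.P (fun s => ¬ D.χ (1 + y * s) = w * D.χ (1 + s)) := by
      intro k
      rw [← hM.P_inv34 (fun s => ¬ D.χ (1 + y * s) = w * D.χ (1 + s)) (y ^ k) 0 (hy.pow k)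
        I.zero_mem]
      refine M.P_congr fun s => ?_
      have e1 : y * (y ^ k * s + 0) = y ^ (k + 1) * s := by ring
      have e2 : y ^ k * s + 0 = y ^ k * s := by ring
      rw [e1, e2]
    have h2 := lemma2D46 D w₀ N δ hap I hI M hM a b ha hb
    have h3 : (1 : ℝ) ≤ M.P (fun s => ∃ k ∈ Finset.range q,
        ¬ D.χ (1 + y ^ (k + 1) * s) = w * D.χ (1 + y ^ k * s)) +
        M.P (fun s => ¬ D.χ (1 + (1 + w₀ ^ N * a * b) * s) =
          D.χ (1 + w₀ ^ N * a * b) * D.χ (1 + s)) := by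
      rw [← M.P_true (p := fun _ => True) fun _ => trivial]
      refine M.P_le_add fun s _ => ?_
      by_contra hc
      push Not at hc
      obtain ⟨hc1, hc2⟩ := hc
      have h4 := iter34 D y w s q fun k hk => hc1 k (Finset.mem_range.2 hk)
      rw [hw, one_mul] at h4
      rw [← hyq, h4] at hc2
      apply hne
      exact (mul_eq_right.mp hc2.symm)
    have h5 := M.P_exists_le (Finset.range q)
      (fun k s => ¬ D.χ (1 + y ^ (k + 1) * s) = w * D.χ (1 + y ^ k * s))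
    rw [Finset.sum_congr rfl fun k _ => h1 k, Finset.sum_const, Finset.card_range,
      nsmul_eq_mul] at h5
    rw [M.P_not] at h5
    have h6 : (1 : ℝ) - δ ≤ q * (1 - M.P (fun s => D.χ (1 + y * s) = w * D.χ (1 + s))) := by
      linarith
    have h7 : (1 - δ) / (q : ℝ) ≤ 1 - M.P (fun s => D.χ (1 + y * s) = w * D.χ (1 + s)) := by
      rw [div_le_iff₀ hqpos]
      linarith
    have h8 : δ / (q : ℝ) ≤ δ := div_le_self hδ0 hq1
    rw [sub_div] at h7
    linarith
  · have h0 : M.P (fun s => D.χ (1 + y * s) = w * D.χ (1 + s)) = M.P (fun _ => False) := by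
      refine hM.P_congr34 fun s hs => ?_
      constructor
      · intro h
        apply hw
        have h1 : w = D.χ (1 + y * s) * (D.χ (1 + s))⁻¹ := by
          rw [h, mul_inv_cancel_right]
        rw [h1, mul_pow, inv_pow, D.hq _ (D.J.mul_mem_left _ (hI hs)), D.hq _ (hI hs), inv_one,
          one_mul]
      · intro h
        exact h.elim
    rw [h0, M.P_false fun _ h => h]
    have : 1 / (q : ℝ) ≤ 1 := by
      rw [div_le_one hqpos]
      exact hq1
    linarith

/-- means on principal ideals -/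
theorem affInv_map46 {M₀ : Mean R} (hM₀ : AffInv M₀ ⊤) (g : R) :
    AffInv (M₀.map (fun z => g * z)) (Ideal.span {g}) := by
  constructor
  · intro f h _ _ hfh
    rw [Mean.map_E, Mean.map_E]
    congr 1
    funext z
    exact hfh _ (Ideal.mul_mem_right _ _ (Ideal.mem_span_singleton_self g))
  · intro u b hu hb f hf
    obtain ⟨b', rfl⟩ := Ideal.mem_span_singleton'.mp hb
    rw [Mean.map_E, Mean.map_E]
    have h1 := hM₀.inv u b' hu Submodule.mem_top (fun z => f (g * z)) (hf.comp _)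
    rw [← h1]
    congr 1
    funext z
    congr 1
    ring

end Pool.Agent.AIC.M
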