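import Pool.Agent.AIC.M.WalkM34
import Pool.Agent.AIC.M.LemmasD46
import Pool.Agent.AIC.M.DefsD46

/-! MP_313bb4, theorem M without residue hypotheses: the walk. -/

set_option autoImplicit false
set_option linter.unusedSectionVars false

namespace Pool.Agent.AIC.M

variable {R Q : Type} [CommRing R] [CommGroup Q] {q : ℕ}

open Classical in
/-- division, zero if it is impossible -/
noncomputable def quo46 (x t : R) : R := if h : ∃ r, x * r = t then Classical.choose h else 0

theorem quo46_spec [IsDomain R] {x t r : R} (hx : x ≠ 0) (h : x * r = t) : quo46 x t = r := by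
  have h1 : ∃ r, x * r = t := ⟨r, h⟩
  unfold quo46
  rw [dif_pos h1]
  apply mul_left_cancel₀ hx
  rw [Classical.choose_spec h1, h]

/-- the value of `1 + t / x` -/
noncomputable def val46 (D : Data R Q q) (x t : R) : Q := D.χ (1 + quo46 x t)

/-- the scales -/
def sc46 (N h : ℕ) : ℕ → ℕ → ℕ
  | 0, n => n
  | k + 1, n => sc46 N h k (N + 2 * n + 3 * h)

theorem le_sc46 (N h k : ℕ) : ∀ n, n ≤ sc46 N h k n := by
  induction k with
  | zero => exact fun n => le_refl n
  | succ k ih =>
    intro n
    refine le_trans ?_ (ih (N + 2 * n + 3 * h))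
    omega

/-- one step of the walk: the exact identity -/
theorem stepD46 [IsDomain R] (D : Data R Q q) (w : R) (hw : w ∈ D.J) (hw0 : w ≠ 0) (h n : ℕ)
    (hn : h < n) (μ t z x x1 X τ : R) (hx : x * x1 = w ^ h) (hX : X = x + μ)
    (hτ : X * τ = t) :
    val46 D x ((μ + t) * (w ^ n * z) * Ring.inverse (1 + w ^ n * z)) =
      D.χ (1 + (1 + τ) * (X * x1 * w ^ (n - h)) * z) * (D.χ (1 + w ^ n * z))⁻¹ := by
  have hx0 : x ≠ 0 := by
    rintro rfl
    rw [zero_mul] at hx
    exact pow_ne_zero h hw0 hx.symm
  have hwn : w ^ n = w ^ h * w ^ (n - h) := by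
    rw [← pow_add]
    congr 1
    omega
  have hsJ : w ^ n * z ∈ D.J := D.J.mul_mem_right _ (D.J.pow_mem_of_mem hw _ (by omega))
  have hu : IsUnit (1 + w ^ n * z) := D.hJ _ hsJ
  have hi : Ring.inverse (1 + w ^ n * z) * (1 + w ^ n * z) = 1 := Ring.inverse_mul_cancel _ hu
  obtain ⟨θ, hθ⟩ : ∃ θ, θ = (μ + t) * x1 * w ^ (n - h) * z * Ring.inverse (1 + w ^ n * z) :=
    ⟨_, rfl⟩
  have hq : quo46 x ((μ + t) * (w ^ n * z) * Ring.inverse (1 + w ^ n * z)) = θ := by
    apply quo46_spec hx0
    rw [hθ]
    calc x * ((μ + t) * x1 * w ^ (n - h) * z * Ring.inverse (1 + w ^ n * z))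
        = (μ + t) * ((x * x1 * w ^ (n - h)) * z) * Ring.inverse (1 + w ^ n * z) := by ring
      _ = _ := by rw [hx, ← hwn]
  have hθJ : θ ∈ D.J := by
    have h1 : θ = w ^ (n - h) * ((μ + t) * x1 * z * Ring.inverse (1 + w ^ n * z)) := by
      rw [hθ]; ring
    rw [h1]
    exact D.J.mul_mem_right _ (D.J.pow_mem_of_mem hw _ (by omega))
  have hu2 : IsUnit (1 + θ) := D.hJ _ hθJ
  have e1 : (1 + θ) * (1 + w ^ n * z) = 1 + (1 + τ) * (X * x1 * w ^ (n - h)) * z := by
    calc (1 + θ) * (1 + w ^ n * z)
        = 1 + w ^ n * z + (μ + t) * x1 * w ^ (n - h) * z *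
          (Ring.inverse (1 + w ^ n * z) * (1 + w ^ n * z)) := by rw [hθ]; ring
      _ = 1 + (x * x1 * w ^ (n - h)) * z + (μ + t) * x1 * w ^ (n - h) * z := by
          rw [hi, hx, ← hwn, mul_one]
      _ = 1 + (X + X * τ) * x1 * w ^ (n - h) * z := by rw [hτ, hX]; ring
      _ = _ := by ring
  unfold val46
  rw [hq, ← e1, D.hχ _ _ hu2 hu, mul_inv_cancel_right]

/-- the walk -/
theorem walkD46 [IsDomain R] {M₀ : Mean R} (hM₀ : AffInv M₀ ⊤) (D : Data R Q q) (w : R)
    (hw : w ∈ D.J) (hw0 : w ≠ 0) (N : ℕ) (δ : ℝ) (hδ0 : 0 ≤ δ) (hap : Appr46 D w N δ)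
    (hq0 : 0 < q) (h : ℕ) (y : R) (hy : IsUnit y) (hne : D.χ (y ^ q) ≠ 1) (l : List R) :
    ∀ n : ℕ, h < n → w ^ (sc46 N h l.length n) ∣ y ^ q - 1 →
    ∃ M : Mean R, (∀ f g, Bdd f → Bdd g → (∀ s ∈ Ideal.span {w ^ n}, f s = g s) →
      M.E f = M.E g) ∧
      ∀ x x' : R, Good46 w h l x → Good46 w h l x' → Sep y l x x' →
        ∀ v : Q, M.P (fun t => val46 D x t = v * val46 D x' t) ≤
          1 - 1 / q + 3 * l.length * δ := by
  classical
  have hq1 : (1 : ℝ) ≤ q := by exact_mod_cast hq0
  have hqpos : (0 : ℝ) < q := by linarith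
  have hB0 : 0 ≤ 1 - 1 / (q : ℝ) := by
    have : 1 / (q : ℝ) ≤ 1 := by
      rw [div_le_one hqpos]
      exact hq1
    linarith
  induction l with
  | nil =>
    intro n _ _
    refine ⟨Mean.dirac 0, fun f g _ _ h => h 0 (Ideal.zero_mem _), ?_⟩
    intro x x' _ _ hsep
    exact hsep.elim
  | cons μ l ih =>
    intro n hn hdiv
    obtain ⟨n', hn'⟩ : ∃ n', n' = N + 2 * n + 3 * h := ⟨_, rfl⟩
    have hdiv' : w ^ (sc46 N h l.length n') ∣ y ^ q - 1 := by
      rw [hn']
      exact hdiv
    obtain ⟨M', hsupp', hM'⟩ := ih n' (by omega) hdiv'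
    obtain ⟨I', hI'def⟩ : ∃ I' : Ideal R, I' = Ideal.span {w ^ n'} := ⟨_, rfl⟩
    rw [← hI'def] at hsupp'
    have hlen : ((μ :: l).length : ℝ) = l.length + 1 := by
      rw [List.length_cons]
      push_cast
      ring
    have hwn : w ^ n = w ^ h * w ^ (n - h) := by
      rw [← pow_add]
      congr 1
      omega
    have hwJ : w ^ (n - h) ∈ D.J := D.J.pow_mem_of_mem hw _ (by omega)
    have hdom : ∀ x : R, x ∣ w ^ h → x ≠ 0 := by
      rintro x ⟨r, hr⟩ rfl
      rw [zero_mul] at hr
      exact pow_ne_zero h hw0 hr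
    refine ⟨M'.bind (fun t => M₀.map
      (fun z => (μ + t) * (w ^ n * z) * Ring.inverse (1 + w ^ n * z))), ?_, ?_⟩
    · intro f g hf hg hfg
      rw [Mean.bind_E, Mean.bind_E]
      congr 1
      funext t
      rw [Mean.map_E, Mean.map_E]
      congr 1
      funext z
      apply hfg
      have : (μ + t) * (w ^ n * z) * Ring.inverse (1 + w ^ n * z) =
          w ^ n * ((μ + t) * z * Ring.inverse (1 + w ^ n * z)) := by ring
      rw [this]
      exact Ideal.mul_mem_right _ _ (Ideal.mem_span_singleton_self _)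
    · intro x x' hgx hgx' hsep v
      obtain ⟨x1, hx1⟩ := hgx.1
      obtain ⟨x1', hx1'⟩ := hgx'.1
      obtain ⟨X, hX⟩ : ∃ X, X = x + μ := ⟨_, rfl⟩
      obtain ⟨X', hX'⟩ : ∃ X', X' = x' + μ := ⟨_, rfl⟩
      have hGX : Good46 w h l X := by rw [hX]; exact hgx.2
      have hGX' : Good46 w h l X' := by rw [hX']; exact hgx'.2
      obtain ⟨X1, hX1⟩ := hGX.dvd
      obtain ⟨X1', hX1'⟩ := hGX'.dvd
      have hX0 : X ≠ 0 := hdom X hGX.dvd
      have hX0' : X' ≠ 0 := hdom X' hGX'.dvd
      obtain ⟨g, hg⟩ : ∃ g, g = X * x1 * w ^ (n - h) := ⟨_, rfl⟩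
      obtain ⟨g', hg'⟩ : ∃ g', g' = X' * x1' * w ^ (n - h) := ⟨_, rfl⟩
      have hgJ : Ideal.span {g} ≤ D.J := by
        rw [Ideal.span_singleton_le_iff_mem, hg]
        exact D.J.mul_mem_left _ hwJ
      have hgJ' : Ideal.span {g'} ≤ D.J := by
        rw [Ideal.span_singleton_le_iff_mem, hg']
        exact D.J.mul_mem_left _ hwJ
      have hgI : g ∈ Ideal.span {g} := Ideal.mem_span_singleton_self g
      have hgI' : g' ∈ Ideal.span {g'} := Ideal.mem_span_singleton_self g'
      have hgg : g * (x * X1) = w ^ (n + h) := by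
        rw [hg]
        calc X * x1 * w ^ (n - h) * (x * X1) = (X * X1) * ((x * x1) * w ^ (n - h)) := by ring
          _ = w ^ (n + h) := by rw [← hX1, ← hx1, ← hwn, ← pow_add, add_comm]
      have hgg' : g' * (x' * X1') = w ^ (n + h) := by
        rw [hg']
        calc X' * x1' * w ^ (n - h) * (x' * X1')
            = (X' * X1') * ((x' * x1') * w ^ (n - h)) := by ring
          _ = w ^ (n + h) := by rw [← hX1', ← hx1', ← hwn, ← pow_add, add_comm]
      -- the elements `t / X`
      have hτ : ∀ t ∈ I', ∃ a ∈ Ideal.span {g}, quo46 X t = w ^ N * a * g ∧ X * quo46 X t = t := by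
        intro t ht
        rw [hI'def, Ideal.mem_span_singleton] at ht
        obtain ⟨ρ, hρ⟩ := ht
        have e1 : X * (w ^ N * (g * (X1 * ρ * (x * X1) ^ 2)) * g) = t := by
          calc X * (w ^ N * (g * (X1 * ρ * (x * X1) ^ 2)) * g)
              = (X * X1) * (w ^ N * (g * (x * X1)) ^ 2) * ρ := by ring
            _ = w ^ n' * ρ := by
                rw [hgg, ← hX1, ← pow_mul, ← pow_add, ← pow_add, hn']
                congr 2
                ring
            _ = t := hρ.symm
        have e2 : quo46 X t = w ^ N * (g * (X1 * ρ * (x * X1) ^ 2)) * g := quo46_spec hX0 e1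
        exact ⟨_, Ideal.mul_mem_right _ _ hgI, e2, by rw [e2]; exact e1⟩
      have hτ' : ∀ t ∈ I', ∃ a ∈ Ideal.span {g'}, quo46 X' t = w ^ N * a * g' ∧
          X' * quo46 X' t = t := by
        intro t ht
        rw [hI'def, Ideal.mem_span_singleton] at ht
        obtain ⟨ρ, hρ⟩ := ht
        have e1 : X' * (w ^ N * (g' * (X1' * ρ * (x' * X1') ^ 2)) * g') = t := by
          calc X' * (w ^ N * (g' * (X1' * ρ * (x' * X1') ^ 2)) * g')
              = (X' * X1') * (w ^ N * (g' * (x' * X1')) ^ 2) * ρ := by ring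
            _ = w ^ n' * ρ := by
                rw [hgg', ← hX1', ← pow_mul, ← pow_add, ← pow_add, hn']
                congr 2
                ring
            _ = t := hρ.symm
        have e2 : quo46 X' t = w ^ N * (g' * (X1' * ρ * (x' * X1') ^ 2)) * g' :=
          quo46_spec hX0' e1
        exact ⟨_, Ideal.mul_mem_right _ _ hgI', e2, by rw [e2]; exact e1⟩
      rw [Mean.bind_P]
      -- the inner probability
      have hinner : ∀ t ∈ I',
          (M₀.map (fun z => (μ + t) * (w ^ n * z) * Ring.inverse (1 + w ^ n * z))).P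
            (fun t => val46 D x t = v * val46 D x' t) ≤
          M₀.P (fun z => val46 D X t * D.χ (1 + g * z) =
            v * (val46 D X' t * D.χ (1 + g' * z))) + 2 * δ := by
        intro t ht
        obtain ⟨a, haI, ha1, ha2⟩ := hτ t ht
        obtain ⟨a', haI', ha1', ha2'⟩ := hτ' t ht
        rw [Mean.map_P]
        have n1 := lemma2D46 D w N δ hap (Ideal.span {g}) hgJ _ (affInv_map46 hM₀ g) a g haI hgI
        have n2 := lemma2D46 D w N δ hap (Ideal.span {g'}) hgJ' _ (affInv_map46 hM₀ g') a' g'
          haI' hgI'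
        rw [← ha1, Mean.map_P] at n1
        rw [← ha1', Mean.map_P] at n2
        have hst : M₀.P (fun z => val46 D x ((μ + t) * (w ^ n * z) *
              Ring.inverse (1 + w ^ n * z)) =
            v * val46 D x' ((μ + t) * (w ^ n * z) * Ring.inverse (1 + w ^ n * z))) =
            M₀.P (fun z => D.χ (1 + (1 + quo46 X t) * (g * z)) =
              v * D.χ (1 + (1 + quo46 X' t) * (g' * z))) := by
          refine M₀.P_congr fun z => ?_
          rw [stepD46 D w hw hw0 h n hn μ t z x x1 X (quo46 X t) hx1.symm hX ha2,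
            stepD46 D w hw hw0 h n hn μ t z x' x1' X' (quo46 X' t) hx1'.symm hX' ha2',
            ← hg, ← hg', mul_assoc (1 + quo46 X t), mul_assoc (1 + quo46 X' t), ← mul_assoc v]
          exact ⟨fun h => mul_right_cancel h, fun h => by rw [h]⟩
        rw [hst]
        refine le_trans (M₀.P_le_add (r := fun z => (val46 D X t * D.χ (1 + g * z) =
            v * (val46 D X' t * D.χ (1 + g' * z))) ∨
            ¬ D.χ (1 + (1 + quo46 X t) * (g * z)) =
              D.χ (1 + quo46 X t) * D.χ (1 + g * z))
          (e := fun z => ¬ D.χ (1 + (1 + quo46 X' t) * (g' * z)) =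
              D.χ (1 + quo46 X' t) * D.χ (1 + g' * z)) ?_) ?_
        · intro z hz
          by_cases h1 : D.χ (1 + (1 + quo46 X t) * (g * z)) =
              D.χ (1 + quo46 X t) * D.χ (1 + g * z)
          · by_cases h2 : D.χ (1 + (1 + quo46 X' t) * (g' * z)) =
              D.χ (1 + quo46 X' t) * D.χ (1 + g' * z)
            · left
              left
              unfold val46
              rw [← h1, ← h2]
              exact hz
            · right
              exact h2
          · left
            right
            exact h1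
        · have h3 := M₀.P_or_le (fun z => val46 D X t * D.χ (1 + g * z) =
            v * (val46 D X' t * D.χ (1 + g' * z)))
            (fun z => ¬ D.χ (1 + (1 + quo46 X t) * (g * z)) =
              D.χ (1 + quo46 X t) * D.χ (1 + g * z))
          linarith
      -- restrict to the support
      have hred : ∀ (G : R → ℝ), Bdd G → (∀ t ∈ I',
          (M₀.map (fun z => (μ + t) * (w ^ n * z) * Ring.inverse (1 + w ^ n * z))).P
            (fun t => val46 D x t = v * val46 D x' t) ≤ G t) → (∀ t, 0 ≤ G t) →
          M'.E (fun t => (M₀.map (fun z => (μ + t) * (w ^ n * z) *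
            Ring.inverse (1 + w ^ n * z))).P
            (fun t => val46 D x t = v * val46 D x' t)) ≤ M'.E G := by
        intro G hG hle hG0
        have hb : Bdd (fun t => (M₀.map (fun z => (μ + t) * (w ^ n * z) *
            Ring.inverse (1 + w ^ n * z))).P
            (fun t => val46 D x t = v * val46 D x' t)) :=
          Bdd.of_nonneg_le 1 (fun t => Mean.P_nonneg _ _) (fun t => Mean.P_le_one _ _)
        have hb2 : Bdd (fun t => ind (fun t => t ∈ I') t *
            (M₀.map (fun z => (μ + t) * (w ^ n * z) * Ring.inverse (1 + w ^ n * z))).P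
            (fun t => val46 D x t = v * val46 D x' t)) := (bdd_ind _).mul hb
        rw [hsupp' _ _ hb hb2 fun t ht => by rw [ind_of_pos (p := fun t => t ∈ I') ht, one_mul]]
        refine M'.E_mono hb2 hG fun t => ?_
        by_cases ht : t ∈ I'
        · rw [ind_of_pos (p := fun t => t ∈ I') ht, one_mul]
          exact hle t ht
        · rw [ind_of_neg (p := fun t => t ∈ I') ht, zero_mul]
          exact hG0 t
      have hlen0 : (0 : ℝ) ≤ l.length := Nat.cast_nonneg _
      have hld : 0 ≤ (l.length : ℝ) * δ := mul_nonneg hlen0 hδ0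
      rcases hsep with hsp | hsp
      · -- the special step
        have hfin := hred (fun _ => 1 - 1 / (q : ℝ) + 3 * δ) (Bdd.const _) (fun t ht => ?_)
          (fun _ => by linarith)
        · rw [M'.E_const] at hfin
          refine hfin.trans ?_
          rw [hlen]
          nlinarith
        refine (hinner t ht).trans ?_
        have hrel : g = y * g' := by
          have hx0 : x ≠ 0 := hdom x hgx.1
          have hx0' : x' ≠ 0 := hdom x' hgx'.1
          apply mul_right_cancel₀ (mul_ne_zero hx0 hx0')
          have hsp' : X * x' = y * (x * X') := by rw [hX, hX']; exact hsp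
          calc g * (x * x') = (X * x') * ((x * x1) * w ^ (n - h)) := by rw [hg]; ring
            _ = (y * (x * X')) * ((x' * x1') * w ^ (n - h)) := by rw [hsp', ← hx1, ← hx1']
            _ = y * g' * (x * x') := by rw [hg']; ring
        obtain ⟨r, hr⟩ : ∃ r, y ^ q = 1 + w ^ N * (g' * (r * (x' * X1') ^ 2)) * g' := by
          have h1 : w ^ (N + 2 * (n + h)) ∣ y ^ q - 1 := by
            refine dvd_trans (pow_dvd_pow w ?_) hdiv'
            refine le_trans ?_ (le_sc46 N h l.length n')
            omega
          obtain ⟨r, hr⟩ := h1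
          refine ⟨r, ?_⟩
          have h2 : y ^ q = 1 + (y ^ q - 1) := by ring
          rw [h2, hr]
          calc 1 + w ^ (N + 2 * (n + h)) * r = 1 + w ^ N * (w ^ (n + h)) ^ 2 * r := by
                rw [pow_add, ← pow_mul, mul_comm 2]
            _ = 1 + w ^ N * (g' * (x' * X1')) ^ 2 * r := by rw [hgg']
            _ = _ := by ring
        have h3 := lemma3D46 D w N δ hδ0 hap hq0 (Ideal.span {g'}) hgJ' _ (affInv_map46 hM₀ g')
          y (g' * (r * (x' * X1') ^ 2)) g' hy (Ideal.mul_mem_right _ _ hgI') hgI' hr hne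
          ((val46 D X t)⁻¹ * (v * val46 D X' t))
        rw [Mean.map_P] at h3
        have h4 : M₀.P (fun z => val46 D X t * D.χ (1 + g * z) =
            v * (val46 D X' t * D.χ (1 + g' * z))) ≤
            M₀.P (fun z => D.χ (1 + y * (g' * z)) =
              (val46 D X t)⁻¹ * (v * val46 D X' t) * D.χ (1 + g' * z)) := by
          refine M₀.P_mono fun z hz => ?_
          have e1 : 1 + y * (g' * z) = 1 + g * z := by
            rw [hrel]
            ring
          rw [e1, mul_assoc (val46 D X t)⁻¹, mul_assoc v, ← hz, inv_mul_cancel_left]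
        linarith
      · -- the special step comes later
        obtain ⟨S, hS⟩ : ∃ S : Finset Q, ∀ u, u - 1 ∈ D.J → D.χ u ∈ S :=
          ⟨D.hfin.toFinset, fun u hu => by
            rw [Set.Finite.mem_toFinset]
            exact ⟨u, hu, rfl⟩⟩
        obtain ⟨V, hV⟩ : ∃ V : Finset Q, ∀ a ∈ S, ∀ b ∈ S, a * b⁻¹ ∈ V :=
          ⟨(S ×ˢ S).image fun p => p.1 * p.2⁻¹, fun a ha b hb =>
            Finset.mem_image.2 ⟨(a, b), Finset.mem_product.2 ⟨ha, hb⟩, rfl⟩⟩
        obtain ⟨G, hG⟩ : ∃ G : R → Q, G = fun z => D.χ (1 + g * z) *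
          (D.χ (1 + g' * z))⁻¹ := ⟨_, rfl⟩
        have hGV : ∀ z, G z ∈ V := by
          intro z
          rw [hG]
          refine hV _ (hS _ ?_) _ (hS _ ?_)
          · rw [add_sub_cancel_left]
            exact hgJ (Ideal.mul_mem_right _ _ hgI)
          · rw [add_sub_cancel_left]
            exact hgJ' (Ideal.mul_mem_right _ _ hgI')
        have hgb : Bdd (fun t => ∑ v' ∈ V, M₀.P (fun z => G z = v') *
            ind (fun t => val46 D X t = (v * v'⁻¹) * val46 D X' t) t) :=
          Bdd.sum V fun v' _ => Bdd.smul _ (bdd_ind _)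
        have hgb2 : Bdd (fun t => (∑ v' ∈ V, M₀.P (fun z => G z = v') *
            ind (fun t => val46 D X t = (v * v'⁻¹) * val46 D X' t) t) + 2 * δ) :=
          hgb.add (Bdd.const _)
        have hsum0 : ∀ t, 0 ≤ ∑ v' ∈ V, M₀.P (fun z => G z = v') *
            ind (fun t => val46 D X t = (v * v'⁻¹) * val46 D X' t) t := fun t =>
          Finset.sum_nonneg fun v' _ => mul_nonneg (M₀.P_nonneg _) (ind_nonneg _ _)
        refine (hred _ hgb2 (fun t ht => ?_) fun t => by
          have := hsum0 t
          linarith).trans ?_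
        · refine (hinner t ht).trans ?_
          refine add_le_add ?_ le_rfl
          -- the only value that counts
          obtain ⟨v0, hv0⟩ : ∃ v0 : Q, v0 = v * val46 D X' t * (val46 D X t)⁻¹ := ⟨_, rfl⟩
          have hle : M₀.P (fun z => val46 D X t * D.χ (1 + g * z) =
              v * (val46 D X' t * D.χ (1 + g' * z))) =
              M₀.P (fun z => G z = v0) := by
            refine M₀.P_congr fun z => ?_
            rw [hG, hv0]
            constructor
            · intro h
              show D.χ (1 + g * z) * (D.χ (1 + g' * z))⁻¹ = _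
              have h1 : D.χ (1 + g * z) = (val46 D X t)⁻¹ *
                  (v * (val46 D X' t * D.χ (1 + g' * z))) := by
                rw [← h, inv_mul_cancel_left]
              rw [h1, mul_comm (v * val46 D X' t), mul_assoc, mul_assoc, mul_assoc,
                mul_inv_cancel, mul_one]
            · intro h
              have h' : D.χ (1 + g * z) * (D.χ (1 + g' * z))⁻¹ =
                v * val46 D X' t * (val46 D X t)⁻¹ := h
              have h1 : D.χ (1 + g * z) =
                  v * val46 D X' t * (val46 D X t)⁻¹ * D.χ (1 + g' * z) := by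
                rw [← h', inv_mul_cancel_right]
              rw [h1, mul_comm (v * val46 D X' t), ← mul_assoc, ← mul_assoc, mul_inv_cancel,
                one_mul, mul_assoc]
          rw [hle]
          have hvV : v0 ∈ V ∨ v0 ∉ V := em _
          rcases hvV with hvV | hvV
          · refine le_trans ?_ (Finset.single_le_sum (f := fun v' => M₀.P (fun z => G z = v') *
              ind (fun t => val46 D X t = (v * v'⁻¹) * val46 D X' t) t)
              (fun v' _ => mul_nonneg (M₀.P_nonneg _) (ind_nonneg _ _)) hvV)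
            have hpos : val46 D X t = (v * v0⁻¹) * val46 D X' t := by
              rw [hv0, mul_inv, mul_inv, inv_inv]
              have : v * (v⁻¹ * (val46 D X' t)⁻¹ * val46 D X t) * val46 D X' t =
                (v * v⁻¹) * ((val46 D X' t)⁻¹ * val46 D X' t) * val46 D X t := by
                rw [mul_assoc v⁻¹, ← mul_assoc v v⁻¹, mul_assoc (v * v⁻¹), mul_assoc (v * v⁻¹),
                  mul_assoc (val46 D X' t)⁻¹, mul_comm (val46 D X t) (val46 D X' t),
                  ← mul_assoc (val46 D X' t)⁻¹]
              rw [this, mul_inv_cancel, inv_mul_cancel, one_mul, one_mul]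
            show M₀.P (fun z => G z = v0) ≤ M₀.P (fun z => G z = v0) *
              ind (fun t => val46 D X t = (v * v0⁻¹) * val46 D X' t) t
            rw [ind_of_pos (p := fun t => val46 D X t = (v * v0⁻¹) * val46 D X' t) hpos,
              mul_one]
          · have hz0 : M₀.P (fun z => G z = v0) = 0 := M₀.P_false (p := fun z => G z = v0)
              fun z hz => hvV (by rw [← hz]; exact hGV z)
            rw [hz0]
            exact hsum0 t
        · rw [M'.E_add hgb (Bdd.const _), M'.E_const,
            M'.E_sum V fun v' _ => Bdd.smul _ (bdd_ind _)]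
          have h1 : ∀ v' ∈ V, M'.E (fun t => M₀.P (fun z => G z = v') *
              ind (fun t => val46 D X t = (v * v'⁻¹) * val46 D X' t) t) ≤
              M₀.P (fun z => G z = v') * (1 - 1 / q + 3 * l.length * δ) := by
            intro v' _
            rw [M'.E_smul _ (bdd_ind _)]
            have hsp' : Sep y l X X' := by rw [hX, hX']; exact hsp
            exact mul_le_mul_of_nonneg_left
              (hM' _ _ hGX hGX' hsp' (v * v'⁻¹)) (M₀.P_nonneg _)
          have h2 := sum_P_le34 M₀ G V
          have h3 := Finset.sum_le_sum h1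
          rw [← Finset.sum_mul] at h3
          have h4 : 0 ≤ 1 - 1 / (q : ℝ) + 3 * l.length * δ := by nlinarith
          have h5 : (∑ v' ∈ V, M₀.P (fun z => G z = v')) * (1 - 1 / q + 3 * l.length * δ) ≤
              1 * (1 - 1 / q + 3 * l.length * δ) := mul_le_mul_of_nonneg_right h2 h4
          rw [hlen]
          nlinarith

end Pool.Agent.AIC.M
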