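import Pool.Agent.AIC.M.CoreB34
import Pool.Agent.AIC.M.WalkD46
import Pool.Agent.AIC.M.Mean26
import Pool.Agent.AIC.M.E11

/-! MP_313bb4, theorem M without residue hypotheses: the core. -/

set_option autoImplicit false
set_option linter.unusedSectionVars false

namespace Pool.Agent.AIC.M

variable {R Q : Type} [CommRing R] [CommGroup Q] {q : ℕ}

open Finset in
/-- the unit `y`: very close to `1` where `e` vanishes and to `ζ` where `1 - e` vanishes -/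
theorem exists_y46 {R : Type} [CommRing R] {q : ℕ} (hq : 0 < q) {ζ : R}
    (hζ : ∑ j ∈ range q, ζ ^ j = 0) (e : R)
    (he : ∀ m : Ideal R, m.IsMaximal → e * (1 - e) ∈ m) (N : ℕ) :
    ∃ y : R, IsUnit y ∧ e ^ N ∣ y - 1 ∧ (1 - e) ^ N ∣ y - ζ ∧ (e * (1 - e)) ^ N ∣ y ^ q - 1 := by
  obtain ⟨e', h1, h2, h3⟩ := exists_e e N
  have hy1 : 1 + (ζ - 1) * e' - 1 = (ζ - 1) * e' := by ring
  have hy2 : 1 + (ζ - 1) * e' - ζ = (1 - ζ) * (1 - e') := by ring
  have hd1 : e ∣ 1 + (ζ - 1) * e' - 1 := by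
    rw [hy1]
    exact Dvd.dvd.mul_left h1 _
  have hd2 : (1 - e) ∣ 1 + (ζ - 1) * e' - ζ := by
    rw [hy2]
    exact Dvd.dvd.mul_left h2 _
  have hc1 : IsCoprime (e ^ N) (1 - e') := by
    apply IsCoprime.pow_left
    obtain ⟨k, hk⟩ := h1
    exact ⟨k, 1, by rw [hk]; ring⟩
  have hc2 : IsCoprime ((1 - e) ^ N) e' := by
    apply IsCoprime.pow_left
    obtain ⟨k, hk⟩ := h2
    exact ⟨k, 1, by rw [mul_comm k, ← hk]; ring⟩
  have hp : e ^ N * (1 - e) ^ N ∣ e' * (1 - e') := by rwa [← mul_pow]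
  have hd3 : e ^ N ∣ e' := hc1.dvd_of_dvd_mul_right (dvd_trans (Dvd.intro _ rfl) hp)
  have hd4 : (1 - e) ^ N ∣ 1 - e' := hc2.dvd_of_dvd_mul_left (dvd_trans (Dvd.intro_left _ rfl) hp)
  refine ⟨1 + (ζ - 1) * e', ?_, ?_, ?_, ?_⟩
  · by_contra hn
    obtain ⟨m, hm, hmem⟩ := exists_max_ideal_of_mem_nonunits hn
    rcases hm.isPrime.mem_or_mem (he m hm) with h | h
    · have h4 : 1 + (ζ - 1) * e' - 1 ∈ m := m.mem_of_dvd hd1 h
      have h5 : (1 : R) ∈ m := by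
        have := m.sub_mem hmem h4
        rwa [sub_sub_cancel] at this
      exact hm.ne_top (m.eq_top_of_isUnit_mem h5 isUnit_one)
    · have h4 : 1 + (ζ - 1) * e' - ζ ∈ m := m.mem_of_dvd hd2 h
      have h5 : ζ ∈ m := by
        have := m.sub_mem hmem h4
        rwa [sub_sub_cancel] at this
      have h6 : IsUnit ζ := IsUnit.of_pow_eq_one (zeta_pow11 hζ) hq.ne'
      exact hm.ne_top (m.eq_top_of_isUnit_mem h5 h6)
  · rw [hy1]
    exact Dvd.dvd.mul_left hd3 _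
  · rw [hy2]
    exact Dvd.dvd.mul_left hd4 _
  · refine Dvd.dvd.trans ?_ (dvd_pow_sub_one11 hζ _)
    rw [hy1, hy2]
    have h4 : (ζ - 1) * e' * ((1 - ζ) * (1 - e')) = (e' * (1 - e')) * ((ζ - 1) * (1 - ζ)) := by
      ring
    rw [h4]
    exact Dvd.dvd.mul_right h3 _

/-- the statement on the points of the walk -/
def WalkPts46 {R : Type} [CommRing R] (e : R) : Prop :=
  ∀ n : ℕ, ∃ K : ℕ, ∀ y : R, IsUnit y → e ^ (n + 2) ∣ y - 1 →
    (∀ m : Ideal R, m.IsMaximal → 1 - e ∈ m → 1 - y ∉ m) →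
    ∃ l : List R, l.length = K ∧
      (∀ c : Fin n, Good46 (e * (1 - e)) (n + 1) l ((e * (1 - e)) ^ ((c : ℕ) + 1) + 1)) ∧
      ∀ i j : Fin n, i < j →
        Sep y l ((e * (1 - e)) ^ ((i : ℕ) + 1) + 1) ((e * (1 - e)) ^ ((j : ℕ) + 1) + 1)

/-- **the core without residue hypotheses** -/
theorem coreD46 [IsDomain R] (D : Data R Q q) (hq0 : 0 < q) (e : R)
    (he0 : e * (1 - e) ≠ 0) (heJ : e * (1 - e) ∈ D.J) (hwalk : WalkPts46 e)
    (hy : ∀ N : ℕ, ∃ y : R, IsUnit y ∧ e ^ N ∣ y - 1 ∧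
      (∀ m : Ideal R, m.IsMaximal → 1 - e ∈ m → 1 - y ∉ m) ∧
      (e * (1 - e)) ^ N ∣ y ^ q - 1 ∧ D.χ (y ^ q) ≠ 1) : False := by
  have hq1 : (1 : ℝ) ≤ q := by exact_mod_cast hq0
  have hqpos : (0 : ℝ) < q := by linarith
  obtain ⟨w, hwdef⟩ : ∃ w, w = e * (1 - e) := ⟨_, rfl⟩
  obtain ⟨n, hn⟩ := pack_chi D (1 / (2 * q)) (by positivity)
  obtain ⟨K, hK⟩ := hwalk n
  rw [← hwdef] at he0 heJ hK
  obtain ⟨δ, hδ⟩ : ∃ δ : ℝ, δ = 1 / (2 * q * (3 * K + 1)) := ⟨_, rfl⟩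
  have hK0 : (0 : ℝ) ≤ K := Nat.cast_nonneg _
  have hδpos : 0 < δ := by
    rw [hδ]
    positivity
  obtain ⟨N, hap⟩ := lemma1D46 D (packChi34 D) w heJ δ hδpos
  obtain ⟨M₀, hM₀⟩ := exists_affInv (⊤ : Ideal R)
  obtain ⟨y, hyu, hy1, hy2, hy3, hne⟩ := hy (max (sc46 N (n + 1) K (n + 2)) (n + 2))
  obtain ⟨l, hl, hgood, hsep⟩ := hK y hyu
    (dvd_trans (pow_dvd_pow _ (le_max_right _ _)) hy1) hy2
  rw [← hwdef] at hy3
  obtain ⟨M, hsupp, hM⟩ := walkD46 hM₀ D w heJ he0 N δ hδpos.le hap hq0 (n + 1) y hyu hne l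
    (n + 2) (by omega) (by
      rw [hl]
      exact dvd_trans (pow_dvd_pow _ (le_max_left _ _)) hy3)
  -- the inverses of the points
  have hunit : ∀ c : Fin n, IsUnit (w ^ ((c : ℕ) + 1) + 1) := by
    intro c
    rw [add_comm]
    exact D.hJ _ (D.J.pow_mem_of_mem heJ _ (Nat.succ_pos _))
  choose u hu using fun c => (hunit c).exists_right_inv
  have hsuppJ : ∀ f g, Bdd f → Bdd g → (∀ s ∈ D.J, f s = g s) → M.E f = M.E g := by
    intro f g hf hg hfg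
    refine hsupp f g hf hg fun s hs => hfg s ?_
    have h1 : Ideal.span {w ^ (n + 2)} ≤ D.J := by
      rw [Ideal.span_singleton_le_iff_mem]
      exact D.J.pow_mem_of_mem heJ _ (by omega)
    exact h1 hs
  obtain ⟨i, j, hij, hlt⟩ := hn M (fun _ => 1) u (fun _ => 1) u (fun c s hs => by
    have h1 : 1 + u c * s - 1 = u c * s := by ring
    rw [h1]
    exact ⟨D.J.mul_mem_left _ hs, D.J.mul_mem_left _ hs⟩) hsuppJ
  have hval : ∀ (c : Fin n) (t : R), val46 D (w ^ ((c : ℕ) + 1) + 1) t = D.χ (1 + u c * t) := by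
    intro c t
    unfold val46
    rw [quo46_spec (hunit c).ne_zero (r := u c * t) (by rw [← mul_assoc, hu, one_mul])]
  have hle := hM _ _ (hgood i) (hgood j) (hsep i j hij) 1
  have hP : M.P (fun t => val46 D (w ^ ((i : ℕ) + 1) + 1) t =
      1 * val46 D (w ^ ((j : ℕ) + 1) + 1) t) =
      M.P (fun t => D.χ (1 + u i * t) = D.χ (1 + u j * t)) := by
    refine M.P_congr fun t => ?_
    rw [hval, hval, one_mul]
  rw [hP, hl] at hle
  have hnot := M.P_not (fun t => D.χ (1 + u i * t) = D.χ (1 + u j * t))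
  have hPn : M.P (fun s => ¬ (D.χ (1 + u i * s) = D.χ (1 + u j * s) ∧
      D.χ (1 + u i * s) = D.χ (1 + u j * s))) =
      M.P (fun t => ¬ D.χ (1 + u i * t) = D.χ (1 + u j * t)) := by
    refine M.P_congr fun t => ?_
    rw [and_self]
  rw [hPn, hnot] at hlt
  have hδK : 3 * K * δ < 1 / (2 * q) := by
    rw [hδ, mul_one_div, div_lt_div_iff₀ (by positivity) (by positivity)]
    nlinarith
  have h2 : 1 / (q : ℝ) = 2 * (1 / (2 * q)) := by
    field_simp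
  linarith

end Pool.Agent.AIC.M
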