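import Pool.Agent.AIC.M.DefsD46

/-! MP_313bb4, theorem M without residue hypotheses: the points and the steps of the walk. -/

set_option autoImplicit false

namespace Pool.Agent.AIC.M

/-- local divisibility -/
theorem dvd_of_local82 {R : Type} [CommRing R] (a b : R)
    (h : ∀ m : Ideal R, m.IsMaximal → ∃ r, r ∉ m ∧ a ∣ r * b) : a ∣ b := by
  let I : Ideal R :=
    { carrier := {r | a ∣ r * b}
      add_mem' := fun {x y} hx hy => by
        show a ∣ (x + y) * b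
        rw [add_mul]
        exact dvd_add hx hy
      zero_mem' := by
        show a ∣ 0 * b
        rw [zero_mul]
        exact dvd_zero a
      smul_mem' := fun c x hx => by
        show a ∣ (c * x) * b
        rw [mul_assoc]
        exact Dvd.dvd.mul_left hx c }
  by_contra hn
  have hI : I ≠ ⊤ := by
    intro h1
    apply hn
    have h2 : (1 : R) ∈ I := (Ideal.eq_top_iff_one I).mp h1
    have h3 : a ∣ 1 * b := h2
    rwa [one_mul] at h3
  obtain ⟨m, hm, hle⟩ := Ideal.exists_le_maximal I hI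
  obtain ⟨r, hr, hd⟩ := h m hm
  exact hr (hle hd)

/-- the step for one pair of points -/
theorem two_stepsE82 {R : Type} [CommRing R] [IsDomain R] (e : R)
    (he : ∀ m : Ideal R, m.IsMaximal → e * (1 - e) ∈ m) (he0 : e * (1 - e) ≠ 0)
    (n : ℕ) (y : R) (hyu : IsUnit y) (hy1 : e ^ (n + 2) ∣ y - 1)
    (hy2 : ∀ m : Ideal R, m.IsMaximal → 1 - e ∈ m → 1 - y ∉ m)
    (i j : ℕ) (hi : 1 ≤ i) (hij : i < j) (hj : j ≤ n) :
    ∃ P : R, ((e * (1 - e)) ^ i + P) * ((e * (1 - e)) ^ j + 1) =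
        y * (((e * (1 - e)) ^ i + 1) * ((e * (1 - e)) ^ j + P)) ∧
      ∀ c, 1 ≤ c → c ≤ n → (e * (1 - e)) ^ c + P ∣ (e * (1 - e)) ^ (n + 1) := by
  obtain ⟨w, hw⟩ : ∃ w, w = e * (1 - e) := ⟨_, rfl⟩
  rw [← hw]
  have hwm : ∀ m : Ideal R, m.IsMaximal → w ∈ m := fun m hm => hw ▸ he m hm
  have hwp : ∀ m : Ideal R, m.IsMaximal → ∀ c, 1 ≤ c → w ^ c ∈ m := fun m hm c hc =>
    m.pow_mem_of_mem (hwm m hm) c hc
  have hnot : ∀ (u : R), IsUnit u → ∀ m : Ideal R, m.IsMaximal → u ∉ m := fun u hu m hm h =>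
    hm.ne_top (Ideal.eq_top_of_isUnit_mem m h hu)
  have hone : ∀ m : Ideal R, m.IsMaximal → (1 : R) ∉ m := fun m hm h =>
    hm.ne_top ((Ideal.eq_top_iff_one m).mpr h)
  have hx1 : ∀ m : Ideal R, m.IsMaximal → ∀ c, 1 ≤ c → w ^ c + 1 ∉ m := by
    intro m hm c hc h
    apply hone m hm
    have h1 : (1 : R) = (w ^ c + 1) - w ^ c := by ring
    rw [h1]
    exact sub_mem h (hwp m hm c hc)
  have he1 : e ≠ 0 := left_ne_zero_of_mul he0
  have heB : ∀ m : Ideal R, m.IsMaximal → (1 - e) ∈ m → e ∉ m := by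
    intro m hm h h'
    apply hone m hm
    have h1 : (1 : R) = (1 - e) + e := by ring
    rw [h1]
    exact add_mem h h'
  have hcase : ∀ m : Ideal R, m.IsMaximal → (e ∈ m ∧ 1 - e ∉ m) ∨ (1 - e ∈ m ∧ e ∉ m) := by
    intro m hm
    rcases hm.isPrime.mem_or_mem (he m hm) with h | h
    · exact Or.inl ⟨h, fun h' => heB m hm h' h⟩
    · exact Or.inr ⟨h, heB m hm h⟩
  obtain ⟨k0, hk0⟩ := hy1
  obtain ⟨d, hd⟩ : ∃ d, j = i + (d + 1) := ⟨j - i - 1, by omega⟩
  obtain ⟨s, hs⟩ : ∃ s, n + 2 = i + (s + 1) := ⟨n + 1 - i, by omega⟩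
  have hwe : ∀ k, w ^ k = e ^ k * (1 - e) ^ k := fun k => by rw [hw, mul_pow]
  -- the denominator and the numerators
  obtain ⟨D, hD⟩ : ∃ D, D = (w ^ j + 1) - y * (w ^ i + 1) := ⟨_, rfl⟩
  obtain ⟨N, hN⟩ : ∃ N : R → R, ∀ x, N x = (w ^ j - w ^ i) * (x + 1)
    - (y - 1) * (w ^ i + 1) * (x - w ^ j) := ⟨_, fun _ => rfl⟩
  have hND : ∀ x, N x = N 0 + x * D := by
    intro x
    rw [hN, hN, hD]
    ring
  -- the first kind of maximal ideals
  obtain ⟨r, hr⟩ : ∃ r, r = (1 - e) ^ i * (w ^ (d + 1) - 1) - e ^ (s + 1) * k0 * (w ^ i + 1) :=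
    ⟨_, rfl⟩
  obtain ⟨r', hr'⟩ : ∃ r' : R → R, ∀ x, r' x = (1 - e) ^ i * (w ^ (d + 1) - 1) * (x + 1) -
    e ^ (s + 1) * k0 * (w ^ i + 1) * (x - w ^ j) := ⟨_, fun _ => rfl⟩
  have hwji : w ^ j - w ^ i = e ^ i * ((1 - e) ^ i * (w ^ (d + 1) - 1)) := by
    rw [hd, pow_add, hwe i]
    ring
  have hy1' : y - 1 = e ^ i * (e ^ (s + 1) * k0) := by
    rw [hk0, hs, pow_add]
    ring
  have hDr : D = e ^ i * r := by
    have h1 : D = (w ^ j - w ^ i) - (y - 1) * (w ^ i + 1) := by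
      rw [hD]
      ring
    rw [h1, hwji, hy1', hr]
    ring
  have hNr : ∀ x, N x = e ^ i * r' x := by
    intro x
    rw [hN, hwji, hy1', hr']
    ring
  have hv0 : ∀ m : Ideal R, m.IsMaximal → w ^ (d + 1) - 1 ∉ m := by
    intro m hm h
    apply hone m hm
    have h1 : (1 : R) = w ^ (d + 1) - (w ^ (d + 1) - 1) := by ring
    rw [h1]
    exact sub_mem (hwp m hm _ (by omega)) h
  have hrA : ∀ m : Ideal R, m.IsMaximal → e ∈ m → 1 - e ∉ m → r ∉ m := by
    intro m hm h1 h2 h3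
    have h4 : (1 - e) ^ i * (w ^ (d + 1) - 1) ∈ m := by
      have h5 : (1 - e) ^ i * (w ^ (d + 1) - 1) = r + e ^ (s + 1) * k0 * (w ^ i + 1) := by
        rw [hr]
        ring
      rw [h5]
      exact add_mem h3 (m.mul_mem_right _ (m.mul_mem_right _ (m.pow_mem_of_mem h1 _ (by omega))))
    rcases hm.isPrime.mem_or_mem h4 with h | h
    · exact h2 (hm.isPrime.mem_of_pow_mem _ h)
    · exact hv0 m hm h
  have hrA' : ∀ m : Ideal R, m.IsMaximal → e ∈ m → 1 - e ∉ m → ∀ x, x + 1 ∉ m → r' x ∉ m := by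
    intro m hm h1 h2 x hx h3
    have h4 : (1 - e) ^ i * (w ^ (d + 1) - 1) * (x + 1) ∈ m := by
      have h5 : (1 - e) ^ i * (w ^ (d + 1) - 1) * (x + 1) =
          r' x + e ^ (s + 1) * k0 * (w ^ i + 1) * (x - w ^ j) := by
        rw [hr']
        ring
      rw [h5]
      exact add_mem h3 (m.mul_mem_right _ (m.mul_mem_right _ (m.mul_mem_right _
        (m.pow_mem_of_mem h1 _ (by omega)))))
    rcases hm.isPrime.mem_or_mem h4 with h | h
    · rcases hm.isPrime.mem_or_mem h with h | h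
      · exact h2 (hm.isPrime.mem_of_pow_mem _ h)
      · exact hv0 m hm h
    · exact hx h
  -- the second kind of maximal ideals
  have hDB : ∀ m : Ideal R, m.IsMaximal → 1 - e ∈ m → D ∉ m := by
    intro m hm h1 h2
    have h3 : (1 - y) * (w ^ i + 1) = D - (w ^ j - w ^ i) := by
      rw [hD]
      ring
    have h4 : (1 - y) * (w ^ i + 1) ∈ m := by
      rw [h3]
      exact sub_mem h2 (sub_mem (hwp m hm _ (by omega)) (hwp m hm _ hi))
    rcases hm.isPrime.mem_or_mem h4 with h | h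
    · exact hy2 m hm h1 h
    · exact hx1 m hm i hi h
  -- the quotient
  have hdiv : D ∣ N 0 := by
    refine dvd_of_local82 D (N 0) fun m hm => ?_
    rcases hcase m hm with ⟨h1, h2⟩ | ⟨h1, h2⟩
    · refine ⟨r, hrA m hm h1 h2, r' 0, ?_⟩
      rw [hNr, hDr]
      ring
    · exact ⟨D, hDB m hm h1, N 0, rfl⟩
  obtain ⟨P, hP⟩ := hdiv
  have hPN : ∀ x, D * (x + P) = N x := by
    intro x
    rw [hND x, hP]
    ring
  refine ⟨P, ?_, fun c hc hcn => ?_⟩
  · have h1 : (w ^ i + P) * (w ^ j + 1) - y * ((w ^ i + 1) * (w ^ j + P)) = D * P - N 0 := by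
      rw [hD, hN]
      ring
    rw [← hP, sub_self] at h1
    exact sub_eq_zero.mp h1
  · refine dvd_of_local82 _ _ fun m hm => ?_
    rcases hcase m hm with ⟨h1, h2⟩ | ⟨h1, h2⟩
    · refine ⟨w ^ c + P, ?_, Dvd.intro _ rfl⟩
      intro h3
      have h4 : e ^ i * (r * (w ^ c + P)) = e ^ i * r' (w ^ c) := by
        rw [← hNr, ← hPN, hDr]
        ring
      have h5 : r * (w ^ c + P) = r' (w ^ c) := mul_left_cancel₀ (pow_ne_zero i he1) h4
      apply hrA' m hm h1 h2 (w ^ c) (hx1 m hm c hc)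
      rw [← h5]
      exact m.mul_mem_left _ h3
    · -- exponents
      obtain ⟨a, ha⟩ : ∃ a, a = min c i := ⟨_, rfl⟩
      obtain ⟨c', hc'⟩ : ∃ c', c = a + c' := ⟨c - a, by omega⟩
      obtain ⟨i', hi'⟩ : ∃ i', i = a + i' := ⟨i - a, by omega⟩
      obtain ⟨j', hj'⟩ : ∃ j', j = a + j' := ⟨j - a, by omega⟩
      obtain ⟨t, ht⟩ : ∃ t, n + 1 = a + t := ⟨n + 1 - a, by omega⟩
      have hj1 : 1 ≤ j' := by omega
      obtain ⟨ρ0, hρ0⟩ : ∃ ρ0, ρ0 = (w ^ j' - w ^ i') * (w ^ c + 1)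
        + (1 - y) * (w ^ i + 1) * (w ^ c' - w ^ j') := ⟨_, rfl⟩
      have hρm : ρ0 ∉ m := by
        intro h3
        have h4 : (1 - y) * w ^ c' - w ^ i' + y * w ^ j' ∈ m := by
          have h5 : (1 - y) * w ^ c' - w ^ i' + y * w ^ j' = ρ0 - (w ^ j' - w ^ i') * w ^ c
              - (1 - y) * (w ^ c' - w ^ j') * w ^ i := by
            rw [hρ0]
            ring
          rw [h5]
          exact sub_mem (sub_mem h3 (m.mul_mem_left _ (hwp m hm c hc)))
            (m.mul_mem_left _ (hwp m hm i hi))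
        have h6 : (1 - y) * w ^ c' - w ^ i' ∈ m := by
          have h5 : (1 - y) * w ^ c' - w ^ i' =
              ((1 - y) * w ^ c' - w ^ i' + y * w ^ j') - y * w ^ j' := by ring
          rw [h5]
          exact sub_mem h4 (m.mul_mem_left _ (hwp m hm j' hj1))
        rcases Nat.eq_zero_or_pos c' with h0 | h0
        · rcases Nat.eq_zero_or_pos i' with h00 | h00
          · rw [h0, h00, pow_zero, mul_one] at h6
            apply hnot _ hyu m hm
            have h7 : y = -(1 - y - 1) := by ring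
            rw [h7]
            exact m.neg_mem h6
          · rw [h0, pow_zero, mul_one] at h6
            apply hy2 m hm h1
            have h7 : 1 - y = (1 - y - w ^ i') + w ^ i' := by ring
            rw [h7]
            exact add_mem h6 (hwp m hm i' h00)
        · have h00 : i' = 0 := by omega
          rw [h00, pow_zero] at h6
          apply hone m hm
          have h7 : (1 : R) = (1 - y) * w ^ c' - ((1 - y) * w ^ c' - 1) := by ring
          rw [h7]
          exact sub_mem (m.mul_mem_left _ (hwp m hm c' h0)) h6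
      have hNρ : N (w ^ c) = w ^ a * ρ0 := by
        rw [hN, hρ0]
        have ec : w ^ c = w ^ a * w ^ c' := by rw [← pow_add, ← hc']
        have ei : w ^ i = w ^ a * w ^ i' := by rw [← pow_add, ← hi']
        have ej : w ^ j = w ^ a * w ^ j' := by rw [← pow_add, ← hj']
        rw [ec, ei, ej]
        ring
      refine ⟨ρ0, hρm, w ^ t * D, ?_⟩
      have h5 : ρ0 * w ^ (n + 1) = w ^ t * (w ^ a * ρ0) := by
        rw [ht, pow_add]
        ring
      rw [h5, ← hNρ, ← hPN]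
      ring

/-- the walk for a list of pairs -/
theorem walk_listE82 {R : Type} [CommRing R] [IsDomain R] (e : R)
    (he : ∀ m : Ideal R, m.IsMaximal → e * (1 - e) ∈ m) (he0 : e * (1 - e) ≠ 0)
    (n : ℕ) (y : R) (hyu : IsUnit y) (hy1 : e ^ (n + 2) ∣ y - 1)
    (hy2 : ∀ m : Ideal R, m.IsMaximal → 1 - e ∈ m → 1 - y ∉ m)
    (L : List (Fin n × Fin n)) (hL : ∀ p ∈ L, p.1 < p.2) :
    ∃ l : List R, l.length = 2 * L.length ∧
      (∀ c : Fin n, Good46 (e * (1 - e)) (n + 1) l ((e * (1 - e)) ^ ((c : ℕ) + 1) + 1)) ∧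
      ∀ p ∈ L, Sep y l ((e * (1 - e)) ^ ((p.1 : ℕ) + 1) + 1)
        ((e * (1 - e)) ^ ((p.2 : ℕ) + 1) + 1) := by
  have hunit : ∀ c : ℕ, (e * (1 - e)) ^ (c + 1) + 1 ∣ (e * (1 - e)) ^ (n + 1) := by
    intro c
    apply IsUnit.dvd
    by_contra hn
    obtain ⟨M, hM, hzM⟩ := exists_max_ideal_of_mem_nonunits hn
    apply hM.ne_top
    rw [Ideal.eq_top_iff_one]
    have h1 : (1 : R) = ((e * (1 - e)) ^ (c + 1) + 1) - (e * (1 - e)) ^ (c + 1) := by ring
    rw [h1]
    exact sub_mem hzM (M.pow_mem_of_mem (he M hM) _ (by omega))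
  induction L with
  | nil => exact ⟨[], rfl, fun c => hunit c, fun p hp => absurd hp (List.not_mem_nil)⟩
  | cons P L ih =>
    obtain ⟨l, hl1, hl2, hl3⟩ := ih fun p hp => hL p (List.mem_cons_of_mem _ hp)
    have hlt : P.1 < P.2 := hL P List.mem_cons_self
    obtain ⟨p, hp1, hp2⟩ := two_stepsE82 e he he0 n y hyu hy1 hy2 ((P.1 : ℕ) + 1)
      ((P.2 : ℕ) + 1) (by omega) (by have : (P.1 : ℕ) < (P.2 : ℕ) := hlt; omega)
      (by have := P.2.2; omega)
    have e1 : ∀ x : R, x + 1 + (p - 1) = x + p := fun x => by ring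
    have e2 : ∀ x : R, x + p + (1 - p) = x + 1 := fun x => by ring
    refine ⟨(p - 1) :: (1 - p) :: l, ?_, fun c => ⟨hunit c, ?_⟩, fun P' hP' => ?_⟩
    · rw [List.length_cons, List.length_cons, List.length_cons, hl1]
      ring
    · rw [e1]
      refine ⟨hp2 _ (by omega) (by have := c.2; omega), ?_⟩
      rw [e2]
      exact hl2 c
    · rcases List.mem_cons.mp hP' with rfl | h
      · left
        rw [e1, e1]
        exact hp1
      · right
        rw [e1, e1]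
        right
        rw [e2, e2]
        exact hl3 P' h

/-- the walk -/
theorem exists_walkE {R : Type} [CommRing R] [IsDomain R] (e : R)
    (he : ∀ m : Ideal R, m.IsMaximal → e * (1 - e) ∈ m) (he0 : e * (1 - e) ≠ 0) (n : ℕ) :
    ∃ K : ℕ, ∀ y : R, IsUnit y → e ^ (n + 2) ∣ y - 1 →
      (∀ m : Ideal R, m.IsMaximal → 1 - e ∈ m → 1 - y ∉ m) →
      ∃ l : List R, l.length = K ∧
        (∀ c : Fin n, Good46 (e * (1 - e)) (n + 1) l ((e * (1 - e)) ^ ((c : ℕ) + 1) + 1)) ∧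
        ∀ i j : Fin n, i < j → Sep y l ((e * (1 - e)) ^ ((i : ℕ) + 1) + 1)
          ((e * (1 - e)) ^ ((j : ℕ) + 1) + 1) := by
  classical
  set L : List (Fin n × Fin n) :=
    ((Finset.univ : Finset (Fin n × Fin n)).filter fun p => p.1 < p.2).toList with hL
  refine ⟨2 * L.length, fun y hyu hy1 hy2 => ?_⟩
  obtain ⟨l, hl1, hl2, hl3⟩ := walk_listE82 e he he0 n y hyu hy1 hy2 L (by
    intro p hp
    rw [hL, Finset.mem_toList, Finset.mem_filter] at hp
    exact hp.2)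
  refine ⟨l, hl1, hl2, fun i j hij => ?_⟩
  exact hl3 (i, j) (by
    rw [hL, Finset.mem_toList, Finset.mem_filter]
    exact ⟨Finset.mem_univ _, hij⟩)

/-- the walk, in terms of a root of unity -/
theorem exists_walkD {R : Type} [CommRing R] [IsDomain R] (e : R)
    (he : ∀ m : Ideal R, m.IsMaximal → e * (1 - e) ∈ m) (he0 : e * (1 - e) ≠ 0)
    (ζ : R) (hz1 : IsUnit (1 - ζ)) (hz : IsUnit ζ) (n : ℕ) :
    ∃ K : ℕ, ∀ y : R, e ^ (n + 2) ∣ y - 1 → (1 - e) ^ (n + 2) ∣ y - ζ →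
      ∃ l : List R, l.length = K ∧
        (∀ c : Fin n, Good46 (e * (1 - e)) (n + 1) l ((e * (1 - e)) ^ ((c : ℕ) + 1) + 1)) ∧
        ∀ i j : Fin n, i < j → Sep y l ((e * (1 - e)) ^ ((i : ℕ) + 1) + 1)
          ((e * (1 - e)) ^ ((j : ℕ) + 1) + 1) := by
  obtain ⟨K, hK⟩ := exists_walkE e he he0 n
  refine ⟨K, fun y hy1 hy2 => ?_⟩
  obtain ⟨k0, hk0⟩ := hy1
  obtain ⟨k1, hk1⟩ := hy2
  have hnot : ∀ (u : R), IsUnit u → ∀ m : Ideal R, m.IsMaximal → u ∉ m := fun u hu m hm h =>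
    hm.ne_top (Ideal.eq_top_of_isUnit_mem m h hu)
  refine hK y ?_ ⟨k0, hk0⟩ fun m hm h1 h2 => ?_
  · by_contra hn
    obtain ⟨M, hM, hyM⟩ := exists_max_ideal_of_mem_nonunits hn
    rcases hM.isPrime.mem_or_mem (he M hM) with h | h
    · apply hnot 1 isUnit_one M hM
      have h1 : (1 : R) = y - e ^ (n + 2) * k0 := by
        rw [← hk0]
        ring
      rw [h1]
      exact sub_mem hyM (M.mul_mem_right _ (M.pow_mem_of_mem h _ (by omega)))
    · apply hnot ζ hz M hM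
      have h1 : ζ = y - (1 - e) ^ (n + 2) * k1 := by
        rw [← hk1]
        ring
      rw [h1]
      exact sub_mem hyM (M.mul_mem_right _ (M.pow_mem_of_mem h _ (by omega)))
  · apply hnot (1 - ζ) hz1 m hm
    have h3 : 1 - ζ = (1 - y) + (1 - e) ^ (n + 2) * k1 := by
      rw [← hk1]
      ring
    rw [h3]
    exact add_mem h2 (m.mul_mem_right _ (m.pow_mem_of_mem h1 _ (by omega)))

end Pool.Agent.AIC.M
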