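import Pool.Agent.AIC.M.CoreD46
import Pool.Agent.AIC.M.Points82

/-! MP_313bb4, theorem M without residue hypotheses: the core, final form. -/

set_option autoImplicit false
set_option linter.unusedSectionVars false

namespace Pool.Agent.AIC.M

open Finset

/-- the points of the walk exist in every domain -/
theorem walkPts46 {R : Type} [CommRing R] [IsDomain R] (e : R)
    (he : ∀ m : Ideal R, m.IsMaximal → e * (1 - e) ∈ m) (he0 : e * (1 - e) ≠ 0) : WalkPts46 e :=
  fun n => exists_walkE e he he0 n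

/-- **the core**: no root of unity in `R`, no hypothesis on the residue fields -/
theorem coreE46 {R Q : Type} [CommRing R] [CommGroup Q] {q : ℕ} [IsDomain R] (D : Data R Q q)
    (hq0 : 0 < q) (e : R) (he : ∀ m : Ideal R, m.IsMaximal → e * (1 - e) ∈ m)
    (he0 : e * (1 - e) ≠ 0) (heJ : e * (1 - e) ∈ D.J)
    (hy : ∀ N : ℕ, ∃ y : R, IsUnit y ∧ (∀ m : Ideal R, m.IsMaximal → 1 - e ∈ m → y - 1 ∉ m) ∧
      e ^ N ∣ y - 1 ∧ (e * (1 - e)) ^ N ∣ y ^ q - 1 ∧ D.χ (y ^ q) ≠ 1) : False := by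
  refine coreD46 D hq0 e he0 heJ (walkPts46 e he he0) fun N => ?_
  obtain ⟨y, hyu, h2, h1, h3, hne⟩ := hy N
  refine ⟨y, hyu, h1, fun m hm hem hym => h2 m hm hem ?_, h3, hne⟩
  have := m.neg_mem hym
  rwa [neg_sub] at this

end Pool.Agent.AIC.M
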