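import Pool.Agent.AIC.M.HP33

/-! MP_313bb4, theorem M: the data of the core theorem. -/

set_option autoImplicit false
set_option linter.unusedSectionVars false

namespace Pool.Agent.AIC.M

open Finset

section

variable {R K : Type} [CommRing R] [Field K] [Algebra R K]

/-- elements in all maximal ideals of `R` are in all maximal ideals of the closure -/
lemma jac_closure33 {j : R} (hj : ∀ m : Ideal R, m.IsMaximal → j ∈ m)
    (n : Ideal (integralClosure R K)) (hn : n.IsMaximal) :
    algebraMap R (integralClosure R K) j ∈ n := by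
  have h1 : (n.comap (algebraMap R (integralClosure R K))).IsMaximal :=
    Ideal.isMaximal_comap_of_isIntegral_of_isMaximal n
  exact hj _ h1

lemma hp_one33 (q : ℕ) : HP R K q 1 :=
  ⟨1, by simp, fun n _ => by simp⟩

lemma hp_mul33 {q : ℕ} {u v : R} (hu : HP R K q u) (hv : HP R K q v) : HP R K q (u * v) := by
  obtain ⟨y, hy, hy'⟩ := hu
  obtain ⟨z, hz, hz'⟩ := hv
  refine ⟨y * z, by rw [mul_pow, hy, hz, map_mul], fun n hn => ?_⟩
  have h : y * z - 1 = y * (z - 1) + (y - 1) := by ring
  rw [h]
  exact n.add_mem (n.mul_mem_left _ (hz' n hn)) (hy' n hn)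

lemma hp_inv33 {q : ℕ} (hq : 0 < q) {u v : R} (huv : u * v = 1) (hu : HP R K q u) :
    HP R K q v := by
  obtain ⟨y, hy, hy'⟩ := hu
  have hyu : y * (y ^ (q - 1) * algebraMap R (integralClosure R K) v) = 1 := by
    rw [← mul_assoc, ← pow_succ', Nat.sub_add_cancel hq, hy, ← map_mul, huv, map_one]
  set z := y ^ (q - 1) * algebraMap R (integralClosure R K) v with hz
  refine ⟨z, ?_, fun n hn => ?_⟩
  · have h1 : y ^ q * z ^ q = 1 := by rw [← mul_pow, hyu, one_pow]
    have h2 : algebraMap R (integralClosure R K) v * algebraMap R (integralClosure R K) u = 1 := by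
      rw [← map_mul, mul_comm, huv, map_one]
    calc z ^ q = (algebraMap R (integralClosure R K) v * algebraMap R (integralClosure R K) u) *
          z ^ q := by rw [h2, one_mul]
      _ = algebraMap R (integralClosure R K) v * (y ^ q * z ^ q) := by rw [hy]; ring
      _ = algebraMap R (integralClosure R K) v := by rw [h1, mul_one]
  · have h : z - 1 = - (z * (y - 1)) := by
      have : z * (y - 1) = y * z - z := by ring
      rw [this, hyu]
      ring
    rw [h]
    exact n.neg_mem (n.mul_mem_left _ (hy' n hn))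

/-- the units with `HP` -/
def sub33 (R K : Type) [CommRing R] [Field K] [Algebra R K] (q : ℕ) (hq : 0 < q) : Subgroup Rˣ where
  carrier := {u | HP R K q (u : R)}
  one_mem' := hp_one33 q
  mul_mem' := fun ha hb => hp_mul33 ha hb
  inv_mem' := fun {u} hu => hp_inv33 hq (u := (u : R)) (by simp) hu

/-- the group of classes -/
def Q33 (R K : Type) [CommRing R] [Field K] [Algebra R K] (q : ℕ) (hq : 0 < q) : Type :=
  Rˣ ⧸ sub33 R K q hq

noncomputable instance (R K : Type) [CommRing R] [Field K] [Algebra R K] (q : ℕ) (hq : 0 < q) :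
    CommGroup (Q33 R K q hq) :=
  inferInstanceAs (CommGroup (Rˣ ⧸ sub33 R K q hq))

/-- the class of a unit, as a map of monoids -/
noncomputable def mk33 (R K : Type) [CommRing R] [Field K] [Algebra R K] (q : ℕ) (hq : 0 < q) :
    Rˣ →* Q33 R K q hq :=
  QuotientGroup.mk' (sub33 R K q hq)

open Classical in
/-- the class of a unit -/
noncomputable def chi33 (R K : Type) [CommRing R] [Field K] [Algebra R K] (q : ℕ) (hq : 0 < q)
    (x : R) : Q33 R K q hq :=
  if h : IsUnit x then mk33 R K q hq h.unit else 1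

variable {q : ℕ} (hq : 0 < q)

lemma chi_unit33 (u : Rˣ) : chi33 R K q hq (u : R) = mk33 R K q hq u := by
  unfold chi33
  rw [dif_pos u.isUnit]
  exact congrArg (mk33 R K q hq) (Units.ext rfl)

lemma chi_mul33 (x y : R) (hx : IsUnit x) (hy : IsUnit y) :
    chi33 R K q hq (x * y) = chi33 R K q hq x * chi33 R K q hq y := by
  obtain ⟨u, rfl⟩ := hx
  obtain ⟨v, rfl⟩ := hy
  rw [← Units.val_mul, chi_unit33, chi_unit33, chi_unit33, map_mul]

lemma chi_eq_one33 (x : R) (hx : IsUnit x) : chi33 R K q hq x = 1 ↔ HP R K q x := by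
  obtain ⟨u, rfl⟩ := hx
  rw [chi_unit33]
  exact QuotientGroup.eq_one_iff (N := sub33 R K q hq) u

lemma chi_eq33 (u v w : R) (hu : IsUnit u) (hv : IsUnit v) (h : u = v * w) (hw : HP R K q w) :
    chi33 R K q hq u = chi33 R K q hq v := by
  have hw' : IsUnit w := by
    rw [h] at hu
    exact isUnit_of_mul_isUnit_right hu
  rw [h, chi_mul33 hq v w hv hw', (chi_eq_one33 hq w hw').2 hw, mul_one]

lemma isUnit_one_add33 {j : R} (hj : ∀ m : Ideal R, m.IsMaximal → j ∈ m) : IsUnit (1 + j) := by
  by_contra h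
  obtain ⟨m, hm, h1⟩ := exists_max_ideal_of_mem_nonunits h
  have h2 : (1 : R) ∈ m := by
    have := m.sub_mem h1 (hj m hm)
    rwa [add_sub_cancel_right] at this
  exact hm.ne_top (m.eq_top_iff_one.2 h2)

end

section fin

variable {R K : Type} [CommRing R] [IsDomain R] [Field K] [Algebra R K] [IsFractionRing R K]

/-- the finiteness of the number of classes -/
lemma chi_fin33 {q : ℕ} (hq : 0 < q)
    (hfin : ∃ T : Finset K, ∀ u : R, (∀ m : Ideal R, m.IsMaximal → u - 1 ∈ m) →
      ∃ g ∈ T, ∃ y : K, algebraMap R K u = g * y ^ q)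
    (hsl : Finite (MaximalSpectrum (integralClosure R K))) :
    (chi33 R K q hq '' {u | ∀ m : Ideal R, m.IsMaximal → u - 1 ∈ m}).Finite := by
  classical
  obtain ⟨T, hT⟩ := hfin
  set A : Set R := {u | ∀ m : Ideal R, m.IsMaximal → u - 1 ∈ m} with hA
  have hinj : Function.Injective (algebraMap R K) := IsFractionRing.injective R K
  have hunit : ∀ u ∈ A, IsUnit u := by
    intro u hu
    have := isUnit_one_add33 hu
    rwa [add_sub_cancel] at this
  -- a representative of every value of g
  have h1 : ∀ g : K, ∃ p : R × K, (∃ u ∈ A, ∃ y : K, algebraMap R K u = g * y ^ q) →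
      p.1 ∈ A ∧ algebraMap R K p.1 = g * p.2 ^ q := by
    intro g
    by_cases h : ∃ u ∈ A, ∃ y : K, algebraMap R K u = g * y ^ q
    · obtain ⟨u, hu, y, hy⟩ := h
      exact ⟨(u, y), fun _ => ⟨hu, hy⟩⟩
    · exact ⟨(0, 0), fun h' => absurd h' h⟩
  choose rep hrep using h1
  -- the quotient by the representative
  have h2 : ∀ u : R, ∃ p : K × integralClosure R K, u ∈ A → p.1 ∈ T ∧ (rep p.1).1 ∈ A ∧
      algebraMap R (integralClosure R K) u =
        algebraMap R (integralClosure R K) (rep p.1).1 * p.2 ^ q := by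
    intro u
    by_cases hu : u ∈ A
    · obtain ⟨g, hg, y, hy⟩ := hT u hu
      obtain ⟨h3, h4⟩ := hrep g ⟨u, hu, y, hy⟩
      obtain ⟨v, hv⟩ := hunit _ h3
      have hne : algebraMap R K (rep g).1 ≠ 0 := by
        rw [← hv]
        intro h0
        have : (v : R) = 0 := hinj (by rw [h0, map_zero])
        exact v.ne_zero this
      have hg0 : g ≠ 0 := by
        rintro rfl
        rw [zero_mul] at h4
        exact hne h4
      have hy0 : (rep g).2 ≠ 0 := by
        intro h0
        rw [h0, zero_pow hq.ne', mul_zero] at h4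
        exact hne h4
      have h5 : algebraMap R K u = algebraMap R K (rep g).1 * (y / (rep g).2) ^ q := by
        rw [hy, h4, div_pow]
        field_simp
      have h6 : (y / (rep g).2) ^ q = algebraMap R K (u * (v⁻¹ : Rˣ)) := by
        have h7 : algebraMap R K (v : R) * algebraMap R K ((v⁻¹ : Rˣ) : R) = 1 := by
          rw [← map_mul, Units.mul_inv, map_one]
        rw [map_mul, h5, ← hv]
        calc (y / (rep g).2) ^ q = (algebraMap R K (v : R) * algebraMap R K ((v⁻¹ : Rˣ) : R)) *
              (y / (rep g).2) ^ q := by rw [h7, one_mul]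
          _ = _ := by ring
      have h8 : IsIntegral R (y / (rep g).2) := by
        refine IsIntegral.of_pow hq ?_
        rw [h6]
        exact isIntegral_algebraMap
      refine ⟨(g, ⟨y / (rep g).2, h8⟩), fun _ => ⟨hg, h3, ?_⟩⟩
      exact Subtype.ext h5
    · exact ⟨(0, 0), fun h => absurd h hu⟩
  choose co hco using h2
  -- the code
  let F : R → K × (∀ n : MaximalSpectrum (integralClosure R K), integralClosure R K ⧸ n.asIdeal) :=
    fun u => ((co u).1, fun n => Ideal.Quotient.mk n.asIdeal (co u).2)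
  have hqpow : ∀ u ∈ A, ∀ n : MaximalSpectrum (integralClosure R K),
      (Ideal.Quotient.mk n.asIdeal (co u).2) ^ q = 1 := by
    intro u hu n
    obtain ⟨-, h3, h4⟩ := hco u hu
    have h5 := jac_closure33 (K := K) hu n.asIdeal n.isMaximal
    have h6 := jac_closure33 (K := K) h3 n.asIdeal n.isMaximal
    rw [map_sub, map_one, ← Ideal.Quotient.eq_zero_iff_mem, map_sub, map_one, sub_eq_zero] at h5 h6
    have h7 := congrArg (Ideal.Quotient.mk n.asIdeal) h4
    rw [map_mul, map_pow, h5, h6, one_mul] at h7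
    exact h7.symm
  have hF : (F '' A).Finite := by
    have hfin2 : ((T : Set K) ×ˢ (Set.univ.pi fun n : MaximalSpectrum (integralClosure R K) =>
        {r : integralClosure R K ⧸ n.asIdeal | r ^ q = 1})).Finite := by
      refine Set.Finite.prod T.finite_toSet (Set.Finite.pi fun n => ?_)
      have : n.asIdeal.IsPrime := n.isMaximal.isPrime
      refine ((Polynomial.nthRoots q (1 : integralClosure R K ⧸ n.asIdeal)).toFinset.finite_toSet).subset ?_
      intro r hr
      rw [Finset.mem_coe, Multiset.mem_toFinset, Polynomial.mem_nthRoots hq]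
      exact hr
    refine hfin2.subset ?_
    rintro _ ⟨u, hu, rfl⟩
    exact ⟨(hco u hu).1, fun n _ => hqpow u hu n⟩
  have hclass : ∀ u ∈ A, ∀ v ∈ A, F u = F v → chi33 R K q hq u = chi33 R K q hq v := by
    intro u hu v hv h
    have hg : (co u).1 = (co v).1 := (Prod.ext_iff.1 h).1
    have hr : ∀ n : MaximalSpectrum (integralClosure R K),
        Ideal.Quotient.mk n.asIdeal (co u).2 = Ideal.Quotient.mk n.asIdeal (co v).2 :=
      fun n => congrFun (Prod.ext_iff.1 h).2 n
    obtain ⟨-, h3, h4⟩ := hco u hu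
    obtain ⟨-, h5, h6⟩ := hco v hv
    rw [hg] at h4
    obtain ⟨v', hv'⟩ := hunit v hv
    -- z = co v .2 is a unit of the closure
    have hzu : IsUnit (co v).2 := by
      have : IsUnit (algebraMap R (integralClosure R K) v) := (hunit v hv).map _
      rw [h6] at this
      exact (isUnit_pow_iff hq.ne').1 (isUnit_of_mul_isUnit_right this)
    obtain ⟨z, hz⟩ := hzu
    have huv : algebraMap R (integralClosure R K) u =
        algebraMap R (integralClosure R K) v * ((co u).2 * (z⁻¹ : (integralClosure R K)ˣ)) ^ q := by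
      rw [h4, h6, ← hz, mul_pow]
      have : (z : integralClosure R K) ^ q * ((z⁻¹ : (integralClosure R K)ˣ) : integralClosure R K) ^ q
          = 1 := by rw [← mul_pow, Units.mul_inv, one_pow]
      calc algebraMap R (integralClosure R K) (rep (co v).1).1 * (co u).2 ^ q
          = algebraMap R (integralClosure R K) (rep (co v).1).1 * (co u).2 ^ q *
            ((z : integralClosure R K) ^ q *
              ((z⁻¹ : (integralClosure R K)ˣ) : integralClosure R K) ^ q) := by rw [this, mul_one]
        _ = _ := by ring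
    refine chi_eq33 hq u v (u * (v'⁻¹ : Rˣ)) (hunit u hu) (hunit v hv) ?_ ?_
    · rw [← hv']
      calc u = u * ((v' : R) * ((v'⁻¹ : Rˣ) : R)) := by rw [Units.mul_inv, mul_one]
        _ = _ := by ring
    · refine ⟨(co u).2 * (z⁻¹ : (integralClosure R K)ˣ), ?_, fun n hn => ?_⟩
      · rw [map_mul, huv, ← hv']
        have : algebraMap R (integralClosure R K) (v' : R) *
            algebraMap R (integralClosure R K) ((v'⁻¹ : Rˣ) : R) = 1 := by
          rw [← map_mul, Units.mul_inv, map_one]
        calc ((co u).2 * (z⁻¹ : (integralClosure R K)ˣ)) ^ q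
            = (algebraMap R (integralClosure R K) (v' : R) *
              algebraMap R (integralClosure R K) ((v'⁻¹ : Rˣ) : R)) *
              ((co u).2 * (z⁻¹ : (integralClosure R K)ˣ)) ^ q := by rw [this, one_mul]
          _ = _ := by ring
      · have h7 := hr ⟨n, hn⟩
        rw [Ideal.Quotient.eq] at h7
        have h8 : (co u).2 * ((z⁻¹ : (integralClosure R K)ˣ) : integralClosure R K) - 1 =
            ((z⁻¹ : (integralClosure R K)ˣ) : integralClosure R K) * ((co u).2 - (co v).2) := by
          rw [← hz]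
          have : ((z⁻¹ : (integralClosure R K)ˣ) : integralClosure R K) * (z : integralClosure R K) = 1 :=
            Units.inv_mul z
          linear_combination this
        rw [h8]
        exact n.mul_mem_left _ h7
  -- conclusion
  have h9 : ∀ c, ∃ w : Q33 R K q hq, ∀ u ∈ A, F u = c → chi33 R K q hq u = w := by
    intro c
    by_cases h : ∃ u ∈ A, F u = c
    · obtain ⟨u, hu, rfl⟩ := h
      exact ⟨chi33 R K q hq u, fun v hv hvu => hclass v hv u hu hvu⟩
    · exact ⟨1, fun u hu hc => absurd ⟨u, hu, hc⟩ h⟩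
  choose G hG using h9
  refine (hF.image G).subset ?_
  rintro _ ⟨u, hu, rfl⟩
  exact ⟨F u, ⟨u, hu, rfl⟩, (hG (F u) u hu rfl).symm⟩

end fin

/-- M8 with M7a as a hypothesis -/
theorem exists_data33 {R K : Type} [CommRing R] [IsDomain R] [Field K] [Algebra R K]
    [IsFractionRing R K] (q : ℕ) (hq : 0 < q)
    (hpf : ∀ u : R, (∀ m : Ideal R, m.IsMaximal → u - 1 ∈ m) → (HP R K q u ↔ HF q u))
    (hfin : ∃ T : Finset K, ∀ u : R, (∀ m : Ideal R, m.IsMaximal → u - 1 ∈ m) →
      ∃ g ∈ T, ∃ y : K, algebraMap R K u = g * y ^ q)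
    (hsl : Finite (MaximalSpectrum (integralClosure R K)))
    (hnip : ∃ d : ℕ, ¬ ∃ (t : Fin d → R) (p : Finset (Fin d) → R × R),
      ∀ i L, (HF q ((p L).1 + (p L).2 * t i) ↔ i ∈ L)) :
    ∃ (Q : Type) (_ : CommGroup Q) (D : Data R Q q),
      (∀ x : R, x ∈ D.J ↔ ∀ m : Ideal R, m.IsMaximal → x ∈ m) ∧
      ∀ u : R, IsUnit u → (D.χ u = 1 ↔ HP R K q u) := by
  have hJ : ∀ x : R, x ∈ sInf {m : Ideal R | m.IsMaximal} ↔ ∀ m : Ideal R, m.IsMaximal → x ∈ m :=
    fun x => Submodule.mem_sInf
  refine ⟨Q33 R K q hq, inferInstance,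
    { J := sInf {m : Ideal R | m.IsMaximal}
      hJ := fun j hj => isUnit_one_add33 ((hJ j).1 hj)
      χ := chi33 R K q hq
      hχ := chi_mul33 hq
      hfin := ?_
      hq := ?_
      rel := HF q
      hrel := ?_
      hnip := hnip }, hJ, fun u hu => chi_eq_one33 hq u hu⟩
  · have : {u : R | u - 1 ∈ sInf {m : Ideal R | m.IsMaximal}} =
        {u | ∀ m : Ideal R, m.IsMaximal → u - 1 ∈ m} := Set.ext fun u => hJ _
    rw [this]
    exact chi_fin33 hq hfin hsl
  · intro j hj
    have h1 : IsUnit (1 + j) := isUnit_one_add33 ((hJ j).1 hj)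
    have h2 : ∀ n : ℕ, chi33 R K q hq ((1 + j) ^ n) = chi33 R K q hq (1 + j) ^ n := by
      intro n
      induction n with
      | zero =>
        rw [pow_zero, pow_zero]
        exact (chi_eq_one33 hq 1 isUnit_one).2 (hp_one33 q)
      | succ n ih => rw [pow_succ, pow_succ, chi_mul33 hq _ _ (h1.pow n) h1, ih]
    rw [← h2, chi_eq_one33 hq _ (h1.pow q)]
    refine ⟨algebraMap R (integralClosure R K) (1 + j), (map_pow _ _ _).symm, fun n hn => ?_⟩
    rw [map_add, map_one, add_sub_cancel_left]
    exact jac_closure33 ((hJ j).1 hj) n hn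
  · intro j hj
    have h1 : IsUnit (1 + j) := isUnit_one_add33 ((hJ j).1 hj)
    rw [chi_eq_one33 hq _ h1]
    refine (hpf (1 + j) fun m hm => ?_).symm
    rw [add_sub_cancel_left]
    exact (hJ j).1 hj m hm

end Pool.Agent.AIC.M
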