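import Mathlib

/-! MP_313bb4, theorem M2: finiteness of `(1 + J) / (1 + J) ^ q`, `J` the Jacobson radical. -/

set_option autoImplicit false

namespace Pool.Agent.AIC.M

/-- the group `1 + J` has finitely many classes modulo its `q`-th powers, where `J` is the
intersection of the maximal ideals -/
def FinQ (R : Type) [CommRing R] (q : ℕ) : Prop :=
  ∃ S : Finset R, ∀ u : R, (∀ m : Ideal R, m.IsMaximal → u - 1 ∈ m) →
    ∃ s ∈ S, ∃ y : R, (∀ m : Ideal R, m.IsMaximal → y - 1 ∈ m) ∧ u = s * y ^ q

end Pool.Agent.AIC.M
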