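import Pool.Agent.AIC.M.StrongJ76
import Pool.Agent.AIC.M.FinQ34

/-! MP_313bb4, theorem M2: the data of the core for `H = (1 + J) ^ q` from `FinQ`. -/

set_option autoImplicit false

namespace Pool.Agent.AIC.M

open Finset

theorem finQ_iff76 {R : Type} [CommRing R] (q : ℕ) : FinQ R q ↔ FinClass76 R q := by
  unfold FinQ FinClass76
  simp only [Jm_iff]

theorem hj_iff76 {R : Type} [CommRing R] (q : ℕ) (u : R) :
    HJ76 q u ↔ ∃ y : R, (∀ m : Ideal R, m.IsMaximal → y - 1 ∈ m) ∧ y ^ q = u := by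
  unfold HJ76
  simp only [Jm_iff, and_comm]

/-- the data of the core theorem from `FinQ` and NIP -/
theorem exists_dataQ76 {R : Type} [CommRing R] [FirstOrder.Ring.CompatibleRing R]
    (hN : NIPRing R) (q : ℕ) (hf : FinQ R q) :
    ∃ (Q : Type) (_ : CommGroup Q) (D : Data R Q q),
      (∀ x : R, x ∈ D.J ↔ ∀ m : Ideal R, m.IsMaximal → x ∈ m) ∧
      ∀ u : R, (∀ m : Ideal R, m.IsMaximal → u - 1 ∈ m) →
        (D.χ u = 1 ↔ ∃ y : R, (∀ m : Ideal R, m.IsMaximal → y - 1 ∈ m) ∧ y ^ q = u) := by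
  obtain ⟨Q, hQ, D, h1, h2⟩ := exists_data76 q ((finQ_iff76 q).1 hf) (nip_HJ76 hN q)
  refine ⟨Q, hQ, D, h1, fun u hu => ?_⟩
  rw [h2 u (jac_unit76' ((Jm_iff _).2 hu)), hj_iff76]

/-- **strong rings**: `FinQ R q` for all but finitely many primes `q`. -/
theorem strong_finQ76 {R : Type} [CommRing R] [FirstOrder.Ring.CompatibleRing R]
    (hS : StrongRing R) : {q : ℕ | q.Prime ∧ ¬ FinQ R q}.Finite := by
  simp only [finQ_iff76]
  exact strong_finClass76 hS

end Pool.Agent.AIC.M
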