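import Pool.Agent.AIC.M.StrongDef34
import Pool.Agent.AIC.InterpLin83
import Pool.Agent.AIC.NipPlus83

/-! MP_313bb4, theorem S, row S1: a ring interpreted in a strong ring is strong. -/

set_option autoImplicit false

namespace Pool.Agent.AIC

open Set FirstOrder FirstOrder.Language FirstOrder.Ring

/-- translation of a formula of an interpreted ring, the parameters being put into the second
group of variables -/
theorem Interp.exists_formula {R T D : Type} [CommRing R] [CompatibleRing R] [CommRing T]
    [CompatibleRing T] [Finite D] (I : Interp R T D) {k k' m : ℕ} (ek : Fin k × D ≃ Fin k')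
    (φ : Language.ring.Formula (Fin k ⊕ Fin m)) :
    ∃ (m' : ℕ) (ψ : Language.ring.Formula (Fin k' ⊕ Fin m')) (code : (Fin m → T) → Fin m' → R),
      ∀ (x : Fin k → T) (x' : Fin k' → R) (b : Fin m → T),
        (∀ i, I.pi (fun d => x' (ek (i, d))) = x i) →
        (ψ.Realize (Sum.elim x' (code b)) ↔ φ.Realize (Sum.elim x b)) := by
  classical
  have h1 := I.formula_def (α := Fin k ⊕ Fin m) (n := 0) φ
  unfold Interp.PDef at h1
  have h2 := h1.preimage_comp (fun p : ((Fin k ⊕ Fin m) ⊕ Fin 0) × D =>
    (Sum.elim (Sum.elim (fun i => Sum.inl (i, p.2)) (fun i => Sum.inr (i, p.2)))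
      (fun i => i.elim0) p.1 : (Fin k × D) ⊕ (Fin m × D)))
  obtain ⟨A0, -, h3⟩ := definable_iff_finitely_definable.mp h2
  obtain ⟨ψ, hψ⟩ := definable_iff_exists_formula_sum.mp h3
  have := Fintype.ofFinite D
  obtain ⟨m', ⟨em⟩⟩ := Finite.exists_equiv_fin (↑(A0 : Set R) ⊕ (Fin m × D))
  let g : ↑(A0 : Set R) ⊕ ((Fin k × D) ⊕ (Fin m × D)) → Fin k' ⊕ Fin m' :=
    Sum.elim (fun a => Sum.inr (em (Sum.inl a)))
      (Sum.elim (fun p => Sum.inl (ek p)) (fun p => Sum.inr (em (Sum.inr p))))
  choose s hs using I.surj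
  refine ⟨m', ψ.relabel g, fun b x => Sum.elim (fun r : ↑(A0 : Set R) => (r : R))
    (fun p : Fin m × D => s (b p.1) p.2) (em.symm x), fun x x' b hx => ?_⟩
  rw [Formula.realize_relabel]
  have hg : (Sum.elim x' (fun x => Sum.elim (fun r : ↑(A0 : Set R) => (r : R))
      (fun p : Fin m × D => s (b p.1) p.2) (em.symm x))) ∘ g =
      Sum.elim (fun r : ↑(A0 : Set R) => (r : R))
        (Sum.elim (fun p : Fin k × D => x' (ek p))
          (fun p : Fin m × D => s (b p.1) p.2)) := by
    funext y
    rcases y with y | y | y <;> simp [g]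
  rw [hg]
  have h4 : (Sum.elim (fun p : Fin k × D => x' (ek p))
      (fun p : Fin m × D => s (b p.1) p.2)) ∈ {v | ψ.Realize (Sum.elim (fun r :
        ↑(A0 : Set R) => (r : R)) v)} ↔ φ.Realize (Sum.elim x b) := by
    rw [← hψ]
    show BoundedFormula.Realize φ _ _ ↔ BoundedFormula.Realize φ _ _
    have e1 : (fun c : Fin k ⊕ Fin m => I.pi fun d => (Sum.elim
        (fun p : Fin k × D => x' (ek p)) (fun p : Fin m × D => s (b p.1) p.2) ∘
        fun p : ((Fin k ⊕ Fin m) ⊕ Fin 0) × D =>
        (Sum.elim (Sum.elim (fun i => Sum.inl (i, p.2)) (fun i => Sum.inr (i, p.2)))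
        (fun i => i.elim0) p.1 : (Fin k × D) ⊕ (Fin m × D))) (Sum.inl c, d)) =
        Sum.elim x b := by
      funext c
      rcases c with c | c
      · simp [hx]
      · simp [hs]
    refine iff_of_eq ?_
    congr 1
    exact Subsingleton.elim _ _
  exact h4

/-- a ring interpreted in a strong ring is strong -/
theorem strong_transfer {R T D : Type} [CommRing R] [CompatibleRing R] [CommRing T]
    [CompatibleRing T] [Finite D] (I : Interp R T D) (hR : StrongRing R) : StrongRing T := by
  classical
  intro k m κ φ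
  have := Fintype.ofFinite D
  obtain ⟨k', ⟨ek⟩⟩ := Finite.exists_equiv_fin (Fin k × D)
  have h1 := fun i : ℕ => I.exists_formula ek (φ i)
  choose m' ψ code hcode using h1
  obtain ⟨n, M, hn⟩ := hR k' m' κ ψ
  refine ⟨n, M, ?_⟩
  rintro ⟨b, hb1, hb2⟩
  apply hn
  choose s hs using I.surj
  refine ⟨fun i j => code i (b i j), fun i J hJ => ?_, fun σ => ?_⟩
  · rintro ⟨a, ha⟩
    refine hb1 i J hJ ⟨fun c => I.pi (fun d => a (ek (c, d))), fun j hj => ?_⟩
    exact (hcode i _ a (b i j) (fun c => rfl)).1 (ha j hj)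
  · obtain ⟨x, hx⟩ := hb2 σ
    refine ⟨fun p => s (x (ek.symm p).1) (ek.symm p).2, fun i => ?_⟩
    exact (hcode i x _ (b i (σ i)) (fun c => by simp [hs])).2 (hx i)

/-- a module-finite algebra with an injective linear map to a finite power of a strong ring is strong -/
theorem strong_of_linear {R T : Type} [CommRing R] [CompatibleRing R] [CommRing T]
    [CompatibleRing T] [Algebra R T] [Module.Finite R T] {N : Type} [Finite N]
    (l : T →ₗ[R] (N → R)) (hl : Function.Injective l) (hR : StrongRing R) : StrongRing T := by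
  obtain ⟨n, g, hg⟩ := Module.Finite.exists_fin (R := R) (M := T)
  refine strong_transfer (Interp.ofLinear (D := Fin n) g (fun x => ?_) l hl) hR
  have hx : x ∈ Submodule.span R (Set.range g) := by
    rw [hg]
    exact Submodule.mem_top
  exact (Submodule.mem_span_range_iff_exists_fun R).mp hx

/-- a module-finite subalgebra of a field extension of the fraction field of a strong
domain is strong -/
theorem strong_subalgebra_plus {R K W : Type} [CommRing R] [IsDomain R] [Field K] [Algebra R K]
    [IsFractionRing R K] [Field W] [Algebra K W] [Algebra R W] [IsScalarTower R K W]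
    [CompatibleRing R] (T : Subalgebra R W) [Module.Finite R T] [CompatibleRing T]
    (hR : StrongRing R) : StrongRing T := by
  obtain ⟨N, hN, l, hl⟩ := exists_linear_embedding (K := K) T
  exact strong_of_linear l hl hR

end Pool.Agent.AIC
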