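import Pool.Agent.AIC.MPlus82
import Pool.Agent.AIC.M.StrongT2

/-! MP_313bb4: domains which are module-finite over an NIP domain or a strong domain. -/

set_option autoImplicit false

namespace Pool.Agent.AIC.M

open FirstOrder FirstOrder.Language FirstOrder.Ring

/-- a domain which is module-finite over a domain `R` has an injective linear map to a finite power
of `R` -/
theorem exists_linear_domain76 {A B : Type} [CommRing A] [IsDomain A] [CommRing B] [IsDomain B]
    [Algebra A B] [FaithfulSMul A B] [Module.Finite A B] :
    ∃ (N : Type) (_ : Finite N) (l : B →ₗ[A] (N → A)), Function.Injective l := by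
  obtain ⟨alg, tow, -⟩ := finiteDim_fraction82 (FaithfulSMul.algebraMap_injective A B)
  let f : B →ₐ[A] FractionRing B := IsScalarTower.toAlgHom A B (FractionRing B)
  have hf : Function.Injective f := IsFractionRing.injective B (FractionRing B)
  let e : B ≃ₐ[A] f.range := AlgEquiv.ofInjective f hf
  have hfin : Module.Finite A f.range := Module.Finite.equiv e.toLinearEquiv
  obtain ⟨N, hN, l, hl⟩ := exists_linear_embedding (K := FractionRing A) (W := FractionRing B)
    f.range
  exact ⟨N, hN, l.comp e.toLinearEquiv.toLinearMap, hl.comp e.injective⟩

/-- a domain which is module-finite over an NIP domain is NIP -/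
theorem nip_finite_domain76 {A B : Type} [CommRing A] [IsDomain A] [CommRing B] [IsDomain B]
    [Algebra A B] [FaithfulSMul A B] [Module.Finite A B] [CompatibleRing A] [CompatibleRing B]
    (h : NIPRing A) : NIPRing B := by
  obtain ⟨N, hN, l, hl⟩ := exists_linear_domain76 (A := A) (B := B)
  exact nip_of_linear l hl h

/-- a domain which is module-finite over a strong domain is strong -/
theorem strong_finite_domain76 {A B : Type} [CommRing A] [IsDomain A] [CommRing B] [IsDomain B]
    [Algebra A B] [FaithfulSMul A B] [Module.Finite A B] [CompatibleRing A] [CompatibleRing B]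
    (h : StrongRing A) : StrongRing B := by
  obtain ⟨N, hN, l, hl⟩ := exists_linear_domain76 (A := A) (B := B)
  exact strong_of_linear l hl h

end Pool.Agent.AIC.M
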