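import Pool.Agent.AIC.Alg83
import Pool.Agent.AIC.Form83
import Pool.Agent.AIC.Interp83

/-! MP_313bb4, theorem M: an NIP ring has finitely many maximal ideals. -/

set_option autoImplicit false

namespace Pool.Agent.AIC.M

open FirstOrder FirstOrder.Ring

/-- an NIP ring has finitely many maximal ideals -/
theorem finMax7 {R : Type} [CommRing R] [CompatibleRing R] (hN : NIPRing R) :
    Finite (MaximalSpectrum R) :=
  finite_maximal (nip_div hN)

end Pool.Agent.AIC.M
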