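import Pool.Agent.AIC.M.Strong2
import Pool.Agent.AIC.M.FinQ34

/-! MP_313bb4, theorem S: in a strong ring `(1 + J) / (1 + J) ^ q` is finite for all but finitely
many primes `q`; the same for the module-finite domains over a strong domain. -/

set_option autoImplicit false

namespace Pool.Agent.AIC.M

open Set FirstOrder FirstOrder.Language FirstOrder.Ring Pool.Agent.AIC

/-- `x = y * w ^ q` with `w` in `1 + J` -/
noncomputable def classJ2 (q : ℕ) : Language.ring.Formula (Fin 1 ⊕ Fin 1) :=
  BoundedFormula.ex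
    ((BoundedFormula.all (BoundedFormula.ex
      (((1 + (Term.var (Sum.inr 1) : Language.ring.Term ((Fin 1 ⊕ Fin 1) ⊕ Fin 3)) *
        ((Term.var (Sum.inr 0)) + -1)) * Term.var (Sum.inr 2)).bdEqual 1))) ⊓
    ((Term.var (Sum.inl (Sum.inl 0)) : Language.ring.Term ((Fin 1 ⊕ Fin 1) ⊕ Fin 1)).bdEqual
      (Term.var (Sum.inl (Sum.inr 0)) * tpow (Term.var (Sum.inr 0)) q)))

theorem realize_classJ2 {R : Type} [CommRing R] [CompatibleRing R] (q : ℕ) (a b : Fin 1 → R) :
    (classJ2 q).Realize (Sum.elim a b) ↔ ∃ w : R, Jm (w - 1) ∧ a 0 = b 0 * w ^ q := by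
  unfold classJ2 Formula.Realize
  rw [BoundedFormula.realize_ex]
  refine exists_congr fun w => ?_
  rw [BoundedFormula.realize_inf, BoundedFormula.realize_bdEqual, BoundedFormula.realize_all]
  refine and_congr ?_ ?_
  · unfold Jm
    refine forall_congr' fun r => ?_
    rw [BoundedFormula.realize_ex]
    refine exists_congr fun s => ?_
    rw [BoundedFormula.realize_bdEqual]
    simp [Fin.snoc, sub_eq_add_neg]
  · simp [realize_tpow, Fin.snoc]

section

variable {R : Type} [CommRing R]

theorem jm_one2 : Jm ((1 : R) - 1) := by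
  rw [Jm_iff, sub_self]
  exact fun M _ => M.zero_mem

theorem jm_mul2 {y z : R} (hy : Jm (y - 1)) (hz : Jm (z - 1)) : Jm (y * z - 1) := by
  rw [Jm_iff] at *
  intro M hM
  have h : y * z - 1 = y * (z - 1) + (y - 1) := by ring
  rw [h]
  exact M.add_mem (M.mul_mem_left _ (hz M hM)) (hy M hM)

theorem jm_inv2 {y z : R} (hyz : y * z = 1) (hy : Jm (y - 1)) : Jm (z - 1) := by
  rw [Jm_iff] at *
  intro M hM
  have h : z - 1 = -(z * (y - 1)) := by linear_combination hyz
  rw [h]
  exact M.neg_mem (M.mul_mem_left _ (hy M hM))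

theorem jm_exists_inv2 {y : R} (hy : Jm (y - 1)) : ∃ z : R, y * z = 1 ∧ Jm (z - 1) := by
  obtain ⟨z, hz⟩ := hy 1
  have hz' : y * z = 1 := by linear_combination hz
  exact ⟨z, hz', jm_inv2 hz' hy⟩

/-- the monoid `1 + J` -/
def oneJ2 (R : Type) [CommRing R] : Submonoid R where
  carrier := {y | Jm (y - 1)}
  one_mem' := jm_one2
  mul_mem' := fun ha hb => jm_mul2 ha hb

theorem exists_inequivJ2 (q : ℕ) (h : ¬ FinQ R q) (N : ℕ) :
    ∃ b : Fin N → R, (∀ j, Jm (b j - 1)) ∧
      ∀ j j', j ≠ j' → ∀ w : R, Jm (w - 1) → b j ≠ b j' * w ^ q := by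
  classical
  induction N with
  | zero => exact ⟨fun j => j.elim0, fun j => j.elim0, fun j => j.elim0⟩
  | succ N ih =>
    obtain ⟨b, hb0, hb⟩ := ih
    have h1 : ∃ u : R, Jm (u - 1) ∧ ∀ j, ∀ y : R, Jm (y - 1) → u ≠ b j * y ^ q := by
      by_contra hc
      push Not at hc
      refine h ⟨Finset.univ.image b, fun u hu => ?_⟩
      obtain ⟨j, y, hy, huy⟩ := hc u ((Jm_iff _).2 hu)
      exact ⟨b j, Finset.mem_image_of_mem _ (Finset.mem_univ j), y, (Jm_iff _).1 hy, huy⟩
    obtain ⟨u, hu, hub⟩ := h1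
    refine ⟨Fin.snoc (α := fun _ => R) b u, fun j => ?_, fun j j' => ?_⟩
    · refine Fin.lastCases ?_ (fun j => ?_) j
      · rw [Fin.snoc_last]
        exact hu
      · rw [Fin.snoc_castSucc]
        exact hb0 j
    · refine Fin.lastCases ?_ (fun j => ?_) j
      · refine Fin.lastCases ?_ (fun j' => ?_) j'
        · exact fun h => absurd rfl h
        · intro _ w hw
          rw [Fin.snoc_last, Fin.snoc_castSucc]
          exact hub j' w hw
      · refine Fin.lastCases ?_ (fun j' => ?_) j'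
        · intro _ w hw heq
          rw [Fin.snoc_last, Fin.snoc_castSucc] at heq
          obtain ⟨z, hz, hz1⟩ := jm_exists_inv2 hw
          refine hub j z hz1 ?_
          rw [heq, mul_assoc, ← mul_pow, hz, one_pow, mul_one]
        · intro hjj w hw
          rw [Fin.snoc_castSucc, Fin.snoc_castSucc]
          exact hb j j' (fun h => hjj (by rw [h])) w hw

/-- row 8: a strong commutative ring -/
theorem finite_not_finQ2 [CompatibleRing R] (hR : StrongRing R) :
    {q : ℕ | q.Prime ∧ ¬ FinQ R q}.Finite := by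
  classical
  by_contra hinf
  have hinf' : {q : ℕ | q.Prime ∧ ¬ FinQ R q}.Infinite := hinf
  let f := hinf'.natEmbedding
  let q : ℕ → ℕ := fun i => (f i : ℕ)
  have hqinj : Function.Injective q := fun i j h => f.injective (Subtype.ext h)
  have hqp : ∀ i, (q i).Prime := fun i => (f i).2.1
  have hqn : ∀ i, ¬ FinQ R (q i) := fun i => (f i).2.2
  obtain ⟨n, N, hn⟩ := hR 1 (fun _ => 1) (fun _ => 2) (fun i => classJ2 (q i))
  apply hn
  have h1 := fun i : Fin n => exists_inequivJ2 (q i) (hqn i) N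
  choose b hb0 hb using h1
  refine ⟨fun i j _ => b i j, fun i J hJ => ?_, fun η => ?_⟩
  · rintro ⟨a, ha⟩
    obtain ⟨j, hj, j', hj', hne⟩ := Finset.one_lt_card.1 (by omega : 1 < J.card)
    obtain ⟨w, hw, h3⟩ := (realize_classJ2 _ _ _).1 (ha j hj)
    obtain ⟨w', hw', h3'⟩ := (realize_classJ2 _ _ _).1 (ha j' hj')
    obtain ⟨z, hz, hz1⟩ := jm_exists_inv2 hw
    refine hb i j j' hne (w' * z) (jm_mul2 hw' hz1) ?_
    have h4 : b i j * w ^ q i = b i j' * w' ^ q i := h3.symm.trans h3'
    calc b i j = b i j * (w * z) ^ q i := by rw [hz, one_pow, mul_one]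
      _ = (b i j * w ^ q i) * z ^ q i := by rw [mul_pow]; ring
      _ = b i j' * (w' * z) ^ q i := by rw [h4, mul_pow]; ring
  · obtain ⟨t, ht⟩ := exists_common_class (M := oneJ2 R) (fun i : Fin n => q i)
      (fun i => hqp i) (fun i j h => Fin.ext (hqinj h))
      (fun i => ⟨b i (η i), hb0 i (η i)⟩)
    refine ⟨fun _ => (t : R), fun i => ?_⟩
    rw [realize_classJ2]
    obtain ⟨w, hw⟩ := ht i
    refine ⟨w, w.2, ?_⟩
    have := congrArg (fun z : oneJ2 R => (z : R)) hw
    simpa using this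

end

/-- row 8 for module-finite domains over a strong domain -/
theorem finite_not_finQ_sub2 {R K W : Type} [CommRing R] [IsDomain R] [Field K] [Algebra R K]
    [IsFractionRing R K] [Field W] [Algebra K W] [Algebra R W] [IsScalarTower R K W]
    [CompatibleRing R] (T : Subalgebra R W) [Module.Finite R T] (hR : StrongRing R) :
    {q : ℕ | q.Prime ∧ ¬ FinQ T q}.Finite := by
  let _ : CompatibleRing T := compatibleRingOfRing T
  exact finite_not_finQ2 (strong_subalgebra_plus (K := K) T hR)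

end Pool.Agent.AIC.M
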