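import Pool.Agent.AIC.M.Defs34

/-! MP_313bb4, theorem M: the two forms of the subgroup of `q`-th powers. -/

set_option autoImplicit false
set_option linter.unusedSectionVars false

namespace Pool.Agent.AIC.M

open Finset

/-- M7: `u` is a `q`-th power of an element of the fraction field that is `1` modulo all maximal ideals
of the integral closure -/
def HP (R K : Type) [CommRing R] [Field K] [Algebra R K] (q : ℕ) (u : R) : Prop :=
  ∃ y : integralClosure R K, y ^ q = algebraMap R (integralClosure R K) u ∧
    ∀ n : Ideal (integralClosure R K), n.IsMaximal → y - 1 ∈ n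

/-- M7: the first order form -/
def HF {R : Type} [CommRing R] (q : ℕ) (u : R) : Prop :=
  ∃ (y d : R) (z : Fin q → R), d ≠ 0 ∧ y ^ q = d ^ q * u ∧
    (∑ i : Fin q, y ^ (i : ℕ) * d ^ (q - 1 - i)) * (∑ i : Fin q, z i * (y ^ (i : ℕ) * d ^ (q - 1 - i))) =
      d ^ (2 * (q - 1))

end Pool.Agent.AIC.M
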