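import Pool.Agent.AIC.M.CoreB34
import Pool.Agent.AIC.Form83
import Pool.Agent.AIC.Interp83

/-!
# MP_313bb4, theorem M2: the subgroup `(1 + J) ^ q`

The data of the core theorem for the subgroup of the `q`-th powers of elements of `1 + J`, `J` the
Jacobson radical. No fraction field, no integral closure, no root of unity in `R`.
-/

set_option autoImplicit false
set_option linter.unusedSectionVars false

namespace Pool.Agent.AIC.M

open Finset FirstOrder FirstOrder.Language FirstOrder.Ring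

section algebra

variable {R : Type} [CommRing R]

/-- `u` is the `q`-th power of an element of `1 + J` -/
def HJ76 (q : ℕ) (u : R) : Prop := ∃ y : R, y ^ q = u ∧ Jm (y - 1)

theorem Jm_iff_jac76 (w : R) : Jm w ↔ w ∈ Ideal.jacobson (⊥ : Ideal R) := by
  rw [Jm_iff, Ideal.jacobson, Submodule.mem_sInf]
  exact ⟨fun h M hM => h M hM.2, fun h M hM => h M ⟨bot_le, hM⟩⟩

theorem jac_unit76 {j : R} (hj : j ∈ Ideal.jacobson (⊥ : Ideal R)) : IsUnit (1 + j) := by
  have h1 := Ideal.mem_jacobson_bot.1 hj 1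
  rwa [mul_one, add_comm] at h1

theorem jac_unit76' {y : R} (hy : Jm (y - 1)) : IsUnit y := by
  have h1 := jac_unit76 ((Jm_iff_jac76 _).1 hy)
  rwa [add_sub_cancel] at h1

theorem hj_one76 (q : ℕ) : HJ76 q (1 : R) :=
  ⟨1, one_pow q, by rw [Jm_iff_jac76, sub_self]; exact Ideal.zero_mem _⟩

theorem jm_mul76 {y z : R} (hy : Jm (y - 1)) (hz : Jm (z - 1)) : Jm (y * z - 1) := by
  rw [Jm_iff_jac76] at *
  have h : y * z - 1 = y * (z - 1) + (y - 1) := by ring
  rw [h]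
  exact Ideal.add_mem _ (Ideal.mul_mem_left _ _ hz) hy

theorem jm_inv76 {y z : R} (hyz : y * z = 1) (hy : Jm (y - 1)) : Jm (z - 1) := by
  rw [Jm_iff_jac76] at *
  have h : z - 1 = -(z * (y - 1)) := by
    have : z * (y - 1) = y * z - z := by ring
    rw [this, hyz]
    ring
  rw [h]
  exact Ideal.neg_mem_iff _ |>.2 (Ideal.mul_mem_left _ _ hy)

theorem hj_mul76 {q : ℕ} {u v : R} (hu : HJ76 q u) (hv : HJ76 q v) : HJ76 q (u * v) := by
  obtain ⟨y, hy, hy'⟩ := hu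
  obtain ⟨z, hz, hz'⟩ := hv
  exact ⟨y * z, by rw [mul_pow, hy, hz], jm_mul76 hy' hz'⟩

theorem hj_inv76 {q : ℕ} {u v : R} (huv : u * v = 1) (hu : HJ76 q u) : HJ76 q v := by
  obtain ⟨y, hy, hy'⟩ := hu
  obtain ⟨z, hz⟩ := (jac_unit76' hy').exists_right_inv
  refine ⟨z, ?_, jm_inv76 hz hy'⟩
  have h1 : u * z ^ q = 1 := by rw [← hy, ← mul_pow, hz, one_pow]
  calc z ^ q = (u * v) * z ^ q := by rw [huv, one_mul]
    _ = (u * z ^ q) * v := by ring
    _ = v := by rw [h1, one_mul]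

/-- the units in `(1 + J) ^ q` -/
def sub76 (R : Type) [CommRing R] (q : ℕ) : Subgroup Rˣ where
  carrier := {u | HJ76 q (u : R)}
  one_mem' := hj_one76 q
  mul_mem' := fun ha hb => hj_mul76 ha hb
  inv_mem' := fun {u} hu => hj_inv76 (u := (u : R)) (by simp) hu

/-- the group of classes -/
def Q76 (R : Type) [CommRing R] (q : ℕ) : Type := Rˣ ⧸ sub76 R q

noncomputable instance (R : Type) [CommRing R] (q : ℕ) : CommGroup (Q76 R q) :=
  inferInstanceAs (CommGroup (Rˣ ⧸ sub76 R q))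

/-- the class of a unit, as a map of monoids -/
noncomputable def mk76 (R : Type) [CommRing R] (q : ℕ) : Rˣ →* Q76 R q :=
  QuotientGroup.mk' (sub76 R q)

theorem mk76_eq_one (q : ℕ) (u : Rˣ) : mk76 R q u = 1 ↔ HJ76 q (u : R) :=
  (QuotientGroup.eq_one_iff (N := sub76 R q) u)

open Classical in
/-- the class of a unit -/
noncomputable def chi76 (R : Type) [CommRing R] (q : ℕ) (x : R) : Q76 R q :=
  if h : IsUnit x then mk76 R q h.unit else 1

theorem chi76_unit (q : ℕ) (u : Rˣ) : chi76 R q (u : R) = mk76 R q u := by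
  unfold chi76
  rw [dif_pos u.isUnit]
  congr 1
  exact Units.ext rfl

theorem chi76_mul (q : ℕ) (x y : R) (hx : IsUnit x) (hy : IsUnit y) :
    chi76 R q (x * y) = chi76 R q x * chi76 R q y := by
  obtain ⟨u, rfl⟩ := hx
  obtain ⟨v, rfl⟩ := hy
  rw [← Units.val_mul, chi76_unit, chi76_unit, chi76_unit, map_mul]

theorem chi76_pow (q : ℕ) (x : R) (hx : IsUnit x) (n : ℕ) :
    chi76 R q (x ^ n) = chi76 R q x ^ n := by
  obtain ⟨u, rfl⟩ := hx
  rw [← Units.val_pow_eq_pow_val, chi76_unit, chi76_unit, map_pow]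

theorem chi76_eq_one (q : ℕ) (x : R) (hx : IsUnit x) : chi76 R q x = 1 ↔ HJ76 q x := by
  obtain ⟨u, rfl⟩ := hx
  rw [chi76_unit, mk76_eq_one]

/-- `(1 + J) / (1 + J) ^ q` is finite -/
def FinClass76 (R : Type) [CommRing R] (q : ℕ) : Prop :=
  ∃ T : Finset R, ∀ u : R, Jm (u - 1) → ∃ g ∈ T, ∃ y : R, Jm (y - 1) ∧ u = g * y ^ q

/-- the data of the core theorem for `(1 + J) ^ q` -/
theorem exists_data76 (q : ℕ) (hfin : FinClass76 R q)
    (hnip : ∃ d : ℕ, ¬ ∃ (t : Fin d → R) (p : Finset (Fin d) → R × R),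
      ∀ i L, (HJ76 q ((p L).1 + (p L).2 * t i) ↔ i ∈ L)) :
    ∃ (Q : Type) (_ : CommGroup Q) (D : Data R Q q),
      (∀ x : R, x ∈ D.J ↔ ∀ m : Ideal R, m.IsMaximal → x ∈ m) ∧
      ∀ u : R, IsUnit u → (D.χ u = 1 ↔ HJ76 q u) := by
  have hJ : ∀ x : R, x ∈ Ideal.jacobson (⊥ : Ideal R) ↔ ∀ m : Ideal R, m.IsMaximal → x ∈ m :=
    fun x => by rw [← Jm_iff_jac76, Jm_iff]
  refine ⟨Q76 R q, inferInstance,
    { J := Ideal.jacobson ⊥
      hJ := fun j hj => jac_unit76 hj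
      χ := chi76 R q
      hχ := chi76_mul q
      hfin := ?_
      hq := ?_
      rel := HJ76 q
      hrel := fun j hj => (chi76_eq_one q _ (jac_unit76 hj)).symm
      hnip := hnip }, hJ, fun u hu => chi76_eq_one q u hu⟩
  · obtain ⟨T, hT⟩ := hfin
    refine ((T.finite_toSet).image (chi76 R q)).subset ?_
    rintro _ ⟨u, hu, rfl⟩
    obtain ⟨g, hg, y, hy, huy⟩ := hT u ((Jm_iff_jac76 _).2 hu)
    have hu1 : IsUnit u := by
      have := jac_unit76 hu
      rwa [add_sub_cancel] at this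
    have hg1 : IsUnit g := isUnit_of_mul_isUnit_left (huy ▸ hu1)
    refine ⟨g, hg, ?_⟩
    rw [huy, chi76_mul q _ _ hg1 ((jac_unit76' hy).pow q),
      (chi76_eq_one q _ ((jac_unit76' hy).pow q)).2 ⟨y, rfl, hy⟩, mul_one]
  · intro j hj
    have h1 : IsUnit (1 + j) := jac_unit76 hj
    rw [← chi76_pow q _ h1, chi76_eq_one q _ (h1.pow q)]
    exact ⟨1 + j, rfl, by rw [Jm_iff_jac76, add_sub_cancel_left]; exact hj⟩

/-- one step of the Newton iteration for `X ^ q - 1` -/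
theorem newton_step76 (q : ℕ) (hqu : IsUnit (q : R)) (y d : R) (hy : y ^ q = 1 + d)
    (hd : d ∈ Ideal.jacobson (⊥ : Ideal R)) :
    ∃ y' : R, d ∣ y' - y ∧ d ^ 2 ∣ y' ^ q - 1 := by
  obtain ⟨a, ha⟩ := hqu.exists_right_inv
  obtain ⟨b, hb⟩ := (jac_unit76 hd).exists_right_inv
  have hx : (q : R) * (-(d * a * b)) * (1 + d) = -d := by
    calc (q : R) * (-(d * a * b)) * (1 + d) = -d * ((q : R) * a) * ((1 + d) * b) := by ring
      _ = -d := by rw [ha, hb]; ring
  obtain ⟨k, hk⟩ := Polynomial.powAddExpansion (1 : R) (-(d * a * b)) q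
  refine ⟨y * (1 + -(d * a * b)), ⟨-(y * (a * b)), by ring⟩, ?_⟩
  rw [mul_pow, hk, hy, one_pow, one_pow, mul_one]
  refine ⟨(1 + d) * k * (a * b) ^ 2, ?_⟩
  linear_combination hx

/-- approximate `q`-th roots of unity -/
theorem newton76 (q : ℕ) (hqu : IsUnit (q : R)) (y₁ : R)
    (hy : y₁ ^ q - 1 ∈ Ideal.jacobson (⊥ : Ideal R)) (n : ℕ) :
    ∃ y : R, y₁ ^ q - 1 ∣ y - y₁ ∧ (y₁ ^ q - 1) ^ (2 ^ n) ∣ y ^ q - 1 := by
  induction n with
  | zero => exact ⟨y₁, by rw [sub_self]; exact dvd_zero _, by rw [pow_zero, pow_one]⟩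
  | succ n ih =>
    obtain ⟨y, h1, h2⟩ := ih
    have h3 : y₁ ^ q - 1 ∣ y ^ q - 1 := (dvd_pow_self _ (pow_ne_zero n two_ne_zero)).trans h2
    have h4 : y ^ q - 1 ∈ Ideal.jacobson (⊥ : Ideal R) := Ideal.mem_of_dvd _ h3 hy
    obtain ⟨y', h5, h6⟩ := newton_step76 q hqu y (y ^ q - 1) (by ring) h4
    refine ⟨y', ?_, ?_⟩
    · have : y' - y₁ = (y' - y) + (y - y₁) := by ring
      rw [this]
      exact dvd_add (h3.trans h5) h1
    · refine dvd_trans ?_ h6
      rw [pow_succ, pow_mul]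
      exact pow_dvd_pow_of_dvd h2 2

/-- an approximate root of unity which is `1` at one maximal ideal and not at another one is not
in `(1 + J) ^ q` -/
theorem not_hj76 [IsDomain R] (q : ℕ) (hqu : IsUnit (q : R)) (m₁ m₂ : Ideal R)
    (h₁ : m₁.IsMaximal) (h₂ : m₂.IsMaximal) (y : R) (hy1 : y - 1 ∈ m₁) (hy2 : y - 1 ∉ m₂) :
    ¬ HJ76 q (y ^ q) := by
  rintro ⟨z, hz, hz1⟩
  rw [Jm_iff] at hz1
  have h1 := hz1 m₁ h₁
  have h2 := hz1 m₂ h₂
  have h3 : (∑ i ∈ range q, z ^ i * y ^ (q - 1 - i)) * (z - y) = 0 := by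
    rw [Commute.geom_sum₂_mul (Commute.all z y), hz, sub_self]
  rcases mul_eq_zero.1 h3 with h | h
  · have h4 : Ideal.Quotient.mk m₁ (∑ i ∈ range q, z ^ i * y ^ (q - 1 - i)) = (q : R ⧸ m₁) := by
      have e1 : Ideal.Quotient.mk m₁ z = 1 := by
        rw [← map_one (Ideal.Quotient.mk m₁), Ideal.Quotient.eq]; exact h1
      have e2 : Ideal.Quotient.mk m₁ y = 1 := by
        rw [← map_one (Ideal.Quotient.mk m₁), Ideal.Quotient.eq]; exact hy1
      rw [map_sum]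
      simp [e1, e2]
    rw [h, map_zero] at h4
    have h5 : (q : R) ∈ m₁ := by
      rw [← Ideal.Quotient.eq_zero_iff_mem, map_natCast]
      exact h4.symm
    exact h₁.ne_top (Ideal.eq_top_of_isUnit_mem _ h5 hqu)
  · rw [sub_eq_zero] at h
    exact hy2 (h ▸ h2)

/-- **theorem M2, local form**: `(1 + J) / (1 + J) ^ q` is not finite in an NIP domain with infinite
residue fields that has an element `y` which is a `q`-th root of unity modulo every maximal ideal,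
`1` modulo one of them and not `1` modulo another one. -/
theorem false_of_data76 [IsDomain R] [Finite (MaximalSpectrum R)]
    (hinf : ∀ m : Ideal R, m.IsMaximal → Infinite (R ⧸ m)) (q : ℕ) (hq0 : 0 < q)
    (hqu : IsUnit (q : R)) (hfin : FinClass76 R q)
    (hnip : ∃ d : ℕ, ¬ ∃ (t : Fin d → R) (p : Finset (Fin d) → R × R),
      ∀ i L, (HJ76 q ((p L).1 + (p L).2 * t i) ↔ i ∈ L))
    (m₁ m₂ : Ideal R) (h₁ : m₁.IsMaximal) (h₂ : m₂.IsMaximal) (y₁ : R)
    (hy : ∀ m : Ideal R, m.IsMaximal → y₁ ^ q - 1 ∈ m) (hy1 : y₁ - 1 ∈ m₁) (hy2 : y₁ - 1 ∉ m₂) :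
    False := by
  obtain ⟨Q, hQ, D, hDJ, hDχ⟩ := exists_data76 q hfin hnip
  have hyJ : y₁ ^ q - 1 ∈ Ideal.jacobson (⊥ : Ideal R) := by
    rw [← Jm_iff_jac76, Jm_iff]; exact hy
  refine core D hinf hq0 (y₁ ^ q - 1) ((hDJ _).2 hy) fun N => ?_
  obtain ⟨y, h1, h2⟩ := newton76 q hqu y₁ hyJ N
  have h3 : (y₁ ^ q - 1) ∣ y ^ q - 1 := (dvd_pow_self _ (pow_ne_zero N two_ne_zero)).trans h2
  have hyq : IsUnit (y ^ q) := by
    have := jac_unit76 (Ideal.mem_of_dvd _ h3 hyJ)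
    rwa [add_sub_cancel] at this
  have hyu : IsUnit y := (isUnit_pow_iff hq0.ne').1 hyq
  refine ⟨y, hyu, (pow_dvd_pow _ (Nat.lt_two_pow_self).le).trans h2, fun hχ => ?_⟩
  refine not_hj76 q hqu m₁ m₂ h₁ h₂ y ?_ ?_ ((hDχ _ hyq).1 hχ)
  · have : y - 1 = (y - y₁) + (y₁ - 1) := by ring
    rw [this]
    exact m₁.add_mem (m₁.mem_of_dvd h1 (hy m₁ h₁)) hy1
  · intro h
    apply hy2
    have : y₁ - 1 = (y - 1) - (y - y₁) := by ring
    rw [this]
    exact m₂.sub_mem h (m₂.mem_of_dvd h1 (hy m₂ h₂))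

end algebra

section formula

/-- the variables: `t` object, `v, w` parameters, three bound variables `y, r, s` -/
abbrev V76 : Type := (Fin 1 ⊕ Fin 2) ⊕ Fin 3

/-- `(1 + r * (y - 1)) * s = 1` -/
noncomputable def jac76 {β : Type} : Language.ring.BoundedFormula β 3 :=
  ((1 + (Term.var (Sum.inr 1) : Language.ring.Term (β ⊕ Fin 3)) *
    (Term.var (Sum.inr 0) + -1)) * Term.var (Sum.inr 2)).bdEqual 1

theorem realize_jac76 {R : Type} [CommRing R] [CompatibleRing R] {β : Type} (v : β → R)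
    (y : R) (xs : Fin 0 → R) :
    (BoundedFormula.all (BoundedFormula.ex (jac76 (β := β)))).Realize v
      (Fin.snoc (α := fun _ => R) xs y) ↔ Jm (y - 1) := by
  rw [BoundedFormula.realize_all]
  unfold Jm
  refine forall_congr' fun r => ?_
  rw [BoundedFormula.realize_ex]
  refine exists_congr fun s => ?_
  unfold jac76
  rw [BoundedFormula.realize_bdEqual]
  simp [Fin.snoc, sub_eq_add_neg]

/-- `v + w t` is a `q`-th power of an element of `1 + J` -/
noncomputable def hjF76 (q : ℕ) : Language.ring.Formula (Fin 1 ⊕ Fin 2) :=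
  BoundedFormula.ex
    (((tpow (Term.var (Sum.inr 0)) q :
        Language.ring.Term ((Fin 1 ⊕ Fin 2) ⊕ Fin 1)).bdEqual
      (Term.var (Sum.inl (Sum.inr 0)) +
        Term.var (Sum.inl (Sum.inr 1)) * Term.var (Sum.inl (Sum.inl 0)))) ⊓
      (BoundedFormula.all (BoundedFormula.ex jac76)))

theorem realize_hjF76 {R : Type} [CommRing R] [CompatibleRing R] (q : ℕ) (a : Fin 1 → R)
    (b : Fin 2 → R) :
    (hjF76 q).Realize (Sum.elim a b) ↔ HJ76 q (b 0 + b 1 * a 0) := by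
  unfold hjF76 Formula.Realize HJ76
  rw [BoundedFormula.realize_ex]
  refine exists_congr fun y => ?_
  rw [BoundedFormula.realize_inf, realize_jac76, BoundedFormula.realize_bdEqual]
  simp [realize_tpow, Fin.snoc]

theorem nip_HJ76 {R : Type} [CommRing R] [CompatibleRing R] (hN : NIPRing R) (q : ℕ) :
    ∃ d : ℕ, ¬ ∃ (t : Fin d → R) (p : Finset (Fin d) → R × R),
      ∀ i L, (HJ76 q ((p L).1 + (p L).2 * t i) ↔ i ∈ L) := by
  obtain ⟨n, hn⟩ := hN 1 2 (hjF76 q)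
  refine ⟨n, ?_⟩
  rintro ⟨t, p, hp⟩
  apply hn
  refine ⟨fun i _ => t i, fun J => ![(p J).1, (p J).2], fun i J => ?_⟩
  rw [realize_hjF76]
  simpa using hp i J

end formula

/-- **theorem M2**: an NIP domain with infinite residue fields, finitely many maximal ideals and a
`q`-th root of unity `y` modulo all maximal ideals which is `1` modulo one of them and not `1`
modulo another one has infinitely many classes in `(1 + J) / (1 + J) ^ q`. -/
theorem theoremM2_76 {R : Type} [CommRing R] [IsDomain R] [CompatibleRing R] (hN : NIPRing R)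
    [Finite (MaximalSpectrum R)]
    (hinf : ∀ m : Ideal R, m.IsMaximal → Infinite (R ⧸ m)) (q : ℕ) (hq0 : 0 < q)
    (hqu : IsUnit (q : R)) (hfin : FinClass76 R q)
    (m₁ m₂ : Ideal R) (h₁ : m₁.IsMaximal) (h₂ : m₂.IsMaximal) (y₁ : R)
    (hy : ∀ m : Ideal R, m.IsMaximal → y₁ ^ q - 1 ∈ m) (hy1 : y₁ - 1 ∈ m₁) (hy2 : y₁ - 1 ∉ m₂) :
    False :=
  false_of_data76 hinf q hq0 hqu hfin (nip_HJ76 hN q) m₁ m₂ h₁ h₂ y₁ hy hy1 hy2

end Pool.Agent.AIC.M
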