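import Pool.Agent.AIC.M.Local7
import Pool.Agent.AIC.M.HP33

/-! MP_313bb4, theorem M, row M9: the element `e` of a ring which is not local, and the final step
of the local theorems with or without a hypothesis on the residue fields. -/

set_option autoImplicit false

namespace Pool.Agent.AIC.M

open Finset

/-- in a ring which is not local (semilocal closure) there is `e` such that `e (1 - e)` is not zero
and lies in every maximal ideal, and no unit `y` with `e ∣ y - 1`, `1 - e ∣ y - ζ` has `y ^ q` in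
the subgroup `HP` -/
theorem exists_sep_of_not_local7 {R K : Type} [CommRing R] [IsDomain R] [Field K] [Algebra R K]
    [IsFractionRing R K] (q : ℕ) (hq : q.Prime) (hqu : IsUnit (q : R)) (ζ : R)
    (hζ : ∑ j ∈ range q, ζ ^ j = 0)
    (hsl : Finite (MaximalSpectrum (integralClosure R K))) (hnl : ¬ IsLocalRing R) :
    ∃ e : R, (∀ m : Ideal R, m.IsMaximal → e * (1 - e) ∈ m) ∧ e * (1 - e) ≠ 0 ∧
      ∀ y : R, IsUnit y → e ∣ y - 1 → (1 - e) ∣ y - ζ → ¬ HP R K q (y ^ q) := by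
  have : Finite (MaximalSpectrum R) := finite_max7 hsl
  obtain ⟨m1, h1⟩ := Ideal.exists_maximal R
  have hex : ∃ m2 : Ideal R, m2.IsMaximal ∧ m2 ≠ m1 := by
    by_contra hno
    push Not at hno
    exact hnl (IsLocalRing.of_unique_max_ideal ⟨m1, h1, fun m2 h2 => hno m2 h2⟩)
  obtain ⟨m2, h2, hne⟩ := hex
  obtain ⟨e, he, hesep⟩ := exists_sep7 m1 h1
  have he2 : 1 - e ∈ m2 := hesep m2 h2 hne
  refine ⟨e, ?_, ?_, ?_⟩
  · intro m hm
    by_cases hmm : m = m1
    · subst hmm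
      exact m.mul_mem_right _ he
    · exact m.mul_mem_left _ (hesep m hm hmm)
  · intro h0
    rcases mul_eq_zero.1 h0 with h | h
    · rw [h, sub_zero] at he2
      exact h2.ne_top ((Ideal.eq_top_iff_one m2).2 he2)
    · have h3 : e = 1 := (sub_eq_zero.1 h).symm
      rw [h3] at he
      exact h1.ne_top ((Ideal.eq_top_iff_one m1).2 he)
  · intro y hy hy1 hy2 hHP
    exact not_hp7 (K := K) hq hqu hζ h1 h2 hy (m1.mem_of_dvd hy1 he) (m2.mem_of_dvd hy2 he2) hHP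

/-- the local theorem from the data, the units `y` and a core theorem, no residue hypothesis -/
theorem isLocalRing_of_coreD7 {R K Q : Type} [CommRing R] [IsDomain R] [Field K] [Algebra R K]
    [IsFractionRing R K] [CommGroup Q] (q : ℕ) (hq : q.Prime) (hqu : IsUnit (q : R)) (ζ : R)
    (hζ : ∑ j ∈ range q, ζ ^ j = 0)
    (hsl : Finite (MaximalSpectrum (integralClosure R K)))
    (D : Data R Q q) (hDJ : ∀ x : R, x ∈ D.J ↔ ∀ m : Ideal R, m.IsMaximal → x ∈ m)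
    (hDχ : ∀ u : R, IsUnit u → (D.χ u = 1 ↔ HP R K q u))
    (hy : ∀ e : R, (∀ m : Ideal R, m.IsMaximal → e * (1 - e) ∈ m) → e * (1 - e) ≠ 0 → ∀ N : ℕ,
      ∃ y : R, IsUnit y ∧ e ^ N ∣ y - 1 ∧ (1 - e) ^ N ∣ y - ζ ∧ (e * (1 - e)) ^ N ∣ y ^ q - 1)
    (hcore : ∀ e : R, (∀ m : Ideal R, m.IsMaximal → e * (1 - e) ∈ m) → e * (1 - e) ≠ 0 →
      e * (1 - e) ∈ D.J →
      (∀ N : ℕ, ∃ y : R, IsUnit y ∧ e ^ N ∣ y - 1 ∧ (1 - e) ^ N ∣ y - ζ ∧
        (e * (1 - e)) ^ N ∣ y ^ q - 1 ∧ D.χ (y ^ q) ≠ 1) → False) :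
    IsLocalRing R := by
  by_contra hnl
  obtain ⟨e, he, he0, hne⟩ := exists_sep_of_not_local7 (K := K) q hq hqu ζ hζ hsl hnl
  refine hcore e he he0 ((hDJ _).2 he) (fun N => ?_)
  obtain ⟨y, hyu, h1, h2, h3⟩ := hy e he he0 (N + 1)
  refine ⟨y, hyu, (pow_dvd_pow e N.le_succ).trans h1, (pow_dvd_pow _ N.le_succ).trans h2,
    (pow_dvd_pow _ N.le_succ).trans h3, fun hχ => ?_⟩
  exact hne y hyu ((dvd_pow_self e N.succ_ne_zero).trans h1)
    ((dvd_pow_self (1 - e) N.succ_ne_zero).trans h2) ((hDχ _ (hyu.pow q)).1 hχ)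

end Pool.Agent.AIC.M
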