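import Pool.Agent.AIC.M.CoreE46
import Pool.Agent.AIC.M.LocalE7
import Pool.Agent.AIC.M.Data33

/-! MP_313bb4, theorem M without residue hypotheses: the local theorem, with the equivalence of the
two forms (M7a) as a hypothesis. -/

set_option autoImplicit false

namespace Pool.Agent.AIC.M

open Finset

/-- the local theorem from the data, without residue hypothesis -/
theorem isLocalRing_of_data46 {R K Q : Type} [CommRing R] [IsDomain R] [Field K] [Algebra R K]
    [IsFractionRing R K] [CommGroup Q] (q : ℕ) (hq : q.Prime) (hqu : IsUnit (q : R)) (ζ : R)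
    (hζ : ∑ j ∈ range q, ζ ^ j = 0)
    (hsl : Finite (MaximalSpectrum (integralClosure R K)))
    (D : Data R Q q) (hDJ : ∀ x : R, x ∈ D.J ↔ ∀ m : Ideal R, m.IsMaximal → x ∈ m)
    (hDχ : ∀ u : R, IsUnit u → (D.χ u = 1 ↔ HP R K q u)) : IsLocalRing R := by
  by_contra hnl
  obtain ⟨e, he, he0, hne⟩ := exists_sep_of_not_local7 (K := K) q hq hqu ζ hζ hsl hnl
  have hz1 : IsUnit (1 - ζ) := isUnit_one_sub7 hqu hζ
  refine coreD46 D hq.pos e he0 ((hDJ _).2 he) (walkPts46 e he he0) fun N => ?_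
  obtain ⟨y, hyu, h1, h2, h3⟩ := exists_y46 hq.pos hζ e he (N + 1)
  have h2' : (1 - e) ∣ y - ζ := (dvd_pow_self (1 - e) N.succ_ne_zero).trans h2
  refine ⟨y, hyu, (pow_dvd_pow e N.le_succ).trans h1, ?_,
    (pow_dvd_pow _ N.le_succ).trans h3, fun hχ => ?_⟩
  · intro m hm hem hym
    have h4 : y - ζ ∈ m := m.mem_of_dvd h2' hem
    have h5 : 1 - ζ ∈ m := by
      have := m.add_mem hym h4
      have h6 : 1 - y + (y - ζ) = 1 - ζ := by ring
      rwa [h6] at this
    exact hm.ne_top (m.eq_top_of_isUnit_mem h5 hz1)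
  · exact hne y hyu ((dvd_pow_self e N.succ_ne_zero).trans h1) h2' ((hDχ _ (hyu.pow q)).1 hχ)

/-- the local theorem without residue hypothesis, from M7a -/
theorem isLocalRing_of_hpf46 {R K : Type} [CommRing R] [IsDomain R] [Field K] [Algebra R K]
    [IsFractionRing R K] (q : ℕ) (hq : q.Prime) (hqu : IsUnit (q : R)) (ζ : R)
    (hζ : ∑ j ∈ range q, ζ ^ j = 0)
    (hpf : ∀ u : R, (∀ m : Ideal R, m.IsMaximal → u - 1 ∈ m) → (HP R K q u ↔ HF q u))
    (hfin : ∃ T : Finset K, ∀ u : R, (∀ m : Ideal R, m.IsMaximal → u - 1 ∈ m) →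
      ∃ g ∈ T, ∃ y : K, algebraMap R K u = g * y ^ q)
    (hsl : Finite (MaximalSpectrum (integralClosure R K)))
    (hnip : ∃ d : ℕ, ¬ ∃ (t : Fin d → R) (p : Finset (Fin d) → R × R),
      ∀ i L, (HF q ((p L).1 + (p L).2 * t i) ↔ i ∈ L)) : IsLocalRing R := by
  obtain ⟨Q, _, D, hDJ, hDχ⟩ := exists_data33 (K := K) q hq.pos hpf hfin hsl hnip
  exact isLocalRing_of_data46 (K := K) q hq hqu ζ hζ hsl D hDJ hDχ

end Pool.Agent.AIC.M
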