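import Pool.Agent.AIC.M.LocalD7
import Pool.Agent.AIC.M.Data33

/-! MP_313bb4, theorem M, row M9: the local theorem with the equivalence of the two forms (M7a) as
hypothesis. -/

set_option autoImplicit false

namespace Pool.Agent.AIC.M

open Finset

/-- M9 from M7a -/
theorem isLocalRing_of_hpf7 {R K : Type} [CommRing R] [IsDomain R] [Field K] [Algebra R K]
    [IsFractionRing R K] (q : ℕ) (hq : q.Prime) (hqu : IsUnit (q : R)) (ζ : R)
    (hζ : ∑ j ∈ range q, ζ ^ j = 0)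
    (hpf : ∀ u : R, (∀ m : Ideal R, m.IsMaximal → u - 1 ∈ m) → (HP R K q u ↔ HF q u))
    (hfin : ∃ T : Finset K, ∀ u : R, (∀ m : Ideal R, m.IsMaximal → u - 1 ∈ m) →
      ∃ g ∈ T, ∃ y : K, algebraMap R K u = g * y ^ q)
    (hsl : Finite (MaximalSpectrum (integralClosure R K)))
    (hinf : ∀ m : Ideal R, m.IsMaximal → Infinite (R ⧸ m))
    (hnip : ∃ d : ℕ, ¬ ∃ (t : Fin d → R) (p : Finset (Fin d) → R × R),
      ∀ i L, (HF q ((p L).1 + (p L).2 * t i) ↔ i ∈ L)) : IsLocalRing R := by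
  obtain ⟨Q, _, D, hDJ, hDχ⟩ := exists_data33 (K := K) q hq.pos hpf hfin hsl hnip
  exact isLocalRing_of_data7 (K := K) q hq hqu ζ hζ hsl hinf D hDJ hDχ

end Pool.Agent.AIC.M
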