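import Pool.Agent.AIC.M.HP33

/-! MP_313bb4, theorem M, row M7a: the two forms of the subgroup of `q`-th powers agree. -/

set_option autoImplicit false

namespace Pool.Agent.AIC.M

open Finset Polynomial

section

variable {R K : Type} [CommRing R] [IsDomain R] [Field K] [Algebra R K] [IsFractionRing R K]

/-- in an algebra generated by `y` with `y ^ q` in `R`, every element is a combination of
`1, y, ..., y ^ (q - 1)` -/
theorem mem_adjoin_pow7 {S : Type} [CommRing S] [Algebra R S] {q : ℕ} (hq : 0 < q) {y : S} {u : R}
    (hy : y ^ q = algebraMap R S u) {x : S} (hx : x ∈ Algebra.adjoin R {y}) :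
    ∃ z : Fin q → R, x = ∑ i : Fin q, algebraMap R S (z i) * y ^ (i : ℕ) := by
  obtain ⟨p, hp⟩ := (Algebra.adjoin_singleton_eq_range_aeval R y ▸ hx :
    x ∈ (aeval y : R[X] →ₐ[R] S).range)
  have hmon : (X ^ q - C u : R[X]).Monic := monic_X_pow_sub_C u hq.ne'
  have hroot : aeval y (X ^ q - C u : R[X]) = 0 := by
    rw [map_sub, map_pow, aeval_X, aeval_C, hy, sub_self]
  have hmod : aeval y (p %ₘ (X ^ q - C u : R[X])) = x := by
    have h := congrArg (aeval y) (modByMonic_add_div p (X ^ q - C u : R[X]))
    rw [map_add, map_mul, hroot, zero_mul, add_zero] at h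
    rw [h]; exact hp
  have hdeg : (p %ₘ (X ^ q - C u : R[X])).natDegree < q := by
    have h := natDegree_modByMonic_lt p hmon (by
      intro h1
      have := congrArg natDegree h1
      rw [natDegree_X_pow_sub_C, natDegree_one] at this
      omega)
    rwa [natDegree_X_pow_sub_C] at h
  refine ⟨fun i => (p %ₘ (X ^ q - C u : R[X])).coeff i, ?_⟩
  rw [← hmod, aeval_eq_sum_range' hdeg, Finset.sum_range]
  simp only [Algebra.smul_def]

/-- a unit of an integral extension of domains which lies in the base is a unit of the base -/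
theorem isUnit_of_integral7 {A B : Type} [CommRing A] [CommRing B] [Algebra A B]
    [Algebra.IsIntegral A B] [FaithfulSMul A B] {a : A} (h : IsUnit (algebraMap A B a)) :
    IsUnit a := by
  by_contra hn
  obtain ⟨m, hm, hmem⟩ := exists_max_ideal_of_mem_nonunits hn
  obtain ⟨n, hn', hl⟩ := Ideal.exists_maximal_ideal_liesOver_of_isIntegral (S := B) m
  apply hn'.ne_top
  apply n.eq_top_of_isUnit_mem _ h
  have := hl.over
  rw [this] at hmem
  exact hmem

/-- M7a -/
theorem hp_iff_hf7 (q : ℕ) (hq : q.Prime) (hqu : IsUnit (q : R)) (u : R)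
    (hu : ∀ m : Ideal R, m.IsMaximal → u - 1 ∈ m) : HP R K q u ↔ HF q u := by
  have hinjK : Function.Injective (algebraMap R K) := IsFractionRing.injective R K
  have hinj : Function.Injective (algebraMap R (integralClosure R K)) := by
    intro a b hab
    apply hinjK
    have := congrArg (algebraMap (integralClosure R K) K) hab
    rwa [← IsScalarTower.algebraMap_apply R (integralClosure R K) K,
      ← IsScalarTower.algebraMap_apply R (integralClosure R K) K] at this
  have hval : ∀ r : R, ((algebraMap R (integralClosure R K) r : integralClosure R K) : K) =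
      algebraMap R K r := fun r => rfl
  -- the homogenised identities
  have hW : ∀ (y' d : R) (y : K), algebraMap R K d * y = algebraMap R K y' →
      algebraMap R K (∑ i : Fin q, y' ^ (i : ℕ) * d ^ (q - 1 - i)) =
        algebraMap R K d ^ (q - 1) * ∑ i : Fin q, y ^ (i : ℕ) := by
    intro y' d y hy
    rw [map_sum, Finset.mul_sum]
    refine Finset.sum_congr rfl (fun i _ => ?_)
    rw [map_mul, map_pow, map_pow, ← hy, mul_pow]
    have : (q - 1) = i + (q - 1 - i) := by omega
    conv_rhs => rw [this, pow_add]
    ring
  have hZ : ∀ (y' d : R) (y : K) (z : Fin q → R), algebraMap R K d * y = algebraMap R K y' →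
      algebraMap R K (∑ i : Fin q, z i * (y' ^ (i : ℕ) * d ^ (q - 1 - i))) =
        algebraMap R K d ^ (q - 1) * ∑ i : Fin q, algebraMap R K (z i) * y ^ (i : ℕ) := by
    intro y' d y z hy
    rw [map_sum, Finset.mul_sum]
    refine Finset.sum_congr rfl (fun i _ => ?_)
    rw [map_mul, map_mul, map_pow, map_pow, ← hy, mul_pow]
    have : (q - 1) = i + (q - 1 - i) := by omega
    conv_rhs => rw [this, pow_add]
    ring
  constructor
  · rintro ⟨y, hy, hn⟩
    obtain ⟨y', d, hd, hyd⟩ := IsFractionRing.div_surjective (A := R) (y : K)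
    have hd0 : d ≠ 0 := nonZeroDivisors.ne_zero hd
    have hdK : algebraMap R K d ≠ 0 := by
      rw [Ne, ← map_zero (algebraMap R K)]; exact fun h => hd0 (hinjK h)
    have hdy : algebraMap R K d * (y : K) = algebraMap R K y' := by
      rw [← hyd]; field_simp
    -- W is a unit of the closure
    have hWu : IsUnit (∑ i ∈ range q, y ^ i) := by
      by_contra hnu
      obtain ⟨n, hnm, hmem⟩ := exists_max_ideal_of_mem_nonunits hnu
      have h1 : (∑ i ∈ range q, y ^ i) - (q : integralClosure R K) ∈ n := by
        have h2 : (∑ i ∈ range q, y ^ i) - (q : integralClosure R K) =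
            ∑ i ∈ range q, (y ^ i - 1) := by
          rw [Finset.sum_sub_distrib]; simp
        rw [h2]
        refine n.sum_mem (fun i _ => ?_)
        have := sub_dvd_pow_sub_pow y 1 i
        rw [one_pow] at this
        exact n.mem_of_dvd this (hn n hnm)
      have h3 : (q : integralClosure R K) ∈ n := by
        have := n.sub_mem hmem h1
        rwa [sub_sub_cancel] at this
      apply hnm.ne_top
      apply n.eq_top_of_isUnit_mem h3
      have := hqu.map (algebraMap R (integralClosure R K))
      rwa [map_natCast] at this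
    -- and of `R[y]`
    let A := Algebra.adjoin R {y}
    have hyA : y ∈ A := Algebra.subset_adjoin (Set.mem_singleton y)
    let yA : A := ⟨y, hyA⟩
    have : Algebra.IsIntegral A (integralClosure R K) :=
      Algebra.IsIntegral.tower_top (R := R)
    have hWA : IsUnit (∑ i ∈ range q, yA ^ i) := by
      apply isUnit_of_integral7 (B := integralClosure R K)
      have : algebraMap A (integralClosure R K) (∑ i ∈ range q, yA ^ i) = ∑ i ∈ range q, y ^ i := by
        rw [map_sum]
        exact Finset.sum_congr rfl (fun i _ => by rw [map_pow]; rfl)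
      rw [this]; exact hWu
    obtain ⟨v, hv⟩ := hWA.exists_right_inv
    obtain ⟨z, hz⟩ := mem_adjoin_pow7 hq.pos hy v.2
    have h1 : (∑ i : Fin q, (y : K) ^ (i : ℕ)) *
        (∑ i : Fin q, algebraMap R K (z i) * (y : K) ^ (i : ℕ)) = 1 := by
      have h2 := congrArg (fun t : A => ((t : integralClosure R K) : K)) hv
      have h3 : ((v : integralClosure R K) : K) =
          ∑ i : Fin q, algebraMap R K (z i) * (y : K) ^ (i : ℕ) := by
        have := congrArg (fun t : integralClosure R K => (t : K)) hz
        simpa using this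
      have h4 : (((∑ i ∈ range q, yA ^ i : A) : integralClosure R K) : K) =
          ∑ i : Fin q, (y : K) ^ (i : ℕ) := by
        rw [← Finset.sum_range (fun i => (y : K) ^ i)]
        simp [yA]
      rw [← h3, ← h4]
      simpa using h2
    refine ⟨y', d, z, hd0, ?_, ?_⟩
    · apply hinjK
      rw [map_pow, map_mul, map_pow, ← hdy, mul_pow]
      congr 1
      have := congrArg (fun t : integralClosure R K => (t : K)) hy
      simpa using this
    · apply hinjK
      rw [map_mul, hW y' d y hdy, hZ y' d y z hdy, map_pow]
      calc _ = (algebraMap R K d ^ (q - 1)) ^ 2 * ((∑ i : Fin q, (y : K) ^ (i : ℕ)) *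
          (∑ i : Fin q, algebraMap R K (z i) * (y : K) ^ (i : ℕ))) := by ring
        _ = _ := by rw [h1, mul_one, ← pow_mul]; ring_nf
  · rintro ⟨y', d, z, hd0, hpow, hprod⟩
    have hdK : algebraMap R K d ≠ 0 := by
      rw [Ne, ← map_zero (algebraMap R K)]; exact fun h => hd0 (hinjK h)
    set y : K := algebraMap R K y' / algebraMap R K d with hydef
    have hdy : algebraMap R K d * y = algebraMap R K y' := by
      rw [hydef]; field_simp
    have hyq : y ^ q = algebraMap R K u := by
      have := congrArg (algebraMap R K) hpow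
      rw [map_pow, map_mul, map_pow, ← hdy, mul_pow] at this
      exact mul_left_cancel₀ (pow_ne_zero q hdK) this
    have hyint : IsIntegral R y := by
      refine ⟨X ^ q - C u, monic_X_pow_sub_C u hq.ne_zero, ?_⟩
      rw [eval₂_sub, eval₂_X_pow, eval₂_C, hyq, sub_self]
    have h1 : (∑ i : Fin q, y ^ (i : ℕ)) *
        (∑ i : Fin q, algebraMap R K (z i) * y ^ (i : ℕ)) = 1 := by
      have h2 := congrArg (algebraMap R K) hprod
      rw [map_mul, hW y' d y hdy, hZ y' d y z hdy, map_pow] at h2
      have h3 : (algebraMap R K d ^ (q - 1)) ^ 2 * ((∑ i : Fin q, y ^ (i : ℕ)) *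
          (∑ i : Fin q, algebraMap R K (z i) * y ^ (i : ℕ))) =
          (algebraMap R K d ^ (q - 1)) ^ 2 * 1 := by
        rw [mul_one, ← pow_mul, mul_comm (q - 1) 2]
        refine Eq.trans ?_ h2
        rw [mul_comm 2 (q - 1), pow_mul]
        ring
      exact mul_left_cancel₀ (pow_ne_zero 2 (pow_ne_zero (q - 1) hdK)) h3
    let yC : integralClosure R K := ⟨y, hyint⟩
    have hyC : yC ^ q = algebraMap R (integralClosure R K) u := Subtype.ext hyq
    have hWu : (∑ i ∈ range q, yC ^ i) *
        (∑ i : Fin q, algebraMap R (integralClosure R K) (z i) * yC ^ (i : ℕ)) = 1 := by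
      apply Subtype.ext
      rw [Finset.sum_range]
      simpa [yC] using h1
    refine ⟨yC, hyC, fun n hn => ?_⟩
    have hnm : (n.comap (algebraMap R (integralClosure R K))).IsMaximal := by
      have := hn
      exact Ideal.isMaximal_comap_of_isIntegral_of_isMaximal n
    have hun : (yC - 1) * (∑ i ∈ range q, yC ^ i) ∈ n := by
      rw [mul_geom_sum, hyC]
      have := hu _ hnm
      rwa [Ideal.mem_comap, map_sub, map_one] at this
    rcases hn.isPrime.mem_or_mem hun with h | h
    · exact h
    · exfalso
      apply hn.ne_top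
      exact n.eq_top_of_isUnit_mem h (IsUnit.of_mul_eq_one _ hWu)

end

end Pool.Agent.AIC.M
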