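import Pool.Agent.AIC.M.LocH7
import Pool.Agent.AIC.M.M7a7

/-! MP_313bb4, theorem M, row M9: the local theorem. -/

set_option autoImplicit false

namespace Pool.Agent.AIC.M

open Finset

/-- M9: the local theorem -/
theorem isLocalRing_M {R K : Type} [CommRing R] [IsDomain R] [Field K] [Algebra R K]
    [IsFractionRing R K]
    (q : ℕ) (hq : q.Prime) (hqu : IsUnit (q : R)) (ζ : R) (hζ : ∑ j ∈ range q, ζ ^ j = 0)
    (hfin : ∃ T : Finset K, ∀ u : R, (∀ m : Ideal R, m.IsMaximal → u - 1 ∈ m) →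
      ∃ g ∈ T, ∃ y : K, algebraMap R K u = g * y ^ q)
    (hsl : Finite (MaximalSpectrum (integralClosure R K)))
    (hinf : ∀ m : Ideal R, m.IsMaximal → Infinite (R ⧸ m))
    (hnip : ∃ d : ℕ, ¬ ∃ (t : Fin d → R) (p : Finset (Fin d) → R × R),
      ∀ i L, (HF q ((p L).1 + (p L).2 * t i) ↔ i ∈ L)) : IsLocalRing R :=
  isLocalRing_of_hpf7 q hq hqu ζ hζ (fun u hu => hp_iff_hf7 (K := K) q hq hqu u hu) hfin hsl hinf
    hnip

end Pool.Agent.AIC.M
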