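import Pool.Agent.AIC.M.HP33
import Pool.Agent.AIC.Form83
import Pool.Agent.AIC.Interp83

/-! MP_313bb4, theorem M, row M7b: the first order form `HF` of the subgroup of `q`-th powers
has finite VC dimension along affine families in a ring all of whose formulas are dependent. -/

set_option autoImplicit false
set_option linter.unusedSectionVars false

namespace Pool.Agent.AIC.M

open Finset FirstOrder FirstOrder.Language FirstOrder.Ring Pool.Agent.AIC

/-- sums of terms -/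
def tsum3 {β : Type} : List (Language.ring.Term β) → Language.ring.Term β
  | [] => 0
  | t :: l => t + tsum3 l

theorem realize_tsum3 {R : Type} [CommRing R] [CompatibleRing R] {β : Type}
    (l : List (Language.ring.Term β)) (v : β → R) :
    (tsum3 l).realize v = (l.map (fun t => t.realize v)).sum := by
  induction l with
  | nil => simp [tsum3]
  | cons a l ih => simp [tsum3, ih]

theorem realize_tsum3_ofFn {R : Type} [CommRing R] [CompatibleRing R] {β : Type} {n : ℕ}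
    (f : Fin n → Language.ring.Term β) (v : β → R) :
    (tsum3 (List.ofFn f)).realize v = ∑ i, (f i).realize v := by
  rw [realize_tsum3, List.map_ofFn, List.sum_ofFn]
  rfl

/-- the variables: `t`, then `v, w`, then `y, d`, then the `z i` -/
abbrev W3 (q : ℕ) : Type := (Fin 1 ⊕ Fin 2) ⊕ (Fin 2 ⊕ Fin q)

/-- the variable `y` -/
def ty3 (q : ℕ) : Language.ring.Term (W3 q) := Term.var (Sum.inr (Sum.inl 0))
/-- the variable `d` -/
def td3 (q : ℕ) : Language.ring.Term (W3 q) := Term.var (Sum.inr (Sum.inl 1))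
/-- the variables `z i` -/
def tz3 (q : ℕ) (i : Fin q) : Language.ring.Term (W3 q) := Term.var (Sum.inr (Sum.inr i))
/-- the term `v + w * t` -/
def tu3 (q : ℕ) : Language.ring.Term (W3 q) :=
  Term.var (Sum.inl (Sum.inr 0)) + Term.var (Sum.inl (Sum.inr 1)) * Term.var (Sum.inl (Sum.inl 0))
/-- the term `y ^ i * d ^ (q - 1 - i)` -/
def tm3 (q : ℕ) (i : Fin q) : Language.ring.Term (W3 q) :=
  tpow (ty3 q) (i : ℕ) * tpow (td3 q) (q - 1 - i)

/-- the matrix of the formula -/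
noncomputable def matF3 (q : ℕ) : Language.ring.Formula (W3 q) :=
  (∼((td3 q).equal 0)) ⊓
    (((tpow (ty3 q) q).equal (tpow (td3 q) q * tu3 q)) ⊓
      ((tsum3 (List.ofFn (tm3 q)) *
        tsum3 (List.ofFn (fun i => tz3 q i * tm3 q i))).equal (tpow (td3 q) (2 * (q - 1)))))

theorem realize_matF3 {R : Type} [CommRing R] [CompatibleRing R] (q : ℕ) (s : Fin 1 ⊕ Fin 2 → R)
    (x : Fin 2 ⊕ Fin q → R) :
    (matF3 q).Realize (Sum.elim s x) ↔
      x (Sum.inl 1) ≠ 0 ∧
      x (Sum.inl 0) ^ q = x (Sum.inl 1) ^ q * (s (Sum.inr 0) + s (Sum.inr 1) * s (Sum.inl 0)) ∧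
      (∑ i : Fin q, x (Sum.inl 0) ^ (i : ℕ) * x (Sum.inl 1) ^ (q - 1 - i)) *
        (∑ i : Fin q, x (Sum.inr i) * (x (Sum.inl 0) ^ (i : ℕ) * x (Sum.inl 1) ^ (q - 1 - i))) =
          x (Sum.inl 1) ^ (2 * (q - 1)) := by
  unfold matF3
  rw [Formula.realize_inf, Formula.realize_inf, Formula.realize_not, Formula.realize_equal,
    Formula.realize_equal, Formula.realize_equal, realize_mul, realize_mul, realize_tsum3_ofFn,
    realize_tsum3_ofFn]
  simp [realize_tpow, tm3, tz3, ty3, td3, tu3]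

/-- the formula -/
noncomputable def hfF3 (q : ℕ) : Language.ring.Formula (Fin 1 ⊕ Fin 2) :=
  Formula.iExs (Fin 2 ⊕ Fin q) (matF3 q)

theorem realize_hfF3 {R : Type} [CommRing R] [CompatibleRing R] (q : ℕ) (a : Fin 1 → R)
    (b : Fin 2 → R) :
    (hfF3 q).Realize (Sum.elim a b) ↔ HF q (b 0 + b 1 * a 0) := by
  unfold hfF3 HF
  rw [Formula.realize_iExs]
  constructor
  · rintro ⟨x, hx⟩
    rw [realize_matF3] at hx
    obtain ⟨h1, h2, h3⟩ := hx
    exact ⟨x (Sum.inl 0), x (Sum.inl 1), fun i => x (Sum.inr i), h1, h2, h3⟩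
  · rintro ⟨y, d, z, h1, h2, h3⟩
    refine ⟨Sum.elim ![y, d] z, ?_⟩
    rw [realize_matF3]
    exact ⟨h1, h2, h3⟩

/-- M7b -/
theorem nip_HF {R : Type} [CommRing R] [CompatibleRing R] (q : ℕ)
    (h : ∀ (k m : ℕ) (φ : FirstOrder.Language.ring.Formula (Fin k ⊕ Fin m)),
      ∃ n : ℕ, ¬ ∃ (a : Fin n → Fin k → R) (b : Finset (Fin n) → Fin m → R),
        ∀ (i : Fin n) (J : Finset (Fin n)), (φ.Realize (Sum.elim (a i) (b J)) ↔ i ∈ J)) :
    ∃ d : ℕ, ¬ ∃ (t : Fin d → R) (p : Finset (Fin d) → R × R),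
      ∀ i L, (HF q ((p L).1 + (p L).2 * t i) ↔ i ∈ L) := by
  obtain ⟨n, hn⟩ := h 1 2 (hfF3 q)
  refine ⟨n, ?_⟩
  rintro ⟨t, p, hp⟩
  apply hn
  refine ⟨fun i _ => t i, fun L => ![(p L).1, (p L).2], fun i L => ?_⟩
  rw [realize_hfF3]
  simpa using hp i L

/-- M7b for the definition `NIPRing` -/
theorem nip_HF_ring {R : Type} [CommRing R] [CompatibleRing R] (q : ℕ) (h : NIPRing R) :
    ∃ d : ℕ, ¬ ∃ (t : Fin d → R) (p : Finset (Fin d) → R × R),
      ∀ i L, (HF q ((p L).1 + (p L).2 * t i) ↔ i ∈ L) :=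
  nip_HF q h

end Pool.Agent.AIC.M
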