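import Pool.Agent.AIC.M.LocF46
import Pool.Agent.AIC.M.M7a7
import Pool.Agent.AIC.M.M7b3
import Pool.Agent.AIC.MPlus82
import Pool.Agent.AIC.PairQ82

/-! MP_313bb4, theorem M without residue hypotheses: the final local form and the pair form. -/

set_option autoImplicit false

namespace Pool.Agent.AIC

open Finset

/-- **Theorem M', local form**: no hypothesis on the residue fields -/
theorem locM46 : LocMb True := by
  intro R K _ _ _ _ _ _ hN q hq hqu ζ hζ hfin hsl _
  exact M.isLocalRing_of_hpf46 (K := K) q hq hqu ζ hζ
    (fun u hu => M.hp_iff_hf7 (K := K) q hq hqu u hu) hfin hsl (M.nip_HF_ring q hN)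

/-- the local form with `b` arbitrary -/
theorem locMb46 (b : Prop) : LocMb b := by
  intro R K _ _ _ _ _ _ hN q hq hqu ζ hζ hfin hsl _
  exact M.isLocalRing_of_hpf46 (K := K) q hq hqu ζ hζ
    (fun u hu => M.hp_iff_hf7 (K := K) q hq hqu u hu) hfin hsl (M.nip_HF_ring q hN)

/-- **Theorem M', pair form**: two primes of an NIP domain with fraction field of `Q`-type, both
finitely branched in the integral closure, are comparable -/
theorem pairM46' : PairQb True := pairQ82 locM46

end Pool.Agent.AIC
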