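import Pool.Agent.AIC.M.Defs34
import Pool.Agent.AIC.M.E11

/-! MP_313bb4, theorem M, row M9: two different maximal ideals contradict the core theorem. -/

set_option autoImplicit false

namespace Pool.Agent.AIC.M

open Finset

/-- `1 - ζ` is a unit -/
theorem isUnit_one_sub7 {R : Type} [CommRing R] {q : ℕ}
    (hqu : IsUnit (q : R)) {ζ : R} (hζ : ∑ j ∈ range q, ζ ^ j = 0) : IsUnit (1 - ζ) := by
  have h : (1 - ζ) ∣ (q : R) := by
    have h1 : (q : R) = ∑ j ∈ range q, (1 - ζ ^ j) := by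
      rw [Finset.sum_sub_distrib, hζ]
      simp
    rw [h1]
    refine Finset.dvd_sum (fun j _ => ?_)
    have := sub_dvd_pow_sub_pow (1 : R) ζ j
    rwa [one_pow] at this
  exact isUnit_of_dvd_unit h hqu

/-- a primitive `q`-th root of unity: `1 - ζ ^ i` is a unit for `0 < i < q` -/
theorem isUnit_one_sub_pow7 {R : Type} [CommRing R] {q : ℕ} (hq : q.Prime)
    (hqu : IsUnit (q : R)) {ζ : R} (hζ : ∑ j ∈ range q, ζ ^ j = 0) {i : ℕ} (hi : 0 < i)
    (hiq : i < q) : IsUnit (1 - ζ ^ i) := by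
  have hc : Nat.Coprime i q := by
    rw [Nat.coprime_comm, hq.coprime_iff_not_dvd]
    exact Nat.not_dvd_of_pos_of_lt hi hiq
  obtain ⟨m, -, hm⟩ := Nat.exists_mul_mod_eq_one_of_coprime hc hq.one_lt
  have hz : ζ ^ q = 1 := zeta_pow11 hζ
  have h1 : (ζ ^ i) ^ m = ζ := by
    rw [← pow_mul]
    conv_lhs => rw [← Nat.mod_add_div (i * m) q]
    rw [pow_add, pow_mul, hz, one_pow, mul_one, hm, pow_one]
  have h2 : (1 - ζ ^ i) ∣ (1 - ζ) := by
    have := sub_dvd_pow_sub_pow (1 : R) (ζ ^ i) m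
    rwa [one_pow, h1] at this
  exact isUnit_of_dvd_unit h2 (isUnit_one_sub7 hqu hζ)

/-- `q`-th roots of `1` in a domain are powers of `ζ` -/
theorem eq_pow_mul7 {C : Type} [CommRing C] [IsDomain C] {q : ℕ} (hq : q.Prime)
    (hqu : IsUnit (q : C)) {ζ : C} (hζ : ∑ j ∈ range q, ζ ^ j = 0) {w y : C}
    (hy : IsUnit y) (h : w ^ q = y ^ q) : ∃ i < q, w = ζ ^ i * y := by
  obtain ⟨u, rfl⟩ := hy
  have hne : ζ ≠ 1 := by
    rintro rfl
    have := isUnit_one_sub7 hqu hζ
    simp at this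
  have : Fact q.Prime := ⟨hq⟩
  have hord : orderOf ζ = q := orderOf_eq_prime (zeta_pow11 hζ) hne
  have hp : IsPrimitiveRoot ζ q := by
    rw [← hord]; exact IsPrimitiveRoot.orderOf ζ
  have : NeZero q := ⟨hq.ne_zero⟩
  have h1 : (w * ((u⁻¹ : Cˣ) : C)) ^ q = 1 := by
    rw [mul_pow, h, ← mul_pow, Units.mul_inv, one_pow]
  obtain ⟨i, hi, he⟩ := hp.eq_pow_of_pow_eq_one h1
  refine ⟨i, hi, ?_⟩
  rw [he, mul_assoc, Units.inv_mul, mul_one]

/-- an integral extension has a maximal ideal over every maximal ideal -/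
theorem exists_over7 {R K : Type} [CommRing R] [IsDomain R] [Field K] [Algebra R K]
    [IsFractionRing R K] (m : Ideal R) (hm : m.IsMaximal) :
    ∃ n : Ideal (integralClosure R K), n.IsMaximal ∧
      n.comap (algebraMap R (integralClosure R K)) = m := by
  have := hm
  have hinj : Function.Injective (algebraMap R (integralClosure R K)) := by
    have h1 : Function.Injective (algebraMap R K) := IsFractionRing.injective R K
    intro a b hab
    apply h1
    have := congrArg (algebraMap (integralClosure R K) K) hab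
    rwa [← IsScalarTower.algebraMap_apply R (integralClosure R K) K,
      ← IsScalarTower.algebraMap_apply R (integralClosure R K) K] at this
  obtain ⟨n, hn, h⟩ := Ideal.exists_ideal_over_maximal_of_isIntegral (S := integralClosure R K) m
    (by rw [(RingHom.injective_iff_ker_eq_bot _).1 hinj]; exact bot_le)
  exact ⟨n, hn, h⟩

/-- a domain with semilocal closure is semilocal -/
theorem finite_max7 {R K : Type} [CommRing R] [IsDomain R] [Field K] [Algebra R K]
    [IsFractionRing R K] (hsl : Finite (MaximalSpectrum (integralClosure R K))) :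
    Finite (MaximalSpectrum R) := by
  classical
  choose f hf1 hf2 using fun m : MaximalSpectrum R => exists_over7 (K := K) m.asIdeal m.isMaximal
  refine Finite.of_injective (fun m => (⟨f m, hf1 m⟩ : MaximalSpectrum (integralClosure R K))) ?_
  intro a b hab
  have h : f a = f b := congrArg MaximalSpectrum.asIdeal hab
  apply MaximalSpectrum.ext
  rw [← hf2 a, ← hf2 b, h]

/-- an element in `m` which is `1` modulo all other maximal ideals -/
theorem exists_sep7 {R : Type} [CommRing R] [Finite (MaximalSpectrum R)] (m : Ideal R)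
    (hm : m.IsMaximal) : ∃ e ∈ m, ∀ n : Ideal R, n.IsMaximal → n ≠ m → 1 - e ∈ n := by
  classical
  have := Fintype.ofFinite (MaximalSpectrum R)
  have hcop : IsCoprime m (∏ n ∈ (Finset.univ.filter (fun n : MaximalSpectrum R => n.asIdeal ≠ m)),
      n.asIdeal) := by
    refine IsCoprime.prod_right (fun n hn => ?_)
    rw [Finset.mem_filter] at hn
    rw [Ideal.isCoprime_iff_sup_eq]
    exact hm.coprime_of_ne n.isMaximal (Ne.symm hn.2)
  obtain ⟨e, he, f, hf, hef⟩ := Ideal.isCoprime_iff_exists.1 hcop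
  refine ⟨e, he, fun n hn hne => ?_⟩
  have h1 : 1 - e = f := by rw [← hef]; ring
  rw [h1]
  have h2 : (∏ n ∈ (Finset.univ.filter (fun n : MaximalSpectrum R => n.asIdeal ≠ m)),
      n.asIdeal) ≤ n := by
    refine le_trans Ideal.prod_le_inf ?_
    exact Finset.inf_le (f := fun n : MaximalSpectrum R => n.asIdeal)
      (show (⟨n, hn⟩ : MaximalSpectrum R) ∈ _ from by simp [hne])
  exact h2 hf

/-- the contradiction at the closure: `y ^ q` is not a `q`-th power of an element which is `1`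
everywhere -/
theorem not_hp7 {R K : Type} [CommRing R] [IsDomain R] [Field K] [Algebra R K]
    [IsFractionRing R K] {q : ℕ} (hq : q.Prime) (hqu : IsUnit (q : R)) {ζ : R}
    (hζ : ∑ j ∈ range q, ζ ^ j = 0) {m1 m2 : Ideal R} (h1 : m1.IsMaximal) (h2 : m2.IsMaximal)
    {y : R} (hy : IsUnit y) (hy1 : y - 1 ∈ m1) (hy2 : y - ζ ∈ m2) :
    ¬ ∃ w : integralClosure R K, w ^ q = algebraMap R (integralClosure R K) (y ^ q) ∧
      ∀ n : Ideal (integralClosure R K), n.IsMaximal → w - 1 ∈ n := by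
  rintro ⟨w, hw, hn⟩
  set φ := algebraMap R (integralClosure R K) with hφ
  have hqC : IsUnit (q : integralClosure R K) := by
    have := hqu.map φ
    rwa [map_natCast] at this
  have hζC : ∑ j ∈ range q, (φ ζ) ^ j = 0 := by
    have := congrArg φ hζ
    rwa [map_sum, map_zero, Finset.sum_congr rfl (fun j _ => map_pow φ ζ j)] at this
  obtain ⟨i, hi, hwi⟩ := eq_pow_mul7 hq hqC hζC (hy.map φ) (by rw [hw, map_pow])
  obtain ⟨n1, hn1, hc1⟩ := exists_over7 (K := K) m1 h1
  obtain ⟨n2, hn2, hc2⟩ := exists_over7 (K := K) m2 h2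
  have hy1' : φ y - 1 ∈ n1 := by
    have : y - 1 ∈ n1.comap φ := by rw [hc1]; exact hy1
    rwa [Ideal.mem_comap, map_sub, map_one] at this
  have hy2' : φ y - φ ζ ∈ n2 := by
    have : y - ζ ∈ n2.comap φ := by rw [hc2]; exact hy2
    rwa [Ideal.mem_comap, map_sub] at this
  have hi0 : i = 0 := by
    by_contra hne
    have hu := isUnit_one_sub_pow7 hq hqC hζC (Nat.pos_of_ne_zero hne) hi
    apply hn1.ne_top
    apply n1.eq_top_of_isUnit_mem _ hu
    have e1 : (1 - φ ζ ^ i : integralClosure R K) = φ ζ ^ i * (φ y - 1) - (w - 1) := by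
      rw [hwi]; ring
    rw [e1]
    exact n1.sub_mem (n1.mul_mem_left _ hy1') (hn n1 hn1)
  rw [hi0, pow_zero, one_mul] at hwi
  have hu := isUnit_one_sub7 hqC hζC
  apply hn2.ne_top
  apply n2.eq_top_of_isUnit_mem _ hu
  have e1 : (1 - φ ζ : integralClosure R K) = (φ y - φ ζ) - (w - 1) := by
    rw [hwi]; ring
  rw [e1]
  exact n2.sub_mem hy2' (hn n2 hn2)

/-- M9 with the data and the core theorem as hypotheses -/
theorem isLocalRing_of_core7 {R K Q : Type} [CommRing R] [IsDomain R] [Field K] [Algebra R K]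
    [IsFractionRing R K] [CommGroup Q] (q : ℕ) (hq : q.Prime) (hqu : IsUnit (q : R)) (ζ : R)
    (hζ : ∑ j ∈ range q, ζ ^ j = 0)
    (hsl : Finite (MaximalSpectrum (integralClosure R K)))
    (D : Data R Q q) (hDJ : ∀ x : R, x ∈ D.J ↔ ∀ m : Ideal R, m.IsMaximal → x ∈ m)
    (hDχ : ∀ u : R, IsUnit u → D.χ u = 1 →
      ∃ y : integralClosure R K, y ^ q = algebraMap R (integralClosure R K) u ∧
        ∀ n : Ideal (integralClosure R K), n.IsMaximal → y - 1 ∈ n)
    (hcore : ∀ c : R, c ∈ D.J →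
      (∀ N : ℕ, ∃ y : R, IsUnit y ∧ c ^ N ∣ y ^ q - 1 ∧ D.χ (y ^ q) ≠ 1) → False) :
    IsLocalRing R := by
  have : Finite (MaximalSpectrum R) := finite_max7 hsl
  obtain ⟨m1, h1⟩ := Ideal.exists_maximal R
  refine IsLocalRing.of_unique_max_ideal ⟨m1, h1, fun m2 h2 => ?_⟩
  by_contra hne
  obtain ⟨e, he, hesep⟩ := exists_sep7 m1 h1
  have hc : ∀ m : Ideal R, m.IsMaximal → e * (1 - e) ∈ m := by
    intro m hm
    by_cases hmm : m = m1
    · subst hmm
      exact m.mul_mem_right _ he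
    · exact m.mul_mem_left _ (hesep m hm hmm)
  refine hcore (e * (1 - e)) ((hDJ _).2 hc) (fun N => ?_)
  obtain ⟨y, hy, hyN, hy1, hy2⟩ := exists_y hq.pos hζ e hc N
  refine ⟨y, hy, hyN, fun hχ => ?_⟩
  exact not_hp7 (K := K) hq hqu hζ h1 h2 hy (m1.mem_of_dvd hy1 he)
    (m2.mem_of_dvd hy2 (hesep m2 h2 hne)) (hDχ _ (hy.pow q) hχ)

end Pool.Agent.AIC.M
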