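import Pool.Agent.AIC.M.Local7
import Pool.Agent.AIC.M.CoreB34
import Pool.Agent.AIC.M.HP33

/-! MP_313bb4, theorem M, row M9: the local theorem from the data. -/

set_option autoImplicit false

namespace Pool.Agent.AIC.M

open Finset

/-- M9 from M8: a ring with the data is local -/
theorem isLocalRing_of_data7 {R K Q : Type} [CommRing R] [IsDomain R] [Field K] [Algebra R K]
    [IsFractionRing R K] [CommGroup Q] (q : ℕ) (hq : q.Prime) (hqu : IsUnit (q : R)) (ζ : R)
    (hζ : ∑ j ∈ range q, ζ ^ j = 0)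
    (hsl : Finite (MaximalSpectrum (integralClosure R K)))
    (hinf : ∀ m : Ideal R, m.IsMaximal → Infinite (R ⧸ m))
    (D : Data R Q q) (hDJ : ∀ x : R, x ∈ D.J ↔ ∀ m : Ideal R, m.IsMaximal → x ∈ m)
    (hDχ : ∀ u : R, IsUnit u → (D.χ u = 1 ↔ HP R K q u)) :
    IsLocalRing R := by
  have : Finite (MaximalSpectrum R) := finite_max7 hsl
  exact isLocalRing_of_core7 (K := K) q hq hqu ζ hζ hsl D hDJ (fun u hu h => (hDχ u hu).1 h)
    (fun c hc hy => core D hinf hq.pos c hc hy)

end Pool.Agent.AIC.M
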