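import Pool.Agent.AIC.M.Local7
import Pool.Agent.AIC.M.FinQ34

/-! MP_313bb4, theorem M2: the elements `e` and `y` of a domain which is not local, one residue field
of which contains a root of unity of order `q`. -/

set_option autoImplicit false

namespace Pool.Agent.AIC.M

open Finset

theorem isUnit_one_sub34 {R : Type} [CommRing R] {a : R} (ha : ∀ m : Ideal R, m.IsMaximal → a ∈ m) :
    IsUnit (1 - a) := by
  by_contra hn
  obtain ⟨m, hm, hmem⟩ := exists_max_ideal_of_mem_nonunits hn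
  have h1 : (1 : R) ∈ m := by
    have := m.add_mem hmem (ha m hm)
    rwa [sub_add_cancel] at this
  exact hm.ne_top (m.eq_top_of_isUnit_mem h1 isUnit_one)

theorem one_sub_pow34 {R : Type} [CommRing R] (a : R) (q : ℕ) :
    ∃ r : R, (1 - a) ^ q = 1 - q * a + a ^ 2 * r := by
  induction q with
  | zero => exact ⟨0, by simp⟩
  | succ q ih =>
    obtain ⟨r, hr⟩ := ih
    refine ⟨q + r - a * r, ?_⟩
    rw [pow_succ, hr, Nat.cast_succ]
    ring

/-- Newton approximation of a `q`-th root of `1` -/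
theorem newton34 {R : Type} [CommRing R] (q : ℕ) (hqu : IsUnit (q : R)) (y1 w : R)
    (hu : IsUnit y1) (hw : w ∣ y1 ^ q - 1) (hJ : ∀ m : Ideal R, m.IsMaximal → w ∈ m) (n : ℕ) :
    ∃ y : R, IsUnit y ∧ w ∣ y - y1 ∧ w ^ (n + 1) ∣ y ^ q - 1 := by
  induction n with
  | zero => exact ⟨y1, hu, by rw [sub_self]; exact dvd_zero _, by rw [zero_add, pow_one]; exact hw⟩
  | succ n ih =>
    obtain ⟨y, hy, hy1, hyq⟩ := ih
    obtain ⟨v, hv⟩ := (hqu.mul (hy.pow q)).exists_right_inv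
    obtain ⟨c, hc⟩ : ∃ c : R, c = y ^ q - 1 := ⟨_, rfl⟩
    have hyc : y ^ q = 1 + c := by rw [hc]; ring
    rw [← hc] at hyq
    rw [hyc] at hv
    obtain ⟨r, hr⟩ := one_sub_pow34 (c * v) q
    have hwc : w ∣ c := (dvd_pow_self w n.succ_ne_zero).trans hyq
    have hcv : w ∣ c * v := hwc.mul_right v
    refine ⟨y * (1 - c * v), hy.mul (isUnit_one_sub34 fun m hm => m.mem_of_dvd hcv (hJ m hm)), ?_, ?_⟩
    · have h1 : y * (1 - c * v) - y1 = (y - y1) - y * (c * v) := by ring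
      rw [h1]
      exact dvd_sub hy1 (hcv.mul_left y)
    · have h2 : (y * (1 - c * v)) ^ q - 1 = c * c * ((1 + c) * v ^ 2 * r) := by
        rw [mul_pow, hyc, hr]
        linear_combination (-c) * hv
      rw [h2]
      refine Dvd.dvd.mul_right ?_ _
      have h3 : w ^ (n + 1 + 1) = w ^ (n + 1) * w := pow_succ _ _
      rw [h3]
      exact mul_dvd_mul hyq hwc

/-- an element near `z` at one maximal ideal and near `0` at the others -/
theorem exists_t34 {R : Type} [CommRing R] [Finite (MaximalSpectrum R)] (m₂ : Ideal R)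
    (hm₂ : m₂.IsMaximal) (z : R) :
    ∃ t : R, t - z ∈ m₂ ∧ ∀ m : Ideal R, m.IsMaximal → m ≠ m₂ → t ∈ m := by
  classical
  obtain ⟨t, ht⟩ := Ideal.exists_forall_sub_mem_ideal (R := R)
    (I := fun n : MaximalSpectrum R => n.asIdeal) (by
      intro i j hij
      have := i.isMaximal
      have := j.isMaximal
      exact Ideal.isCoprime_of_isMaximal fun h => hij (MaximalSpectrum.ext h))
    (fun n => if n.asIdeal = m₂ then z else 0)
  refine ⟨t, ?_, fun m hm hne => ?_⟩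
  · have := ht ⟨m₂, hm₂⟩
    simpa using this
  · have := ht ⟨m, hm⟩
    simpa [hne] using this

/-- the elements `e` and `y` -/
theorem exists_ey34 {R : Type} [CommRing R] [Finite (MaximalSpectrum R)] {q : ℕ}
    (hq : q.Prime) (hqu : IsUnit (q : R)) (m₁ m₂ : Ideal R) (hm₁ : m₁.IsMaximal)
    (hm₂ : m₂.IsMaximal) (h12 : m₁ ≠ m₂) (z : R) (hz : ∑ j ∈ range q, z ^ j ∈ m₂) :
    ∃ e : R, (∀ m : Ideal R, m.IsMaximal → e * (1 - e) ∈ m) ∧ e ∈ m₁ ∧ 1 - e ∈ m₂ ∧
      ∀ N : ℕ, ∃ y : R, IsUnit y ∧ (∀ m : Ideal R, m.IsMaximal → 1 - e ∈ m → y - 1 ∉ m) ∧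
        e ^ N ∣ y - 1 ∧ (e * (1 - e)) ^ N ∣ y ^ q - 1 ∧ e ∣ y - 1 := by
  obtain ⟨t, ht2, ht⟩ := exists_t34 m₂ hm₂ z
  obtain ⟨F, hF⟩ : ∃ F : R, F = ∑ j ∈ range q, t ^ j := ⟨_, rfl⟩
  have hF2 : F ∈ m₂ := by
    have h1 : F - ∑ j ∈ range q, z ^ j ∈ m₂ := by
      rw [hF, ← Finset.sum_sub_distrib]
      refine Ideal.sum_mem _ fun j _ => ?_
      exact m₂.mem_of_dvd (sub_dvd_pow_sub_pow t z j) ht2
    have := m₂.add_mem h1 hz
    rwa [sub_add_cancel] at this
  have hFt : t ∣ 1 - F := by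
    obtain ⟨k, rfl⟩ : ∃ k, q = k + 1 := ⟨q - 1, by have := hq.pos; omega⟩
    rw [hF, Finset.sum_range_succ', pow_zero]
    have h1 : 1 - (∑ k ∈ range k, t ^ (k + 1) + 1) = -∑ k ∈ range k, t ^ (k + 1) := by ring
    rw [h1, dvd_neg]
    exact Finset.dvd_sum fun j _ => dvd_pow_self t j.succ_ne_zero
  have hF0 : ∀ m : Ideal R, m.IsMaximal → m ≠ m₂ → 1 - F ∈ m := fun m hm hne =>
    m.mem_of_dvd hFt (ht m hm hne)
  obtain ⟨e, he⟩ : ∃ e : R, e = 1 - F := ⟨_, rfl⟩
  have he' : 1 - e = F := by rw [he]; ring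
  have hem : ∀ m : Ideal R, m.IsMaximal → e * (1 - e) ∈ m := by
    intro m hm
    by_cases h : m = m₂
    · rw [he', h]
      exact m₂.mul_mem_left _ hF2
    · rw [he]
      exact m.mul_mem_right _ (hF0 m hm h)
  have heF : (1 - e) ∣ t ^ q - 1 := by
    rw [he', hF, ← mul_geom_sum t q]
    exact Dvd.intro_left _ rfl
  -- the first approximation
  obtain ⟨y1, hy1⟩ : ∃ y1 : R, y1 = 1 + e * (t - 1) := ⟨_, rfl⟩
  have hy1e : e ∣ y1 - 1 := by
    rw [hy1, add_sub_cancel_left]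
    exact dvd_mul_right _ _
  have hy1t : (1 - e) ∣ y1 - t := by
    have : y1 - t = (1 - e) * (1 - t) := by rw [hy1]; ring
    rw [this]
    exact dvd_mul_right _ _
  have hy1a : e ∣ y1 ^ q - 1 := by
    have := sub_dvd_pow_sub_pow y1 1 q
    rw [one_pow] at this
    exact hy1e.trans this
  have hy1b : (1 - e) ∣ y1 ^ q - 1 := by
    have h1 := hy1t.trans (sub_dvd_pow_sub_pow y1 t q)
    have h2 := dvd_add h1 heF
    rwa [sub_add_sub_cancel] at h2
  have hcop : IsCoprime e (1 - e) := ⟨1, 1, by ring⟩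
  have hw : e * (1 - e) ∣ y1 ^ q - 1 := hcop.mul_dvd hy1a hy1b
  have ht1 : ∀ m : Ideal R, m.IsMaximal → 1 - e ∈ m → t - 1 ∉ m := by
    intro m hm hme htm
    have h1 : F ∈ m := by rwa [he'] at hme
    have h2 : (∑ j ∈ range q, (t ^ j - 1)) ∈ m := by
      refine Ideal.sum_mem _ fun j _ => ?_
      have := sub_dvd_pow_sub_pow t 1 j
      rw [one_pow] at this
      exact m.mem_of_dvd this htm
    rw [Finset.sum_sub_distrib, ← hF, Finset.sum_const, card_range, nsmul_eq_mul, mul_one] at h2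
    have h3 : (q : R) ∈ m := by
      have := m.sub_mem h1 h2
      rwa [sub_sub_cancel] at this
    exact hm.ne_top (m.eq_top_of_isUnit_mem h3 hqu)
  have hy1u : IsUnit y1 := by
    by_contra hn
    obtain ⟨m, hm, hmem⟩ := exists_max_ideal_of_mem_nonunits hn
    have h1 : y1 ^ q - 1 ∈ m := m.mem_of_dvd hw (hem m hm)
    have h2 : y1 ^ q ∈ m := m.mem_of_dvd (dvd_pow_self y1 hq.ne_zero) hmem
    have h3 : (1 : R) ∈ m := by
      have := m.sub_mem h2 h1
      rwa [sub_sub_cancel] at this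
    exact hm.ne_top (m.eq_top_of_isUnit_mem h3 isUnit_one)
  refine ⟨e, hem, ?_, ?_, fun N => ?_⟩
  · rw [he]
    exact hF0 m₁ hm₁ h12
  · rw [he']
    exact hF2
  · obtain ⟨y, hyu, hyy, hyq⟩ := newton34 q hqu y1 (e * (1 - e)) hy1u hw hem N
    have hye : e ∣ y - 1 := by
      have h1 : y - 1 = (y - y1) + (y1 - 1) := by ring
      rw [h1]
      exact dvd_add ((dvd_mul_right e (1 - e)).trans hyy) hy1e
    have hyN : (e * (1 - e)) ^ N ∣ y ^ q - 1 := (pow_dvd_pow _ N.le_succ).trans hyq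
    refine ⟨y, hyu, fun m hm hme hmy => ?_, ?_, hyN, hye⟩
    · have h1 : y1 - 1 ∈ m := by
        have h2 : y - y1 ∈ m := m.mem_of_dvd hyy (hem m hm)
        have := m.sub_mem hmy h2
        have h3 : y - 1 - (y - y1) = y1 - 1 := by ring
        rwa [h3] at this
      have h2 : e * (t - 1) ∈ m := by
        have h3 : y1 - 1 = e * (t - 1) := by rw [hy1]; ring
        rwa [h3] at h1
      have h3 : t - 1 ∈ m := by
        have h4 := m.add_mem h2 (m.mul_mem_right (t - 1) hme)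
        have h5 : e * (t - 1) + (1 - e) * (t - 1) = t - 1 := by ring
        rwa [h5] at h4
      exact ht1 m hm hme h3
    · have h1 : e ^ N ∣ (y - 1) * ∑ j ∈ range q, y ^ j := by
        rw [mul_geom_sum]
        exact (pow_dvd_pow_of_dvd (dvd_mul_right e (1 - e)) N).trans hyN
      refine IsCoprime.dvd_of_dvd_mul_right ?_ h1
      refine IsCoprime.pow_left ?_
      obtain ⟨u, hu⟩ := hqu.exists_left_inv
      have h2 : e ∣ (∑ j ∈ range q, y ^ j) - q := by
        have h3 : (∑ j ∈ range q, y ^ j) - q = ∑ j ∈ range q, (y ^ j - 1) := by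
          rw [Finset.sum_sub_distrib, Finset.sum_const, card_range, nsmul_eq_mul, mul_one]
        rw [h3]
        refine Finset.dvd_sum fun j _ => ?_
        have := sub_dvd_pow_sub_pow y 1 j
        rw [one_pow] at this
        exact hye.trans this
      obtain ⟨r, hr⟩ := h2
      refine ⟨-(u * r), u, ?_⟩
      linear_combination u * hr + hu

/-- `y ^ q` is not a `q`-th power of an element of `1 + J` -/
theorem not_pow34 {R : Type} [CommRing R] [IsDomain R] {q : ℕ} (hqu : IsUnit (q : R))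
    (m₁ m₂ : Ideal R) (hm₁ : m₁.IsMaximal) (hm₂ : m₂.IsMaximal) (y y' : R)
    (hy1 : y - 1 ∈ m₁) (hy2 : y - 1 ∉ m₂) (hy' : ∀ m : Ideal R, m.IsMaximal → y' - 1 ∈ m) :
    y' ^ q ≠ y ^ q := by
  intro h
  have hu : IsUnit y' := by
    have h1 := isUnit_one_sub34 (a := 1 - y') (fun m hm => by
      have := m.neg_mem (hy' m hm)
      rwa [neg_sub] at this)
    rwa [sub_sub_cancel] at h1
  obtain ⟨v, hv⟩ := hu.exists_right_inv
  have hw : (y * v) ^ q = 1 := by rw [mul_pow, ← h, ← mul_pow, hv, one_pow]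
  have h2 : (y * v - 1) * ∑ j ∈ range q, (y * v) ^ j = 0 := by
    rw [mul_geom_sum, hw, sub_self]
  rcases mul_eq_zero.1 h2 with h3 | h3
  · have h4 : y = y' := by linear_combination y' * h3 - y * hv
    rw [h4] at hy2
    exact hy2 (hy' m₂ hm₂)
  · have h4 := isUnit_one_sub7 hqu h3
    have h5 : 1 - y * v ∈ m₁ := by
      have h6 : 1 - y * v = v * (y' - 1) - v * (y - 1) := by linear_combination -hv
      rw [h6]
      exact m₁.sub_mem (m₁.mul_mem_left _ (hy' m₁ hm₁)) (m₁.mul_mem_left _ hy1)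
    exact hm₁.ne_top (m₁.eq_top_of_isUnit_mem h5 h4)

end Pool.Agent.AIC.M
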