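import Pool.Agent.AIC.M.DataQ76
import Pool.Agent.AIC.M.Y34
import Pool.Agent.AIC.M.CoreE46

/-! MP_313bb4, theorem M2 for the classes of `1 + I` modulo `(1 + J) ^ q`, `I` an ideal. -/

set_option autoImplicit false

namespace Pool.Agent.AIC.M

open Finset FirstOrder.Ring

/-- `1 + I` meets only finitely many classes modulo the `q`-th powers of the group `1 + J` -/
def FinI76 {R : Type} [CommRing R] (I : Ideal R) (q : ℕ) : Prop :=
  ∃ S : Finset R, ∀ u : R, u - 1 ∈ I →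
    ∃ s ∈ S, ∃ y : R, (∀ m : Ideal R, m.IsMaximal → y - 1 ∈ m) ∧ u = s * y ^ q

/-- the data of the core theorem for `(1 + J) ^ q` on an ideal `I` -/
theorem exists_dataI76 {R : Type} [CommRing R] [CompatibleRing R] (hN : NIPRing R) (q : ℕ)
    (I : Ideal R) (hI : ∀ x ∈ I, ∀ m : Ideal R, m.IsMaximal → x ∈ m) (hfin : FinI76 I q) :
    ∃ (Q : Type) (_ : CommGroup Q) (D : Data R Q q), D.J = I ∧
      ∀ u : R, (∀ m : Ideal R, m.IsMaximal → u - 1 ∈ m) →
        (D.χ u = 1 ↔ ∃ y : R, (∀ m : Ideal R, m.IsMaximal → y - 1 ∈ m) ∧ y ^ q = u) := by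
  have hIJ : ∀ j ∈ I, j ∈ Ideal.jacobson (⊥ : Ideal R) := fun j hj => by
    rw [← Jm_iff_jac76, Jm_iff]
    exact hI j hj
  refine ⟨Q76 R q, inferInstance,
    { J := I
      hJ := fun j hj => jac_unit76 (hIJ j hj)
      χ := chi76 R q
      hχ := chi76_mul q
      hfin := ?_
      hq := ?_
      rel := HJ76 q
      hrel := fun j hj => (chi76_eq_one q _ (jac_unit76 (hIJ j hj))).symm
      hnip := nip_HJ76 hN q }, rfl, fun u hu => ?_⟩
  · obtain ⟨T, hT⟩ := hfin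
    refine ((T.finite_toSet).image (chi76 R q)).subset ?_
    rintro _ ⟨u, hu, rfl⟩
    obtain ⟨g, hg, y, hy, huy⟩ := hT u hu
    have hy' : Jm (y - 1) := (Jm_iff _).2 hy
    have hu1 : IsUnit u := by
      have := jac_unit76 (hIJ _ hu)
      rwa [add_sub_cancel] at this
    have hg1 : IsUnit g := isUnit_of_mul_isUnit_left (huy ▸ hu1)
    refine ⟨g, hg, ?_⟩
    rw [huy, chi76_mul q _ _ hg1 ((jac_unit76' hy').pow q),
      (chi76_eq_one q _ ((jac_unit76' hy').pow q)).2 ⟨y, rfl, hy'⟩, mul_one]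
  · intro j hj
    have h1 : IsUnit (1 + j) := jac_unit76 (hIJ j hj)
    rw [← chi76_pow q _ h1, chi76_eq_one q _ (h1.pow q)]
    exact ⟨1 + j, rfl, by rw [Jm_iff_jac76, add_sub_cancel_left]; exact hIJ j hj⟩
  · change chi76 R q u = 1 ↔ _
    rw [chi76_eq_one q u (jac_unit76' ((Jm_iff _).2 hu)), hj_iff76]

/-- **theorem M2 on an ideal**: the ideal `I` does not separate the maximal ideals -/
theorem false_of_finI76 {R : Type} [CommRing R] [IsDomain R] [CompatibleRing R] (hN : NIPRing R)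
    {q : ℕ} (hq : q.Prime) (hqu : IsUnit (q : R)) (ζ : R) (hζ : ∑ j ∈ range q, ζ ^ j = 0)
    (I : Ideal R) (hI : ∀ x ∈ I, ∀ m : Ideal R, m.IsMaximal → x ∈ m) (hfin : FinI76 I q)
    (e : R) (he : e * (1 - e) ∈ I) (m₁ m₂ : Ideal R) (hm₁ : m₁.IsMaximal) (hm₂ : m₂.IsMaximal)
    (h1 : e ∈ m₁) (h2 : 1 - e ∈ m₂) : False := by
  obtain ⟨Q, hQ, D, hDJ, hDχ⟩ := exists_dataI76 hN q I hI hfin
  have heM : ∀ m : Ideal R, m.IsMaximal → e * (1 - e) ∈ m := hI _ he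
  have he0 : e * (1 - e) ≠ 0 := by
    intro h0
    rcases mul_eq_zero.1 h0 with h | h
    · rw [h, sub_zero] at h2
      exact hm₂.ne_top ((Ideal.eq_top_iff_one m₂).2 h2)
    · have h3 : e = 1 := (sub_eq_zero.1 h).symm
      rw [h3] at h1
      exact hm₁.ne_top ((Ideal.eq_top_iff_one m₁).2 h1)
  have hz1 : IsUnit (1 - ζ) := isUnit_one_sub7 hqu hζ
  refine coreE46 D hq.pos e heM he0 (by rw [hDJ]; exact he) fun N => ?_
  obtain ⟨y, hyu, h3, h4, h5⟩ := exists_y46 hq.pos hζ e heM (N + 1)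
  have h4' : (1 - e) ∣ y - ζ := (dvd_pow_self (1 - e) N.succ_ne_zero).trans h4
  have hne : ∀ m : Ideal R, m.IsMaximal → 1 - e ∈ m → y - 1 ∉ m := by
    intro m hm hem hym
    have h6 : y - ζ ∈ m := m.mem_of_dvd h4' hem
    have h7 : 1 - ζ ∈ m := by
      have := m.sub_mem h6 hym
      have h8 : y - ζ - (y - 1) = 1 - ζ := by ring
      rwa [h8] at this
    exact hm.ne_top (m.eq_top_of_isUnit_mem h7 hz1)
  refine ⟨y, hyu, hne, (pow_dvd_pow e N.le_succ).trans h3, (pow_dvd_pow _ N.le_succ).trans h5,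
    fun hχ => ?_⟩
  have h6 : ∀ m : Ideal R, m.IsMaximal → y ^ q - 1 ∈ m := fun m hm =>
    m.mem_of_dvd ((dvd_pow_self _ N.succ_ne_zero).trans h5) (heM m hm)
  obtain ⟨y', hy', hyq⟩ := (hDχ _ h6).1 hχ
  exact not_pow34 hqu m₁ m₂ hm₁ hm₂ y y'
    (m₁.mem_of_dvd ((dvd_pow_self e N.succ_ne_zero).trans h3) h1) (hne m₂ hm₂ h2) hy' hyq

end Pool.Agent.AIC.M
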