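import Pool.Agent.AIC.M.Y34
import Pool.Agent.AIC.M.DataQ76
import Pool.Agent.AIC.M.CoreE46

/-! MP_313bb4, theorem M2: an NIP domain in which `1 + J` has finitely many classes modulo its `q`-th
powers, and one residue field of which contains a root of unity of order `q`, is local. -/

set_option autoImplicit false

namespace Pool.Agent.AIC.M

open Finset FirstOrder.Ring

/-- **theorem M2**, local form -/
theorem isLocalRing_M34 {R : Type} [CommRing R] [IsDomain R] [CompatibleRing R]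
    [Finite (MaximalSpectrum R)] (hN : NIPRing R) {q : ℕ} (hq : q.Prime) (hqu : IsUnit (q : R))
    (hf : FinQ R q) (m₂ : Ideal R) (hm₂ : m₂.IsMaximal) (z : R)
    (hz : ∑ j ∈ range q, z ^ j ∈ m₂) : IsLocalRing R := by
  by_contra hnl
  have hex : ∃ m₁ : Ideal R, m₁.IsMaximal ∧ m₁ ≠ m₂ := by
    by_contra hno
    push Not at hno
    exact hnl (IsLocalRing.of_unique_max_ideal ⟨m₂, hm₂, fun m hm => hno m hm⟩)
  obtain ⟨m₁, hm₁, h12⟩ := hex
  obtain ⟨e, he, he1, he2, hy⟩ := exists_ey34 hq hqu m₁ m₂ hm₁ hm₂ h12 z hz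
  obtain ⟨Q, hQ, D, hDJ, hDχ⟩ := exists_dataQ76 hN q hf
  have he0 : e * (1 - e) ≠ 0 := by
    intro h0
    rcases mul_eq_zero.1 h0 with h | h
    · rw [h, sub_zero] at he2
      exact hm₂.ne_top ((Ideal.eq_top_iff_one m₂).2 he2)
    · have h3 : e = 1 := (sub_eq_zero.1 h).symm
      rw [h3] at he1
      exact hm₁.ne_top ((Ideal.eq_top_iff_one m₁).2 he1)
  refine coreE46 D hq.pos e he he0 ((hDJ _).2 he) fun N => ?_
  obtain ⟨y, hyu, h1, h2, h3, h4⟩ := hy (N + 1)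
  refine ⟨y, hyu, h1, (pow_dvd_pow e N.le_succ).trans h2, (pow_dvd_pow _ N.le_succ).trans h3,
    fun hχ => ?_⟩
  have h5 : ∀ m : Ideal R, m.IsMaximal → y ^ q - 1 ∈ m := fun m hm =>
    m.mem_of_dvd ((dvd_pow_self _ N.succ_ne_zero).trans h3) (he m hm)
  obtain ⟨y', hy', hyq⟩ := (hDχ _ h5).1 hχ
  exact not_pow34 hqu m₁ m₂ hm₁ hm₂ y y' (m₁.mem_of_dvd h4 he1) (h1 m₂ hm₂ he2) hy' hyq

end Pool.Agent.AIC.M
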