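import Pool.Agent.AIC.M.HP33

set_option autoImplicit false

/-! MP_313bb4, theorem M, row M7a: the two forms of the subgroup of `q`-th powers agree on the elements which
are `1` modulo all maximal ideals. -/

namespace Pool.Agent.AIC.M

open Finset Polynomial

/-- every element of `R[w]` with `w ^ q = u` is a combination of the first `q` powers -/
theorem mem_adjoin_pow30 {R K : Type} [CommRing R] [Nontrivial R] [Field K] [Algebra R K] (q : ℕ) (hq : 0 < q)
    (u : R) (w : K) (hw : w ^ q = algebraMap R K u) (x : K) (hx : x ∈ Algebra.adjoin R ({w} : Set K)) :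
    ∃ z : Fin q → R, x = ∑ i : Fin q, algebraMap R K (z i) * w ^ (i : ℕ) := by
  rw [Algebra.adjoin_singleton_eq_range_aeval] at hx
  obtain ⟨p, rfl⟩ := hx
  have hgm : (X ^ q - C u : R[X]).Monic := monic_X_pow_sub_C u hq.ne'
  have h0 : aeval w (X ^ q - C u : R[X]) = 0 := by simp [hw]
  have h1 : aeval w p = aeval w (p %ₘ (X ^ q - C u : R[X])) := by
    conv_lhs => rw [← modByMonic_add_div p (X ^ q - C u : R[X])]
    simp only [map_add, map_mul, h0, zero_mul, add_zero]
  have hd : (p %ₘ (X ^ q - C u : R[X])).natDegree < q := by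
    have hd0 : (X ^ q - C u : R[X]).natDegree = q := natDegree_X_pow_sub_C
    have hne : (X ^ q - C u : R[X]) ≠ 1 := by
      intro h
      rw [h, natDegree_one] at hd0
      omega
    have := natDegree_modByMonic_lt p hgm hne
    omega
  refine ⟨fun i => (p %ₘ (X ^ q - C u : R[X])).coeff i, ?_⟩
  change aeval w p = _
  rw [h1, aeval_eq_sum_range' hd, Finset.sum_range]
  refine Finset.sum_congr rfl fun i _ => ?_
  rw [Algebra.smul_def]

/-- the sum of the first `q` powers, cleared of denominators -/
theorem clear_sum30 {K : Type} [Field K] (q : ℕ) (w y d : K) (hw : w * d = y) (z : Fin q → K) :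
    ∑ i : Fin q, z i * (y ^ (i : ℕ) * d ^ (q - 1 - i)) = d ^ (q - 1) * ∑ i : Fin q, z i * w ^ (i : ℕ) := by
  rw [Finset.mul_sum]
  refine Finset.sum_congr rfl fun i _ => ?_
  have hi : (i : ℕ) + (q - 1 - i) = q - 1 := by have := i.2; omega
  rw [← hw, mul_pow, ← hi, pow_add]
  have : (i : ℕ) + (q - 1 - i) - i = q - 1 - i := by omega
  rw [this]
  ring

/-- the inverse of an element of a subalgebra, if integral, lies in the subalgebra -/
theorem inv_mem30 {R K : Type} [CommRing R] [Field K] [Algebra R K] (A : Subalgebra R K) (s t : K)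
    (hs : s ∈ A) (ht : IsIntegral R t) (hst : s * t = 1) : t ∈ A := by
  obtain ⟨p, hp, hpt⟩ := ht
  have hR : Nontrivial R := (algebraMap R K).domain_nontrivial
  have hsum : ∑ i ∈ range (p.natDegree + 1), algebraMap R K (p.coeff i) * t ^ i = 0 := by
    rw [← eval₂_eq_sum_range]
    exact hpt
  rw [Finset.sum_range_succ, hp.coeff_natDegree, map_one, one_mul] at hsum
  rcases Nat.eq_zero_or_pos p.natDegree with h0 | hpos
  · rw [h0] at hsum
    simp at hsum
  · have hts : ∀ i : ℕ, t ^ i * s ^ i = 1 := by
      intro i
      rw [← mul_pow, mul_comm t s, hst, one_pow]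
    have hn : p.natDegree = (p.natDegree - 1) + 1 := by omega
    have h1 : t ^ p.natDegree * s ^ (p.natDegree - 1) = t := by
      have := hts (p.natDegree - 1)
      calc t ^ p.natDegree * s ^ (p.natDegree - 1)
          = t ^ (p.natDegree - 1 + 1) * s ^ (p.natDegree - 1) := by rw [← hn]
        _ = t * (t ^ (p.natDegree - 1) * s ^ (p.natDegree - 1)) := by ring
        _ = t := by rw [this, mul_one]
    have h2 : t = - ∑ i ∈ range p.natDegree, algebraMap R K (p.coeff i) * s ^ (p.natDegree - 1 - i) := by
      have h3 : (∑ i ∈ range p.natDegree, algebraMap R K (p.coeff i) * t ^ i) * s ^ (p.natDegree - 1) =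
          ∑ i ∈ range p.natDegree, algebraMap R K (p.coeff i) * s ^ (p.natDegree - 1 - i) := by
        rw [Finset.sum_mul]
        refine Finset.sum_congr rfl fun i hi => ?_
        have hi' := Finset.mem_range.mp hi
        have h4 : p.natDegree - 1 = i + (p.natDegree - 1 - i) := by omega
        calc algebraMap R K (p.coeff i) * t ^ i * s ^ (p.natDegree - 1)
            = algebraMap R K (p.coeff i) * t ^ i * s ^ (i + (p.natDegree - 1 - i)) := by rw [← h4]
          _ = algebraMap R K (p.coeff i) * (t ^ i * s ^ i) * s ^ (p.natDegree - 1 - i) := by ring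
          _ = _ := by rw [hts, mul_one]
      have h5 := congrArg (fun x => x * s ^ (p.natDegree - 1)) hsum
      simp only [add_mul, zero_mul] at h5
      rw [h3, h1] at h5
      exact eq_neg_of_add_eq_zero_right h5
    rw [h2]
    refine A.neg_mem (A.sum_mem fun i _ => A.mul_mem (A.algebraMap_mem _) (A.pow_mem hs _))

/-- the sum of the powers is a unit -/
theorem isUnit_sum30 {C : Type} [CommRing C] (q : ℕ) (hqu : IsUnit (q : C)) (w : C)
    (hn : ∀ n : Ideal C, n.IsMaximal → w - 1 ∈ n) : IsUnit (∑ i : Fin q, w ^ (i : ℕ)) := by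
  by_contra hc
  obtain ⟨n, hnm, hsn⟩ := exists_max_ideal_of_mem_nonunits hc
  have hw1 := hn n hnm
  have hpow : ∀ i : ℕ, w ^ i - 1 ∈ n := by
    intro i
    have : w - 1 ∣ w ^ i - 1 := by simpa using sub_dvd_pow_sub_pow w 1 i
    exact Ideal.mem_of_dvd n this hw1
  have hsq : (∑ i : Fin q, w ^ (i : ℕ)) - (q : C) ∈ n := by
    have : (∑ i : Fin q, w ^ (i : ℕ)) - (q : C) = ∑ i : Fin q, (w ^ (i : ℕ) - 1) := by
      rw [Finset.sum_sub_distrib]
      simp
    rw [this]
    exact Ideal.sum_mem _ fun i _ => hpow i
  have hqn : (q : C) ∈ n := by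
    have := n.sub_mem hsn hsq
    simpa using this
  exact hnm.ne_top (Ideal.eq_top_of_isUnit_mem n hqn hqu)

/-- M7a -/
theorem hp_iff_hf {R K : Type} [CommRing R] [IsDomain R] [Field K] [Algebra R K] [IsFractionRing R K]
    (q : ℕ) (hq : q.Prime) (hqu : IsUnit (q : R)) (u : R) (hu : ∀ m : Ideal R, m.IsMaximal → u - 1 ∈ m) :
    HP R K q u ↔ HF q u := by
  have hinj : Function.Injective (algebraMap R K) := IsFractionRing.injective R K
  constructor
  · rintro ⟨w, hw, hn⟩
    have hwK : (w : K) ^ q = algebraMap R K u := by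
      have := congrArg (algebraMap (integralClosure R K) K) hw
      rw [map_pow, ← IsScalarTower.algebraMap_apply] at this
      exact this
    have hqC : IsUnit (q : integralClosure R K) := by
      have := hqu.map (algebraMap R (integralClosure R K))
      rwa [map_natCast] at this
    have hsu := isUnit_sum30 q hqC w hn
    obtain ⟨t, ht⟩ := hsu.exists_right_inv
    set sK : K := ∑ i : Fin q, (w : K) ^ (i : ℕ) with hsK
    have htK : sK * (t : K) = 1 := by
      have := congrArg (algebraMap (integralClosure R K) K) ht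
      rw [map_mul, map_one, map_sum] at this
      simp only [map_pow] at this
      exact this
    -- the inverse of `s` lies in `R[w]`
    have hsA : sK ∈ Algebra.adjoin R ({(w : K)} : Set K) := by
      rw [hsK]
      exact Subalgebra.sum_mem _ fun i _ => Subalgebra.pow_mem _ (Algebra.self_mem_adjoin_singleton R (w : K)) _
    have htA : (t : K) ∈ Algebra.adjoin R ({(w : K)} : Set K) := by
      exact inv_mem30 _ _ _ hsA t.2 htK
    obtain ⟨z, hz⟩ := mem_adjoin_pow30 q hq.pos u (w : K) hwK (t : K) htA
    obtain ⟨y, d, hd, hyd⟩ := IsFractionRing.div_surjective (A := R) (w : K)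
    have hd0 : d ≠ 0 := nonZeroDivisors.ne_zero hd
    have hdK : algebraMap R K d ≠ 0 := fun h => hd0 (hinj (by rw [h, map_zero]))
    have hwd : (w : K) * algebraMap R K d = algebraMap R K y := by
      rw [← hyd]
      field_simp
    refine ⟨y, d, z, hd0, ?_, ?_⟩
    · apply hinj
      rw [map_pow, map_mul, map_pow, ← hwd, mul_pow, hwK]
      ring
    · apply hinj
      have e1 := clear_sum30 q (w : K) (algebraMap R K y) (algebraMap R K d) hwd (fun _ => 1)
      have e2 := clear_sum30 q (w : K) (algebraMap R K y) (algebraMap R K d) hwd (fun i => algebraMap R K (z i))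
      simp only [one_mul] at e1
      rw [map_mul, map_sum, map_sum]
      simp only [map_mul, map_pow]
      rw [e1, e2, ← hz]
      rw [← hsK]
      calc _ = (algebraMap R K d) ^ (q - 1) * (algebraMap R K d) ^ (q - 1) * (sK * (t : K)) := by ring
        _ = _ := by rw [htK, mul_one, ← pow_add, two_mul]
  · rintro ⟨y, d, z, hd0, hy, hprod⟩
    have hdK : algebraMap R K d ≠ 0 := fun h => hd0 (hinj (by rw [h, map_zero]))
    set w : K := algebraMap R K y / algebraMap R K d with hwdef
    have hwd : w * algebraMap R K d = algebraMap R K y := by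
      rw [hwdef]
      field_simp
    have hwK : w ^ q = algebraMap R K u := by
      have h := congrArg (algebraMap R K) hy
      rw [map_pow, map_mul, map_pow, ← hwd, mul_pow, mul_comm] at h
      exact mul_left_cancel₀ (pow_ne_zero q hdK) h
    have hwi : IsIntegral R w := by
      refine ⟨X ^ q - C u, monic_X_pow_sub_C u hq.pos.ne', ?_⟩
      simp [hwK]
    have e1 := clear_sum30 q w (algebraMap R K y) (algebraMap R K d) hwd (fun _ => 1)
    have e2 := clear_sum30 q w (algebraMap R K y) (algebraMap R K d) hwd (fun i => algebraMap R K (z i))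
    simp only [one_mul] at e1
    have hst : (∑ i : Fin q, w ^ (i : ℕ)) * (∑ i : Fin q, algebraMap R K (z i) * w ^ (i : ℕ)) = 1 := by
      have h := congrArg (algebraMap R K) hprod
      rw [map_mul, map_sum, map_sum] at h
      simp only [map_mul, map_pow] at h
      rw [e1, e2] at h
      have h2 : (algebraMap R K d) ^ (2 * (q - 1)) ≠ 0 := pow_ne_zero _ hdK
      apply mul_left_cancel₀ h2
      rw [mul_one]
      refine Eq.trans ?_ h
      rw [two_mul, pow_add]
      ring
    let W : integralClosure R K := ⟨w, hwi⟩
    refine ⟨W, ?_, ?_⟩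
    · apply Subtype.ext
      exact hwK
    · intro n hn
      have hm : (n.comap (algebraMap R (integralClosure R K))).IsMaximal :=
        Ideal.isMaximal_comap_of_isIntegral_of_isMaximal n
      have hun : algebraMap R (integralClosure R K) u - 1 ∈ n := by
        have := hu _ hm
        rw [Ideal.mem_comap, map_sub, map_one] at this
        exact this
      have hfac : (∑ i ∈ range q, W ^ i) * (W - 1) = algebraMap R (integralClosure R K) u - 1 := by
        rw [geom_sum_mul]
        congr 1
        apply Subtype.ext
        exact hwK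
      have hunit : (∑ i ∈ range q, W ^ i) * (∑ i : Fin q, algebraMap R (integralClosure R K) (z i) * W ^ (i : ℕ)) = 1 := by
        apply Subtype.ext
        rw [Finset.sum_range]
        push_cast
        exact hst
      rcases hn.isPrime.mem_or_mem (hfac ▸ hun : (∑ i ∈ range q, W ^ i) * (W - 1) ∈ n) with h | h
      · exact absurd (Ideal.eq_top_of_isUnit_mem n h (IsUnit.of_mul_eq_one _ hunit)) hn.ne_top
      · exact h

end Pool.Agent.AIC.M
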