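import Pool.Agent.AIC.M.JQ76
import Pool.Agent.AIC.M.CoreE46
import Pool.Agent.AIC.M.Local7

/-! MP_313bb4, theorem O: the core for the units of `1 + I`, `I` an ideal contained in the Jacobson
radical, which contains `e * (1 - e)`. -/

set_option autoImplicit false

namespace Pool.Agent.AIC.M

open Finset FirstOrder.Ring

/-- the data of the core theorem for `(1 + Jac) ^ q` and the units of `1 + I` -/
theorem exists_data2 {R : Type} [CommRing R] (q : ℕ) (I : Ideal R)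
    (hI : ∀ x ∈ I, ∀ m : Ideal R, m.IsMaximal → x ∈ m)
    (hfin : ∃ S : Finset R, ∀ u : R, u - 1 ∈ I → ∃ s ∈ S, ∃ y : R,
      (∀ m : Ideal R, m.IsMaximal → y - 1 ∈ m) ∧ u = s * y ^ q)
    (hnip : ∃ d : ℕ, ¬ ∃ (t : Fin d → R) (p : Finset (Fin d) → R × R),
      ∀ i L, (HJ76 q ((p L).1 + (p L).2 * t i) ↔ i ∈ L)) :
    ∃ (Q : Type) (_ : CommGroup Q) (D : Data R Q q), D.J = I ∧
      ∀ u : R, IsUnit u → (D.χ u = 1 ↔ HJ76 q u) := by
  have hJ : ∀ j ∈ I, IsUnit (1 + j) := fun j hj =>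
    jac_unit76 ((Jm_iff_jac76 _).1 ((Jm_iff _).2 (hI j hj)))
  refine ⟨Q76 R q, inferInstance,
    { J := I
      hJ := hJ
      χ := chi76 R q
      hχ := chi76_mul q
      hfin := ?_
      hq := ?_
      rel := HJ76 q
      hrel := fun j hj => (chi76_eq_one q _ (hJ j hj)).symm
      hnip := hnip }, rfl, fun u hu => chi76_eq_one q u hu⟩
  · obtain ⟨T, hT⟩ := hfin
    refine ((T.finite_toSet).image (chi76 R q)).subset ?_
    rintro _ ⟨u, hu, rfl⟩
    obtain ⟨g, hg, y, hy, huy⟩ := hT u hu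
    have hy' : Jm (y - 1) := (Jm_iff _).2 hy
    have hu1 : IsUnit u := by
      have := hJ _ hu
      rwa [add_sub_cancel] at this
    have hg1 : IsUnit g := isUnit_of_mul_isUnit_left (huy ▸ hu1)
    refine ⟨g, hg, ?_⟩
    rw [huy, chi76_mul q _ _ hg1 ((jac_unit76' hy').pow q),
      (chi76_eq_one q _ ((jac_unit76' hy').pow q)).2 ⟨y, rfl, hy'⟩, mul_one]
  · intro j hj
    have h1 : IsUnit (1 + j) := hJ j hj
    rw [← chi76_pow q _ h1, chi76_eq_one q _ (h1.pow q)]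
    exact ⟨1 + j, rfl, by rw [Jm_iff, add_sub_cancel_left]; exact hI j hj⟩

/-- **O1**: an NIP domain with `ζ` in which the group `1 + I` has finitely many classes modulo the
`q`-th powers of elements of `1 + Jac`, `I` in the Jacobson radical, has no `e` with `e * (1 - e)` in
`I`, `e` in one maximal ideal and `1 - e` in another one. -/
theorem false_open2 {A : Type} [CommRing A] [IsDomain A] [CompatibleRing A] (hN : NIPRing A)
    {q : ℕ} (hq : q.Prime) (hqu : IsUnit (q : A)) (z : A) (hz : ∑ j ∈ range q, z ^ j = 0)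
    (I : Ideal A) (hI : ∀ x ∈ I, ∀ m : Ideal A, m.IsMaximal → x ∈ m)
    (hfin : ∃ S : Finset A, ∀ u : A, u - 1 ∈ I → ∃ s ∈ S, ∃ y : A,
      (∀ m : Ideal A, m.IsMaximal → y - 1 ∈ m) ∧ u = s * y ^ q)
    (e : A) (heI : e * (1 - e) ∈ I) (m₁ m₂ : Ideal A) (hm₁ : m₁.IsMaximal) (hm₂ : m₂.IsMaximal)
    (he₁ : e ∈ m₁) (he₂ : 1 - e ∈ m₂) : False := by
  obtain ⟨Q, _, D, hDJ, hDχ⟩ := exists_data2 q I hI hfin (nip_HJ76 hN q)
  have he0 : e * (1 - e) ≠ 0 := by
    intro h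
    rcases mul_eq_zero.1 h with h | h
    · rw [h, sub_zero] at he₂
      exact hm₂.ne_top (m₂.eq_top_of_isUnit_mem he₂ isUnit_one)
    · have h1 : e = 1 := (sub_eq_zero.1 h).symm
      rw [h1] at he₁
      exact hm₁.ne_top (m₁.eq_top_of_isUnit_mem he₁ isUnit_one)
  have he := hI _ heI
  have hz1 : IsUnit (1 - z) := isUnit_one_sub7 hqu hz
  refine coreE46 D hq.pos e he he0 (by rw [hDJ]; exact heI) fun N => ?_
  obtain ⟨y, hyu, h1, h2, h3⟩ := exists_y46 hq.pos hz e he (N + 1)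
  have h1' : e ∣ y - 1 := (dvd_pow_self e N.succ_ne_zero).trans h1
  have h2' : (1 - e) ∣ y - z := (dvd_pow_self (1 - e) N.succ_ne_zero).trans h2
  have h4 : ∀ m : Ideal A, m.IsMaximal → 1 - e ∈ m → y - 1 ∉ m := by
    intro m hm hem hym
    have h5 : 1 - z ∈ m := by
      have h6 := m.sub_mem (m.mem_of_dvd h2' hem) hym
      have h7 : y - z - (y - 1) = 1 - z := by ring
      rwa [h7] at h6
    exact hm.ne_top (m.eq_top_of_isUnit_mem h5 hz1)
  refine ⟨y, hyu, h4, (pow_dvd_pow e N.le_succ).trans h1, (pow_dvd_pow _ N.le_succ).trans h3,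
    fun hχ => ?_⟩
  exact not_hj76 q hqu m₁ m₂ hm₁ hm₂ y (m₁.mem_of_dvd h1' he₁) (h4 m₂ hm₂ he₂)
    ((hDχ _ (hyu.pow q)).1 hχ)

end Pool.Agent.AIC.M
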