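import Pool.Agent.AIC.M.FinQStrong2
import Pool.Agent.AIC.M.LocalM34
import Pool.Agent.AIC.Star34
import Pool.Agent.AIC.Alg83

/-! MP_313bb4, theorem S: strongly dependent domains with roots of unity in the residue fields are
henselian local rings. -/

set_option autoImplicit false

namespace Pool.Agent.AIC.M

open Finset IsLocalRing FirstOrder FirstOrder.Language FirstOrder.Ring

/-- an NIP ring has finitely many maximal ideals -/
theorem finMax76 {R : Type} [CommRing R] [CompatibleRing R] (hN : NIPRing R) :
    Finite (MaximalSpectrum R) := by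
  refine finite_maximal ?_
  obtain ⟨n, hn⟩ := hN 1 1 (BoundedFormula.ex
    (((Term.var (Sum.inl (Sum.inl 0)) : Language.ring.Term ((Fin 1 ⊕ Fin 1) ⊕ Fin 1)) *
      Term.var (Sum.inr 0)).bdEqual (Term.var (Sum.inl (Sum.inr 0)))))
  refine ⟨n, fun h => hn ?_⟩
  obtain ⟨u, b, hub⟩ := h
  refine ⟨fun i _ => u i, fun J _ => b J, fun i J => ?_⟩
  rw [← hub i J, Formula.Realize, BoundedFormula.realize_ex, dvd_def]
  refine exists_congr fun c => ?_
  rw [BoundedFormula.realize_bdEqual]
  simp [Fin.snoc, eq_comm]

/-- a domain is a henselian local ring if the finite extensions inside an algebraically closed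
field are local -/
theorem hens_of_finite_local76 {R W : Type} [CommRing R] [IsDomain R] [Field W] [IsAlgClosed W]
    [Algebra R W] [FaithfulSMul R W]
    (h : ∀ T : Subalgebra R W, Module.Finite R T → IsLocalRing T) : HenselianLocalRing R := by
  have hinj : Function.Injective (algebraMap R W) := FaithfulSMul.algebraMap_injective R W
  have hfb : Module.Finite R (⊥ : Subalgebra R W) := Subalgebra.finite_bot
  have hb : IsLocalRing (⊥ : Subalgebra R W) := h ⊥ hfb
  have hR : IsLocalRing R :=
    RingEquiv.isLocalRing (Algebra.botEquivOfInjective hinj).toRingEquiv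
  have hloc : IsLocalRing (integralClosure R W) := by
    obtain ⟨N, hN⟩ := Ideal.exists_maximal (integralClosure R W)
    refine IsLocalRing.of_unique_max_ideal ⟨N, hN, fun N' hN' => ?_⟩
    by_contra hne
    have hnle : ¬ N' ≤ N := fun hle => hne (hN'.eq_of_le hN.ne_top hle)
    obtain ⟨z, hz', hz⟩ := Set.not_subset.1 hnle
    let T : Subalgebra R W := Algebra.adjoin R {(z : W)}
    have hTf : Module.Finite R T := Algebra.finite_adjoin_simple_of_isIntegral z.2
    have hTl : IsLocalRing T := h T hTf
    have hle : T ≤ integralClosure R W := by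
      refine Algebra.adjoin_le ?_
      rintro _ rfl
      exact z.2
    let φ : T →+* integralClosure R W := (Subalgebra.inclusion hle).toRingHom
    have hφint : φ.IsIntegral := by
      intro x
      have h1 : IsIntegral R x := Algebra.IsIntegral.isIntegral x
      have h2 : IsIntegral R (x : W) := x.2
      obtain ⟨p, hp, hpx⟩ := h2
      refine ⟨p.map (algebraMap R T), hp.map _, ?_⟩
      apply Subtype.val_injective
      rw [Polynomial.eval₂_map]
      have := Polynomial.hom_eval₂ p (φ.comp (algebraMap R T)) (integralClosure R W).val.toRingHom x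
      refine this.trans ?_
      exact hpx
    have hmax : (N.comap φ).IsMaximal :=
      Ideal.isMaximal_comap_of_isIntegral_of_isMaximal' φ hφint N
    have hmax' : (N'.comap φ).IsMaximal :=
      Ideal.isMaximal_comap_of_isIntegral_of_isMaximal' φ hφint N'
    have he : N.comap φ = N'.comap φ :=
      (IsLocalRing.eq_maximalIdeal hmax).trans (IsLocalRing.eq_maximalIdeal hmax').symm
    have hzT : (z : W) ∈ T := Algebra.self_mem_adjoin_singleton R (z : W)
    have h1 : (⟨z, hzT⟩ : T) ∈ N'.comap φ := hz'
    rw [← he] at h1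
    exact hz h1
  exact henselian_of_unibranch34 hloc

/-- only finitely many primes are not invertible if there are finitely many maximal ideals -/
theorem finite_not_unit76 {R : Type} [CommRing R] (h : Finite (MaximalSpectrum R)) :
    {q : ℕ | q.Prime ∧ ¬ IsUnit (q : R)}.Finite := by
  classical
  by_contra hinf
  have hinf' : {q : ℕ | q.Prime ∧ ¬ IsUnit (q : R)}.Infinite := hinf
  have h1 : ∀ q : {q : ℕ | q.Prime ∧ ¬ IsUnit (q : R)}, ∃ m : MaximalSpectrum R,
      ((q : ℕ) : R) ∈ m.asIdeal := by
    rintro ⟨q, hq, hqu⟩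
    obtain ⟨m, hm, hmem⟩ := exists_max_ideal_of_mem_nonunits hqu
    exact ⟨⟨m, hm⟩, hmem⟩
  choose f hf using h1
  have hfi : Function.Injective f := by
    rintro ⟨q, hq, hqu⟩ ⟨q', hq', hqu'⟩ hff
    by_contra hne
    have hne' : q ≠ q' := fun h => hne (Subtype.ext h)
    have h2 := hf ⟨q, hq, hqu⟩
    have h3 := hf ⟨q', hq', hqu'⟩
    rw [← hff] at h3
    have hcop : IsCoprime (q : ℤ) (q' : ℤ) :=
      Nat.isCoprime_iff_coprime.2 ((Nat.coprime_primes hq hq').2 hne')
    obtain ⟨a, b, hab⟩ := hcop
    have h4 : ((a : R)) * (q : R) + (b : R) * (q' : R) = 1 := by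
      have := congrArg (fun n : ℤ => (n : R)) hab
      push_cast at this
      exact this
    have h5 : (1 : R) ∈ (f ⟨q, hq, hqu⟩).asIdeal := by
      rw [← h4]
      exact Ideal.add_mem _ (Ideal.mul_mem_left _ _ h2) (Ideal.mul_mem_left _ _ h3)
    exact (f ⟨q, hq, hqu⟩).isMaximal.ne_top (Ideal.eq_top_of_isUnit_mem _ h5 isUnit_one)
  have := hinf'.to_subtype
  exact not_finite_iff_infinite.2 (Infinite.of_injective f hfi) h

/-- an element of order `q` in a residue field gives a root of the cyclotomic sum -/
theorem geom_mem76 {R : Type} [CommRing R] (m : Ideal R) (hm : m.IsPrime) (q : ℕ) (x : R)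
    (h1 : x ^ q - 1 ∈ m) (h2 : x - 1 ∉ m) : ∑ j ∈ range q, x ^ j ∈ m := by
  rw [← mul_geom_sum] at h1
  exact (hm.mem_or_mem h1).resolve_left h2

/-- **theorem S**, local form over a finite extension -/
theorem isLocalRing_S76 {R K W : Type} [CommRing R] [IsDomain R] [Field K] [Algebra R K]
    [IsFractionRing R K] [Field W] [Algebra K W] [Algebra R W] [IsScalarTower R K W]
    [CompatibleRing R] (hN : NIPRing R) (hS : StrongRing R)
    (hinf : {q : ℕ | q.Prime ∧ ∃ m : Ideal R, m.IsMaximal ∧
      ∃ x : R, x ^ q - 1 ∈ m ∧ x - 1 ∉ m}.Infinite)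
    (T : Subalgebra R W) [Module.Finite R T] : IsLocalRing T := by
  let _ : CompatibleRing T := compatibleRingOfRing T
  have hNT : NIPRing T := nip_subalgebra_plus (K := K) T hN
  have hmax : Finite (MaximalSpectrum T) := finMax76 hNT
  have h1 := finite_not_unit76 hmax
  have h2 := finite_not_finQ_sub2 (K := K) T hS
  obtain ⟨q, ⟨hq, m, hm, x, hx1, hx2⟩, hqn⟩ := (hinf.sdiff (h1.union h2)).nonempty
  have hqu : IsUnit (q : T) := by
    by_contra h
    exact hqn (Or.inl ⟨hq, h⟩)
  have hqf : FinQ T q := by
    by_contra h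
    exact hqn (Or.inr ⟨hq, h⟩)
  have hint : Algebra.IsIntegral R T := Algebra.IsIntegral.of_finite R T
  have hinj : Function.Injective (algebraMap R T) := by
    intro a b hab
    have h3 : algebraMap R W a = algebraMap R W b := congrArg Subtype.val hab
    rw [IsScalarTower.algebraMap_apply R K W, IsScalarTower.algebraMap_apply R K W] at h3
    exact IsFractionRing.injective R K ((algebraMap K W).injective h3)
  obtain ⟨n, hn, hnm⟩ := Ideal.exists_ideal_over_maximal_of_isIntegral (S := T) m (by
    rw [(RingHom.injective_iff_ker_eq_bot _).1 hinj]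
    exact bot_le)
  have hmem : ∀ a : R, algebraMap R T a ∈ n ↔ a ∈ m := by
    intro a
    rw [← hnm, Ideal.mem_comap]
  refine isLocalRing_M34 hNT hq hqu hqf n hn (algebraMap R T x)
    (geom_mem76 n hn.isPrime q _ ?_ ?_)
  · rw [← map_pow, ← map_one (algebraMap R T), ← map_sub, hmem]
    exact hx1
  · rw [← map_one (algebraMap R T), ← map_sub, hmem]
    exact hx2

/-- **theorem S**: an NIP domain with strong theory which has roots of unity of infinitely many
prime orders in its residue fields is a henselian local ring -/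
theorem theoremS76 {R : Type} [CommRing R] [IsDomain R] [CompatibleRing R] (hN : NIPRing R)
    (hS : StrongRing R)
    (hinf : {q : ℕ | q.Prime ∧ ∃ m : Ideal R, m.IsMaximal ∧
      ∃ x : R, x ^ q - 1 ∈ m ∧ x - 1 ∉ m}.Infinite) : HenselianLocalRing R := by
  have hinjW : Function.Injective (algebraMap R (AlgebraicClosure (FractionRing R))) := by
    rw [IsScalarTower.algebraMap_eq R (FractionRing R) (AlgebraicClosure (FractionRing R))]
    exact (algebraMap (FractionRing R) _).injective.comp (IsFractionRing.injective R _)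
  have hfs : FaithfulSMul R (AlgebraicClosure (FractionRing R)) :=
    (faithfulSMul_iff_algebraMap_injective _ _).mpr hinjW
  exact hens_of_finite_local76 (W := AlgebraicClosure (FractionRing R)) fun T hT =>
    isLocalRing_S76 (K := FractionRing R) hN hS hinf T

end Pool.Agent.AIC.M
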