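import Pool.Agent.AIC.M.Split76
import Pool.Agent.AIC.M.LocalI76
import Pool.Agent.AIC.M.FinDom76
import Pool.Agent.AIC.M.TheoremS76
import Pool.Agent.AIC.Quot83

/-! MP_313bb4, theorem M2, open form: an NIP domain in which, at every nonmaximal prime, the `q`-th
powers are open up to finite index, is a henselian local ring. -/

set_option autoImplicit false

namespace Pool.Agent.AIC.M

open Finset FirstOrder FirstOrder.Language FirstOrder.Ring

/-- the hypothesis of the open form for the finite extensions of a domain -/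
def OpenPow76 (S : Type) [CommRing S] : Prop :=
  ∀ (A : Type) [CommRing A] [IsDomain A] [Algebra S A] [FaithfulSMul S A] [Module.Finite S A],
    ¬ IsLocalRing A →
    ∃ (B : Type) (_ : CommRing B) (_ : IsDomain B) (_ : Algebra A B) (_ : FaithfulSMul A B)
      (_ : Module.Finite A B) (q : ℕ) (z : B) (I : Ideal B), q.Prime ∧ IsUnit (q : B) ∧
      ∑ j ∈ range q, z ^ j = 0 ∧ I ≠ ⊥ ∧ FinI76 I q

/-- an ideal in an integral extension contains an element of a given ideal below -/
theorem comap_inf_ne_bot76 {A B : Type} [CommRing A] [IsDomain A] [CommRing B] [IsDomain B]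
    [Algebra A B] [FaithfulSMul A B] [Module.Finite A B] (I : Ideal B) (hI : I ≠ ⊥) :
    I.comap (algebraMap A B) ≠ ⊥ := by
  obtain ⟨x, hx, hx0⟩ := Submodule.exists_mem_ne_zero_of_ne_bot hI
  have hint : IsIntegral A x := Algebra.IsIntegral.isIntegral x
  obtain ⟨a, ha, c, hc⟩ := hint.isAlgebraic.exists_nonzero_dvd (mem_nonZeroDivisors_of_ne_zero hx0)
  intro hbot
  have h1 : a ∈ I.comap (algebraMap A B) := by
    rw [Ideal.mem_comap, hc]
    exact I.mul_mem_right _ hx
  rw [hbot] at h1
  exact ha h1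

/-- **the local step**: an NIP domain, not local, whose nonzero primes lie in only one maximal
ideal -/
theorem false_of_openPow76 {A : Type} [CommRing A] [IsDomain A] [CompatibleRing A]
    (hN : NIPRing A) (hnl : ¬ IsLocalRing A)
    (huniq : ∀ Q : Ideal A, Q.IsPrime → Q ≠ ⊥ → ∀ m m' : Ideal A, m.IsMaximal → m'.IsMaximal →
      Q ≤ m → Q ≤ m' → m = m')
    (B : Type) [CommRing B] [IsDomain B] [Algebra A B] [FaithfulSMul A B] [Module.Finite A B]
    (q : ℕ) (z : B) (I : Ideal B) (hq : q.Prime) (hqu : IsUnit (q : B))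
    (hz : ∑ j ∈ range q, z ^ j = 0) (hI0 : I ≠ ⊥) (hI : FinI76 I q) : False := by
  let _ : CompatibleRing B := compatibleRingOfRing B
  have hNB : NIPRing B := nip_finite_domain76 hN
  have hfin : Finite (MaximalSpectrum A) := finMax76 hN
  have := Fintype.ofFinite (MaximalSpectrum A)
  have hint : Algebra.IsIntegral A B := Algebra.IsIntegral.of_finite A B
  -- two maximal ideals
  obtain ⟨m₁, hm₁⟩ := Ideal.exists_maximal A
  have hex : ∃ m₂ : Ideal A, m₂.IsMaximal ∧ m₂ ≠ m₁ := by
    by_contra hno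
    push Not at hno
    exact hnl (IsLocalRing.of_unique_max_ideal ⟨m₁, hm₁, fun m hm => hno m hm⟩)
  obtain ⟨m₂, hm₂, h21⟩ := hex
  have hnb : ∀ m : Ideal A, m.IsMaximal → m ≠ ⊥ := by
    rintro m hm rfl
    have h1 := hm.eq_of_le hm₁.ne_top bot_le
    have h2 := hm.eq_of_le hm₂.ne_top bot_le
    exact h21 (h2.symm.trans h1)
  -- the product of the maximal ideals
  let J : Ideal A := ∏ m : MaximalSpectrum A, m.asIdeal
  have hJ0 : J ≠ ⊥ := by
    rw [← Ideal.zero_eq_bot]
    exact Finset.prod_ne_zero_iff.2 fun m _ => hnb m.asIdeal m.isMaximal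
  have hJle : ∀ m : Ideal A, m.IsMaximal → J ≤ m := fun m hm =>
    le_trans Ideal.prod_le_inf (Finset.inf_le (f := fun m : MaximalSpectrum A => m.asIdeal)
      (Finset.mem_univ (⟨m, hm⟩ : MaximalSpectrum A)))
  let I₀ : Ideal A := I.comap (algebraMap A B) * J
  have hI₀0 : I₀ ≠ ⊥ := by
    rw [← Ideal.zero_eq_bot]
    exact mul_ne_zero (comap_inf_ne_bot76 I hI0) hJ0
  have hI₀J : ∀ m : Ideal A, m.IsMaximal → I₀ ≤ m := fun m hm =>
    le_trans Ideal.mul_le_right (hJle m hm)
  have hI₀I : I₀ ≤ I.comap (algebraMap A B) := Ideal.mul_le_left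
  obtain ⟨e, he, he1, he2⟩ := exists_split76 hfin I₀ (fun Q hQ hIQ => huniq Q hQ (by
    rintro rfl
    exact hI₀0 (le_bot_iff.1 hIQ))) m₁ hm₁ (hI₀J m₁ hm₁) hI₀J
  -- the maximal ideals of `B`
  have hinj : Function.Injective (algebraMap A B) := FaithfulSMul.algebraMap_injective A B
  have hover : ∀ m : Ideal A, m.IsMaximal → ∃ n : Ideal B, n.IsMaximal ∧
      n.comap (algebraMap A B) = m := by
    intro m hm
    exact Ideal.exists_ideal_over_maximal_of_isIntegral (S := B) m (by
      rw [(RingHom.injective_iff_ker_eq_bot _).1 hinj]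
      exact bot_le)
  obtain ⟨n₁, hn₁, hn₁m⟩ := hover m₁ hm₁
  obtain ⟨n₂, hn₂, hn₂m⟩ := hover m₂ hm₂
  have hcontr : ∀ n : Ideal B, n.IsMaximal → (n.comap (algebraMap A B)).IsMaximal := fun n hn =>
    Ideal.isMaximal_comap_of_isIntegral_of_isMaximal (R := A) n
  -- the ideal of `B`
  let I' : Ideal B := I ⊓ (Ideal.jacobson ⊥)
  have hI' : FinI76 I' q := by
    obtain ⟨S, hS⟩ := hI
    exact ⟨S, fun u hu => hS u hu.1⟩
  have hmemJ : ∀ x : B, x ∈ Ideal.jacobson (⊥ : Ideal B) ↔ ∀ m : Ideal B, m.IsMaximal → x ∈ m :=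
    fun x => by rw [← Jm_iff_jac76, Jm_iff]
  have heB : algebraMap A B e * (1 - algebraMap A B e) = algebraMap A B (e * (1 - e)) := by
    rw [map_mul, map_sub, map_one]
  refine false_of_finI76 hNB hq hqu z hz I' (fun x hx => (hmemJ x).1 hx.2) hI'
    (algebraMap A B e) ⟨?_, ?_⟩ n₁ n₂ hn₁ hn₂ ?_ ?_
  · rw [heB]
    exact hI₀I he
  · rw [heB]
    refine (hmemJ _).2 fun n hn => ?_
    have h1 : e * (1 - e) ∈ n.comap (algebraMap A B) := hI₀J _ (hcontr n hn) he
    exact h1
  · have h1 : e ∈ n₁.comap (algebraMap A B) := by rw [hn₁m]; exact he1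
    exact h1
  · have h1 : 1 - e ∈ n₂.comap (algebraMap A B) := by rw [hn₂m]; exact he2 m₂ hm₂ h21
    rw [Ideal.mem_comap, map_sub, map_one] at h1
    exact h1

/-- **theorem M2, open form** -/
theorem theoremMO76 {R : Type} [CommRing R] [IsDomain R] [CompatibleRing R] (hN : NIPRing R)
    (h : ∀ (p : Ideal R) [p.IsPrime], ¬ p.IsMaximal → OpenPow76 (R ⧸ p)) :
    HenselianLocalRing R := by
  have hinjW : Function.Injective (algebraMap R (AlgebraicClosure (FractionRing R))) := by
    rw [IsScalarTower.algebraMap_eq R (FractionRing R) (AlgebraicClosure (FractionRing R))]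
    exact (algebraMap (FractionRing R) _).injective.comp (IsFractionRing.injective R _)
  have hfs : FaithfulSMul R (AlgebraicClosure (FractionRing R)) :=
    (faithfulSMul_iff_algebraMap_injective _ _).mpr hinjW
  refine hens_of_finite_local76 (W := AlgebraicClosure (FractionRing R)) fun T hT => ?_
  by_contra hnl
  let _ : CompatibleRing T := compatibleRingOfRing T
  have hNT : NIPRing T := nip_subalgebra_plus (K := FractionRing R) T hN
  obtain ⟨P, hP, ⟨m, m', hm, hm', hne, hPm, hPm'⟩, hPmax⟩ := exists_max_prime76 (finMax76 hNT) hnl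
  have hint : Algebra.IsIntegral R T := Algebra.IsIntegral.of_finite R T
  have hPnm : ¬ P.IsMaximal := by
    intro hPM
    exact hne ((hPM.eq_of_le hm.ne_top hPm).symm.trans (hPM.eq_of_le hm'.ne_top hPm'))
  have hpp : (P.comap (algebraMap R T)).IsPrime := Ideal.comap_isPrime _ P
  have hpnm : ¬ (P.comap (algebraMap R T)).IsMaximal := fun hpm =>
    hPnm (Ideal.isMaximal_of_isIntegral_of_isMaximal_comap P hpm)
  let _ : CompatibleRing (T ⧸ P) := compatibleRingOfRing _
  have hNA : NIPRing (T ⧸ P) := nip_quotient hNT P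
  have hdom : IsDomain (T ⧸ P) := Ideal.Quotient.isDomain P
  let _ : Algebra (R ⧸ P.comap (algebraMap R T)) (T ⧸ P) :=
    (Ideal.quotientMap P (algebraMap R T) le_rfl).toAlgebra
  have htower : IsScalarTower R (R ⧸ P.comap (algebraMap R T)) (T ⧸ P) :=
    IsScalarTower.of_algebraMap_eq fun x => rfl
  have hfs2 : FaithfulSMul (R ⧸ P.comap (algebraMap R T)) (T ⧸ P) := by
    rw [faithfulSMul_iff_algebraMap_injective]
    exact Ideal.quotientMap_injective
  have hfinq : Module.Finite R (T ⧸ P) := by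
    have : Module.Finite R T := hT
    exact Module.Finite.of_surjective (Submodule.mkQ (P.restrictScalars R))
      (Submodule.mkQ_surjective _)
  have hfin2 : Module.Finite (R ⧸ P.comap (algebraMap R T)) (T ⧸ P) :=
    Module.Finite.of_restrictScalars_finite R _ _
  -- the quotient is not local
  have hmapmax : ∀ n : Ideal T, n.IsMaximal → P ≤ n → (n.map (Ideal.Quotient.mk P)).IsMaximal := by
    intro n hn hPn
    have hc : (n.map (Ideal.Quotient.mk P)).comap (Ideal.Quotient.mk P) = n := by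
      rw [Ideal.comap_map_of_surjective _ Ideal.Quotient.mk_surjective, ← RingHom.ker,
        Ideal.mk_ker, sup_eq_left.2 hPn]
    exact (Ideal.map_eq_top_or_isMaximal_of_surjective _ Ideal.Quotient.mk_surjective hn).resolve_left
      (fun htop => hn.ne_top (by rw [← hc, htop, Ideal.comap_top]))
  have hcm : ∀ n : Ideal T, P ≤ n → (n.map (Ideal.Quotient.mk P)).comap (Ideal.Quotient.mk P) = n :=
    fun n hPn => by
      rw [Ideal.comap_map_of_surjective _ Ideal.Quotient.mk_surjective, ← RingHom.ker,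
        Ideal.mk_ker, sup_eq_left.2 hPn]
  have hnlA : ¬ IsLocalRing (T ⧸ P) := by
    intro hl
    have h1 := IsLocalRing.eq_maximalIdeal (hmapmax m hm hPm)
    have h2 := IsLocalRing.eq_maximalIdeal (hmapmax m' hm' hPm')
    apply hne
    rw [← hcm m hPm, ← hcm m' hPm', h1, h2]
  have huniq : ∀ Q : Ideal (T ⧸ P), Q.IsPrime → Q ≠ ⊥ → ∀ n n' : Ideal (T ⧸ P), n.IsMaximal →
      n'.IsMaximal → Q ≤ n → Q ≤ n' → n = n' := by
    intro Q hQ hQ0 n n' hn hn' hQn hQn'
    have hker : ∀ K : Ideal (T ⧸ P), P ≤ K.comap (Ideal.Quotient.mk P) := fun K x hx => by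
      rw [Ideal.mem_comap, Ideal.Quotient.eq_zero_iff_mem.2 hx]
      exact K.zero_mem
    have hlt : P < Q.comap (Ideal.Quotient.mk P) := by
      refine lt_of_le_of_ne (hker Q) fun heq => hQ0 ?_
      rw [eq_bot_iff]
      intro x hx
      obtain ⟨t, rfl⟩ := Ideal.Quotient.mk_surjective x
      have h1 : t ∈ Q.comap (Ideal.Quotient.mk P) := hx
      rw [← heq] at h1
      rw [Ideal.mem_bot]
      exact Ideal.Quotient.eq_zero_iff_mem.2 h1
    have h1 := hPmax _ (Ideal.comap_isPrime _ Q) hlt (n.comap (Ideal.Quotient.mk P))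
      (n'.comap (Ideal.Quotient.mk P))
      (Ideal.comap_isMaximal_of_surjective _ Ideal.Quotient.mk_surjective)
      (Ideal.comap_isMaximal_of_surjective _ Ideal.Quotient.mk_surjective)
      (Ideal.comap_mono hQn) (Ideal.comap_mono hQn')
    exact Ideal.comap_injective_of_surjective _ Ideal.Quotient.mk_surjective h1
  obtain ⟨B, _, _, _, _, _, q, z, I, hq, hqu, hz, hI0, hI⟩ :=
    h (P.comap (algebraMap R T)) hpnm (T ⧸ P) hnlA
  exact false_of_openPow76 hNA hnlA huniq B q z I hq hqu hz hI0 hI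

end Pool.Agent.AIC.M
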