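import Pool.Agent.AIC.M.Conv34
import Pool.Agent.AIC.M.TheoremMO76
import Pool.Agent.AIC.M.FinMax7

/-! MP_313bb4, power classes: the equivalence. -/

set_option autoImplicit false

namespace Pool.Agent.AIC.M

open Finset FirstOrder.Ring

/-- a semilocal domain with two maximal ideals has nonzero elements in all maximal ideals -/
theorem exists_jac34 {A : Type} [CommRing A] [IsDomain A] [Finite (MaximalSpectrum A)]
    (m₁ m₂ : Ideal A) (h₁ : m₁.IsMaximal) (h₂ : m₂.IsMaximal) (hne : m₁ ≠ m₂) :
    ∃ c : A, c ≠ 0 ∧ ∀ m : Ideal A, m.IsMaximal → c ∈ m := by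
  classical
  have hbot : ∀ m : MaximalSpectrum A, ∃ x : A, x ≠ 0 ∧ x ∈ m.asIdeal := by
    intro m
    by_contra hno
    push Not at hno
    have hm : m.asIdeal = ⊥ := by
      rw [eq_bot_iff]
      intro x hx
      by_contra hx0
      exact hno x hx0 hx
    have hall : ∀ n : Ideal A, n.IsMaximal → n = m.asIdeal := fun n hn =>
      (m.isMaximal.eq_of_le hn.ne_top (by rw [hm]; exact bot_le)).symm
    exact hne ((hall m₁ h₁).trans (hall m₂ h₂).symm)
  choose x hx0 hx using hbot
  have := Fintype.ofFinite (MaximalSpectrum A)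
  refine ⟨∏ m, x m, Finset.prod_ne_zero_iff.2 fun m _ => hx0 m, fun m hm => ?_⟩
  exact m.mem_of_dvd (Finset.dvd_prod_of_mem x (Finset.mem_univ ⟨m, hm⟩)) (hx ⟨m, hm⟩)

/-- an integral extension of a domain which is not local is not local -/
theorem exists_two_max34 {A B : Type} [CommRing A] [IsDomain A] [CommRing B] [IsDomain B]
    [Algebra A B] [FaithfulSMul A B] [Algebra.IsIntegral A B] (hA : ¬ IsLocalRing A) :
    ∃ m₁ m₂ : Ideal B, m₁.IsMaximal ∧ m₂.IsMaximal ∧ m₁ ≠ m₂ := by
  obtain ⟨m₁, h₁⟩ := Ideal.exists_maximal B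
  by_contra hno
  push Not at hno
  have hB : IsLocalRing B := IsLocalRing.of_unique_max_ideal ⟨m₁, h₁, fun m hm =>
    (hno m₁ m h₁ hm).symm⟩
  apply hA
  have h1 : IsLocalHom (algebraMap A B) :=
    RingHom.IsIntegral.isLocalHom (algebraMap_isIntegral_iff.mpr inferInstance)
      (FaithfulSMul.algebraMap_injective A B)
  exact RingHom.domain_isLocalRing (algebraMap A B)

/-- **power classes**: an NIP domain `R` is a henselian local ring if and only if for every
nonmaximal prime `p` and every domain `A` finite over `R / p` there are a domain `B` finite over `A`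
and a prime number `q`, invertible in `B`, such that `B` contains a root of unity of order `q` and
the elements of `1 + J` near `1` are in finitely many classes modulo `(1 + J) ^ q`. -/
theorem powerClasses34 {R : Type} [CommRing R] [IsDomain R] [CompatibleRing R]
    (hN : NIPRing R) :
    HenselianLocalRing R ↔
      ∀ (p : Ideal R) [p.IsPrime], ¬ p.IsMaximal → ∀ (A : Type) [CommRing A] [IsDomain A]
        [Algebra (R ⧸ p) A] [FaithfulSMul (R ⧸ p) A] [Module.Finite (R ⧸ p) A],
        ∃ (B : Type) (_ : CommRing B) (_ : IsDomain B) (_ : Algebra A B) (_ : FaithfulSMul A B)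
          (_ : Module.Finite A B) (q : ℕ) (z b : B) (S : Finset B),
          q.Prime ∧ IsUnit (q : B) ∧ ∑ j ∈ range q, z ^ j = 0 ∧ b ≠ 0 ∧
          ∀ u : B, b ∣ u - 1 → (∀ m : Ideal B, m.IsMaximal → u - 1 ∈ m) →
            ∃ s ∈ S, ∃ y : B, (∀ m : Ideal B, m.IsMaximal → y - 1 ∈ m) ∧ u = s * y ^ q := by
  constructor
  · intro hR p _ _ A _ _ _ _ _
    exact classes_of_hensel34 hR p A
  · intro h
    refine theoremMO76 hN fun p hp hpm => ?_
    intro A _ _ _ _ _ hnl
    obtain ⟨B, hB1, hB2, hB3, hB4, hB5, q, z, b, S, hq, hqu, hz, hb, hS⟩ := h p hpm A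
    have hint : Algebra.IsIntegral A B := Algebra.IsIntegral.of_finite A B
    let _ : CompatibleRing (R ⧸ p) := compatibleRingOfRing _
    let _ : CompatibleRing A := compatibleRingOfRing A
    let _ : CompatibleRing B := compatibleRingOfRing B
    have hNA : NIPRing A := nip_finite_domain76 (A := R ⧸ p) (nip_quotient hN p)
    have hNB : NIPRing B := nip_finite_domain76 hNA
    have hfin := finMax7 hNB
    obtain ⟨m₁, m₂, h₁, h₂, hne⟩ := exists_two_max34 (B := B) hnl
    obtain ⟨c, hc0, hc⟩ := exists_jac34 m₁ m₂ h₁ h₂ hne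
    refine ⟨B, hB1, hB2, hB3, hB4, hB5, q, z, Ideal.span {b * c}, hq, hqu, hz, ?_, S, ?_⟩
    · rw [Ne, Ideal.span_singleton_eq_bot]
      exact mul_ne_zero hb hc0
    · intro u hu
      rw [Ideal.mem_span_singleton] at hu
      exact hS u ((dvd_mul_right b c).trans hu) fun m hm =>
        m.mem_of_dvd hu (m.mul_mem_left b (hc m hm))

end Pool.Agent.AIC.M
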