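import Mathlib
import Pool.Agent.AIC.Central95

/-! MP_313bb4: primes which lie in several maximal ideals, and splitting of semilocal rings. -/

set_option autoImplicit false

namespace Pool.Agent.AIC.M

/-- in a semilocal domain which is not local there is a prime which is maximal among the primes
contained in at least two maximal ideals -/
theorem exists_max_prime76 {T : Type} [CommRing T] [IsDomain T] (hfin : Finite (MaximalSpectrum T))
    (hnl : ¬ IsLocalRing T) :
    ∃ P : Ideal T, P.IsPrime ∧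
      (∃ m m' : Ideal T, m.IsMaximal ∧ m'.IsMaximal ∧ m ≠ m' ∧ P ≤ m ∧ P ≤ m') ∧
      ∀ Q : Ideal T, Q.IsPrime → P < Q → ∀ m m' : Ideal T, m.IsMaximal → m'.IsMaximal →
        Q ≤ m → Q ≤ m' → m = m' := by
  classical
  let V : Ideal T → Set (MaximalSpectrum T) := fun P => {m | P ≤ m.asIdeal}
  have hVfin : ∀ P, (V P).Finite := fun P => Set.toFinite _
  -- two different maximal ideals
  obtain ⟨m₁, hm₁⟩ := Ideal.exists_maximal T
  have hex : ∃ m₂ : Ideal T, m₂.IsMaximal ∧ m₂ ≠ m₁ := by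
    by_contra hno
    push Not at hno
    exact hnl (IsLocalRing.of_unique_max_ideal ⟨m₁, hm₁, fun m hm => hno m hm⟩)
  obtain ⟨m₂, hm₂, h21⟩ := hex
  have two : ∀ P m m' : Ideal T, m.IsMaximal → m'.IsMaximal → m ≠ m' → P ≤ m → P ≤ m' →
      2 ≤ (V P).ncard := by
    intro P m m' hm hm' hne h h'
    have h1 : ({⟨m, hm⟩, ⟨m', hm'⟩} : Set (MaximalSpectrum T)) ⊆ V P := by
      rintro _ (rfl | rfl)
      · exact h
      · exact h'
    have h2 := Set.ncard_le_ncard h1 (hVfin P)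
    rwa [Set.ncard_pair (fun heq => hne (congrArg MaximalSpectrum.asIdeal heq))] at h2
  have hne : ∃ n : ℕ, 2 ≤ n ∧ ∃ P : Ideal T, P.IsPrime ∧ (V P).ncard = n :=
    ⟨(V ⊥).ncard, two ⊥ m₁ m₂ hm₁ hm₂ h21.symm bot_le bot_le, ⊥, Ideal.isPrime_bot, rfl⟩
  obtain ⟨h2n, P₀, hP₀, hP₀n⟩ := Nat.find_spec hne
  have hmin : ∀ P : Ideal T, P.IsPrime → 2 ≤ (V P).ncard → (V P₀).ncard ≤ (V P).ncard := by
    intro P hP h2
    rw [hP₀n]
    exact Nat.find_min' hne ⟨h2, P, hP, rfl⟩
  let s : Set (Ideal T) := {P | P.IsPrime ∧ ∀ m ∈ V P₀, P ≤ m.asIdeal}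
  obtain ⟨P, hP₀P, hPmax⟩ := zorn_le_nonempty₀ s (by
    intro c hc hchain y hy
    obtain ⟨hU, hmem⟩ := sSup_prime95 c ⟨y, hy⟩ (fun q hq => (hc hq).1) (by
      intro q hq q' hq'
      exact hchain.total hq hq')
    refine ⟨sSup c, ⟨hU, fun m hm => sSup_le fun q hq => (hc hq).2 m hm⟩, fun z hz => le_sSup hz⟩)
    P₀ ⟨hP₀, fun m hm => hm⟩
  have hPs : P ∈ s := hPmax.1
  have hVP : V P = V P₀ := by
    refine Set.Subset.antisymm (fun m hm => ?_) (fun m hm => hPs.2 m hm)
    exact le_trans hP₀P hm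
  refine ⟨P, hPs.1, ?_, ?_⟩
  · have h2 : 1 < (V P).ncard := by
      rw [hVP, hP₀n]
      exact h2n
    obtain ⟨a, ha, b, hb, hab⟩ := (Set.one_lt_ncard (hVfin P)).1 h2
    exact ⟨a.asIdeal, b.asIdeal, a.isMaximal, b.isMaximal, fun h => hab (MaximalSpectrum.ext h),
      ha, hb⟩
  · intro Q hQ hPQ m m' hm hm' hQm hQm'
    by_contra hmm
    have h2 := two Q m m' hm hm' hmm hQm hQm'
    have hsub : V Q ⊆ V P₀ := by
      rw [← hVP]
      exact fun n hn => le_trans hPQ.le hn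
    have hVQ : V Q = V P₀ := Set.eq_of_subset_of_ncard_le hsub (hmin Q hQ h2) (hVfin _)
    have hQs : Q ∈ s := ⟨hQ, fun n hn => by
      rw [← hVQ] at hn
      exact hn⟩
    exact absurd (hPmax.2 hQs hPQ.le) (not_le_of_gt hPQ)

/-- the elements which lie locally at `m` in `I` -/
def sat76 {A : Type} [CommRing A] (I m : Ideal A) [m.IsPrime] : Ideal A where
  carrier := {x | ∃ s : A, s ∉ m ∧ s * x ∈ I}
  add_mem' := by
    rintro x y ⟨s, hs, hsx⟩ ⟨t, ht, hty⟩
    refine ⟨s * t, fun h => ((inferInstance : m.IsPrime).mem_or_mem h).elim hs ht, ?_⟩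
    have h1 : s * t * (x + y) = t * (s * x) + s * (t * y) := by ring
    rw [h1]
    exact I.add_mem (I.mul_mem_left _ hsx) (I.mul_mem_left _ hty)
  zero_mem' := ⟨1, fun h => (inferInstance : m.IsPrime).ne_top ((Ideal.eq_top_iff_one m).2 h), by
    rw [mul_zero]; exact I.zero_mem⟩
  smul_mem' := by
    rintro c x ⟨s, hs, hsx⟩
    refine ⟨s, hs, ?_⟩
    have h1 : s * (c • x) = c * (s * x) := by rw [smul_eq_mul]; ring
    rw [h1]
    exact I.mul_mem_left _ hsx

/-- splitting: if every prime over `I` lies in only one maximal ideal then `I` separates the maximal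
ideals -/
theorem exists_split76 {A : Type} [CommRing A] (hfin : Finite (MaximalSpectrum A)) (I : Ideal A)
    (huniq : ∀ Q : Ideal A, Q.IsPrime → I ≤ Q → ∀ m m' : Ideal A, m.IsMaximal → m'.IsMaximal →
      Q ≤ m → Q ≤ m' → m = m') (m₁ : Ideal A) (hm₁ : m₁.IsMaximal) (hI : I ≤ m₁)
    (hI' : ∀ m : Ideal A, m.IsMaximal → I ≤ m) :
    ∃ e : A, e * (1 - e) ∈ I ∧ e ∈ m₁ ∧ ∀ m : Ideal A, m.IsMaximal → m ≠ m₁ → 1 - e ∈ m := by
  classical
  have := Fintype.ofFinite (MaximalSpectrum A)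
  have hp₁ : m₁.IsPrime := hm₁.isPrime
  have hpm : ∀ m : MaximalSpectrum A, m.asIdeal.IsPrime := fun m => m.isMaximal.isPrime
  have hsle : ∀ (m : Ideal A) [m.IsPrime], I ≤ m → sat76 I m ≤ m := by
    rintro m hm hIm x ⟨s, hs, hsx⟩
    exact (hm.mem_or_mem (hIm hsx)).resolve_left hs
  -- two of these ideals are comaximal
  have hco : ∀ m : MaximalSpectrum A, m.asIdeal ≠ m₁ → sat76 I m₁ ⊔ sat76 I m.asIdeal = ⊤ := by
    intro m hne
    by_contra htop
    obtain ⟨n, hn, hle⟩ := Ideal.exists_le_maximal _ htop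
    have hnp : n.IsPrime := hn.isPrime
    -- a prime below `n` and `k` if the saturation at `k` is below `n`
    have key : ∀ (k : Ideal A) (hk : k.IsPrime), k.IsMaximal → sat76 I k ≤ n → k = n := by
      intro k hk hkm hkn
      obtain ⟨Q, hQ, hIQ, hdis⟩ := Ideal.exists_le_prime_disjoint I (k.primeCompl ⊔ n.primeCompl) (by
        rw [Set.disjoint_left]
        intro x hxI hx
        obtain ⟨s, hs, t, ht, hst⟩ := Submonoid.mem_sup.1 hx
        have h1 : t ∈ sat76 I k := ⟨s, hs, by rw [hst]; exact hxI⟩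
        exact ht (hkn h1))
      rw [Set.disjoint_left] at hdis
      refine huniq Q hQ hIQ k n hkm hn (fun x hx => ?_) (fun x hx => ?_)
      · by_contra hxk
        exact hdis hx (Submonoid.mem_sup_left hxk)
      · by_contra hxn
        exact hdis hx (Submonoid.mem_sup_right hxn)
    have h1 := key m₁ hp₁ hm₁ (le_trans le_sup_left hle)
    have h2 := key m.asIdeal (hpm m) m.isMaximal (le_trans le_sup_right hle)
    exact hne (h2.trans h1.symm)
  have hsup : sat76 I m₁ ⊔ ⨅ m ∈ Finset.univ.filter (fun m : MaximalSpectrum A => m.asIdeal ≠ m₁),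
      sat76 I m.asIdeal = ⊤ := by
    refine Ideal.sup_iInf_eq_top fun m hm => hco m ?_
    exact (Finset.mem_filter.1 hm).2
  have h1 : (1 : A) ∈ sat76 I m₁ ⊔ ⨅ m ∈ Finset.univ.filter
      (fun m : MaximalSpectrum A => m.asIdeal ≠ m₁), sat76 I m.asIdeal := by
    rw [hsup]
    trivial
  obtain ⟨e, he, f, hf, hef⟩ := Submodule.mem_sup.1 h1
  have hfe : f = 1 - e := by rw [← hef]; ring
  rw [hfe] at hf
  have hf' : ∀ m : MaximalSpectrum A, m.asIdeal ≠ m₁ → 1 - e ∈ sat76 I m.asIdeal := by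
    intro m hm
    have h2 := (Submodule.mem_iInf _).1 hf m
    exact (Submodule.mem_iInf _).1 h2 (Finset.mem_filter.2 ⟨Finset.mem_univ _, hm⟩)
  refine ⟨e, ?_, hsle m₁ hI he, fun m hm hne => hsle m (hI' m hm) (hf' ⟨m, hm⟩ hne)⟩
  -- the colon ideal is everything
  by_contra hnot
  let c : Ideal A := Submodule.colon I {e * (1 - e)}
  have hmemc : ∀ x : A, x ∈ c ↔ x * (e * (1 - e)) ∈ I := fun x => by
    rw [Submodule.mem_colon_singleton, smul_eq_mul]
  have hctop : c ≠ ⊤ := by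
    intro h
    apply hnot
    have h2 : (1 : A) ∈ c := by rw [h]; trivial
    rw [hmemc, one_mul] at h2
    exact h2
  obtain ⟨n, hn, hle⟩ := Ideal.exists_le_maximal c hctop
  by_cases hn1 : n = m₁
  · obtain ⟨s, hs, hse⟩ := he
    apply hs
    rw [← hn1]
    apply hle
    rw [hmemc]
    have h2 : s * (e * (1 - e)) = (1 - e) * (s * e) := by ring
    rw [h2]
    exact I.mul_mem_left _ hse
  · obtain ⟨s, hs, hse⟩ := hf' ⟨n, hn⟩ hn1
    apply hs
    apply hle
    rw [hmemc]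
    have h2 : s * (e * (1 - e)) = e * (s * (1 - e)) := by ring
    rw [h2]
    exact I.mul_mem_left _ hse

end Pool.Agent.AIC.M
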