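import Pool.Agent.AIC.M.StrongT2
import Pool.Agent.AIC.Form83

/-! MP_313bb4, theorem S, row S2: in a strong domain only finitely many primes `q` have
infinitely many classes modulo `q`-th powers, also in finite extensions of the fraction field. -/

set_option autoImplicit false

namespace Pool.Agent.AIC

open Set FirstOrder FirstOrder.Language FirstOrder.Ring

/-- finitely many classes modulo `q`-th powers -/
def FinClasses (L : Type) [Field L] (q : ℕ) : Prop :=
  ∃ S : Finset L, ∀ x : L, ∃ g ∈ S, ∃ y : L, x = g * y ^ q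

/-- `x` and `y` are equal up to `q`-th powers -/
noncomputable def classF (q : ℕ) : Language.ring.Formula (Fin 1 ⊕ Fin 1) :=
  BoundedFormula.ex (BoundedFormula.ex
    ((∼(((Term.var (Sum.inr 0) : Language.ring.Term ((Fin 1 ⊕ Fin 1) ⊕ Fin 2)) *
      Term.var (Sum.inr 1)).bdEqual 0)) ⊓
     (((Term.var (Sum.inl (Sum.inl 0)) : Language.ring.Term ((Fin 1 ⊕ Fin 1) ⊕ Fin 2)) *
      tpow (Term.var (Sum.inr 1)) q).bdEqual
      (Term.var (Sum.inl (Sum.inr 0)) * tpow (Term.var (Sum.inr 0)) q))))

theorem realize_classF {R : Type} [CommRing R] [CompatibleRing R] (q : ℕ) (a b : Fin 1 → R) :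
    (classF q).Realize (Sum.elim a b) ↔ ∃ u v : R, u * v ≠ 0 ∧ a 0 * v ^ q = b 0 * u ^ q := by
  unfold classF Formula.Realize
  rw [BoundedFormula.realize_ex]
  refine exists_congr fun u => ?_
  rw [BoundedFormula.realize_ex]
  refine exists_congr fun v => ?_
  rw [BoundedFormula.realize_inf, BoundedFormula.realize_not, BoundedFormula.realize_bdEqual,
    BoundedFormula.realize_bdEqual]
  simp [realize_tpow, Fin.snoc]

/-- simultaneous representatives of classes modulo powers for different primes -/
theorem exists_common_class {M : Type} [CommMonoid M] {n : ℕ} (q : Fin n → ℕ)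
    (hq : ∀ i, (q i).Prime) (hinj : Function.Injective q) (b : Fin n → M) :
    ∃ t : M, ∀ i, ∃ w : M, t = b i * w ^ q i := by
  classical
  let P : Fin n → ℕ := fun i => ∏ j ∈ Finset.univ.erase i, q j
  have hcop : ∀ i, Nat.Coprime (P i) (q i) := fun i =>
    Nat.Coprime.prod_left fun j hj =>
      (Nat.coprime_primes (hq j) (hq i)).2 fun h => (Finset.mem_erase.1 hj).1 (hinj h)
  have hdvd : ∀ i j, i ≠ j → q i ∣ P j := fun i j hij =>
    Finset.dvd_prod_of_mem _ (Finset.mem_erase.2 ⟨hij, Finset.mem_univ _⟩)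
  have hP0 : ∀ i, 0 < P i := fun i => Finset.prod_pos fun j _ => (hq j).pos
  have he1 : ∀ i, ∃ c, P i ^ (q i - 1) = 1 + q i * c := by
    intro i
    have h1 := Nat.ModEq.pow_totient (hcop i)
    rw [Nat.totient_prime (hq i)] at h1
    have h2 : 1 ≤ P i ^ (q i - 1) := Nat.one_le_iff_ne_zero.2 (pow_pos (hP0 i) _).ne'
    obtain ⟨c, hc⟩ := (Nat.modEq_iff_dvd' h2).1 h1.symm
    exact ⟨c, by omega⟩
  have he2 : ∀ i j, i ≠ j → ∃ c, P j ^ (q j - 1) = q i * c := by
    intro i j hij
    obtain ⟨c, hc⟩ := (hdvd i j hij).trans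
      (dvd_pow_self (P j) (by have := (hq j).two_le; omega : q j - 1 ≠ 0))
    exact ⟨c, hc⟩
  refine ⟨∏ j, b j ^ (P j ^ (q j - 1)), fun i => ?_⟩
  obtain ⟨c, hc⟩ := he1 i
  have h3 : ∀ j, ∃ w : M, i ≠ j → b j ^ (P j ^ (q j - 1)) = w ^ q i := by
    intro j
    by_cases hij : i = j
    · exact ⟨1, fun h => absurd hij h⟩
    · obtain ⟨c, hc⟩ := he2 i j hij
      exact ⟨b j ^ c, fun _ => by rw [hc, mul_comm, pow_mul]⟩
  choose w hw using h3
  refine ⟨b i ^ c * ∏ j ∈ Finset.univ.erase i, w j, ?_⟩
  rw [← Finset.mul_prod_erase Finset.univ _ (Finset.mem_univ i), hc, pow_add, pow_one, mul_comm (q i) c,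
    pow_mul, mul_pow, mul_assoc, ← Finset.prod_pow]
  congr 2
  exact Finset.prod_congr rfl fun j hj => hw j (Finset.mem_erase.1 hj).1.symm

section

variable {T L : Type} [CommRing T] [IsDomain T] [Field L] [Algebra T L] [IsFractionRing T L]

/-- many inequivalent elements -/
theorem exists_inequiv (q : ℕ) (hq : 0 < q) (h : ¬ FinClasses L q) (N : ℕ) :
    ∃ b : Fin N → T, (∀ j, b j ≠ 0) ∧
      ∀ j j', j ≠ j' → ¬ ∃ u v : T, u * v ≠ 0 ∧ b j * v ^ q = b j' * u ^ q := by
  classical
  have hinj := IsFractionRing.injective T L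
  induction N with
  | zero => exact ⟨fun j => j.elim0, fun j => j.elim0, fun j => j.elim0⟩
  | succ N ih =>
    obtain ⟨b, hb0, hb⟩ := ih
    have h1 : ∃ x : L, ∀ g ∈ insert (0 : L) (Finset.univ.image fun j => algebraMap T L (b j)),
        ∀ y : L, x ≠ g * y ^ q := by
      by_contra hc
      push Not at hc
      exact h ⟨_, hc⟩
    obtain ⟨x, hx⟩ := h1
    have hx0 : x ≠ 0 := by
      have := hx 0 (Finset.mem_insert_self _ _) 0
      rwa [zero_mul] at this
    obtain ⟨a, c, hc, rfl⟩ := IsFractionRing.div_surjective (A := T) x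
    have hc0 : c ≠ 0 := nonZeroDivisors.ne_zero hc
    have hcL : algebraMap T L c ≠ 0 := by
      rwa [Ne, map_eq_zero_iff _ hinj]
    have ha0 : a ≠ 0 := by
      rintro rfl
      exact hx0 (by rw [map_zero, zero_div])
    obtain ⟨t, ht⟩ : ∃ t : T, t = a * c ^ (q - 1) := ⟨_, rfl⟩
    have ht0 : t ≠ 0 := by
      rw [ht]
      exact mul_ne_zero ha0 (pow_ne_zero _ hc0)
    have htL : algebraMap T L t = algebraMap T L a / algebraMap T L c * algebraMap T L c ^ q := by
      have h2 : algebraMap T L c ^ q = algebraMap T L c * algebraMap T L c ^ (q - 1) := by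
        rw [← pow_succ']
        congr 1
        omega
      rw [ht, h2, map_mul, map_pow]
      field_simp
    have hne : ∀ j, ¬ ∃ u v : T, u * v ≠ 0 ∧ t * v ^ q = b j * u ^ q := by
      rintro j ⟨u, v, huv, h3⟩
      have hvL : algebraMap T L v ≠ 0 := by
        rw [Ne, map_eq_zero_iff _ hinj]
        exact right_ne_zero_of_mul huv
      refine hx (algebraMap T L (b j)) (Finset.mem_insert_of_mem
        (Finset.mem_image_of_mem _ (Finset.mem_univ j)))
        (algebraMap T L u / (algebraMap T L v * algebraMap T L c)) ?_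
      have h4 := congrArg (algebraMap T L) h3
      rw [map_mul, map_mul, map_pow, map_pow, htL] at h4
      rw [div_pow, mul_pow]
      have h5 : algebraMap T L v ^ q * algebraMap T L c ^ q ≠ 0 :=
        mul_ne_zero (pow_ne_zero _ hvL) (pow_ne_zero _ hcL)
      rw [mul_div_assoc', eq_div_iff h5, ← h4]
      ring
    refine ⟨Fin.snoc (α := fun _ => T) b t, fun j => ?_, fun j j' => ?_⟩
    · refine Fin.lastCases ?_ (fun j => ?_) j
      · rw [Fin.snoc_last]
        exact ht0
      · rw [Fin.snoc_castSucc]
        exact hb0 j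
    · refine Fin.lastCases ?_ (fun j => ?_) j
      · refine Fin.lastCases ?_ (fun j' => ?_) j'
        · exact fun h => absurd rfl h
        · intro _
          rw [Fin.snoc_last, Fin.snoc_castSucc]
          exact hne j'
      · refine Fin.lastCases ?_ (fun j' => ?_) j'
        · intro _
          rw [Fin.snoc_last, Fin.snoc_castSucc]
          rintro ⟨u, v, huv, h3⟩
          exact hne j ⟨v, u, by rwa [mul_comm], h3.symm⟩
        · intro hjj
          rw [Fin.snoc_castSucc, Fin.snoc_castSucc]
          exact hb j j' fun h => hjj (by rw [h])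

/-- a strong domain: for all but finitely many primes `q` the fraction field has
finitely many classes modulo `q`-th powers -/
theorem finite_not_finClasses [CompatibleRing T] (hT : StrongRing T) :
    {q : ℕ | q.Prime ∧ ¬ FinClasses L q}.Finite := by
  classical
  by_contra hinf
  have hinf' : {q : ℕ | q.Prime ∧ ¬ FinClasses L q}.Infinite := hinf
  let f := hinf'.natEmbedding
  let q : ℕ → ℕ := fun i => (f i : ℕ)
  have hqinj : Function.Injective q := fun i j h => f.injective (Subtype.ext h)
  have hqp : ∀ i, (q i).Prime := fun i => (f i).2.1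
  have hqn : ∀ i, ¬ FinClasses L (q i) := fun i => (f i).2.2
  obtain ⟨n, N, hn⟩ := hT 1 (fun _ => 1) (fun _ => 2) (fun i => classF (q i))
  apply hn
  have h1 := fun i : Fin n => exists_inequiv (T := T) (q i) (hqp i).pos (hqn i) N
  choose b hb0 hb using h1
  refine ⟨fun i j _ => b i j, fun i J hJ => ?_, fun η => ?_⟩
  · rintro ⟨a, ha⟩
    obtain ⟨j, hj, j', hj', hne⟩ := Finset.one_lt_card.1 (by omega : 1 < J.card)
    obtain ⟨u, v, huv, h3⟩ := (realize_classF _ _ _).1 (ha j hj)
    obtain ⟨u', v', huv', h3'⟩ := (realize_classF _ _ _).1 (ha j' hj')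
    refine hb i j j' hne ⟨u' * v, u * v', ?_, ?_⟩
    · rw [show u' * v * (u * v') = (u * v) * (u' * v') by ring]
      exact mul_ne_zero huv huv'
    · have e1 : b i j * (u * v') ^ q i = (b i j * u ^ q i) * v' ^ q i := by ring
      have e2 : b i j' * (u' * v) ^ q i = (b i j' * u' ^ q i) * v ^ q i := by ring
      rw [e1, e2, ← h3, ← h3']
      ring
  · obtain ⟨t, ht⟩ := exists_common_class (M := nonZeroDivisors T) (fun i : Fin n => q i)
      (fun i => hqp i) (fun i j h => Fin.ext (hqinj h))
      (fun i => ⟨b i (η i), mem_nonZeroDivisors_of_ne_zero (hb0 i (η i))⟩)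
    refine ⟨fun _ => (t : T), fun i => ?_⟩
    rw [realize_classF]
    obtain ⟨w, hw⟩ := ht i
    have hw' : (t : T) = b i (η i) * (w : T) ^ q i := by
      have := congrArg (fun z : nonZeroDivisors T => (z : T)) hw
      simpa using this
    have hw0 : (w : T) ≠ 0 := nonZeroDivisors.coe_ne_zero w
    exact ⟨w, 1, by rwa [mul_one], by rw [one_pow, mul_one]; exact hw'⟩

end

/-- finite extensions -/
theorem strong_finite_classes {R K L : Type} [CommRing R] [IsDomain R] [Field K] [Algebra R K]
    [IsFractionRing R K] [Field L] [Algebra K L] [Algebra R L] [IsScalarTower R K L]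
    [FiniteDimensional K L] [CompatibleRing R] (hR : StrongRing R) :
    {q : ℕ | q.Prime ∧ ¬ FinClasses L q}.Finite := by
  classical
  let bs := Module.finBasis K L
  obtain ⟨y, hy, hint⟩ := exists_integral_multiples R K (Finset.univ.image bs)
  let E : Set L := Set.range fun i => y • bs i
  have hEfin : E.Finite := Set.finite_range _
  have hEint : ∀ x ∈ E, IsIntegral R x := by
    rintro _ ⟨i, rfl⟩
    exact hint _ (Finset.mem_image_of_mem _ (Finset.mem_univ i))
  set T := Algebra.adjoin R E with hT
  have hTfin : Module.Finite R T := Algebra.finite_adjoin_of_finite_of_isIntegral hEfin hEint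
  let _ : CompatibleRing T := compatibleRingOfRing T
  have hTs : StrongRing T := strong_subalgebra_plus (K := K) T hR
  have hRL : Function.Injective (algebraMap R L) := by
    rw [IsScalarTower.algebraMap_eq R K L]
    exact (algebraMap K L).injective.comp (IsFractionRing.injective R K)
  have : IsFractionRing T L := by
    refine IsFractionRing.of_field T L fun z => ?_
    -- common denominator of the coordinates
    obtain ⟨h, hh⟩ := IsLocalization.exist_integer_multiples_of_finset (nonZeroDivisors R)
      (Finset.univ.image fun i => bs.repr z i)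
    have h1 : ∀ i, ∃ r : R, algebraMap R K r = (h : R) • bs.repr z i := by
      intro i
      obtain ⟨r, hr⟩ := hh _ (Finset.mem_image_of_mem _ (Finset.mem_univ i))
      exact ⟨r, hr⟩
    choose r hr using h1
    have hh0 : (h : R) ≠ 0 := nonZeroDivisors.coe_ne_zero h
    have hden : algebraMap R L ((h : R) * y) ≠ 0 := by
      rw [Ne, map_eq_zero_iff _ hRL]
      exact mul_ne_zero hh0 hy
    have hnum : (∑ i, r i • (y • bs i) : L) ∈ T :=
      T.sum_mem fun i _ => T.smul_mem (Algebra.subset_adjoin ⟨i, rfl⟩) _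
    refine ⟨⟨_, hnum⟩, algebraMap R T ((h : R) * y), ?_⟩
    have e1 : algebraMap T L (algebraMap R T ((h : R) * y)) = algebraMap R L ((h : R) * y) := rfl
    rw [e1, eq_div_iff hden]
    show z * algebraMap R L ((h : R) * y) = ∑ i, r i • (y • bs i)
    conv_lhs => rw [← bs.sum_repr z]
    rw [Finset.sum_mul]
    refine Finset.sum_congr rfl fun i _ => ?_
    rw [Algebra.smul_def, Algebra.smul_def, Algebra.smul_def, map_mul,
      IsScalarTower.algebraMap_apply R K L (r i), hr i, Algebra.smul_def, map_mul,
      ← IsScalarTower.algebraMap_apply R K L]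
    ring
  exact finite_not_finClasses (T := T) hTs

theorem finClasses_iff_set {K : Type} [Field K] (q : ℕ) : FinClasses K q ↔
    ∃ S : Set K, S.Finite ∧ ∀ x : K, ∃ s ∈ S, ∃ y : K, x = s * y ^ q := by
  constructor
  · rintro ⟨S, hS⟩
    exact ⟨(S : Set K), S.finite_toSet, fun x => by simpa using hS x⟩
  · rintro ⟨S, hfin, hS⟩
    exact ⟨hfin.toFinset, fun x => by simpa using hS x⟩

/-- row S2, set form -/
theorem finite_classes2 {T K : Type} [CommRing T] [IsDomain T] [Field K] [Algebra T K]
    [IsFractionRing T K] [CompatibleRing T] (h : StrongRing T) :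
    {q : ℕ | q.Prime ∧ ¬ (∃ S : Set K, S.Finite ∧ ∀ x : K, ∃ s ∈ S, ∃ y : K,
      x = s * y ^ q)}.Finite := by
  have h1 := finite_not_finClasses (L := K) h
  simpa only [finClasses_iff_set] using h1

/-- row S2 for finite extensions of the fraction field, set form -/
theorem finite_classes_ext2 {R K L : Type} [CommRing R] [IsDomain R] [Field K] [Algebra R K]
    [IsFractionRing R K] [Field L] [Algebra K L] [Algebra R L] [IsScalarTower R K L]
    [FiniteDimensional K L] [CompatibleRing R] (hR : StrongRing R) :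
    {q : ℕ | q.Prime ∧ ¬ (∃ S : Set L, S.Finite ∧ ∀ x : L, ∃ s ∈ S, ∃ y : L,
      x = s * y ^ q)}.Finite := by
  have h1 := strong_finite_classes (K := K) (L := L) hR
  simpa only [finClasses_iff_set] using h1

end Pool.Agent.AIC
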