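import Pool.Agent.AIC.Interp83

/-! MP_313bb4, theorem S: strong rings. -/

set_option autoImplicit false

namespace Pool.Agent.AIC

open FirstOrder FirstOrder.Language FirstOrder.Ring

/-- The theory of the ring is strong: there is no inp-pattern of infinite depth. A pattern is given
by a number `k`, formulas `φ i (x, y)` with `x` of length `k`, and numbers `κ i`; it is present in
`R` if for all `n`, `M` there are parameters `b i j` (`i < n`, `j < M`) in `R` such that in each row
any `κ i` of the formulas are inconsistent and all paths are consistent. -/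
def StrongRing (R : Type) [CommRing R] [CompatibleRing R] : Prop :=
  ∀ (k : ℕ) (m κ : ℕ → ℕ) (φ : (i : ℕ) → Language.ring.Formula (Fin k ⊕ Fin (m i))),
    ∃ n M : ℕ, ¬ ∃ b : (i : Fin n) → Fin M → Fin (m i) → R,
      (∀ (i : Fin n) (J : Finset (Fin M)), κ i ≤ J.card →
        ¬ ∃ a : Fin k → R, ∀ j ∈ J, (φ i).Realize (Sum.elim a (b i j))) ∧
      ∀ σ : Fin n → Fin M, ∃ a : Fin k → R, ∀ i : Fin n,
        (φ i).Realize (Sum.elim a (b i (σ i)))

end Pool.Agent.AIC
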