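import Pool.Agent.AIC.M.JQ76
import Pool.Agent.AIC.M.StrongDef34

/-!
# MP_313bb4, theorem S: strong rings have finitely many classes in `(1 + J) / (1 + J) ^ q`

for all but finitely many primes `q`.
-/

set_option autoImplicit false
set_option linter.unusedSectionVars false

namespace Pool.Agent.AIC.M

open Finset FirstOrder FirstOrder.Language FirstOrder.Ring

/-- `1 + J` as a submonoid -/
def oneJ76 (R : Type) [CommRing R] : Submonoid R where
  carrier := {z | Jm (z - 1)}
  mul_mem' := fun ha hb => jm_mul76 ha hb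
  one_mem' := by
    show Jm ((1 : R) - 1)
    rw [Jm_iff_jac76, sub_self]
    exact Ideal.zero_mem _

theorem mem_oneJ76 {R : Type} [CommRing R] (z : R) : z ∈ oneJ76 R ↔ Jm (z - 1) := Iff.rfl

/-- elements in different classes -/
theorem exists_classes76 {R : Type} [CommRing R] (q : ℕ) (h : ¬ FinClass76 R q) (M : ℕ) :
    ∃ u : Fin M → R, (∀ i, Jm (u i - 1)) ∧
      ∀ i j, i ≠ j → ¬ ∃ y : R, Jm (y - 1) ∧ u i = u j * y ^ q := by
  classical
  have key : ∀ M : ℕ, ∃ u : ℕ → R, (∀ i < M, Jm (u i - 1)) ∧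
      ∀ i < M, ∀ j < i, ¬ ∃ y : R, Jm (y - 1) ∧ u i = u j * y ^ q := by
    intro M
    induction M with
    | zero => exact ⟨fun _ => 1, by simp, by simp⟩
    | succ M ih =>
      obtain ⟨u, h1, h2⟩ := ih
      unfold FinClass76 at h
      push Not at h
      obtain ⟨v, hv, hv2⟩ := h ((range M).image u)
      refine ⟨fun i => if i = M then v else u i, fun i hi => ?_, fun i hi j hj => ?_⟩
      · by_cases hM : i = M
        · simp only [hM, if_true]; exact hv
        · simp only [hM, if_false]; exact h1 i (by omega)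
      · have hjM : j ≠ M := by omega
        by_cases hM : i = M
        · simp only [hM, hjM, if_true, if_false]
          rintro ⟨y, hy, hvy⟩
          exact hv2 (u j) (mem_image_of_mem u (mem_range.2 (by omega))) y hy hvy
        · simp only [hM, hjM, if_false]
          exact h2 i (by omega) j hj
  obtain ⟨u, h1, h2⟩ := key M
  refine ⟨fun i => u i, fun i => h1 i i.2, fun i j hij => ?_⟩
  rcases lt_or_gt_of_ne hij with hlt | hlt
  · rintro ⟨y, hy, huy⟩
    obtain ⟨z, hz⟩ := (jac_unit76' hy).exists_right_inv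
    refine h2 j j.2 i hlt ⟨z, jm_inv76 hz hy, ?_⟩
    show u j = u i * z ^ q
    have h3 : u (i : ℕ) = u (j : ℕ) * y ^ q := huy
    rw [h3, mul_assoc, ← mul_pow, hz, one_pow, mul_one]
  · exact h2 i i.2 j hlt

/-- the exponents -/
theorem exists_exp76 {n : ℕ} (e : Fin n → ℕ) (he : ∀ i, (e i).Prime)
    (hinj : Function.Injective e) :
    ∃ N : Fin n → ℕ, (∀ i, N i % e i = 1) ∧ ∀ i j, i ≠ j → e i ∣ N j := by
  classical
  have key : ∀ i : Fin n, ∃ N : ℕ, N % e i = 1 ∧ ∀ j, j ≠ i → e j ∣ N := by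
    intro i
    have hcop : Nat.Coprime (∏ j ∈ univ.erase i, e j) (e i) := by
      refine Nat.Coprime.prod_left fun j hj => ?_
      rw [Nat.coprime_primes (he j) (he i)]
      exact fun h => (mem_erase.1 hj).1 (hinj h)
    obtain ⟨m, -, hm⟩ := Nat.exists_mul_mod_eq_one_of_coprime hcop (he i).one_lt
    exact ⟨(∏ j ∈ univ.erase i, e j) * m, hm, fun j hj =>
      (dvd_prod_of_mem e (mem_erase.2 ⟨hj, mem_univ j⟩)).mul_right m⟩
  choose N h1 h2 using key
  exact ⟨N, h1, fun i j hij => h2 j i hij⟩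

/-- the element on the path -/
theorem exists_path76 {R : Type} [CommRing R] {n : ℕ} (e : Fin n → ℕ) (he : ∀ i, (e i).Prime)
    (hinj : Function.Injective e) (u : Fin n → R) (hu : ∀ i, Jm (u i - 1)) :
    ∃ x : R, ∀ i, ∃ z : R, Jm (z - 1) ∧ u i * z ^ (e i) = x := by
  classical
  obtain ⟨N, h1, h2⟩ := exists_exp76 e he hinj
  refine ⟨∏ l, u l ^ N l, fun i => ?_⟩
  choose c hc using fun j => h2 i j
  refine ⟨u i ^ (N i / e i) * ∏ l ∈ univ.erase i, u l ^ (N l / e i), ?_, ?_⟩
  · rw [← mem_oneJ76]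
    refine Submonoid.mul_mem _ (Submonoid.pow_mem _ (hu i) _) (Submonoid.prod_mem _ fun l _ => ?_)
    exact Submonoid.pow_mem _ (hu l) _
  · rw [← mul_prod_erase univ (fun l => u l ^ N l) (mem_univ i), mul_pow, ← mul_assoc]
    congr 1
    · rw [← pow_mul, ← pow_succ']
      congr 1
      have := Nat.div_add_mod (N i) (e i)
      rw [h1 i, mul_comm] at this
      exact this
    · rw [← prod_pow]
      refine prod_congr rfl fun l hl => ?_
      rw [← pow_mul, Nat.div_mul_cancel (h2 i l (mem_erase.1 hl).1.symm)]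

section formula

/-- `x` is in the class of `b` modulo `(1 + J) ^ q` -/
noncomputable def cosF76 (q : ℕ) : Language.ring.Formula (Fin 1 ⊕ Fin 1) :=
  BoundedFormula.ex
    ((((Term.var (Sum.inl (Sum.inr 0)) : Language.ring.Term ((Fin 1 ⊕ Fin 1) ⊕ Fin 1)) *
        tpow (Term.var (Sum.inr 0)) q).bdEqual (Term.var (Sum.inl (Sum.inl 0)))) ⊓
      (BoundedFormula.all (BoundedFormula.ex jac76)))

theorem realize_cosF76 {R : Type} [CommRing R] [CompatibleRing R] (q : ℕ) (a b : Fin 1 → R) :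
    (cosF76 q).Realize (Sum.elim a b) ↔ ∃ z : R, Jm (z - 1) ∧ b 0 * z ^ q = a 0 := by
  unfold cosF76 Formula.Realize
  rw [BoundedFormula.realize_ex]
  refine exists_congr fun y => ?_
  rw [BoundedFormula.realize_inf, realize_jac76, BoundedFormula.realize_bdEqual]
  simp [realize_tpow, Fin.snoc, and_comm]

end formula

/-- **strong rings**: `(1 + J) / (1 + J) ^ q` is finite for all but finitely many primes `q`. -/
theorem strong_finClass76 {R : Type} [CommRing R] [CompatibleRing R] (hS : StrongRing R) :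
    {q : ℕ | q.Prime ∧ ¬ FinClass76 R q}.Finite := by
  classical
  by_contra hinf
  have hinf' : {q : ℕ | q.Prime ∧ ¬ FinClass76 R q}.Infinite := hinf
  obtain ⟨e, he, heinj⟩ : ∃ e : ℕ → ℕ, (∀ i, (e i).Prime ∧ ¬ FinClass76 R (e i)) ∧
      Function.Injective e := by
    refine ⟨fun i => (hinf'.natEmbedding _ i : ℕ), fun i => (hinf'.natEmbedding _ i).2, ?_⟩
    intro a b hab
    exact (hinf'.natEmbedding _).injective (Subtype.ext hab)
  obtain ⟨n, M, hnM⟩ := hS 1 (fun _ => 1) (fun _ => 2) (fun i => cosF76 (e i))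
  apply hnM
  choose u hu1 hu2 using fun i : Fin n => exists_classes76 (e i) (he i).2 M
  refine ⟨fun i j _ => u i j, fun i J hJ => ?_, fun σ => ?_⟩
  · rintro ⟨a, ha⟩
    obtain ⟨j, hj, j', hj', hne⟩ := one_lt_card.1 (show 1 < J.card from hJ)
    obtain ⟨z, hz, hz2⟩ := (realize_cosF76 _ _ _).1 (ha j hj)
    obtain ⟨z', hz', hz2'⟩ := (realize_cosF76 _ _ _).1 (ha j' hj')
    obtain ⟨w, hw⟩ := (jac_unit76' hz).exists_right_inv
    refine hu2 i j j' hne ⟨z' * w, jm_mul76 hz' (jm_inv76 hw hz), ?_⟩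
    rw [mul_pow, ← mul_assoc, hz2', ← hz2, mul_assoc, ← mul_pow, hw, one_pow, mul_one]
  · obtain ⟨x, hx⟩ := exists_path76 (fun i : Fin n => e i) (fun i => (he i).1)
      (fun a b hab => Fin.ext (heinj hab)) (fun i => u i (σ i)) (fun i => hu1 i (σ i))
    refine ⟨fun _ => x, fun i => ?_⟩
    obtain ⟨z, hz, hz2⟩ := hx i
    exact (realize_cosF76 _ _ _).2 ⟨z, hz, hz2⟩

end Pool.Agent.AIC.M
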