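import Pool.Agent.AIC.M.LocalM34
import Pool.Agent.AIC.NipPlus83
import Pool.Agent.AIC.TheoremK34

/-! MP_313bb4, theorem M2: an NIP domain such that in every module-finite domain `T` over it the
group `1 + J` has finitely many classes modulo its `q`-th powers is a henselian local ring. -/

set_option autoImplicit false

namespace Pool.Agent.AIC.M

open Finset FirstOrder.Ring

/-- if all module-finite subalgebras which contain a given finite set are local then the closure is
local -/
theorem closure_local34 {R W : Type} [CommRing R] [IsDomain R] [Field W] [Algebra R W]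
    (z : W) (hz : IsIntegral R z)
    (h : ∀ T : Subalgebra R W, Module.Finite R T → z ∈ T → IsLocalRing T) :
    IsLocalRing (integralClosure R W) := by
  obtain ⟨n₁, hn₁⟩ := Ideal.exists_maximal (integralClosure R W)
  refine IsLocalRing.of_unique_max_ideal ⟨n₁, hn₁, fun n₂ (hn₂ : n₂.IsMaximal) => ?_⟩
  by_contra hne
  have hle : ¬ n₁ ≤ n₂ := fun hle => hne (hn₁.eq_of_le hn₂.ne_top hle).symm
  obtain ⟨e, he1, he2⟩ := SetLike.not_le_iff_exists.1 hle
  obtain ⟨T, hT⟩ : ∃ T : Subalgebra R W, T = Algebra.adjoin R {z, (e : W)} := ⟨_, rfl⟩
  have hG : ∀ x ∈ ({z, (e : W)} : Set W), IsIntegral R x := by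
    rintro x (rfl | rfl)
    · exact hz
    · exact e.2
  have hTle : T ≤ integralClosure R W := by rw [hT]; exact Algebra.adjoin_le hG
  have hTfin : Module.Finite R T := by
    rw [hT]
    exact ⟨(Submodule.fg_top _).2 (fg_adjoin_of_finite (Set.toFinite _) hG)⟩
  have hzT : z ∈ T := by rw [hT]; exact Algebra.subset_adjoin (by simp)
  have heT : (e : W) ∈ T := by rw [hT]; exact Algebra.subset_adjoin (by simp)
  have hl := h T hTfin hzT
  -- the inclusion is integral, so both ideals lie over the maximal ideal of `T`
  let j : T →+* integralClosure R W := (Subalgebra.inclusion hTle).toRingHom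
  have hj : ∀ n : Ideal (integralClosure R W), n.IsMaximal → (n.comap j).IsMaximal := by
    intro n hn
    letI : Algebra T (integralClosure R W) := j.toAlgebra
    haveI : IsScalarTower R T (integralClosure R W) := IsScalarTower.of_algebraMap_eq fun r => rfl
    haveI : Algebra.IsIntegral T (integralClosure R W) :=
      ⟨fun x => (Algebra.IsIntegral.isIntegral (R := R) x).tower_top⟩
    exact Ideal.isMaximal_comap_of_isIntegral_of_isMaximal (R := T) n
  have h1 := IsLocalRing.eq_maximalIdeal (hj n₁ hn₁)
  have h2 := IsLocalRing.eq_maximalIdeal (hj n₂ hn₂)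
  have h3 : (⟨(e : W), heT⟩ : T) ∈ n₁.comap j := he1
  rw [h1, ← h2] at h3
  exact he2 h3

/-- a domain is local if its integral closure in a field is local -/
theorem isLocalRing_of_closure34 {R W : Type} [CommRing R] [IsDomain R] [Field W] [Algebra R W]
    (hRW : Function.Injective (algebraMap R W)) (h : IsLocalRing (integralClosure R W)) :
    IsLocalRing R := by
  have hinj : Function.Injective (algebraMap R (integralClosure R W)) := by
    intro x y hxy
    apply hRW
    exact congrArg (fun z : integralClosure R W => (z : W)) hxy
  have h1 : IsLocalHom (algebraMap R (integralClosure R W)) :=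
    RingHom.IsIntegral.isLocalHom (algebraMap_isIntegral_iff.mpr inferInstance) hinj
  exact RingHom.domain_isLocalRing (algebraMap R (integralClosure R W))

/-- **theorem M2** -/
theorem hensel_of_finQ34 (hmax : ∀ (T : Type) [CommRing T] [CompatibleRing T], NIPRing T →
      Finite (MaximalSpectrum T)) {R : Type} [CommRing R] [IsDomain R] [CompatibleRing R]
    (hN : NIPRing R) {q : ℕ} (hq : q.Prime) (hqu : IsUnit (q : R))
    (hf : ∀ (T : Type) [CommRing T] [IsDomain T] [Algebra R T] [FaithfulSMul R T]
      [Module.Finite R T], FinQ T q) : HenselianLocalRing R := by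
  obtain ⟨W, hW⟩ : ∃ W : Type, W = AlgebraicClosure (FractionRing R) := ⟨_, rfl⟩
  obtain ⟨z, hzi, hz⟩ := exists_zeta34 (R := R) (K := AlgebraicClosure (FractionRing R)) q hq
  have hRW : Function.Injective (algebraMap R (AlgebraicClosure (FractionRing R))) := by
    rw [IsScalarTower.algebraMap_eq R (FractionRing R) (AlgebraicClosure (FractionRing R))]
    exact (algebraMap (FractionRing R) _).injective.comp
      (IsFractionRing.injective R (FractionRing R))
  have hfs : FaithfulSMul R (AlgebraicClosure (FractionRing R)) :=
    (faithfulSMul_iff_algebraMap_injective _ _).2 hRW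
  have hU : IsLocalRing (integralClosure R (AlgebraicClosure (FractionRing R))) := by
    refine closure_local34 z hzi fun T hTfin hzT => ?_
    let _ : CompatibleRing T := compatibleRingOfRing T
    have hNT : NIPRing T := nip_subalgebra_plus (K := FractionRing R) T hN
    have hm := hmax T hNT
    have hqT : IsUnit (q : T) := by
      have := hqu.map (algebraMap R T)
      rwa [map_natCast] at this
    have hfT : FaithfulSMul R T := by
      rw [faithfulSMul_iff_algebraMap_injective]
      intro x y hxy
      exact hRW (congrArg (fun t : T => (t : AlgebraicClosure (FractionRing R))) hxy)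
    obtain ⟨m₂, hm₂⟩ := Ideal.exists_maximal T
    refine isLocalRing_M34 hNT hq hqT (hf T) m₂ hm₂ ⟨z, hzT⟩ ?_
    have h0 : ∑ j ∈ range q, (⟨z, hzT⟩ : T) ^ j = 0 := by
      apply Subtype.val_injective
      rw [AddSubmonoidClass.coe_finsetSum]
      exact hz
    rw [h0]
    exact m₂.zero_mem
  have hRl : IsLocalRing R := isLocalRing_of_closure34 hRW hU
  exact henselian_of_unibranch34 (K := AlgebraicClosure (FractionRing R)) hU

end Pool.Agent.AIC.M
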