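import Pool.Agent.AIC.M.TheoremS76
import Pool.Agent.AIC.M.FinDom76

/-! MP_313bb4, theorem S with roots of unity in the residue fields of a finite extension. -/

set_option autoImplicit false

namespace Pool.Agent.AIC.M

open Finset IsLocalRing FirstOrder FirstOrder.Language FirstOrder.Ring

/-- **theorem S**, final form -/
theorem theoremSE76 {R : Type} [CommRing R] [IsDomain R] [CompatibleRing R] (hN : NIPRing R)
    (hS : StrongRing R)
    (B : Type) [CommRing B] [IsDomain B] [Algebra R B] [FaithfulSMul R B] [Module.Finite R B]
    (hinf : {q : ℕ | q.Prime ∧ ∃ m : Ideal B, m.IsMaximal ∧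
      ∃ x : B, x ^ q - 1 ∈ m ∧ x - 1 ∉ m}.Infinite) : HenselianLocalRing R := by
  have hinjW : Function.Injective (algebraMap R (AlgebraicClosure (FractionRing R))) := by
    rw [IsScalarTower.algebraMap_eq R (FractionRing R) (AlgebraicClosure (FractionRing R))]
    exact (algebraMap (FractionRing R) _).injective.comp (IsFractionRing.injective R _)
  have hfs : FaithfulSMul R (AlgebraicClosure (FractionRing R)) :=
    (faithfulSMul_iff_algebraMap_injective _ _).mpr hinjW
  have hBint : Algebra.IsIntegral R B := Algebra.IsIntegral.of_finite R B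
  have hBalg : Algebra.IsAlgebraic R B := inferInstance
  let f : B →ₐ[R] AlgebraicClosure (FractionRing R) := IsAlgClosed.lift
  have hf : Function.Injective f := by
    rw [injective_iff_map_eq_zero]
    intro x hx
    by_contra hx0
    obtain ⟨a, ha, c, hc⟩ := (Algebra.IsIntegral.isIntegral (R := R)
      x).isAlgebraic.exists_nonzero_dvd (mem_nonZeroDivisors_of_ne_zero hx0)
    apply ha
    apply hinjW
    rw [map_zero, ← f.commutes a, hc, map_mul, hx, zero_mul]
  refine hens_of_finite_local76 (W := AlgebraicClosure (FractionRing R)) fun T hT => ?_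
  let F : Subalgebra R (AlgebraicClosure (FractionRing R)) := f.range
  have hFfin : Module.Finite R F :=
    Module.Finite.equiv (AlgEquiv.ofInjective f hf).toLinearEquiv
  let U : Subalgebra R (AlgebraicClosure (FractionRing R)) := T ⊔ F
  have hUfin : Module.Finite R U := Subalgebra.finite_sup T F
  let _ : CompatibleRing U := compatibleRingOfRing U
  have hNU : NIPRing U := nip_subalgebra_plus (K := FractionRing R) U hN
  have hmax : Finite (MaximalSpectrum U) := finMax76 hNU
  have h1 := finite_not_unit76 hmax
  have h2 := finite_not_finQ_sub2 (K := FractionRing R) U hS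
  obtain ⟨q, ⟨hq, m, hm, x, hx1, hx2⟩, hqn⟩ := (hinf.sdiff (h1.union h2)).nonempty
  have hqu : IsUnit (q : U) := by
    by_contra h
    exact hqn (Or.inl ⟨hq, h⟩)
  have hqf : FinQ U q := by
    by_contra h
    exact hqn (Or.inr ⟨hq, h⟩)
  have hint : Algebra.IsIntegral R U := Algebra.IsIntegral.of_finite R U
  -- the map from `B` to `U`
  let g : B →ₐ[R] U := (Subalgebra.inclusion (le_sup_right : F ≤ U)).comp f.rangeRestrict
  have hg : Function.Injective g := by
    intro a b hab
    apply hf
    exact congrArg (fun u : U => (u : AlgebraicClosure (FractionRing R))) hab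
  let _ : Algebra B U := g.toRingHom.toAlgebra
  have htower : IsScalarTower R B U := IsScalarTower.of_algebraMap_eq fun r => (g.commutes r).symm
  have hBU : Algebra.IsIntegral B U := Algebra.IsIntegral.tower_top R
  obtain ⟨n, hn, hnm⟩ := Ideal.exists_ideal_over_maximal_of_isIntegral (S := U) m (by
    have h3 : RingHom.ker (algebraMap B U) = ⊥ :=
      (RingHom.injective_iff_ker_eq_bot (algebraMap B U)).1 hg
    rw [h3]
    exact bot_le)
  have hmem : ∀ a : B, algebraMap B U a ∈ n ↔ a ∈ m := by
    intro a
    rw [← hnm, Ideal.mem_comap]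
  have hUloc : IsLocalRing U := by
    refine isLocalRing_M34 hNU hq hqu hqf n hn (algebraMap B U x)
      (geom_mem76 n hn.isPrime q _ ?_ ?_)
    · rw [← map_pow, ← map_one (algebraMap B U), ← map_sub, hmem]
      exact hx1
    · rw [← map_one (algebraMap B U), ← map_sub, hmem]
      exact hx2
  -- `T` is local
  let i : T →ₐ[R] U := Subalgebra.inclusion (le_sup_left : T ≤ U)
  have hi : Function.Injective i := Subalgebra.inclusion_injective _
  let _ : Algebra T U := i.toRingHom.toAlgebra
  have htower' : IsScalarTower R T U := IsScalarTower.of_algebraMap_eq fun r => (i.commutes r).symm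
  have hTU : Algebra.IsIntegral T U := Algebra.IsIntegral.tower_top R
  have hlh : IsLocalHom (algebraMap T U) :=
    RingHom.IsIntegral.isLocalHom (algebraMap_isIntegral_iff.mpr hTU) hi
  exact RingHom.domain_isLocalRing (algebraMap T U)

end Pool.Agent.AIC.M
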