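import Mathlib

/-!
Row O3 (helper94): in a domain with finitely many maximal ideals and two different ones there is a
prime which is maximal among the primes contained in at least two maximal ideals.
-/

namespace Pool.Agent.AIC.M

theorem sSup_isPrime94 {T : Type*} [CommRing T] (c : Set (Ideal T)) (hne : c.Nonempty)
    (hch : IsChain (· ≤ ·) c) (hp : ∀ P ∈ c, P.IsPrime) : (sSup c).IsPrime := by
  have hdir : DirectedOn (· ≤ ·) c := hch.directedOn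
  have hmem : ∀ z : T, z ∈ sSup c ↔ ∃ y ∈ c, z ∈ y := fun z =>
    Submodule.mem_sSup_of_directed hne hdir
  constructor
  · intro h
    have h1 : (1 : T) ∈ sSup c := by rw [h]; exact Submodule.mem_top
    obtain ⟨y, hy, hy1⟩ := (hmem 1).1 h1
    exact (hp y hy).ne_top ((Ideal.eq_top_iff_one y).2 hy1)
  · intro x y hxy
    obtain ⟨P, hP, hxyP⟩ := (hmem _).1 hxy
    rcases (hp P hP).mem_or_mem hxyP with h | h
    · exact Or.inl ((hmem _).2 ⟨P, hP, h⟩)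
    · exact Or.inr ((hmem _).2 ⟨P, hP, h⟩)

theorem exists_maxprime94 {T : Type*} [CommRing T] [IsDomain T] [Finite (MaximalSpectrum T)]
    (m1 m2 : Ideal T) (hm1 : m1.IsMaximal) (hm2 : m2.IsMaximal) (hne : m1 ≠ m2) :
    ∃ (P n1 n2 : Ideal T), P.IsPrime ∧ n1.IsMaximal ∧ n2.IsMaximal ∧ n1 ≠ n2 ∧ P ≤ n1 ∧ P ≤ n2 ∧
      ∀ P' : Ideal T, P'.IsPrime → P < P' → ∀ n n' : Ideal T, n.IsMaximal → n'.IsMaximal →
        P' ≤ n → P' ≤ n' → n = n' := by
  classical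
  have : Fintype (MaximalSpectrum T) := Fintype.ofFinite _
  let prs : Ideal T → Finset (MaximalSpectrum T × MaximalSpectrum T) := fun P =>
    Finset.univ.filter fun p => p.1 ≠ p.2 ∧ P ≤ p.1.asIdeal ∧ P ≤ p.2.asIdeal
  have hmemprs : ∀ (P : Ideal T) (p : MaximalSpectrum T × MaximalSpectrum T),
      p ∈ prs P ↔ p.1 ≠ p.2 ∧ P ≤ p.1.asIdeal ∧ P ≤ p.2.asIdeal := fun P p => by
    simp [prs]
  have hmono : ∀ P Q : Ideal T, P ≤ Q → prs Q ⊆ prs P := by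
    intro P Q h p hp
    rw [hmemprs] at hp ⊢
    exact ⟨hp.1, h.trans hp.2.1, h.trans hp.2.2⟩
  -- the set of primes contained in two different maximal ideals
  let S : Set (Ideal T) := {P | P.IsPrime ∧ (prs P).Nonempty}
  have hbot : (⊥ : Ideal T) ∈ S := by
    refine ⟨Ideal.isPrime_bot, ⟨(⟨m1, hm1⟩, ⟨m2, hm2⟩), ?_⟩⟩
    rw [hmemprs]
    exact ⟨fun h => hne (congrArg MaximalSpectrum.asIdeal h), bot_le, bot_le⟩
  -- one with the smallest number of pairs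
  have hex : ∃ k : ℕ, ∃ P ∈ S, (prs P).card = k := ⟨_, ⊥, hbot, rfl⟩
  obtain ⟨P0, hP0, hcard⟩ := Nat.find_spec hex
  have hmin : ∀ Q ∈ S, (prs P0).card ≤ (prs Q).card := by
    intro Q hQ
    rw [hcard]
    exact Nat.find_min' hex ⟨Q, hQ, rfl⟩
  have hsame : ∀ Q ∈ S, P0 ≤ Q → prs Q = prs P0 := fun Q hQ h =>
    Finset.eq_of_subset_of_card_le (hmono _ _ h) (hmin Q hQ)
  obtain ⟨p, hp⟩ := hP0.2
  have hp' := (hmemprs _ _).1 hp
  -- a maximal prime above P0 in both members of the pair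
  let S' : Set (Ideal T) := {Q | Q.IsPrime ∧ Q ≤ p.1.asIdeal ∧ Q ≤ p.2.asIdeal}
  obtain ⟨P, hP0P, hPmax⟩ := zorn_le_nonempty₀ S' (by
    intro c hc hch y hy
    refine ⟨sSup c, ⟨sSup_isPrime94 c ⟨y, hy⟩ hch (fun Q hQ => (hc hQ).1), ?_, ?_⟩, ?_⟩
    · exact sSup_le fun Q hQ => (hc hQ).2.1
    · exact sSup_le fun Q hQ => (hc hQ).2.2
    · exact fun z hz => le_sSup hz) P0 ⟨hP0.1, hp'.2.1, hp'.2.2⟩
  have hPS' : P ∈ S' := hPmax.1
  refine ⟨P, p.1.asIdeal, p.2.asIdeal, hPS'.1, p.1.isMaximal, p.2.isMaximal, ?_, hPS'.2.1, hPS'.2.2,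
    ?_⟩
  · intro h
    exact hp'.1 (MaximalSpectrum.ext h)
  · intro P' hP' hlt n n' hn hn' h1 h2
    by_contra hnn
    have hP'S : P' ∈ S := by
      refine ⟨hP', ⟨(⟨n, hn⟩, ⟨n', hn'⟩), ?_⟩⟩
      rw [hmemprs]
      exact ⟨fun h => hnn (congrArg MaximalSpectrum.asIdeal h), h1, h2⟩
    have hpP' : p ∈ prs P' := by
      rw [hsame P' hP'S (hP0P.trans hlt.le)]
      exact hp
    have h3 := (hmemprs _ _).1 hpP'
    have h4 : P' ≤ P := hPmax.2 ⟨hP', h3.2.1, h3.2.2⟩ hlt.le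
    exact absurd hlt (not_lt_of_ge h4)

end Pool.Agent.AIC.M
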